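import Pool.Agent.Helper93.K3A.Tools2

/-!
K3A / IaM: three statements on 3 x 3 matrices for the case `det A_e ≠ 0` (memo, I.a).

`Ia_eig`.  `P = a ⊗ φ`, `G = B - A`.  `G a ⊗ φ = a ⊗ φB` gives `γ` with `G a = γ a`, `φ B = γ φ`.
`φ A^j a = 0` for all `j` (`tr(A^k (A P)) = tr(A^k [A,Q]) = 0`).  If `a, A a` are independent then `φ`
and `φ A` are both multiples of `a × A a`.  If `A a = α₁ a` and `φ, φA` are independent, then
`ρ B = γ ρ` for all `ρ ⊥ a` (`[A,B] = 0`), so `B = γ + a ⊗ χ`, `χ(a) = α₁`, and `tr(ad A * B) = det A`: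
contradiction with `htr`.
`Ia_two`: all `ρ ⊥ a` are eigen-covectors of `A` (one eigenvalue `α`) and `ρ B = γ ρ`; the same
contradiction (`A = α + a ⊗ χ_1`, `A a = α₁ a`, `B = γ + a ⊗ χ`, `χ(a) = α₁`).
`Ia_Q`: entries, see memo (uses `B_0' = 0`); `Q = !![0,q01,q02;0,q11,q12;0,0,0]`, to show `q01 = q11 = 0`.
`h3` restricted to `x_2 = 0`, `t = e_3`: `(B_0 - γ + α) x ∧ Q_0 x = 0`.
-/

set_option autoImplicit false

namespace Pool.Agent.Helper93.K3A

open Matrix

/-- `v` is a multiple of `n` if all 2 x 2 minors vanish -/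
private theorem par (v n : V3) (hn : n ≠ 0) (h : ∀ i j, v i * n j = v j * n i) :
    ∃ c : ℂ, v = c • n := by
  obtain ⟨j, hj⟩ : ∃ j, n j ≠ 0 := by
    by_contra hc
    push Not at hc
    exact hn (by ext j; exact hc j)
  refine ⟨v j / n j, ?_⟩
  ext i
  simp only [Pi.smul_apply, smul_eq_mul]
  field_simp
  linear_combination h i j

/-- two vectors killed by two independent covectors are proportional -/
private theorem par2 (r s a v : V3) (hne : ¬ ∀ i j, r i * s j = r j * s i) (ha : a ≠ 0)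
    (h1 : r ⬝ᵥ a = 0) (h2 : s ⬝ᵥ a = 0) (h3 : r ⬝ᵥ v = 0) (h4 : s ⬝ᵥ v = 0) :
    ∃ c : ℂ, v = c • a := by
  simp only [dotProduct, Fin.sum_univ_three] at h1 h2 h3 h4
  have hn : (![r 1 * s 2 - r 2 * s 1, r 2 * s 0 - r 0 * s 2, r 0 * s 1 - r 1 * s 0] : V3) ≠ 0 := by
    intro h
    have e0 := congrFun h 0
    have e1 := congrFun h 1
    have e2 := congrFun h 2
    simp at e0 e1 e2
    apply hne
    intro i j
    fin_cases i <;> fin_cases j <;> simp <;>
      first
        | ring1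
        | linear_combination e0
        | linear_combination -e0
        | linear_combination e1
        | linear_combination -e1
        | linear_combination e2
        | linear_combination -e2
  have key : ∀ w : V3, r 0 * w 0 + r 1 * w 1 + r 2 * w 2 = 0 →
      s 0 * w 0 + s 1 * w 1 + s 2 * w 2 = 0 →
      ∀ i j, w i * (![r 1 * s 2 - r 2 * s 1, r 2 * s 0 - r 0 * s 2, r 0 * s 1 - r 1 * s 0] : V3) j
        = w j * (![r 1 * s 2 - r 2 * s 1, r 2 * s 0 - r 0 * s 2, r 0 * s 1 - r 1 * s 0] : V3) i := by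
    intro w hr hs i j
    fin_cases i <;> fin_cases j <;> simp <;>
      first
        | ring1
        | linear_combination s 0 * hr - r 0 * hs
        | linear_combination -(s 0 * hr - r 0 * hs)
        | linear_combination s 1 * hr - r 1 * hs
        | linear_combination -(s 1 * hr - r 1 * hs)
        | linear_combination s 2 * hr - r 2 * hs
        | linear_combination -(s 2 * hr - r 2 * hs)
  obtain ⟨c, hc⟩ := par a _ hn (key a h1 h2)
  obtain ⟨d, hd⟩ := par v _ hn (key v h3 h4)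
  have hc0 : c ≠ 0 := by
    rintro rfl
    exact ha (by rw [hc, zero_smul])
  refine ⟨d / c, ?_⟩
  conv_rhs => rw [hc]
  rw [smul_smul, div_mul_cancel₀ _ hc0, ← hd]

/-- the common contradiction `2 = 1` -/
private theorem contra (A B : M3) (a r s : V3) (γ : ℂ) (ha : a ≠ 0)
    (hne : ¬ ∀ i j, r i * s j = r j * s i) (hra : r ⬝ᵥ a = 0) (hsa : s ⬝ᵥ a = 0)
    (hdet : A.det ≠ 0) (he2 : e2 A = 0) (htr : (ad A * B).trace = 2 * A.det)
    (hrA : r ⬝ᵥ (A *ᵥ a) = 0) (hsA : s ⬝ᵥ (A *ᵥ a) = 0)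
    (hrB : r ᵥ* B = γ • r) (hsB : s ᵥ* B = γ • s) (hG : (B - A) *ᵥ a = γ • a) : False := by
  obtain ⟨α, hα⟩ := par2 r s a (A *ᵥ a) hne ha hra hsa hrA hsA
  have hcol : ∀ j, ∃ c : ℂ, (fun i => (B - γ • (1 : M3)) i j) = c • a := by
    intro j
    refine par2 r s a _ hne ha hra hsa ?_ ?_
    · have := congrFun hrB j
      simp only [Matrix.vecMul, dotProduct, Fin.sum_univ_three, Pi.smul_apply, smul_eq_mul] at this
      simp only [dotProduct, Fin.sum_univ_three, Matrix.sub_apply, Matrix.smul_apply, smul_eq_mul]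
      fin_cases j <;> simp [Matrix.one_apply] at this ⊢ <;> linear_combination this
    · have := congrFun hsB j
      simp only [Matrix.vecMul, dotProduct, Fin.sum_univ_three, Pi.smul_apply, smul_eq_mul] at this
      simp only [dotProduct, Fin.sum_univ_three, Matrix.sub_apply, Matrix.smul_apply, smul_eq_mul]
      fin_cases j <;> simp [Matrix.one_apply] at this ⊢ <;> linear_combination this
  choose χ hχ using hcol
  have hB : B = γ • (1 : M3) + vecMulVec a χ := by
    ext i j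
    have := congrFun (hχ j) i
    simp only [Matrix.sub_apply, Pi.smul_apply, smul_eq_mul] at this
    simp only [Matrix.add_apply, vecMulVec_apply]
    linear_combination this
  -- value of `χ` at `a`
  have hχa : χ ⬝ᵥ a = α := by
    have h1 : (χ ⬝ᵥ a) • a = α • a := by
      have h2 : B *ᵥ a = γ • a + (χ ⬝ᵥ a) • a := by
        rw [hB, Matrix.add_mulVec, Matrix.smul_mulVec, Matrix.one_mulVec]
        congr 1
        ext i
        simp only [Matrix.mulVec, vecMulVec_apply, dotProduct, Fin.sum_univ_three, Pi.smul_apply,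
          smul_eq_mul]
        ring
      rw [Matrix.sub_mulVec, h2, hα] at hG
      have h3 : (χ ⬝ᵥ a) • a - α • a = 0 := by
        have := hG
        rw [add_sub_assoc] at this
        exact add_eq_left.mp this
      exact sub_eq_zero.mp h3
    obtain ⟨j, hj⟩ : ∃ j, a j ≠ 0 := by
      by_contra hc
      push Not at hc
      exact ha (by ext j; exact hc j)
    have := congrFun h1 j
    simp only [Pi.smul_apply, smul_eq_mul] at this
    exact mul_right_cancel₀ hj this
  -- `ad A a = μ a`, `α μ = det A`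
  have had : ad A *ᵥ a = (α ^ 2 - A.trace * α) • a := by
    rw [ad, he2, zero_smul, add_zero, Matrix.sub_mulVec, ← Matrix.mulVec_mulVec, hα,
      Matrix.mulVec_smul, hα, Matrix.smul_mulVec, hα]
    ext i
    simp only [Pi.sub_apply, Pi.smul_apply, smul_eq_mul]
    ring
  have hdt : α * (α ^ 2 - A.trace * α) = A.det := by
    have h1 : (A * ad A) *ᵥ a = A.det • a := by
      rw [mul_ad, Matrix.smul_mulVec, Matrix.one_mulVec]
    rw [← Matrix.mulVec_mulVec, had, Matrix.mulVec_smul, hα, smul_smul] at h1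
    obtain ⟨j, hj⟩ : ∃ j, a j ≠ 0 := by
      by_contra hc
      push Not at hc
      exact ha (by ext j; exact hc j)
    have := congrFun h1 j
    simp only [Pi.smul_apply, smul_eq_mul] at this
    have := mul_right_cancel₀ hj this
    rw [mul_comm]
    exact this
  have htr2 : (ad A * B).trace = A.det := by
    rw [hB, Matrix.mul_add, Matrix.mul_smul, Matrix.mul_one, Matrix.trace_add, Matrix.trace_smul,
      trace_ad, he2, smul_zero, zero_add, Matrix.mul_vecMulVec, had, Matrix.trace_vecMulVec,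
      smul_dotProduct, dotProduct_comm, hχa, smul_eq_mul, mul_comm]
    exact hdt
  rw [htr2] at htr
  apply hdet
  linear_combination -htr

/-- first part: `φ` is an eigen-covector of `A` and `B` -/
theorem Ia_eig (A B Q : M3) (a φ : V3) (ha : a ≠ 0) (hφ : φ ≠ 0) (hφa : φ ⬝ᵥ a = 0)
    (hdet : A.det ≠ 0) (he2 : e2 A = 0) (hAB : A * B = B * A)
    (hAP : A * vecMulVec a φ = A * Q - Q * A)
    (hG : (B - A) * vecMulVec a φ = vecMulVec a φ * B)
    (htr : (ad A * B).trace = 2 * A.det) :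
    ∃ α γ : ℂ, φ ᵥ* A = α • φ ∧ φ ᵥ* B = γ • φ ∧ (B - A) *ᵥ a = γ • a := by
  obtain ⟨i0, hi0⟩ : ∃ j, a j ≠ 0 := by
    by_contra hc
    push Not at hc
    exact ha (by ext j; exact hc j)
  obtain ⟨j0, hj0⟩ : ∃ j, φ j ≠ 0 := by
    by_contra hc
    push Not at hc
    exact hφ (by ext j; exact hc j)
  -- `(G a) ⊗ φ = a ⊗ (φ B)`
  rw [Matrix.mul_vecMulVec, Matrix.vecMulVec_mul] at hG
  have hij : ∀ i j, ((B - A) *ᵥ a) i * φ j = a i * (φ ᵥ* B) j := fun i j => by
    have := congrFun (congrFun hG i) j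
    simpa only [vecMulVec_apply] using this
  obtain ⟨γ, hγ⟩ : ∃ γ : ℂ, (B - A) *ᵥ a = γ • a := by
    refine ⟨(φ ᵥ* B) j0 / φ j0, ?_⟩
    ext i
    simp only [Pi.smul_apply, smul_eq_mul]
    field_simp
    linear_combination hij i j0
  have hγ' : φ ᵥ* B = γ • φ := by
    ext j
    have h1 := hij i0 j
    rw [hγ] at h1
    simp only [Pi.smul_apply, smul_eq_mul] at h1 ⊢
    apply mul_left_cancel₀ hi0
    linear_combination -h1
  -- `φ A^j a = 0`
  rw [Matrix.mul_vecMulVec] at hAP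
  have t1 : φ ⬝ᵥ (A *ᵥ a) = 0 := by
    have := congrArg Matrix.trace hAP
    rw [Matrix.trace_vecMulVec, Matrix.trace_sub, Matrix.trace_mul_comm A Q, sub_self] at this
    rw [dotProduct_comm]
    exact this
  have t2 : φ ⬝ᵥ (A *ᵥ (A *ᵥ a)) = 0 := by
    have := congrArg (fun X => (A * X).trace) hAP
    simp only [Matrix.mul_vecMulVec, Matrix.trace_vecMulVec, Matrix.mul_sub, Matrix.trace_sub] at this
    rw [← Matrix.mul_assoc A Q A, Matrix.trace_mul_comm (A * Q) A, sub_self] at this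
    rw [dotProduct_comm]
    exact this
  have t1' : (φ ᵥ* A) ⬝ᵥ a = 0 := by rw [← Matrix.dotProduct_mulVec]; exact t1
  have t2' : (φ ᵥ* A) ⬝ᵥ (A *ᵥ a) = 0 := by rw [← Matrix.dotProduct_mulVec]; exact t2
  suffices h : ∃ α : ℂ, φ ᵥ* A = α • φ by
    obtain ⟨α, hα⟩ := h
    exact ⟨α, γ, hα, hγ', hγ⟩
  by_cases hc : ∀ i j, a i * (A *ᵥ a) j = a j * (A *ᵥ a) i
  · by_cases hd : ∀ i j, φ i * (φ ᵥ* A) j = φ j * (φ ᵥ* A) i
    · refine par _ _ hφ fun i j => ?_
      linear_combination -hd i j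
    · exfalso
      refine contra A B a φ (φ ᵥ* A) γ ha hd hφa t1' hdet he2 htr t1 t2' hγ' ?_ hγ
      rw [Matrix.vecMul_vecMul, hAB, ← Matrix.vecMul_vecMul, hγ', Matrix.smul_vecMul]
  · refine par2 a (A *ᵥ a) φ (φ ᵥ* A) hc hφ ?_ ?_ ?_ ?_
    · rw [dotProduct_comm]; exact hφa
    · rw [dotProduct_comm]; exact t1
    · rw [dotProduct_comm]; exact t1'
    · rw [dotProduct_comm]; exact t2'

/-- two independent covectors `φ, φ'` with the same `a` are impossible -/
theorem Ia_two (A B : M3) (a φ φ' : V3) (ha : a ≠ 0) (hφa : φ ⬝ᵥ a = 0) (hφa' : φ' ⬝ᵥ a = 0)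
    (hind : ∀ c c' : ℂ, c • φ + c' • φ' = 0 → c = 0 ∧ c' = 0)
    (hdet : A.det ≠ 0) (he2 : e2 A = 0) (htr : (ad A * B).trace = 2 * A.det)
    (hA : ∀ c c' : ℂ, ∃ α : ℂ, (c • φ + c' • φ') ᵥ* A = α • (c • φ + c' • φ'))
    (hB : ∃ γ : ℂ, (∀ c c' : ℂ, (c • φ + c' • φ') ᵥ* B = γ • (c • φ + c' • φ')) ∧
      (B - A) *ᵥ a = γ • a) : False := by
  obtain ⟨γ, hγ, hG⟩ := hB
  obtain ⟨α, hα⟩ := hA 1 0
  obtain ⟨α', hα'⟩ := hA 0 1
  have h1 := hγ 1 0
  have h2 := hγ 0 1
  simp only [one_smul, zero_smul, add_zero, zero_add] at hα hα' h1 h2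
  have hne : ¬ ∀ i j, φ i * φ' j = φ j * φ' i := by
    intro h
    by_cases h0 : φ' = 0
    · have := (hind 0 1 (by rw [h0]; simp)).2
      exact one_ne_zero this
    · obtain ⟨c, hc⟩ := par φ φ' h0 h
      have := (hind 1 (-c) (by rw [hc]; simp)).1
      exact one_ne_zero this
  refine contra A B a φ φ' γ ha hne hφa hφa' hdet he2 htr ?_ ?_ h1 h2 hG
  · rw [Matrix.dotProduct_mulVec, hα, smul_dotProduct, hφa, smul_zero]
  · rw [Matrix.dotProduct_mulVec, hα', smul_dotProduct, hφa', smul_zero]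

/-- second part, in coordinates `a = e_1`, `φ = e_3`: `Q` (with `Q e_1 = 0`, `e_3* Q = 0`) is of the
form `b ⊗ e_3`.  `h3` is `eq3` for the pair `(e,w)`. -/
theorem Ia_Q (A B Q : M3) (α γ : ℂ)
    (hdet : A.det ≠ 0) (he2 : e2 A = 0)
    (hAP : A * vecMulVec (![1, 0, 0]) (![0, 0, 1]) = A * Q - Q * A)
    (hφA : (![0, 0, 1] : V3) ᵥ* A = α • (![0, 0, 1] : V3))
    (hφB : (![0, 0, 1] : V3) ᵥ* B = γ • (![0, 0, 1] : V3))
    (hφQ : (![0, 0, 1] : V3) ᵥ* Q = 0) (hQa : Q *ᵥ (![1, 0, 0] : V3) = 0)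
    (hG : (B - A) *ᵥ (![1, 0, 0] : V3) = γ • (![1, 0, 0] : V3))
    (htr : (ad A * B).trace = 2 * A.det)
    (h3 : ∀ x t, D t (B *ᵥ x) (Q *ᵥ x) + D x (B *ᵥ t) (Q *ᵥ x) + D x (B *ᵥ x) (Q *ᵥ t)
      = D x (A *ᵥ t) (Q *ᵥ x) - D x (vecMulVec (![1, 0, 0]) (![0, 0, 1]) *ᵥ t) (B *ᵥ x)) :
    ∃ b : V3, (![0, 0, 1] : V3) ⬝ᵥ b = 0 ∧ Q = vecMulVec b (![0, 0, 1]) := by
  have a20 := congrFun hφA 0
  have a21 := congrFun hφA 1
  have a22 := congrFun hφA 2
  have b20 := congrFun hφB 0
  have b21 := congrFun hφB 1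
  have b22 := congrFun hφB 2
  have q20 := congrFun hφQ 0
  have q21 := congrFun hφQ 1
  have q22 := congrFun hφQ 2
  have q00 := congrFun hQa 0
  have q10 := congrFun hQa 1
  have g0 := congrFun hG 0
  have g1 := congrFun hG 1
  have p00 := congrFun (congrFun hAP 0) 0
  have p01 := congrFun (congrFun hAP 0) 1
  have p10 := congrFun (congrFun hAP 1) 0
  have p11 := congrFun (congrFun hAP 1) 1
  have k1 := h3 ![0, 1, 0] ![0, 0, 1]
  have k2 := h3 ![1, 1, 0] ![0, 0, 1]
  simp [Matrix.vecMul, dotProduct, Fin.sum_univ_three] at a20 a21 a22 b20 b21 b22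
  simp [Matrix.vecMul, dotProduct, Fin.sum_univ_three] at q20 q21 q22
  simp [Matrix.mulVec, dotProduct, Fin.sum_univ_three] at q00 q10 g0 g1
  simp [Matrix.mul_apply, vecMulVec_apply, Fin.sum_univ_three, q00, q10, q20, q21, a20, a21] at p00
  simp [Matrix.mul_apply, vecMulVec_apply, Fin.sum_univ_three, q00, q10, q20, q21, a20, a21] at p01
  simp [Matrix.mul_apply, vecMulVec_apply, Fin.sum_univ_three, q00, q10, q20, q21, a20, a21] at p10
  simp [Matrix.mul_apply, vecMulVec_apply, Fin.sum_univ_three, q00, q10, q20, q21, a20, a21] at p11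
  simp [D, Matrix.mulVec, dotProduct, Fin.sum_univ_three, vecMulVec_apply, q00, q10, q20, q21, q22,
    a20, a21, a22, b20, b21, b22] at k1
  simp [D, Matrix.mulVec, dotProduct, Fin.sum_univ_three, vecMulVec_apply, q00, q10, q20, q21, q22,
    a20, a21, a22, b20, b21, b22] at k2
  simp [Matrix.det_fin_three, a20, a21, a22] at hdet
  simp [e2, a20, a21, a22] at he2
  clear h3 hAP hφA hφB hφQ hQa hG
  simp [ad, e2, Matrix.mul_apply, Fin.sum_univ_three, Matrix.trace, Matrix.det_fin_three,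
    Matrix.one_apply, a20, a21, a22, b20, b21, b22] at htr
  have hb : B 1 0 = A 1 0 := by linear_combination g1
  have hb0 : B 0 0 = A 0 0 + γ := by linear_combination g0
  rw [hb, hb0] at htr k2
  have hz : Q 0 1 = 0 ∧ Q 1 1 = 0 := by
    by_contra hcon
    have c0 : A 1 0 = 0 := by
      rcases p00 with h | h
      · rcases p10 with h' | h'
        · exact absurd ⟨h, h'⟩ hcon
        · exact h'
      · exact h
    rw [c0] at hdet he2 htr k2
    simp only [mul_zero, zero_mul, sub_zero, add_zero, zero_add] at hdet he2 htr k2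
    have hα : α ≠ 0 := by
      rintro rfl
      exact hdet (mul_zero _)
    by_cases hq : Q 1 1 = 0
    · have hq0 : Q 0 1 ≠ 0 := fun h => hcon ⟨h, hq⟩
      rw [hq] at p01 k1
      have e1 : A 1 1 = A 0 0 := by
        apply mul_left_cancel₀ hq0
        linear_combination p01
      have e2' : B 1 1 = γ - α := by
        apply mul_left_cancel₀ hq0
        linear_combination -k1
      have hν : A 0 0 ≠ 0 := by
        intro h
        apply hdet
        rw [h]
        ring
      have e3 : A 0 0 = -2 * α := by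
        apply mul_left_cancel₀ hν
        rw [e1] at he2
        linear_combination he2
      rw [e1, e2', e3] at htr
      have : α ^ 3 = 0 := by linear_combination -htr / 2
      exact hα (pow_eq_zero_iff (by norm_num) |>.mp this)
    · have e1 : A 0 0 = -α := by
        apply mul_left_cancel₀ hq
        linear_combination k2 - k1
      rw [e1] at he2
      have : α ^ 2 = 0 := by linear_combination -he2
      exact hα (pow_eq_zero_iff (by norm_num) |>.mp this)
  obtain ⟨z0, z1⟩ := hz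
  refine ⟨![Q 0 2, Q 1 2, 0], by simp [dotProduct, Fin.sum_univ_three], ?_⟩
  ext i j
  fin_cases i <;> fin_cases j <;> simp [vecMulVec_apply, q00, q10, q20, q21, q22, z0, z1]

end Pool.Agent.Helper93.K3A
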