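import Pool.Agent.Helper93.K3A.Eqs

/-!
K3A / TwoL: the identities (2L) and (2T).
-/

set_option autoImplicit false

namespace Pool.Agent.Helper93.K3A

open Matrix

section
variable {W : Type} [AddCommGroup W] [Module ℂ W]

theorem adA {S : Dat W} (h : Cl S) (y : W) :
    ad (S.A y) = S.A y * S.A y - (S.A y).trace • S.A y := by
  rw [ad, e2A h y, zero_smul, add_zero]

theorem twoL0 {S : Dat W} (h : Cl S) (y w : W) :
    (ad (S.A y) * S.A w).trace • (1 : M3) - S.A w * ad (S.A y)
      = (ad (S.A y) * S.B w).trace • (1 : M3) - S.B w * ad (S.A y) + ad (S.A y) * S.B w := by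
  have h1 := eq2 h y w
  have h2 := mul_adjp (S.A y) (S.A w)
  have h3 := mul_adjp (S.A y) (S.B w)
  have h4 : S.A y * ((S.A y).trace • (1 : M3) - S.A y) = - ad (S.A y) := by
    rw [adA h, Matrix.mul_sub, Matrix.mul_smul, Matrix.mul_one]
    abel
  have h5 : S.A y * adjp (S.A y) (S.A w) = S.A y * (adjp (S.A y) (S.B w)
      - ((S.A y).trace • (1 : M3) - S.A y) * S.B w) := by rw [h1]
  rw [Matrix.mul_sub, ← Matrix.mul_assoc, h4, Matrix.neg_mul] at h5
  rw [← h2, ← h3, h5]
  abel

/-- (2T) -/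
theorem twoT {S : Dat W} (h : Cl S) (y w : W) :
    3 * (ad (S.A y) * S.B w).trace = 2 * (ad (S.A y) * S.A w).trace := by
  have h1 := congrArg Matrix.trace (twoL0 h y w)
  simp only [Matrix.trace_sub, Matrix.trace_add, Matrix.trace_smul, Matrix.trace_one,
    Fintype.card_fin, smul_eq_mul] at h1
  rw [Matrix.trace_mul_comm (S.A w), Matrix.trace_mul_comm (S.B w)] at h1
  push_cast at h1
  linear_combination -h1

/-- (2L) -/
theorem twoL {S : Dat W} (h : Cl S) (y w : W) :
    ad (S.A y) * S.B w - S.B w * ad (S.A y) + S.A w * ad (S.A y)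
      = ((ad (S.A y) * S.A w).trace / 3) • (1 : M3) := by
  have h1 := twoL0 h y w
  have h2 := twoT h y w
  have h3 : ((ad (S.A y) * S.A w).trace / 3)
      = (ad (S.A y) * S.A w).trace - (ad (S.A y) * S.B w).trace := by
    linear_combination (1/3 : ℂ) * h2
  rw [h3, sub_smul]
  rw [sub_eq_iff_eq_add] at h1
  rw [h1]
  abel

/-- `[N_y, B_y] = 0` -/
theorem ad_comm {S : Dat W} (h : Cl S) (y : W) :
    ad (S.A y) * S.B y = S.B y * ad (S.A y) := by
  have h1 := twoL h y y
  rw [ad_mul, mul_ad, Matrix.trace_smul, Matrix.trace_one] at h1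
  simp only [Fintype.card_fin, smul_eq_mul] at h1
  have h2 : ((S.A y).det * ((3 : ℕ) : ℂ) / 3) = (S.A y).det := by
    push_cast
    field_simp
  rw [h2] at h1
  have h3 := add_eq_right.mp h1
  exact sub_eq_zero.mp h3

end

end Pool.Agent.Helper93.K3A
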