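import Pool.Agent.Helper93.K3A.Tools2
import Pool.Agent.Helper93.K3A.TwoL

/-!
K3A / IgA: `det A` is a cube, and the relations on `W_0 = ker g`.

`Ig`: if `det A_y = 0` then `tr(ad A_y * A_w) = 0` for all `w`: `ad A_y = u ⊗ ψ` (`ad_rank1`) and (2L)
reads (rank ≤ 2) = scalar (`scalar_rank2`).  Hence for every `y` the cubic polynomial
`p(t) = det(A_y + t A_e)` (`det_add_smul`), leading coefficient `det A_e ≠ 0`, has only multiple roots
(`p'(t) = tr(ad A_(y+te) * A_e)`), so `p = det A_e (t - t_0)^3`.  `g y := tr(ad A_e * A_y)/(3 det A_e)`.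
-/

set_option autoImplicit false

namespace Pool.Agent.Helper93.K3A

open Matrix

/-- a cubic polynomial over `ℂ` all of whose roots are multiple is a cube -/
theorem cubic_cube (c0 c1 c2 c3 : ℂ) (h3 : c3 ≠ 0)
    (h : ∀ t, c0 + t * c1 + t ^ 2 * c2 + t ^ 3 * c3 = 0 → c1 + 2 * t * c2 + 3 * t ^ 2 * c3 = 0) :
    c0 = c3 * (c2 / (3 * c3)) ^ 3 ∧ c1 = 3 * c3 * (c2 / (3 * c3)) ^ 2 := by
  obtain ⟨s, hs⟩ : ∃ s, s = c2 / (3 * c3) := ⟨_, rfl⟩
  have hc2 : c2 = 3 * c3 * s := by
    rw [hs]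
    field_simp
  rw [← hs]
  obtain ⟨q, hq⟩ : ∃ q, q = c1 - 3 * c3 * s ^ 2 := ⟨_, rfl⟩
  obtain ⟨r, hr⟩ : ∃ r, r = c0 - c3 * s ^ 3 - q * s := ⟨_, rfl⟩
  have key : ∀ u, c3 * u ^ 3 + q * u + r = 0 → 3 * c3 * u ^ 2 + q = 0 := by
    intro u hu
    have h1 := h (u - s) (by rw [hc2]; linear_combination hu + (u - s) * (-hq) - s * hq
      - s * (-hq) - hr + s * hq - s * hq)
    rw [hc2] at h1
    linear_combination h1 + hq
  obtain ⟨u, hu⟩ : ∃ u, c3 * u ^ 3 + q * u + r = 0 := by
    let p : Polynomial ℂ := Polynomial.C c3 * Polynomial.X ^ 3 + Polynomial.C q * Polynomial.X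
      + Polynomial.C r
    have hp : p.degree ≠ 0 := by
      intro h0
      have h1 : p.coeff 3 = c3 := by
        simp [p, Polynomial.coeff_X, Polynomial.coeff_C]
      have h2 : p.coeff 3 = 0 := by
        apply Polynomial.coeff_eq_zero_of_degree_lt
        rw [h0]
        norm_num
      exact h3 (h1.symm.trans h2)
    obtain ⟨u, hu⟩ := IsAlgClosed.exists_root p hp
    refine ⟨u, ?_⟩
    rw [Polynomial.IsRoot.def] at hu
    simpa [p] using hu
  have h1 := key u hu
  have h2 := key (-2 * u) (by linear_combination hu - 3 * u * h1)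
  have h4 : c3 * u ^ 2 = 0 := by
    linear_combination (1 / 9 : ℂ) * (h2 - h1)
  have hu0 : u = 0 := by
    have := (mul_eq_zero.mp h4).resolve_left h3
    exact pow_eq_zero_iff (two_ne_zero) |>.mp this
  subst hu0
  have hq0 : q = 0 := by linear_combination h1
  have hr0 : r = 0 := by linear_combination hu
  constructor
  · linear_combination hr0 - hr + s * hq0
  · linear_combination hq0 - hq

variable {W : Type} [AddCommGroup W] [Module ℂ W]

theorem tr_zero_of_det_zero {S : Dat W} (h : Cl S) (y w : W) (hy : (S.A y).det = 0) :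
    (ad (S.A y) * S.A w).trace = 0 := by
  obtain ⟨u, ψ, hu⟩ := ad_rank1 (S.A y) hy
  have h1 := twoL h y w
  have h2 : vecMulVec u (ψ ᵥ* S.B w) + vecMulVec ((S.A w - S.B w) *ᵥ u) ψ
      = ((ad (S.A y) * S.A w).trace / 3) • (1 : M3) := by
    rw [← h1, hu, Matrix.vecMulVec_mul, Matrix.mul_vecMulVec, Matrix.mul_vecMulVec,
      Matrix.sub_mulVec, Matrix.sub_vecMulVec]
    abel
  have h3 := scalar_rank2 _ _ _ _ _ h2
  linear_combination 3 * h3

private theorem tr_ad_line (P Q : M3) (t : ℂ) :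
    (ad (P + t • Q) * Q).trace = (ad P * Q).trace + 2 * t * (ad Q * P).trace + 3 * t ^ 2 * Q.det := by
  simp [ad, e2, Matrix.mul_apply, Fin.sum_univ_three, Matrix.trace, Matrix.det_fin_three]
  ring

private noncomputable def gg (S : Dat W) (e : W) : W →ₗ[ℂ] ℂ :=
  (1 / (3 * (S.A e).det)) • ((Matrix.traceLinearMap (Fin 3) ℂ ℂ) ∘ₗ
    (LinearMap.mulLeft ℂ (ad (S.A e))) ∘ₗ S.A)

private theorem gg_apply (S : Dat W) (e y : W) :
    gg S e y = (ad (S.A e) * S.A y).trace / (3 * (S.A e).det) := by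
  unfold gg
  simp only [LinearMap.smul_apply, LinearMap.comp_apply, LinearMap.mulLeft_apply,
    Matrix.traceLinearMap_apply, smul_eq_mul]
  ring

theorem Ig {S : Dat W} (h : Cl S) (e : W) (he : (S.A e).det ≠ 0) :
    ∃ g : W →ₗ[ℂ] ℂ, g e = 1 ∧ (∀ y, (S.A y).det = (S.A e).det * (g y) ^ 3) ∧
      ∀ y w, (ad (S.A y) * S.A w).trace = 3 * (S.A e).det * (g y) ^ 2 * g w := by
  have hdet : ∀ y, (S.A y).det = (S.A e).det * (gg S e y) ^ 3 := by
    intro y
    rw [gg_apply]
    refine (cubic_cube (S.A y).det (ad (S.A y) * S.A e).trace (ad (S.A e) * S.A y).trace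
      (S.A e).det he ?_).1
    intro t ht
    rw [← det_add_smul, ← map_smul, ← map_add] at ht
    have h1 := tr_zero_of_det_zero h (y + t • e) e ht
    rw [map_add, map_smul, tr_ad_line] at h1
    exact h1
  refine ⟨gg S e, ?_, hdet, ?_⟩
  · rw [gg_apply, ad_mul, Matrix.trace_smul, Matrix.trace_one]
    simp only [Fintype.card_fin, smul_eq_mul]
    push_cast
    field_simp
  · intro y w
    have h0 : ∀ t : ℂ, (S.A y).det + t * (ad (S.A y) * S.A w).trace
        + t ^ 2 * (ad (S.A w) * S.A y).trace + t ^ 3 * (S.A w).det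
        = (S.A e).det * (gg S e y + t * gg S e w) ^ 3 := by
      intro t
      have h1 := hdet (y + t • w)
      rw [map_add, map_smul, det_add_smul, map_add, map_smul, smul_eq_mul] at h1
      exact h1
    have a0 := h0 0
    have a1 := h0 1
    have a2 := h0 (-1)
    have a3 := h0 2
    linear_combination (a1 - a2) * (4 / 6) - (a3 - a0) / 6 + (a1 + a2 - 2 * a0) / 3

private theorem comm_of_det {S : Dat W} (h : Cl S) (y : W) (hy : (S.A y).det ≠ 0) :
    S.A y * S.B y = S.B y * S.A y := by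
  have h1 := ad_comm h y
  have h2 : S.A y * (ad (S.A y) * S.B y) * S.A y = S.A y * (S.B y * ad (S.A y)) * S.A y := by
    rw [h1]
  rw [← Matrix.mul_assoc (S.A y), mul_ad, Matrix.mul_assoc (S.A y), Matrix.mul_assoc (S.B y), ad_mul,
    Matrix.smul_mul, Matrix.one_mul, Matrix.smul_mul, Matrix.mul_smul, Matrix.mul_one,
    Matrix.mul_smul] at h2
  exact (smul_right_injective _ hy h2).symm

private theorem ne_of_t {D0 a t : ℂ} (hD : D0 ≠ 0) (ht : t ≠ -a) : D0 * (a + t) ^ 3 ≠ 0 := by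
  apply mul_ne_zero hD
  apply pow_ne_zero
  intro h0
  apply ht
  linear_combination h0

/-- `[A_y, B_y] = 0`: from `ad_comm` where `det A_y ≠ 0`, then by `coef2` along `y + t e` -/
theorem AB_comm {S : Dat W} (h : Cl S) (e : W) (he : (S.A e).det ≠ 0) (g : W →ₗ[ℂ] ℂ)
    (hg : g e = 1) (hdet : ∀ y, (S.A y).det = (S.A e).det * (g y) ^ 3) (y : W) :
    S.A y * S.B y = S.B y * S.A y := by
  have key := coef2 (S.A y * S.B y - S.B y * S.A y)
    (S.A y * S.B e + S.A e * S.B y - S.B e * S.A y - S.B y * S.A e)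
    (S.A e * S.B e - S.B e * S.A e) (-(g y)) ?_
  · exact sub_eq_zero.mp key.1
  · intro t ht
    have h1 : (S.A (y + t • e)).det ≠ 0 := by
      rw [hdet, map_add, map_smul, hg, smul_eq_mul, mul_one]
      exact ne_of_t he ht
    have h2 := comm_of_det h _ h1
    simp only [map_add, map_smul, Matrix.mul_add, Matrix.add_mul, Matrix.smul_mul,
      Matrix.mul_smul] at h2
    have h3 := sub_eq_zero.mpr h2
    rw [← h3]
    module

/-- polarised version of `AB_comm` -/
theorem AB_comm_pol {S : Dat W} (h : Cl S) (e : W) (he : (S.A e).det ≠ 0) (g : W →ₗ[ℂ] ℂ)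
    (hg : g e = 1) (hdet : ∀ y, (S.A y).det = (S.A e).det * (g y) ^ 3) (y w : W) :
    S.A y * S.B w + S.A w * S.B y = S.B w * S.A y + S.B y * S.A w := by
  have h1 := AB_comm h e he g hg hdet (y + w)
  have h2 := AB_comm h e he g hg hdet y
  have h3 := AB_comm h e he g hg hdet w
  simp only [map_add, Matrix.mul_add, Matrix.add_mul] at h1
  have h4 : S.A y * S.B w + S.A w * S.B y
      = (S.A y * S.B y + S.A w * S.B y + (S.A y * S.B w + S.A w * S.B w))
        - S.A y * S.B y - S.A w * S.B w := by abel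
  rw [h4, h1, h2, h3]
  abel

private theorem I1_of_det {S : Dat W} (h : Cl S) (y w : W) (hy : (S.A y).det ≠ 0)
    (ht : (ad (S.A y) * S.A w).trace = 0) :
    S.A y * S.A w = S.A y * S.B w - S.B w * S.A y := by
  have h1 := twoL h y w
  rw [ht, zero_div, zero_smul] at h1
  have h2 : S.A y * (ad (S.A y) * S.B w - S.B w * ad (S.A y) + S.A w * ad (S.A y)) * S.A y = 0 := by
    rw [h1, Matrix.mul_zero, Matrix.zero_mul]
  rw [Matrix.mul_add, Matrix.mul_sub, Matrix.add_mul, Matrix.sub_mul, ← Matrix.mul_assoc (S.A y),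
    mul_ad, Matrix.mul_assoc (S.A y), Matrix.mul_assoc (S.B w), ad_mul, Matrix.mul_assoc (S.A y),
    Matrix.mul_assoc (S.A w), ad_mul] at h2
  simp only [Matrix.smul_mul, Matrix.one_mul, Matrix.mul_smul, Matrix.mul_one] at h2
  rw [← smul_sub, ← smul_add] at h2
  have h3 := (smul_eq_zero.mp h2).resolve_left hy
  rw [← sub_eq_zero, ← h3]
  abel

/-- (I1): `A_y A_w = [A_y, B_w]` for `g(w) = 0` and all `y` -/
theorem I1 {S : Dat W} (h : Cl S) (e : W) (he : (S.A e).det ≠ 0) (g : W →ₗ[ℂ] ℂ)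
    (hg : g e = 1) (hdet : ∀ y, (S.A y).det = (S.A e).det * (g y) ^ 3)
    (htr : ∀ y w, (ad (S.A y) * S.A w).trace = 3 * (S.A e).det * (g y) ^ 2 * g w)
    (w : W) (hw : g w = 0) (y : W) : S.A y * S.A w = S.A y * S.B w - S.B w * S.A y := by
  have key := coef2 (S.A y * S.A w - (S.A y * S.B w - S.B w * S.A y))
    (S.A e * S.A w - (S.A e * S.B w - S.B w * S.A e)) 0 (-(g y)) ?_
  · exact sub_eq_zero.mp key.1
  · intro t ht
    have h1 : (S.A (y + t • e)).det ≠ 0 := by
      rw [hdet, map_add, map_smul, hg, smul_eq_mul, mul_one]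
      exact ne_of_t he ht
    have h2 := I1_of_det h _ w h1 (by rw [htr, hw, mul_zero])
    simp only [map_add, map_smul, Matrix.mul_add, Matrix.add_mul, Matrix.smul_mul,
      Matrix.mul_smul] at h2
    have h3 := sub_eq_zero.mpr h2
    rw [smul_zero, add_zero, ← h3]
    module

end Pool.Agent.Helper93.K3A
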