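import Pool.Agent.Helper93.K3A.Inv
import Pool.Agent.Helper93.K3A.IgA
import Pool.Agent.Helper93.K3A.IaM

/-!
K3A / Ia: `det A_e ≠ 0`, some `A_w ≠ 0` with `g(w) = 0`.

Facts (`A = A_e, B = B_e, P = A_w, Q = B_w`): `A B = B A`, `P P = 0`, `P Q = Q P`,
`A P = A Q - Q A`, `(B - A) P = P B` (from `AB_comm_pol`), `e2 A = 0`,
`tr(ad A * B) = 2 det A`, `tr(ad A * Q) = 0` (`twoT`, `htr`).
-/

set_option autoImplicit false

namespace Pool.Agent.Helper93.K3A

open Matrix

variable {W : Type} [AddCommGroup W] [Module ℂ W]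

private theorem vmv_right {a φ a' φ' : V3} (h : vecMulVec a φ = vecMulVec a' φ') (ha : a ≠ 0) :
    ∃ c : ℂ, φ = c • φ' := by
  obtain ⟨i, hi⟩ := Function.ne_iff.1 ha
  have hi' : a i ≠ 0 := hi
  refine ⟨a' i / a i, ?_⟩
  funext j
  have h1 := congrFun (congrFun h i) j
  rw [vecMulVec_apply, vecMulVec_apply] at h1
  rw [Pi.smul_apply, smul_eq_mul]
  field_simp
  linear_combination h1

private theorem vmv_left {a φ a' φ' : V3} (h : vecMulVec a φ = vecMulVec a' φ') (hφ : φ ≠ 0) :
    ∃ c : ℂ, a = c • a' := by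
  obtain ⟨j, hj⟩ := Function.ne_iff.1 hφ
  have hj' : φ j ≠ 0 := hj
  refine ⟨φ' j / φ j, ?_⟩
  funext i
  have h1 := congrFun (congrFun h i) j
  rw [vecMulVec_apply, vecMulVec_apply] at h1
  rw [Pi.smul_apply, smul_eq_mul]
  field_simp
  linear_combination h1

private theorem vmv_ne {a φ : V3} (ha : a ≠ 0) (hφ : φ ≠ 0) : vecMulVec a φ ≠ 0 := by
  obtain ⟨i, hi⟩ := Function.ne_iff.1 ha
  obtain ⟨j, hj⟩ := Function.ne_iff.1 hφ
  intro h
  have h1 := congrFun (congrFun h i) j
  rw [vecMulVec_apply] at h1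
  exact mul_ne_zero hi hj h1

private theorem mul_vmv (M : M3) (a φ : V3) : M * vecMulVec a φ = vecMulVec (M *ᵥ a) φ := by
  ext i j
  simp only [Matrix.mul_apply, vecMulVec_apply, Matrix.mulVec, dotProduct, Fin.sum_univ_three]
  ring

private theorem vmv_mul (M : M3) (a φ : V3) : vecMulVec a φ * M = vecMulVec a (φ ᵥ* M) := by
  ext i j
  simp only [Matrix.mul_apply, vecMulVec_apply, Matrix.vecMul, dotProduct, Fin.sum_univ_three]
  ring

private theorem D_self (x y : V3) : D x y x = 0 := by
  simp only [D]; ring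

private theorem D_swap (x t y : V3) : D t y x + D x y t = 0 := by
  simp only [D]; ring

private theorem D_add3 (p q r s : V3) : D p q (r + s) = D p q r + D p q s := by
  simp only [D, Pi.add_apply]; ring

private theorem D_smul3 (c : ℂ) (p q r : V3) : D p q (c • r) = c * D p q r := by
  simp only [D, Pi.smul_apply, smul_eq_mul]; ring

/-- the basic relations -/
private theorem Ia_rel {S : Dat W} (h : Std S) (e : W) (he : (S.A e).det ≠ 0) (g : W →ₗ[ℂ] ℂ)
    (hg : g e = 1) (hdet : ∀ y, (S.A y).det = (S.A e).det * (g y) ^ 3)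
    (htr : ∀ y w, (ad (S.A y) * S.A w).trace = 3 * (S.A e).det * (g y) ^ 2 * g w)
    (w : W) (hw : g w = 0) :
    S.A w * S.A w = 0 ∧ S.A w * S.B w = S.B w * S.A w ∧
      S.A e * S.A w = S.A e * S.B w - S.B w * S.A e ∧
      (S.B e - S.A e) * S.A w = S.A w * S.B e ∧
      (ad (S.A e) * S.B e).trace = 2 * (S.A e).det := by
  have h1 := AB_comm h.cl e he g hg hdet w
  have h2 := I1 h.cl e he g hg hdet htr w hw w
  have h3 := I1 h.cl e he g hg hdet htr w hw e
  have h4 := AB_comm_pol h.cl e he g hg hdet e w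
  refine ⟨?_, h1, h3, ?_, ?_⟩
  · rw [h2, h1, sub_self]
  · have h5 : S.B e * S.A w - S.A w * S.B e = S.A e * S.B w - S.B w * S.A e := by
      rw [sub_eq_sub_iff_add_eq_add, add_comm (S.B e * S.A w), ← h4]
    rw [Matrix.sub_mul, h3, ← h5]
    abel
  · have h6 := twoT h.cl e e
    rw [htr e e, hg] at h6
    linear_combination (1 / 3 : ℂ) * h6

/-- for one `w`: eigen-covector and the shape of `B_w` -/
theorem Ia_one {S : Dat W} (h : Std S) (e : W) (he : (S.A e).det ≠ 0) (g : W →ₗ[ℂ] ℂ)
    (hg : g e = 1) (hdet : ∀ y, (S.A y).det = (S.A e).det * (g y) ^ 3)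
    (htr : ∀ y w, (ad (S.A y) * S.A w).trace = 3 * (S.A e).det * (g y) ^ 2 * g w)
    (w : W) (hw : g w = 0) (hAw : S.A w ≠ 0) :
    ∃ a φ : V3, ∃ α γ : ℂ, a ≠ 0 ∧ φ ≠ 0 ∧ φ ⬝ᵥ a = 0 ∧ S.A w = vecMulVec a φ ∧
      φ ᵥ* S.A e = α • φ ∧ φ ᵥ* S.B e = γ • φ ∧ (S.B e - S.A e) *ᵥ a = γ • a ∧
      ∃ b, ∃ c : ℂ, φ ⬝ᵥ b = 0 ∧ S.B w = vecMulVec b φ + c • (1 : M3) := by
  obtain ⟨hPP, hPQ, hAP, hG, hT⟩ := Ia_rel h e he g hg hdet htr w hw
  obtain ⟨a, φ, ha, hφ, hφa, hP⟩ := rank1_of_sq_zero (S.A w) hPP hAw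
  have hAB := AB_comm h.cl e he g hg hdet e
  rw [hP] at hAP hG hPQ
  obtain ⟨α, γ, h1, h2, h3⟩ := Ia_eig (S.A e) (S.B e) (S.B w) a φ ha hφ hφa he (e2A h.cl e) hAB
    hAP hG hT
  refine ⟨a, φ, α, γ, ha, hφ, hφa, hP, h1, h2, h3, ?_⟩
  -- `a` and `φ` are eigenvectors of `B_w`
  obtain ⟨β, hβ1, hβ2⟩ : ∃ β : ℂ, φ ᵥ* S.B w = β • φ ∧ S.B w *ᵥ a = β • a := by
    rw [mul_vmv, vmv_mul] at hPQ
    obtain ⟨c, hc⟩ := vmv_right hPQ ha
    refine ⟨c, hc, ?_⟩
    obtain ⟨j, hj⟩ := Function.ne_iff.1 hφ
    have hj' : φ j ≠ 0 := hj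
    funext i
    have h4 := congrFun (congrFun hPQ i) j
    rw [vecMulVec_apply, vecMulVec_apply, hc, Pi.smul_apply, smul_eq_mul] at h4
    rw [Pi.smul_apply, smul_eq_mul]
    apply mul_right_cancel₀ hj'
    linear_combination -h4
  obtain ⟨P0, Q0, hPQ0, hQP0, hu, hv⟩ := frame_vec_cov a φ ha hφ hφa
  have hQ0e : Q0 *ᵥ (![1, 0, 0] : V3) = a := by
    rw [← hu, Matrix.mulVec_mulVec, hQP0, Matrix.one_mulVec]
  have heP0 : (![0, 0, 1] : V3) ᵥ* P0 = φ := by
    rw [← hv, Matrix.vecMul_vecMul, hQP0, Matrix.vecMul_one]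
  have hdetP : P0.det ≠ 0 := by
    intro h0
    have h4 := congrArg Matrix.det hPQ0
    rw [Matrix.det_mul, h0, zero_mul, Matrix.det_one] at h4
    exact zero_ne_one h4
  have hcj : ∀ M N : M3, (P0 * M * Q0) * (P0 * N * Q0) = P0 * (M * N) * Q0 := by
    intro M N
    calc (P0 * M * Q0) * (P0 * N * Q0) = P0 * M * (Q0 * P0) * N * Q0 := by
          simp only [Matrix.mul_assoc]
      _ = P0 * (M * N) * Q0 := by rw [hQP0, Matrix.mul_one]; simp only [Matrix.mul_assoc]
  have hdetc : ∀ M : M3, (P0 * M * Q0).det = M.det := by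
    intro M
    have h4 := congrArg Matrix.det hPQ0
    rw [Matrix.det_mul, Matrix.det_one] at h4
    rw [Matrix.det_mul, Matrix.det_mul]
    linear_combination M.det * h4
  have htrc : ∀ M : M3, (P0 * M * Q0).trace = M.trace := by
    intro M
    rw [Matrix.mul_assoc, Matrix.trace_mul_comm, Matrix.mul_assoc, hQP0, Matrix.mul_one]
  have he2c : ∀ M : M3, e2 (P0 * M * Q0) = e2 M := by
    intro M
    have h4 := e2p_self (P0 * M * Q0)
    have h5 := e2p_self M
    unfold e2p at h4 h5
    rw [hcj, htrc, htrc] at h4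
    linear_combination (1 / 2 : ℂ) * h5 - (1 / 2 : ℂ) * h4
  have hadc : ∀ M : M3, ad (P0 * M * Q0) = P0 * ad M * Q0 := by
    intro M
    unfold ad
    rw [hcj, htrc, he2c, Matrix.mul_add, Matrix.mul_sub, Matrix.add_mul, Matrix.sub_mul]
    simp only [Matrix.mul_smul, Matrix.smul_mul, Matrix.mul_one, hPQ0]
  have hone : P0 * vecMulVec a φ * Q0 = vecMulVec (![1, 0, 0]) (![0, 0, 1]) := by
    rw [mul_vmv, vmv_mul, hu, hv]
  have hmv : ∀ (M : M3) (x : V3), (P0 * M * Q0) *ᵥ x = P0 *ᵥ (M *ᵥ (Q0 *ᵥ x)) := by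
    intro M x
    rw [Matrix.mulVec_mulVec, Matrix.mulVec_mulVec, Matrix.mul_assoc]
  have hvm : ∀ (M : M3), (![0, 0, 1] : V3) ᵥ* (P0 * M * Q0) = (φ ᵥ* M) ᵥ* Q0 := by
    intro M
    rw [Matrix.mul_assoc, ← Matrix.vecMul_vecMul, heP0, ← Matrix.vecMul_vecMul]
  obtain ⟨b, hb1, hb2⟩ := Ia_Q (P0 * S.A e * Q0) (P0 * S.B e * Q0)
    (P0 * (S.B w - β • (1 : M3)) * Q0) α γ
    (by rw [hdetc]; exact he) (by rw [he2c]; exact e2A h.cl e)
    (by
      rw [← hone, hcj, hcj, hcj, hAP, Matrix.mul_sub, Matrix.sub_mul, Matrix.mul_sub,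
        Matrix.mul_sub, Matrix.sub_mul, Matrix.sub_mul, Matrix.mul_sub, Matrix.sub_mul]
      simp only [Matrix.mul_smul, Matrix.smul_mul, Matrix.mul_one, Matrix.one_mul]
      abel)
    (by rw [hvm, h1, Matrix.smul_vecMul, hv])
    (by rw [hvm, h2, Matrix.smul_vecMul, hv])
    (by
      rw [hvm, Matrix.vecMul_sub, hβ1, Matrix.vecMul_smul, Matrix.vecMul_one, sub_self,
        Matrix.zero_vecMul])
    (by
      rw [hmv, hQ0e, Matrix.sub_mulVec, hβ2, Matrix.smul_mulVec, Matrix.one_mulVec, sub_self,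
        Matrix.mulVec_zero])
    (by
      rw [← Matrix.sub_mul, ← Matrix.mul_sub, hmv, hQ0e, h3, Matrix.mulVec_smul, hu])
    (by rw [hadc, hcj, htrc, hdetc]; exact hT)
    (by
      intro x t
      obtain ⟨x', rfl⟩ : ∃ x', P0 *ᵥ x' = x :=
        ⟨Q0 *ᵥ x, by rw [Matrix.mulVec_mulVec, hPQ0, Matrix.one_mulVec]⟩
      obtain ⟨t', rfl⟩ : ∃ t', P0 *ᵥ t' = t :=
        ⟨Q0 *ᵥ t, by rw [Matrix.mulVec_mulVec, hPQ0, Matrix.one_mulVec]⟩
      have hq : ∀ v : V3, Q0 *ᵥ (P0 *ᵥ v) = v := fun v => by
        rw [Matrix.mulVec_mulVec, hQP0, Matrix.one_mulVec]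
      have h4 := eq3 h.cl e w x' t'
      rw [hP] at h4
      have h5 : ∀ v : V3, (S.B w - β • (1 : M3)) *ᵥ v = S.B w *ᵥ v + (-β) • v := fun v => by
        rw [Matrix.sub_mulVec, Matrix.smul_mulVec, Matrix.one_mulVec, sub_eq_add_neg, neg_smul]
      rw [← hone]
      simp only [hmv, hq]
      rw [h5, h5, D_mulVec, D_mulVec, D_mulVec, D_mulVec, D_mulVec]
      simp only [D_add3, D_smul3]
      have h6 := D_swap x' t' (S.B e *ᵥ x')
      have h7 := D_self x' (S.B e *ᵥ t')
      have h8 := D_self x' (S.A e *ᵥ t')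
      linear_combination P0.det * h4 - β * P0.det * h6 - β * P0.det * h7 + β * P0.det * h8)
  refine ⟨Q0 *ᵥ b, β, ?_, ?_⟩
  · rw [Matrix.dotProduct_mulVec, hv]
    exact hb1
  · have h4 : S.B w - β • (1 : M3) = Q0 * (P0 * (S.B w - β • (1 : M3)) * Q0) * P0 := by
      calc S.B w - β • (1 : M3) = (Q0 * P0) * (S.B w - β • (1 : M3)) * (Q0 * P0) := by
            rw [hQP0, Matrix.one_mul, Matrix.mul_one]
        _ = _ := by simp only [Matrix.mul_assoc]
    rw [hb2, mul_vmv, vmv_mul, heP0] at h4
    rw [← h4, sub_add_cancel]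

theorem Ia {S : Dat W} (h : Std S) (e : W) (he : (S.A e).det ≠ 0) (g : W →ₗ[ℂ] ℂ)
    (hg : g e = 1) (hdet : ∀ y, (S.A y).det = (S.A e).det * (g y) ^ 3)
    (htr : ∀ y w, (ad (S.A y) * S.A w).trace = 3 * (S.A e).det * (g y) ^ 2 * g w)
    (w : W) (hw : g w = 0) (hAw : S.A w ≠ 0) : ∃ φ, C12 S φ g := by
  obtain ⟨a, φ, α, γ, ha, hφ, hφa, hP, h1, h2, h3, b, c, hb, hQ⟩ :=
    Ia_one h e he g hg hdet htr w hw hAw
  -- the statement for the elements of `ker g`
  have key : ∀ w', g w' = 0 → (∃ a, φ ⬝ᵥ a = 0 ∧ S.A w' = vecMulVec a φ) ∧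
      ∃ b, ∃ c : ℂ, φ ⬝ᵥ b = 0 ∧ S.B w' = vecMulVec b φ + c • (1 : M3) := by
    intro w' hw'
    by_cases h0 : S.A w' = 0
    · refine ⟨⟨0, by simp, by rw [h0]; ext i j; simp [vecMulVec_apply]⟩, ?_⟩
      have hsum : S.A (w + w') = S.A w := by rw [map_add, h0, add_zero]
      obtain ⟨a', φ', -, -, ha', hφ', hφa', hP', -, -, -, b', c', hb', hQ'⟩ :=
        Ia_one h e he g hg hdet htr (w + w') (by rw [map_add, hw, hw', add_zero])
          (by rw [hsum]; exact hAw)
      rw [hsum, hP] at hP'
      obtain ⟨d, hd⟩ := vmv_right hP'.symm ha'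
      refine ⟨d • b' - b, c' - c, ?_, ?_⟩
      · have h4 : φ' ⬝ᵥ b' = d * (φ ⬝ᵥ b') := by
          rw [hd, smul_dotProduct, smul_eq_mul]
        rw [hb'] at h4
        rw [dotProduct_sub, dotProduct_smul, hb, smul_eq_mul, ← h4, sub_zero]
      · have h4 : S.B w' = S.B (w + w') - S.B w := by rw [map_add]; abel
        rw [h4, hQ', hQ, hd]
        ext i j
        simp only [Matrix.sub_apply, Matrix.add_apply, vecMulVec_apply, Matrix.smul_apply,
          Pi.smul_apply, Pi.sub_apply, smul_eq_mul]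
        ring
    · obtain ⟨a', φ', α', γ', ha', hφ', hφa', hP', h1', h2', h3', b', c', hb', hQ'⟩ :=
        Ia_one h e he g hg hdet htr w' hw' h0
      by_cases hind : ∀ d d' : ℂ, d • φ + d' • φ' = 0 → d = 0 ∧ d' = 0
      · exfalso
        -- `a'` is proportional to `a`
        have hs := (Ia_rel h e he g hg hdet htr (w + w')
          (by rw [map_add, hw, hw', add_zero])).1
        rw [map_add, hP, hP'] at hs
        have hne : vecMulVec a φ + vecMulVec a' φ' ≠ 0 := by
          intro h4
          have h5 : vecMulVec a φ = vecMulVec (-a') φ' := by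
            rw [eq_neg_of_add_eq_zero_left h4]
            ext i j
            simp [vecMulVec_apply]
          obtain ⟨d, hd⟩ := vmv_right h5 ha
          have h6 := hind 1 (-d) (by rw [hd]; simp)
          exact one_ne_zero h6.1
        obtain ⟨a2, φ2, ha2, hφ2, -, hP2⟩ := rank1_of_sq_zero _ hs hne
        -- `a φ_j + a' φ'_j = a2 φ2_j`; solve with two independent columns
        have hprop : ∃ d : ℂ, a' = d • a := by
          by_contra hcon
          push Not at hcon
          -- `a, a'` independent implies that `φ, φ'` are both multiples of `φ2`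
          have hli : ∀ s t : ℂ, s • a + t • a' = 0 → s = 0 ∧ t = 0 := by
            intro s t hst
            have ht : t = 0 := by
              by_contra ht
              refine hcon (-(s / t)) ?_
              funext i
              have h4 := congrFun hst i
              simp only [Pi.add_apply, Pi.smul_apply, smul_eq_mul, Pi.zero_apply] at h4
              rw [Pi.smul_apply, smul_eq_mul]
              field_simp
              linear_combination h4
            rw [ht, zero_smul, add_zero] at hst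
            exact ⟨(smul_eq_zero.1 hst).resolve_right ha, ht⟩
          -- minors of a rank one matrix
          have hmin : ∀ i k j l : Fin 3, (a i * a' k - a k * a' i) * (φ j * φ' l - φ l * φ' j) = 0 := by
            intro i k j l
            have e1 := congrFun (congrFun hP2 i) j
            have e2 := congrFun (congrFun hP2 k) l
            have e3 := congrFun (congrFun hP2 i) l
            have e4 := congrFun (congrFun hP2 k) j
            simp only [Matrix.add_apply, vecMulVec_apply] at e1 e2 e3 e4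
            have e5 : (a i * φ j + a' i * φ' j) * (a k * φ l + a' k * φ' l) =
                (a i * φ l + a' i * φ' l) * (a k * φ j + a' k * φ' j) := by
              rw [e1, e2, e3, e4]; ring
            linear_combination e5
          have hm1 : ∃ i k, a i * a' k - a k * a' i ≠ 0 := by
            by_contra hc1
            push Not at hc1
            obtain ⟨i, hi⟩ := Function.ne_iff.1 ha
            have hi' : a i ≠ 0 := hi
            have h6 := hli (-(a' i)) (a i) (by
              funext k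
              have := hc1 i k
              simp only [Pi.add_apply, Pi.smul_apply, smul_eq_mul, Pi.zero_apply]
              linear_combination this)
            exact hi' h6.2
          have hm2 : ∃ j l, φ j * φ' l - φ l * φ' j ≠ 0 := by
            by_contra hc1
            push Not at hc1
            obtain ⟨i, hi⟩ := Function.ne_iff.1 hφ
            have hi' : φ i ≠ 0 := hi
            have h6 := hind (-(φ' i)) (φ i) (by
              funext k
              have := hc1 i k
              simp only [Pi.add_apply, Pi.smul_apply, smul_eq_mul, Pi.zero_apply]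
              linear_combination this)
            exact hi' h6.2
          obtain ⟨i, k, hik⟩ := hm1
          obtain ⟨j, l, hjl⟩ := hm2
          exact mul_ne_zero hik hjl (hmin i k j l)
        obtain ⟨d, hd⟩ := hprop
        have hd0 : d ≠ 0 := by
          rintro rfl
          exact ha' (by rw [hd, zero_smul])
        have hP'2 : S.A w' = vecMulVec a (d • φ') := by
          rw [hP', hd]
          ext i j
          simp only [vecMulVec_apply, Pi.smul_apply, smul_eq_mul]
          ring
        -- the elements `s w + t w'`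
        have hcomb : ∀ s t : ℂ, ∃ α : ℂ,
            (s • φ + t • (d • φ')) ᵥ* S.A e = α • (s • φ + t • (d • φ')) ∧
            (s • φ + t • (d • φ')) ᵥ* S.B e = γ • (s • φ + t • (d • φ')) := by
          intro s t
          by_cases hz : s • φ + t • (d • φ') = 0
          · exact ⟨0, by rw [hz]; simp, by rw [hz]; simp⟩
          have hA2 : S.A (s • w + t • w') = vecMulVec a (s • φ + t • (d • φ')) := by
            rw [map_add, map_smul, map_smul, hP, hP'2]
            ext i j
            simp only [Matrix.add_apply, Matrix.smul_apply, vecMulVec_apply, Pi.add_apply,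
              Pi.smul_apply, smul_eq_mul]
            ring
          obtain ⟨a3, φ3, α3, γ3, ha3, hφ3, -, hP3, h13, h23, h33, -⟩ :=
            Ia_one h e he g hg hdet htr (s • w + t • w')
              (by rw [map_add, map_smul, map_smul, hw, hw', smul_zero, smul_zero, add_zero])
              (by rw [hA2]; exact vmv_ne ha hz)
          rw [hA2] at hP3
          obtain ⟨p, hp⟩ := vmv_right hP3 ha
          obtain ⟨q, hq⟩ := vmv_left hP3.symm hφ3
          have hγ : γ3 = γ := by
            rw [hq, Matrix.mulVec_smul, h3] at h33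
            obtain ⟨i, hi⟩ := Function.ne_iff.1 ha3
            have h4 := congrFun h33 i
            rw [hq] at hi
            simp only [Pi.smul_apply, smul_eq_mul] at h4 hi
            have hi' : q * a i ≠ 0 := hi
            apply mul_right_cancel₀ hi'
            linear_combination -h4
          refine ⟨α3, ?_, ?_⟩
          · rw [hp, Matrix.smul_vecMul, h13, smul_comm]
          · rw [hp, Matrix.smul_vecMul, h23, hγ, smul_comm]
        have hT := (Ia_rel h e he g hg hdet htr w hw).2.2.2.2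
        refine Ia_two (S.A e) (S.B e) a φ (d • φ') ha hφa ?_ ?_ he (e2A h.cl e) hT
          (fun s t => ?_) ⟨γ, fun s t => ?_, h3⟩
        · rw [hd, dotProduct_smul, smul_eq_mul] at hφa'
          rw [smul_dotProduct, (mul_eq_zero.1 hφa').resolve_left hd0, smul_zero]
        · intro s t hst
          have h4 := hind s (t * d) (by rw [← hst, smul_smul])
          exact ⟨h4.1, (mul_eq_zero.1 h4.2).resolve_right hd0⟩
        · obtain ⟨α, hα, -⟩ := hcomb s t
          exact ⟨α, hα⟩
        · obtain ⟨α, -, hβ⟩ := hcomb s t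
          exact hβ
      · push Not at hind
        obtain ⟨s, t, hst, hne⟩ := hind
        have hpr : ∃ d : ℂ, φ' = d • φ := by
          have ht : t ≠ 0 := by
            rintro rfl
            rw [zero_smul, add_zero] at hst
            rcases smul_eq_zero.1 hst with h4 | h4
            · exact hne h4 rfl
            · exact hφ h4
          refine ⟨-(s / t), ?_⟩
          funext i
          have h4 := congrFun hst i
          simp only [Pi.add_apply, Pi.smul_apply, smul_eq_mul, Pi.zero_apply] at h4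
          rw [Pi.smul_apply, smul_eq_mul]
          field_simp
          linear_combination h4
        obtain ⟨d, hd⟩ := hpr
        have hd0 : d ≠ 0 := by
          rintro rfl
          exact hφ' (by rw [hd, zero_smul])
        rw [hd, smul_dotProduct, smul_eq_mul] at hφa' hb'
        refine ⟨⟨d • a', ?_, ?_⟩, d • b', c', ?_, ?_⟩
        · rw [dotProduct_smul, (mul_eq_zero.1 hφa').resolve_left hd0, smul_zero]
        · rw [hP', hd]
          ext i j
          simp only [vecMulVec_apply, Pi.smul_apply, smul_eq_mul]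
          ring
        · rw [dotProduct_smul, (mul_eq_zero.1 hb').resolve_left hd0, smul_zero]
        · rw [hQ', hd]
          congr 1
          ext i j
          simp only [vecMulVec_apply, Pi.smul_apply, smul_eq_mul]
          ring
  have hdec : ∀ y, ∃ w', g w' = 0 ∧ y = g y • e + w' := fun y =>
    ⟨y - g y • e, by rw [map_sub, map_smul, hg, smul_eq_mul, mul_one, sub_self], by abel⟩
  have hvv : ∀ a' : V3, φ ⬝ᵥ a' = 0 → φ ᵥ* vecMulVec a' φ = 0 := by
    intro a' ha'
    funext j
    have h4 : (φ ᵥ* vecMulVec a' φ) j = (φ ⬝ᵥ a') * φ j := by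
      simp only [Matrix.vecMul, dotProduct, vecMulVec_apply, Fin.sum_univ_three]
      ring
    rw [h4, ha', zero_mul]
    rfl
  refine ⟨φ, hφ, fun y => ?_, fun y => ?_, key⟩
  · obtain ⟨w', hw', hy⟩ := hdec y
    obtain ⟨⟨a', ha', hA'⟩, -⟩ := key w' hw'
    refine ⟨g y * α, ?_⟩
    rw [hy, map_add, map_smul, hA', Matrix.vecMul_add, hvv a' ha', add_zero, Matrix.vecMul_smul,
      h1, smul_smul]
    rw [map_add, map_smul, hg, hw', smul_eq_mul, mul_one, add_zero]
  · obtain ⟨w', hw', hy⟩ := hdec y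
    obtain ⟨-, b', c', hb', hB'⟩ := key w' hw'
    refine ⟨g y * γ + c', ?_⟩
    rw [hy, map_add, map_smul, hB', Matrix.vecMul_add, Matrix.vecMul_add, hvv b' hb', zero_add,
      Matrix.vecMul_smul, Matrix.vecMul_smul, Matrix.vecMul_one, h2, smul_smul, ← add_smul]
    rw [map_add, map_smul, hg, hw', smul_eq_mul, mul_one, add_zero]

end Pool.Agent.Helper93.K3A
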