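import Pool.Agent.Helper93.K3A.Tools2

/-!
K3A / PX: pencils of matrices with `x ∧ P x ∧ Q x = 0`.

Hints for `px`.  Suppose `x ∧ Px ∧ Qx = 0` for all `x` and `1, P, Q` are linearly independent.
Possible proof without gcd: pick an eigenvector `e` of `P`, subtract the eigenvalue: `P e = 0`.
The identity polarised at `e`: `D e (P t) (Q e) = 0` for all `t` (first order), and
`D t (P t) (Q e) + D e (P t) (Q t) = 0` (second order in `t`).
Either `e, Q e` are independent; then `P t ∈ ⟨e, Q e⟩` for all `t`, .. ; or `Q e = μ e` and after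
subtracting `μ` also `Q e = 0`, `D e (P t) (Q t) = 0`, i.e. `P, Q` induce maps `U/e → U/e` with
`P t ∧ Q t = 0`: proportional or both of rank one with the same image.
Alternatively use the Kronecker / gcd argument of the memo (`x × P x = g r`, `x × Q x = h r`).
-/

set_option autoImplicit false

namespace Pool.Agent.Helper93.K3A

open Matrix

private theorem dot_zero {a : V3} (h : ∀ t : V3, a ⬝ᵥ t = 0) : a = 0 := by
  funext i
  have := h (Pi.single i 1)
  simpa using this

/-- a 2 x 2 matrix of linear forms with zero determinant -/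
private theorem forms2 (a b c d : V3) (h : ∀ t : V3, (a ⬝ᵥ t) * (d ⬝ᵥ t) = (b ⬝ᵥ t) * (c ⬝ᵥ t)) :
    (∃ k l : ℂ, (k ≠ 0 ∨ l ≠ 0) ∧ k • a + l • c = 0 ∧ k • b + l • d = 0) ∨
      (∃ k l : ℂ, (k ≠ 0 ∨ l ≠ 0) ∧ k • a + l • b = 0 ∧ k • c + l • d = 0) := by
  let F : V3 →ₗ[ℂ] M3 :=
    { toFun := fun t => !![a ⬝ᵥ t, b ⬝ᵥ t, 0; c ⬝ᵥ t, d ⬝ᵥ t, 0; 0, 0, 0]
      map_add' := fun x y => by
        ext i j
        fin_cases i <;> fin_cases j <;> simp [dotProduct_add]
      map_smul' := fun k x => by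
        ext i j
        fin_cases i <;> fin_cases j <;> simp [dotProduct_smul] }
  have hF : ∀ w, ∀ i j k l, F w i j * F w k l = F w i l * F w k j := by
    intro w i j k l
    have hw := h w
    have hrow : ∀ i j, F w i j = ![![a ⬝ᵥ w, b ⬝ᵥ w, 0], ![c ⬝ᵥ w, d ⬝ᵥ w, 0], ![0, 0, 0]] i j :=
      fun _ _ => rfl
    rw [hrow, hrow, hrow, hrow]
    generalize a ⬝ᵥ w = a' at hw
    generalize b ⬝ᵥ w = b' at hw
    generalize c ⬝ᵥ w = c' at hw
    generalize d ⬝ᵥ w = d' at hw
    have hz : ∀ m : Fin 3, (![0, 0, 0] : Fin 3 → ℂ) m = 0 := by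
      intro m
      fin_cases m <;> rfl
    have h01 : ∀ m n : Fin 3, (![a', b', 0] : Fin 3 → ℂ) m * (![c', d', 0] : Fin 3 → ℂ) n =
        (![a', b', 0] : Fin 3 → ℂ) n * (![c', d', 0] : Fin 3 → ℂ) m := by
      intro m n
      fin_cases m <;> fin_cases n <;>
        simp only [Fin.zero_eta, Fin.mk_one, Fin.reduceFinMk, Matrix.cons_val, mul_zero, zero_mul]
      · exact hw
      · exact hw.symm
    fin_cases i <;> fin_cases k <;>
      simp only [Fin.zero_eta, Fin.mk_one, Fin.reduceFinMk, Matrix.cons_val_zero,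
        Matrix.cons_val_one, Matrix.cons_val, hz, mul_zero, zero_mul]
    · exact mul_comm _ _
    · exact h01 j l
    · rw [mul_comm, h01 l j, mul_comm]
    · exact mul_comm _ _
  rcases rank1_family F hF with ⟨u, hu, H⟩ | ⟨ψ, hψ, H⟩
  · left
    by_cases h01 : u 1 = 0 ∧ u 0 = 0
    · have key : ∀ t : V3, a ⬝ᵥ t = 0 ∧ b ⬝ᵥ t = 0 := by
        intro t
        obtain ⟨p, hp⟩ := H t
        have e00 := congrFun (congrFun hp 0) 0
        have e01 := congrFun (congrFun hp 0) 1
        simp [F, vecMulVec_apply, h01.2] at e00 e01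
        exact ⟨e00, e01⟩
      refine ⟨1, 0, Or.inl one_ne_zero, ?_, ?_⟩
      · rw [dot_zero (fun t => (key t).1)]
        simp
      · rw [dot_zero (fun t => (key t).2)]
        simp
    · refine ⟨u 1, -u 0, ?_, ?_, ?_⟩
      · by_contra hc
        push Not at hc
        exact h01 ⟨hc.1, neg_eq_zero.mp hc.2⟩
      · apply dot_zero
        intro t
        obtain ⟨p, hp⟩ := H t
        have e0 := congrFun (congrFun hp 0) 0
        have e1 := congrFun (congrFun hp 1) 0
        simp [F, vecMulVec_apply] at e0 e1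
        rw [add_dotProduct, smul_dotProduct, smul_dotProduct, e0, e1, smul_eq_mul, smul_eq_mul]
        ring
      · apply dot_zero
        intro t
        obtain ⟨p, hp⟩ := H t
        have e0 := congrFun (congrFun hp 0) 1
        have e1 := congrFun (congrFun hp 1) 1
        simp [F, vecMulVec_apply] at e0 e1
        rw [add_dotProduct, smul_dotProduct, smul_dotProduct, e0, e1, smul_eq_mul, smul_eq_mul]
        ring
  · right
    by_cases h01 : ψ 1 = 0 ∧ ψ 0 = 0
    · have key : ∀ t : V3, a ⬝ᵥ t = 0 ∧ c ⬝ᵥ t = 0 := by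
        intro t
        obtain ⟨p, hp⟩ := H t
        have e00 := congrFun (congrFun hp 0) 0
        have e01 := congrFun (congrFun hp 1) 0
        simp [F, vecMulVec_apply, h01.2] at e00 e01
        exact ⟨e00, e01⟩
      refine ⟨1, 0, Or.inl one_ne_zero, ?_, ?_⟩
      · rw [dot_zero (fun t => (key t).1)]
        simp
      · rw [dot_zero (fun t => (key t).2)]
        simp
    · refine ⟨ψ 1, -ψ 0, ?_, ?_, ?_⟩
      · by_contra hc
        push Not at hc
        exact h01 ⟨hc.1, neg_eq_zero.mp hc.2⟩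
      · apply dot_zero
        intro t
        obtain ⟨p, hp⟩ := H t
        have e0 := congrFun (congrFun hp 0) 0
        have e1 := congrFun (congrFun hp 0) 1
        simp [F, vecMulVec_apply] at e0 e1
        rw [add_dotProduct, smul_dotProduct, smul_dotProduct, e0, e1, smul_eq_mul, smul_eq_mul]
        ring
      · apply dot_zero
        intro t
        obtain ⟨p, hp⟩ := H t
        have e0 := congrFun (congrFun hp 1) 0
        have e1 := congrFun (congrFun hp 1) 1
        simp [F, vecMulVec_apply] at e0 e1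
        rw [add_dotProduct, smul_dotProduct, smul_dotProduct, e0, e1, smul_eq_mul, smul_eq_mul]
        ring

/-- some element of the pencil is of rank at most one modulo scalars -/
private def RK (P Q : M3) : Prop := ∃ a b c : ℂ, ∃ u φ : V3, (a ≠ 0 ∨ b ≠ 0) ∧
  a • P + b • Q = vecMulVec u φ + c • (1 : M3)

private theorem RK_shift (P Q : M3) (k l : ℂ) (h : RK (P - k • (1 : M3)) (Q - l • (1 : M3))) :
    RK P Q := by
  obtain ⟨a, b, c, u, φ, hab, hE⟩ := h
  refine ⟨a, b, c + a * k + b * l, u, φ, hab, ?_⟩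
  have : a • P + b • Q = (a • (P - k • (1 : M3)) + b • (Q - l • (1 : M3))) +
      (a * k + b * l) • (1 : M3) := by module
  rw [this, hE]
  module

private theorem RK_conj (P Q S T : M3) (hTS : T * S = 1) (h : RK (S * P * T) (S * Q * T)) :
    RK P Q := by
  obtain ⟨a, b, c, u, φ, hab, hE⟩ := h
  refine ⟨a, b, c, T *ᵥ u, φ ᵥ* S, hab, ?_⟩
  have h1 : T * (a • (S * P * T) + b • (S * Q * T)) * S = a • P + b • Q := by
    rw [mul_add, add_mul, Matrix.mul_smul, Matrix.mul_smul, Matrix.smul_mul, Matrix.smul_mul]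
    have e : ∀ X : M3, T * (S * X * T) * S = X := by
      intro X
      calc T * (S * X * T) * S = (T * S) * X * (T * S) := by simp only [mul_assoc]
        _ = X := by rw [hTS, one_mul, mul_one]
    rw [e, e]
  rw [← h1, hE, mul_add, add_mul, Matrix.mul_smul, Matrix.smul_mul, mul_one, hTS]
  congr 1
  ext i j
  simp only [Matrix.mul_apply, vecMulVec_apply, Matrix.mulVec, Matrix.vecMul, dotProduct,
    Fin.sum_univ_three]
  ring

private theorem h_conj (P Q S T : M3) (hST : S * T = 1)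
    (h : ∀ x, D x (P *ᵥ x) (Q *ᵥ x) = 0) :
    ∀ x, D x ((S * P * T) *ᵥ x) ((S * Q * T) *ᵥ x) = 0 := by
  intro x
  have h1 : x = S *ᵥ (T *ᵥ x) := by rw [Matrix.mulVec_mulVec, hST, Matrix.one_mulVec]
  have h2 : ∀ X : M3, (S * X * T) *ᵥ x = S *ᵥ (X *ᵥ (T *ᵥ x)) := by
    intro X
    rw [Matrix.mulVec_mulVec, Matrix.mulVec_mulVec, mul_assoc]
  have h3 := D_mulVec S (T *ᵥ x) (P *ᵥ (T *ᵥ x)) (Q *ᵥ (T *ᵥ x))
  rw [← h1, h, mul_zero] at h3
  rw [h2, h2]
  exact h3

private theorem h_shift (P Q : M3) (k l : ℂ) (h : ∀ x, D x (P *ᵥ x) (Q *ᵥ x) = 0) :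
    ∀ x, D x ((P - k • (1 : M3)) *ᵥ x) ((Q - l • (1 : M3)) *ᵥ x) = 0 := by
  intro x
  have h1 := h x
  rw [Matrix.sub_mulVec, Matrix.sub_mulVec, Matrix.smul_mulVec, Matrix.smul_mulVec,
    Matrix.one_mulVec]
  rw [← h1]
  simp only [D, Pi.sub_apply, Pi.smul_apply, smul_eq_mul]
  ring

private theorem h_exp (P Q : M3) (h : ∀ x, D x (P *ᵥ x) (Q *ᵥ x) = 0) (x y z : ℂ) :
    x * ((P 1 0 * x + P 1 1 * y + P 1 2 * z) * (Q 2 0 * x + Q 2 1 * y + Q 2 2 * z)
        - (P 2 0 * x + P 2 1 * y + P 2 2 * z) * (Q 1 0 * x + Q 1 1 * y + Q 1 2 * z))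
      + y * ((P 2 0 * x + P 2 1 * y + P 2 2 * z) * (Q 0 0 * x + Q 0 1 * y + Q 0 2 * z)
        - (P 0 0 * x + P 0 1 * y + P 0 2 * z) * (Q 2 0 * x + Q 2 1 * y + Q 2 2 * z))
      + z * ((P 0 0 * x + P 0 1 * y + P 0 2 * z) * (Q 1 0 * x + Q 1 1 * y + Q 1 2 * z)
        - (P 1 0 * x + P 1 1 * y + P 1 2 * z) * (Q 0 0 * x + Q 0 1 * y + Q 0 2 * z)) = 0 := by
  have h1 := h ![x, y, z]
  simp only [D, Matrix.mulVec, dotProduct, Fin.sum_univ_three, Matrix.cons_val_zero,
    Matrix.cons_val_one, Matrix.cons_val] at h1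
  exact h1

private theorem caseA (P Q : M3) (h : ∀ x, D x (P *ᵥ x) (Q *ᵥ x) = 0)
    (hP0 : P 0 0 = 0) (hP1 : P 1 0 = 0) (hP2 : P 2 0 = 0)
    (hQ0 : Q 0 0 = 0) (hQ1 : Q 1 0 = 1) (hQ2 : Q 2 0 = 0) : RK P Q := by
  have f := h_exp P Q h
  rw [hP0, hP1, hP2, hQ0, hQ1, hQ2] at f
  have p21 : P 2 1 = 0 := by
    linear_combination (-1 / 2) * f 1 1 0 + (-1 / 2) * f (-1) 1 0 + f 0 1 0
  have p22 : P 2 2 = 0 := by
    linear_combination (-1 / 2) * f 1 0 1 + (-1 / 2) * f (-1) 0 1 + f 0 0 1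
  rw [p21, p22] at f
  have e1 : P 1 1 * Q 2 1 = 0 := by
    linear_combination (1 / 2) * f 1 1 0 + (-1 / 2) * f (-1) 1 0
  have e2 : P 1 2 * Q 2 2 + P 0 2 = 0 := by
    linear_combination (1 / 2) * f 1 0 1 + (-1 / 2) * f (-1) 0 1
  have e3 : P 1 1 * Q 2 2 + P 1 2 * Q 2 1 + P 0 1 = 0 := by
    linear_combination (1 / 2) * f 1 1 1 + (-1 / 2) * f (-1) 1 1 - e1 - e2
  have e4 : P 0 1 * Q 2 1 = 0 := by
    linear_combination - f 0 1 0
  have e5 : P 1 2 * Q 2 1 = 0 := by
    have : P 1 2 * Q 2 1 * Q 2 1 = 0 := by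
      linear_combination Q 2 1 * e3 - e4 - Q 2 2 * e1
    rcases mul_eq_zero.mp this with h1 | h1
    · exact h1
    · rw [h1, mul_zero]
  have e6 : P 0 1 * P 1 2 = P 0 2 * P 1 1 := by
    linear_combination P 1 2 * e3 - P 1 1 * e2 - P 1 2 * e5
  obtain ⟨a, φ, hE⟩ := rank1_of_minors P (by
    intro i j k l
    fin_cases i <;> fin_cases k <;> fin_cases j <;> fin_cases l <;>
      simp only [Fin.zero_eta, Fin.mk_one, Fin.reduceFinMk, hP0, hP1, hP2, p21, p22,
        mul_zero, zero_mul] <;>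
      first
        | ring1
        | linear_combination e6
        | linear_combination -e6)
  exact ⟨1, 0, 0, a, φ, Or.inl one_ne_zero, by rw [← hE]; simp⟩

private theorem caseB (P Q : M3) (h : ∀ x, D x (P *ᵥ x) (Q *ᵥ x) = 0)
    (hP0 : P 0 0 = 0) (hP1 : P 1 0 = 0) (hP2 : P 2 0 = 0)
    (hQ0 : Q 0 0 = 0) (hQ1 : Q 1 0 = 0) (hQ2 : Q 2 0 = 0) : RK P Q := by
  have f := h_exp P Q h
  rw [hP0, hP1, hP2, hQ0, hQ1, hQ2] at f
  have hdot : ∀ (X : M3) (i : Fin 3) (t : V3), X i 0 = 0 → (X i) ⬝ᵥ t = X i 1 * t 1 + X i 2 * t 2 := by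
    intro X i t hX
    simp only [dotProduct, Fin.sum_univ_three, hX, zero_mul, zero_add]
  rcases forms2 (P 1) (P 2) (Q 1) (Q 2) (by
      intro t
      rw [hdot P 1 t hP1, hdot P 2 t hP2, hdot Q 1 t hQ1, hdot Q 2 t hQ2]
      linear_combination (1 / 2) * f 1 (t 1) (t 2) + (-1 / 2) * f (-1) (t 1) (t 2)) with
    ⟨k, l, hkl, h1, h2⟩ | ⟨k, l, hkl, h1, h2⟩
  · refine ⟨k, l, 0, ![1, 0, 0], k • P 0 + l • Q 0, hkl, ?_⟩
    ext i j
    have h1j := congrFun h1 j
    have h2j := congrFun h2 j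
    simp only [Pi.add_apply, Pi.smul_apply, smul_eq_mul, Pi.zero_apply] at h1j h2j
    fin_cases i
    · simp
    · simp [h1j]
    · simp [h2j]
  · have hβ : ∀ X : M3, k • X 1 + l • X 2 = 0 → ∃ β : V3, X 1 = l • β ∧ X 2 = -k • β := by
      intro X hX
      by_cases hl : l = 0
      · have hk : k ≠ 0 := by
          rcases hkl with hk | hk
          · exact hk
          · exact absurd hl hk
        refine ⟨-k⁻¹ • X 2, ?_, ?_⟩
        · rw [hl, zero_smul, add_zero] at hX
          rw [(smul_eq_zero.mp hX).resolve_left hk, hl, zero_smul]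
        · rw [smul_smul]
          have : -k * -k⁻¹ = 1 := by field_simp
          rw [this, one_smul]
      · refine ⟨l⁻¹ • X 1, ?_, ?_⟩
        · rw [smul_smul, mul_inv_cancel₀ hl, one_smul]
        · have e : X 2 = l⁻¹ • (l • X 2) := by rw [smul_smul, inv_mul_cancel₀ hl, one_smul]
          have e' : l • X 2 = -(k • X 1) := by
            rw [add_comm] at hX
            exact eq_neg_of_add_eq_zero_left hX
          rw [e, e']
          module
    obtain ⟨β, hβ1, hβ2⟩ := hβ P h1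
    obtain ⟨β', hβ1', hβ2'⟩ := hβ Q h2
    have hP1' : ∀ j, P 1 j = l * β j := fun j => congrFun hβ1 j
    have hP2' : ∀ j, P 2 j = -k * β j := fun j => congrFun hβ2 j
    have hQ1' : ∀ j, Q 1 j = l * β' j := fun j => congrFun hβ1' j
    have hQ2' : ∀ j, Q 2 j = -k * β' j := fun j => congrFun hβ2' j
    have hz : ∀ γ : V3, (l * γ 0 = 0) → (-k * γ 0 = 0) → γ 0 = 0 := by
      intro γ g1 g2
      rcases hkl with hk | hk
      · exact (mul_eq_zero.mp g2).resolve_left (neg_ne_zero.mpr hk)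
      · exact (mul_eq_zero.mp g1).resolve_left hk
    have hβ0 : β 0 = 0 := hz β (by rw [← hP1', hP1]) (by rw [← hP2', hP2])
    have hβ0' : β' 0 = 0 := hz β' (by rw [← hQ1', hQ1]) (by rw [← hQ2', hQ2])
    have hG : ∀ t : V3, (P 0 ⬝ᵥ t) * (β' ⬝ᵥ t) = (β ⬝ᵥ t) * (Q 0 ⬝ᵥ t) := by
      have LPdot : ∀ a : V3, LP (fun t : V3 => a ⬝ᵥ t) := by
        intro a x v
        refine ⟨Polynomial.C (a ⬝ᵥ x) + Polynomial.X * Polynomial.C (a ⬝ᵥ v), fun t => ?_⟩
        simp only [dotProduct_add, dotProduct_smul]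
        simp
        ring
      rcases LP.mul_eq_zero (LPdot ![0, k, l])
        (LP.sub (LP.mul (LPdot (P 0)) (LPdot β')) (LP.mul (LPdot β) (LPdot (Q 0)))) (by
          intro t
          have ft := f 0 (t 1) (t 2)
          simp only [hP1', hP2', hQ1', hQ2'] at ft
          simp only [dotProduct, Fin.sum_univ_three, hβ0, hβ0', hP0, hQ0, Matrix.cons_val_zero,
            Matrix.cons_val_one, Matrix.cons_val]
          linear_combination ft) with g | g
      · exfalso
        have g1 := g (Pi.single 1 1)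
        have g2 := g (Pi.single 2 1)
        simp at g1 g2
        rcases hkl with hk | hk
        · exact hk g1
        · exact hk g2
      · intro t
        exact sub_eq_zero.mp (g t)
    rcases forms2 (P 0) β (Q 0) β' hG with ⟨k', l', hkl', g1, g2⟩ | ⟨k', l', hkl', g1, g2⟩
    · refine ⟨k', l', 0, 0, 0, hkl', ?_⟩
      ext i j
      have g1j := congrFun g1 j
      have g2j := congrFun g2 j
      simp only [Pi.add_apply, Pi.smul_apply, smul_eq_mul, Pi.zero_apply] at g1j g2j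
      fin_cases i
      · simpa [vecMulVec_apply] using g1j
      · simp only [Fin.mk_one, Matrix.add_apply, Matrix.smul_apply, smul_eq_mul, vecMulVec_apply,
          Pi.zero_apply, zero_mul, hP1', hQ1']
        linear_combination l * g2j
      · simp only [Fin.reduceFinMk, Matrix.add_apply, Matrix.smul_apply, smul_eq_mul,
          vecMulVec_apply, Pi.zero_apply, zero_mul, hP2', hQ2']
        linear_combination (-k) * g2j
    · by_cases hk' : k' = 0
      · have hl' : l' ≠ 0 := by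
          rcases hkl' with hh | hh
          · exact absurd hk' hh
          · exact hh
        rw [hk', zero_smul, zero_add] at g1
        have hb : β = 0 := (smul_eq_zero.mp g1).resolve_left hl'
        refine ⟨1, 0, 0, ![1, 0, 0], P 0, Or.inl one_ne_zero, ?_⟩
        ext i j
        fin_cases i
        · simp
        · simp [hP1', hb]
        · simp [hP2', hb]
      · refine ⟨1, 0, 0, ![-l' / k', l, -k], β, Or.inl one_ne_zero, ?_⟩
        ext i j
        have g1j := congrFun g1 j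
        simp only [Pi.add_apply, Pi.smul_apply, smul_eq_mul, Pi.zero_apply] at g1j
        fin_cases i
        · simp only [Fin.zero_eta, one_smul, zero_smul, add_zero, vecMulVec_apply,
            Matrix.cons_val_zero]
          field_simp
          linear_combination g1j
        · simp [hP1']
        · simp [hP2']

private theorem LP_q (Q : M3) (u : V3) : LP (fun x : V3 => D x u (Q *ᵥ x)) := by
  intro x v
  refine ⟨Polynomial.C (D x u (Q *ᵥ x)) + Polynomial.X * Polynomial.C (D v u (Q *ᵥ x) +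
    D x u (Q *ᵥ v)) + Polynomial.X ^ 2 * Polynomial.C (D v u (Q *ᵥ v)), fun t => ?_⟩
  simp only [Polynomial.eval_add, Polynomial.eval_mul, Polynomial.eval_C, Polynomial.eval_X,
    Polynomial.eval_pow, Matrix.mulVec_add, Matrix.mulVec_smul]
  simp only [D, Pi.add_apply, Pi.smul_apply, smul_eq_mul]
  ring

private theorem LP_dot (a : V3) : LP (fun t : V3 => a ⬝ᵥ t) := by
  intro x v
  refine ⟨Polynomial.C (a ⬝ᵥ x) + Polynomial.X * Polynomial.C (a ⬝ᵥ v), fun t => ?_⟩
  simp only [dotProduct_add, dotProduct_smul]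
  simp
  ring

private theorem drop_form (φ : V3) (hφ : φ ≠ 0) (Q : M3) (u : V3)
    (h : ∀ x : V3, (φ ⬝ᵥ x) * D x u (Q *ᵥ x) = 0) : ∀ x, D x u (Q *ᵥ x) = 0 := by
  rcases LP.mul_eq_zero (LP_dot φ) (LP_q Q u) h with g | g
  · exact absurd (dot_zero g) hφ
  · exact g

private theorem scalar_mod (u : V3) (hu : u ≠ 0) (Q : M3) (h : ∀ x, D x u (Q *ᵥ x) = 0) :
    ∃ ψ : V3, ∃ c : ℂ, Q = vecMulVec u ψ + c • (1 : M3) := by
  obtain ⟨S, T, hST, hTS, hSu⟩ := frame_vec u hu
  have h' : ∀ x, D x ![1, 0, 0] ((S * Q * T) *ᵥ x) = 0 := by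
    intro x
    have h1 : S *ᵥ (T *ᵥ x) = x := by rw [Matrix.mulVec_mulVec, hST, Matrix.one_mulVec]
    have h2 : (S * Q * T) *ᵥ x = S *ᵥ (Q *ᵥ (T *ᵥ x)) := by
      rw [Matrix.mulVec_mulVec, Matrix.mulVec_mulVec, mul_assoc]
    have h3 := D_mulVec S (T *ᵥ x) u (Q *ᵥ (T *ᵥ x))
    rw [h1, hSu, ← h2, h, mul_zero] at h3
    exact h3
  generalize hR : S * Q * T = R at h'
  have f : ∀ x y z : ℂ, z * (R 1 0 * x + R 1 1 * y + R 1 2 * z)
      - y * (R 2 0 * x + R 2 1 * y + R 2 2 * z) = 0 := by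
    intro x y z
    have h1 := h' ![x, y, z]
    simp only [D, Matrix.mulVec, dotProduct, Fin.sum_univ_three, Matrix.cons_val_zero,
      Matrix.cons_val_one, Matrix.cons_val] at h1
    linear_combination h1
  have r21 : R 2 1 = 0 := by linear_combination - f 0 1 0
  have r12 : R 1 2 = 0 := by linear_combination f 0 0 1
  have r20 : R 2 0 = 0 := by linear_combination - f 1 1 0 - r21
  have r10 : R 1 0 = 0 := by linear_combination f 1 0 1 - r12
  have r22 : R 2 2 = R 1 1 := by linear_combination - f 0 1 1 + r12 - r21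
  have hRE : R = vecMulVec ![1, 0, 0] ![R 0 0 - R 1 1, R 0 1, R 0 2] + (R 1 1) • (1 : M3) := by
    ext i j
    fin_cases i <;> fin_cases j <;> simp [r21, r12, r20, r10, r22]
  have hQ : Q = T * R * S := by
    rw [← hR]
    calc Q = (T * S) * Q * (T * S) := by rw [hTS, one_mul, mul_one]
      _ = T * (S * Q * T) * S := by simp only [mul_assoc]
  have hTu : T *ᵥ ![1, 0, 0] = u := by rw [← hSu, Matrix.mulVec_mulVec, hTS, Matrix.one_mulVec]
  refine ⟨![R 0 0 - R 1 1, R 0 1, R 0 2] ᵥ* S, R 1 1, ?_⟩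
  rw [hQ]
  conv_lhs => rw [hRE]
  rw [mul_add, add_mul, Matrix.mul_smul, Matrix.smul_mul, mul_one, hTS]
  congr 1
  rw [← hTu]
  ext i j
  simp only [Matrix.mul_apply, vecMulVec_apply, Matrix.mulVec, Matrix.vecMul, dotProduct,
    Fin.sum_univ_three]
  ring

private theorem RK_of_h (P Q : M3) (h : ∀ x, D x (P *ᵥ x) (Q *ᵥ x) = 0) : RK P Q := by
  obtain ⟨lam, hlam⟩ := Module.End.exists_eigenvalue (Matrix.toLin' P)
  obtain ⟨e, he⟩ := hlam.exists_hasEigenvector
  have he0 : e ≠ 0 := he.2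
  have hPe : P *ᵥ e = lam • e := by
    have := he.apply_eq_smul
    rwa [Matrix.toLin'_apply] at this
  obtain ⟨S, T, hST, hTS, hSe⟩ := frame_vec e he0
  apply RK_conj P Q S T hTS
  have h1 := h_conj P Q S T hST h
  have hcol : (S * P * T) *ᵥ ![1, 0, 0] = lam • ![1, 0, 0] := by
    rw [← Matrix.mulVec_mulVec, ← Matrix.mulVec_mulVec, ← hSe, Matrix.mulVec_mulVec e T S, hTS,
      Matrix.one_mulVec, hPe, Matrix.mulVec_smul]
  generalize S * P * T = P' at h1 hcol ⊢
  generalize S * Q * T = Q' at h1 ⊢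
  apply RK_shift P' Q' lam (Q' 0 0)
  have h2 := h_shift P' Q' lam (Q' 0 0) h1
  have c0 := congrFun hcol 0
  have c1 := congrFun hcol 1
  have c2 := congrFun hcol 2
  simp [Matrix.mulVec, dotProduct, Fin.sum_univ_three] at c0 c1 c2
  have hP0 : (P' - lam • (1 : M3)) 0 0 = 0 := by simp [c0]
  have hP1 : (P' - lam • (1 : M3)) 1 0 = 0 := by simp [c1]
  have hP2 : (P' - lam • (1 : M3)) 2 0 = 0 := by simp [c2]
  have hQ0 : (Q' - (Q' 0 0) • (1 : M3)) 0 0 = 0 := by simp
  generalize P' - lam • (1 : M3) = A at *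
  generalize Q' - (Q' 0 0) • (1 : M3) = B at *
  by_cases hB1 : B 1 0 = 0
  · by_cases hB2 : B 2 0 = 0
    · exact caseB A B h2 hP0 hP1 hP2 hQ0 hB1 hB2
    · let S' : M3 := !![1, 0, 0; 0, 0, (B 2 0)⁻¹; 0, 1, 0]
      let T' : M3 := !![1, 0, 0; 0, 0, 1; 0, B 2 0, 0]
      have hST' : S' * T' = 1 := by
        ext i j
        fin_cases i <;> fin_cases j <;>
          simp [S', T', Matrix.mul_apply, Fin.sum_univ_three, hB2]
      have hTS' : T' * S' = 1 := by
        ext i j
        fin_cases i <;> fin_cases j <;>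
          simp [S', T', Matrix.mul_apply, Fin.sum_univ_three, hB2]
      apply RK_conj A B S' T' hTS'
      apply caseA _ _ (h_conj A B S' T' hST' h2)
      all_goals
        simp only [Matrix.mul_apply, Fin.sum_univ_three]
        simp [S', T', hP0, hP1, hP2, hQ0, hB1, hB2]
  · let S' : M3 := !![1, 0, 0; 0, (B 1 0)⁻¹, 0; 0, -B 2 0, B 1 0]
    let T' : M3 := !![1, 0, 0; 0, B 1 0, 0; 0, B 2 0, (B 1 0)⁻¹]
    have hST' : S' * T' = 1 := by
      ext i j
      fin_cases i <;> fin_cases j <;>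
        simp [S', T', Matrix.mul_apply, Fin.sum_univ_three, hB1]
      ring
    have hTS' : T' * S' = 1 := mul_eq_one_comm.mp hST'
    apply RK_conj A B S' T' hTS'
    apply caseA _ _ (h_conj A B S' T' hST' h2)
    all_goals
      simp only [Matrix.mul_apply, Fin.sum_univ_three]
      simp [S', T', hP0, hP1, hP2, hQ0, hB1]
    try ring

theorem px (P Q : M3) (h : ∀ x, D x (P *ᵥ x) (Q *ᵥ x) = 0) :
    (∃ a b c : ℂ, (a ≠ 0 ∨ b ≠ 0) ∧ a • P + b • Q = c • (1 : M3)) ∨
      ∃ u : V3, u ≠ 0 ∧ (∃ ψ : V3, ∃ c : ℂ, P = vecMulVec u ψ + c • (1 : M3)) ∧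
        ∃ ψ : V3, ∃ c : ℂ, Q = vecMulVec u ψ + c • (1 : M3) := by
  obtain ⟨a, b, c, u, φ, hab, hE⟩ := RK_of_h P Q h
  by_cases hu : u = 0
  · left
    refine ⟨a, b, c, hab, ?_⟩
    rw [hE, hu]
    ext i j
    simp
  by_cases hφ : φ = 0
  · left
    refine ⟨a, b, c, hab, ?_⟩
    rw [hE, hφ]
    ext i j
    simp
  right
  have hx : ∀ x : V3, a • (P *ᵥ x) + b • (Q *ᵥ x) = (φ ⬝ᵥ x) • u + c • x := by
    intro x
    rw [← Matrix.smul_mulVec, ← Matrix.smul_mulVec, ← Matrix.add_mulVec, hE, Matrix.add_mulVec,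
      Matrix.smul_mulVec, Matrix.one_mulVec]
    congr 1
    funext i
    simp only [Matrix.mulVec, dotProduct, vecMulVec_apply, Fin.sum_univ_three, Pi.smul_apply,
      smul_eq_mul]
    ring
  refine ⟨u, hu, ?_, ?_⟩
  · apply scalar_mod u hu
    apply drop_form φ hφ
    intro x
    have h1 := h x
    have h2 := hx x
    have g0 := congrFun h2 0
    have g1 := congrFun h2 1
    have g2 := congrFun h2 2
    simp only [Pi.add_apply, Pi.smul_apply, smul_eq_mul] at g0 g1 g2
    simp only [D] at h1 ⊢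
    generalize P *ᵥ x = p at *
    generalize Q *ᵥ x = q at *
    generalize φ ⬝ᵥ x = s at *
    linear_combination (-b) * h1 - (x 2 * p 1 - x 1 * p 2) * g0 - (x 0 * p 2 - x 2 * p 0) * g1 -
      (x 1 * p 0 - x 0 * p 1) * g2
  · apply scalar_mod u hu
    apply drop_form φ hφ
    intro x
    have h1 := h x
    have h2 := hx x
    have g0 := congrFun h2 0
    have g1 := congrFun h2 1
    have g2 := congrFun h2 2
    simp only [Pi.add_apply, Pi.smul_apply, smul_eq_mul] at g0 g1 g2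
    simp only [D] at h1 ⊢
    generalize P *ᵥ x = p at *
    generalize Q *ᵥ x = q at *
    generalize φ ⬝ᵥ x = s at *
    linear_combination a * h1 - (x 2 * q 1 - x 1 * q 2) * g0 - (x 0 * q 2 - x 2 * q 0) * g1 -
      (x 1 * q 0 - x 0 * q 1) * g2

/-- uniqueness of the vector `u` -/
theorem px_unique (u u' ψ ψ' : V3) (c c' : ℂ) (hψ : ψ ≠ 0) (hu : u ≠ 0)
    (h : vecMulVec u ψ + c • (1 : M3) = vecMulVec u' ψ' + c' • (1 : M3)) :
    ∃ k : ℂ, k ≠ 0 ∧ u' = k • u := by
  have h1 : vecMulVec u ψ + vecMulVec (-u') ψ' = (c' - c) • (1 : M3) := by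
    have e : vecMulVec (-u') ψ' = -vecMulVec u' ψ' := by
      ext i j
      simp [vecMulVec_apply]
    rw [e, sub_smul]
    have e2 : vecMulVec u ψ = vecMulVec u' ψ' + c' • (1 : M3) - c • (1 : M3) := by
      rw [← h]
      abel
    rw [e2]
    abel
  have h2 := scalar_rank2 _ _ _ _ _ h1
  rw [h2, zero_smul] at h1
  obtain ⟨j, hj⟩ := Function.ne_iff.mp hψ
  obtain ⟨i, hi⟩ := Function.ne_iff.mp hu
  have hj' : ψ j ≠ 0 := hj
  have hi' : u i ≠ 0 := hi
  have h3 : ∀ m, u m * ψ j = u' m * ψ' j := by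
    intro m
    have := congrFun (congrFun h1 m) j
    simp only [Matrix.add_apply, vecMulVec_apply, Pi.neg_apply, Matrix.zero_apply] at this
    linear_combination this
  have hψ' : ψ' j ≠ 0 := by
    intro h0
    have := h3 i
    rw [h0, mul_zero] at this
    exact (mul_ne_zero hi' hj') this
  refine ⟨ψ j / ψ' j, div_ne_zero hj' hψ', ?_⟩
  funext m
  simp only [Pi.smul_apply, smul_eq_mul]
  field_simp
  linear_combination - h3 m

end Pool.Agent.Helper93.K3A
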