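import Pool.Agent.Helper93.K3A.Inv
import Pool.Agent.Helper93.K3A.IgA
import Pool.Agent.Helper93.K3A.PX

/-!
K3A / Ib: `det A_e ≠ 0`, `A_w = 0` for all `w` with `g(w) = 0`.  See the memo (I.b).
`G3 = B_e - A_e/3` and `B_w` commute with `A_e`, `tr(ad A_e * G3) = det A_e`, `tr(ad A_e * B_w) = 0`,
`eq3` for `(e,w)` with `t = x` gives `D x (G3 x) (B_w x) = 0`, then `px`.
-/

set_option autoImplicit false

namespace Pool.Agent.Helper93.K3A

open Matrix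

variable {W : Type} [AddCommGroup W] [Module ℂ W]

private theorem vmvr {a φ a' φ' : V3} (h : vecMulVec a φ = vecMulVec a' φ') (ha : a ≠ 0) :
    ∃ c : ℂ, φ = c • φ' := by
  obtain ⟨i, hi⟩ := Function.ne_iff.1 ha
  have hi' : a i ≠ 0 := hi
  refine ⟨a' i / a i, ?_⟩
  funext j
  have h1 := congrFun (congrFun h i) j
  rw [vecMulVec_apply, vecMulVec_apply] at h1
  rw [Pi.smul_apply, smul_eq_mul]
  field_simp
  linear_combination h1

private theorem vmvl {a b φ : V3} (h : vecMulVec a φ = vecMulVec b φ) (hφ : φ ≠ 0) : a = b := by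
  obtain ⟨j, hj⟩ := Function.ne_iff.1 hφ
  have hj' : φ j ≠ 0 := hj
  funext i
  have h1 := congrFun (congrFun h i) j
  rw [vecMulVec_apply, vecMulVec_apply] at h1
  exact mul_right_cancel₀ hj' h1

private theorem mvmv (M : M3) (a φ : V3) : M * vecMulVec a φ = vecMulVec (M *ᵥ a) φ := by
  ext i j
  simp only [Matrix.mul_apply, vecMulVec_apply, Matrix.mulVec, dotProduct, Fin.sum_univ_three]
  ring

private theorem vmvm (M : M3) (a φ : V3) : vecMulVec a φ * M = vecMulVec a (φ ᵥ* M) := by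
  ext i j
  simp only [Matrix.mul_apply, vecMulVec_apply, Matrix.vecMul, dotProduct, Fin.sum_univ_three]
  ring

private theorem tr_vmv (M : M3) (u ψ : V3) (c : ℂ) :
    (M * (vecMulVec u ψ + c • (1 : M3))).trace = ψ ⬝ᵥ (M *ᵥ u) + c * M.trace := by
  rw [Matrix.mul_add, Matrix.trace_add, Matrix.mul_smul, Matrix.mul_one, Matrix.trace_smul,
    smul_eq_mul, mvmv]
  congr 1
  simp only [Matrix.trace, Fin.sum_univ_three, Matrix.diag_apply, vecMulVec_apply, dotProduct]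
  ring

/-- a matrix commuting with `u ⊗ ψ + c` has `u`, `ψ` as eigenvector and eigen-covector -/
private theorem comm_eig (A : M3) (u ψ : V3) (c : ℂ) (hu : u ≠ 0) (hψ : ψ ≠ 0)
    (h : A * (vecMulVec u ψ + c • (1 : M3)) = (vecMulVec u ψ + c • (1 : M3)) * A) :
    ∃ α : ℂ, A *ᵥ u = α • u ∧ ψ ᵥ* A = α • ψ := by
  rw [Matrix.mul_add, Matrix.add_mul, Matrix.mul_smul, Matrix.smul_mul, Matrix.mul_one,
    Matrix.one_mul, mvmv, vmvm] at h
  have h1 := add_right_cancel h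
  obtain ⟨α, hα⟩ := vmvr h1.symm hu
  refine ⟨α, ?_, hα⟩
  apply vmvl (φ := ψ) _ hψ
  rw [h1, hα]
  ext i j
  simp only [vecMulVec_apply, Pi.smul_apply, smul_eq_mul]
  ring

private theorem smul_cancel {u : V3} (hu : u ≠ 0) {a b : ℂ} (h : a • u = b • u) : a = b := by
  obtain ⟨i, hi⟩ := Function.ne_iff.1 hu
  have hi' : u i ≠ 0 := hi
  have h1 := congrFun h i
  simp only [Pi.smul_apply, smul_eq_mul] at h1
  exact mul_right_cancel₀ hi' h1

private theorem Ib_one {S : Dat W} (h : Std S) (e : W) (he : (S.A e).det ≠ 0) (g : W →ₗ[ℂ] ℂ)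
    (hg : g e = 1) (hdet : ∀ y, (S.A y).det = (S.A e).det * (g y) ^ 3)
    (w : W) (hAw : S.A w = 0) (hw0 : w ≠ 0) :
    ∃ u ψ χ : V3, ∃ c c' α : ℂ, u ≠ 0 ∧ ψ ≠ 0 ∧ χ ≠ 0 ∧
      S.B e - (1 / 3 : ℂ) • S.A e = vecMulVec u ψ + c • (1 : M3) ∧
      S.B w = vecMulVec u χ + c' • (1 : M3) ∧ α ≠ 0 ∧ S.A e *ᵥ u = α • u ∧
      ψ ᵥ* S.A e = α • ψ ∧ χ ᵥ* S.A e = α • χ ∧ ψ ⬝ᵥ u = α ∧ χ ⬝ᵥ u = 0 := by
  have hAB := AB_comm h.cl e he g hg hdet e
  have hAQ : S.A e * S.B w = S.B w * S.A e := by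
    have h1 := AB_comm_pol h.cl e he g hg hdet e w
    rw [hAw, Matrix.zero_mul, Matrix.mul_zero, add_zero, add_zero] at h1
    exact h1
  have hGc : S.A e * (S.B e - (1 / 3 : ℂ) • S.A e) = (S.B e - (1 / 3 : ℂ) • S.A e) * S.A e := by
    rw [Matrix.mul_sub, Matrix.sub_mul, hAB, Matrix.mul_smul, Matrix.smul_mul]
  have hD : ∀ x, D x ((S.B e - (1 / 3 : ℂ) • S.A e) *ᵥ x) (S.B w *ᵥ x) = 0 := by
    intro x
    have h4 := eq3 h.cl e w x x
    rw [hAw, Matrix.zero_mulVec] at h4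
    rw [Matrix.sub_mulVec, Matrix.smul_mulVec]
    simp only [D, Pi.sub_apply, Pi.smul_apply, smul_eq_mul, Pi.zero_apply] at h4 ⊢
    linear_combination (1 / 3 : ℂ) * h4
  have hTad : (ad (S.A e)).trace = 0 := by rw [trace_ad]; exact e2A h.cl e
  have hTA : (ad (S.A e) * S.A e).trace = 3 * (S.A e).det := by
    rw [ad_mul, Matrix.trace_smul, Matrix.trace_one]
    simp only [Fintype.card_fin, smul_eq_mul]
    push_cast
    ring
  have hTG : (ad (S.A e) * (S.B e - (1 / 3 : ℂ) • S.A e)).trace = (S.A e).det := by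
    have h6 := twoT h.cl e e
    rw [hTA] at h6
    rw [Matrix.mul_sub, Matrix.trace_sub, Matrix.mul_smul, Matrix.trace_smul, hTA, smul_eq_mul]
    linear_combination (1 / 3 : ℂ) * h6
  have hTQ : (ad (S.A e) * S.B w).trace = 0 := by
    have h6 := twoT h.cl e w
    rw [hAw, Matrix.mul_zero, Matrix.trace_zero, mul_zero] at h6
    exact (mul_eq_zero.1 h6).resolve_left three_ne_zero
  have hQs : ∀ c : ℂ, S.B w ≠ c • (1 : M3) := fun c hc => hw0 (h.nc w ⟨c, hc⟩)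
  rcases px (S.B e - (1 / 3 : ℂ) • S.A e) (S.B w) hD with ⟨a, b, c, hab, hc⟩ | ⟨u, hu, ⟨ψ, c, hG⟩,
    ⟨χ, c', hQ⟩⟩
  · exfalso
    have h1 := congrArg (fun M => (ad (S.A e) * M).trace) hc
    simp only [Matrix.mul_add, Matrix.mul_smul, Matrix.trace_add, Matrix.trace_smul, hTG, hTQ,
      Matrix.mul_one, hTad, smul_eq_mul, mul_zero, add_zero] at h1
    have ha : a = 0 := (mul_eq_zero.1 h1).resolve_right he
    have hb : b ≠ 0 := by
      rcases hab with h2 | h2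
      · exact absurd ha h2
      · exact h2
    rw [ha, zero_smul, zero_add] at hc
    apply hQs (b⁻¹ * c)
    rw [← smul_smul, ← hc, smul_smul, inv_mul_cancel₀ hb, one_smul]
  · have hψ : ψ ≠ 0 := by
      rintro rfl
      rw [hG, tr_vmv, hTad] at hTG
      simp only [zero_dotProduct, mul_zero, add_zero] at hTG
      exact he hTG.symm
    have hχ : χ ≠ 0 := by
      rintro rfl
      apply hQs c'
      rw [hQ]
      ext i j
      simp
    rw [hG] at hGc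
    obtain ⟨α, hα1, hα2⟩ := comm_eig _ u ψ c hu hψ hGc
    rw [hQ] at hAQ
    obtain ⟨β, hβ1, hβ2⟩ := comm_eig _ u χ c' hu hχ hAQ
    have hβ : β = α := smul_cancel hu (by rw [← hα1, ← hβ1])
    rw [hβ] at hβ2
    have hα0 : α ≠ 0 := by
      intro h0
      apply he
      rw [h0, zero_smul] at hα1
      exact Matrix.exists_mulVec_eq_zero_iff.1 ⟨u, hu, hα1⟩
    have had : α • (ad (S.A e) *ᵥ u) = (S.A e).det • u := by
      rw [← Matrix.mulVec_smul, ← hα1, Matrix.mulVec_mulVec, ad_mul, Matrix.smul_mulVec,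
        Matrix.one_mulVec]
    have hdp : ∀ ρ : V3, α * (ρ ⬝ᵥ (ad (S.A e) *ᵥ u)) = (S.A e).det * (ρ ⬝ᵥ u) := by
      intro ρ
      have := congrArg (fun v => ρ ⬝ᵥ v) had
      simpa only [dotProduct_smul, smul_eq_mul] using this
    refine ⟨u, ψ, χ, c, c', α, hu, hψ, hχ, hG, hQ, hα0, hα1, hα2, hβ2, ?_, ?_⟩
    · rw [hG, tr_vmv, hTad, mul_zero, add_zero] at hTG
      have h1 := hdp ψ
      rw [hTG] at h1
      apply mul_left_cancel₀ he
      linear_combination -h1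
    · rw [hQ, tr_vmv, hTad, mul_zero, add_zero] at hTQ
      have h1 := hdp χ
      rw [hTQ, mul_zero] at h1
      exact (mul_eq_zero.1 h1.symm).resolve_left he

/-- two left eigen-covectors killing `u` are proportional -/
private theorem prop_cov (A : M3) (u ψ χ χ' : V3) (α : ℂ) (hα : α ≠ 0) (h2 : e2 A = 0)
    (hψ : ψ ᵥ* A = α • ψ) (hχ : χ ᵥ* A = α • χ) (hχ' : χ' ᵥ* A = α • χ') (hψu : ψ ⬝ᵥ u = α)
    (hχu : χ ⬝ᵥ u = 0) (hχ'u : χ' ⬝ᵥ u = 0) (hχ0 : χ ≠ 0) : ∃ m : ℂ, χ' = m • χ := by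
  have e1 := fun i => congrFun hψ i
  have f1 := fun i => congrFun hχ i
  have g1 := fun i => congrFun hχ' i
  simp only [Matrix.vecMul, dotProduct, Fin.sum_univ_three, Pi.smul_apply, smul_eq_mul]
    at e1 f1 g1 hψu hχu hχ'u
  have hDN : ∀ i j, D ψ χ χ' * (A i j - α * (1 : M3) i j) = 0 := by
    intro i j
    have h3 := e1 j
    have h4 := f1 j
    have h5 := g1 j
    fin_cases i <;> fin_cases j <;>
      simp [D, Matrix.one_apply, -mul_eq_zero] at h3 h4 h5 ⊢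
    · linear_combination (χ 1 * χ' 2 - χ 2 * χ' 1) * h3 - (ψ 1 * χ' 2 - ψ 2 * χ' 1) * h4 +
        (ψ 1 * χ 2 - ψ 2 * χ 1) * h5
    · linear_combination (χ 1 * χ' 2 - χ 2 * χ' 1) * h3 - (ψ 1 * χ' 2 - ψ 2 * χ' 1) * h4 +
        (ψ 1 * χ 2 - ψ 2 * χ 1) * h5
    · linear_combination (χ 1 * χ' 2 - χ 2 * χ' 1) * h3 - (ψ 1 * χ' 2 - ψ 2 * χ' 1) * h4 +
        (ψ 1 * χ 2 - ψ 2 * χ 1) * h5
    · linear_combination (χ 2 * χ' 0 - χ 0 * χ' 2) * h3 - (ψ 2 * χ' 0 - ψ 0 * χ' 2) * h4 +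
        (ψ 2 * χ 0 - ψ 0 * χ 2) * h5
    · linear_combination (χ 2 * χ' 0 - χ 0 * χ' 2) * h3 - (ψ 2 * χ' 0 - ψ 0 * χ' 2) * h4 +
        (ψ 2 * χ 0 - ψ 0 * χ 2) * h5
    · linear_combination (χ 2 * χ' 0 - χ 0 * χ' 2) * h3 - (ψ 2 * χ' 0 - ψ 0 * χ' 2) * h4 +
        (ψ 2 * χ 0 - ψ 0 * χ 2) * h5
    · linear_combination (χ 0 * χ' 1 - χ 1 * χ' 0) * h3 - (ψ 0 * χ' 1 - ψ 1 * χ' 0) * h4 +
        (ψ 0 * χ 1 - ψ 1 * χ 0) * h5
    · linear_combination (χ 0 * χ' 1 - χ 1 * χ' 0) * h3 - (ψ 0 * χ' 1 - ψ 1 * χ' 0) * h4 +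
        (ψ 0 * χ 1 - ψ 1 * χ 0) * h5
    · linear_combination (χ 0 * χ' 1 - χ 1 * χ' 0) * h3 - (ψ 0 * χ' 1 - ψ 1 * χ' 0) * h4 +
        (ψ 0 * χ 1 - ψ 1 * χ 0) * h5
  have hD0 : D ψ χ χ' = 0 := by
    by_contra hne
    have hA : ∀ i j, A i j = α * (1 : M3) i j := fun i j =>
      sub_eq_zero.1 ((mul_eq_zero.1 (hDN i j)).resolve_left hne)
    rw [e2] at h2
    simp only [hA] at h2
    simp [Matrix.one_apply] at h2
    apply hα
    have h6 : α ^ 2 = 0 := by linear_combination (1 / 3 : ℂ) * h2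
    exact pow_eq_zero_iff two_ne_zero |>.1 h6
  have hc0 : α * (χ 1 * χ' 2 - χ 2 * χ' 1) = 0 := by
    simp only [D] at hD0
    linear_combination u 0 * hD0 - (χ 1 * χ' 2 - χ 2 * χ' 1) * hψu -
      (χ' 1 * ψ 2 - χ' 2 * ψ 1) * hχu - (ψ 1 * χ 2 - ψ 2 * χ 1) * hχ'u
  have hc1 : α * (χ 2 * χ' 0 - χ 0 * χ' 2) = 0 := by
    simp only [D] at hD0
    linear_combination u 1 * hD0 - (χ 2 * χ' 0 - χ 0 * χ' 2) * hψu -
      (χ' 2 * ψ 0 - χ' 0 * ψ 2) * hχu - (ψ 2 * χ 0 - ψ 0 * χ 2) * hχ'u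
  have hc2 : α * (χ 0 * χ' 1 - χ 1 * χ' 0) = 0 := by
    simp only [D] at hD0
    linear_combination u 2 * hD0 - (χ 0 * χ' 1 - χ 1 * χ' 0) * hψu -
      (χ' 0 * ψ 1 - χ' 1 * ψ 0) * hχu - (ψ 0 * χ 1 - ψ 1 * χ 0) * hχ'u
  have k0 := (mul_eq_zero.1 hc0).resolve_left hα
  have k1 := (mul_eq_zero.1 hc1).resolve_left hα
  have k2 := (mul_eq_zero.1 hc2).resolve_left hα
  have hall : ∀ i j : Fin 3, χ' i * χ j = χ' j * χ i := by
    intro i j
    fin_cases i <;> fin_cases j <;> simp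
    · linear_combination -k2
    · linear_combination k1
    · linear_combination k2
    · linear_combination -k0
    · linear_combination -k1
    · linear_combination k0
  obtain ⟨j, hj⟩ := Function.ne_iff.1 hχ0
  have hj' : χ j ≠ 0 := hj
  refine ⟨χ' j / χ j, ?_⟩
  funext i
  rw [Pi.smul_apply, smul_eq_mul]
  field_simp
  exact hall i j

theorem Ib {S : Dat W} (h : Std S) (e : W) (he : (S.A e).det ≠ 0) (g : W →ₗ[ℂ] ℂ)
    (hg : g e = 1) (hdet : ∀ y, (S.A y).det = (S.A e).det * (g y) ^ 3)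
    (htr : ∀ y w, (ad (S.A y) * S.A w).trace = 3 * (S.A e).det * (g y) ^ 2 * g w)
    (h0 : ∀ w, g w = 0 → S.A w = 0) : ∃ φ, C12 S φ g := by
  obtain ⟨w0, hw0, hne⟩ : ∃ w0, g w0 = 0 ∧ w0 ≠ 0 := by
    by_contra hcon
    push Not at hcon
    have hinj : Function.Injective g := (injective_iff_map_eq_zero g).2 hcon
    have h1 := LinearMap.finrank_le_finrank_of_injective hinj
    rw [Module.finrank_self] at h1
    have := h.dim
    omega
  obtain ⟨u, ψ, χ, c, c', α, hu, hψ, hχ, hG, hQ, hα, hα1, hα2, hα3, hψu, hχu⟩ :=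
    Ib_one h e he g hg hdet w0 (h0 w0 hw0) hne
  have hvv : ∀ a' : V3, χ ⬝ᵥ a' = 0 → χ ᵥ* vecMulVec a' χ = 0 := by
    intro a' ha'
    funext j
    have h4 : (χ ᵥ* vecMulVec a' χ) j = (χ ⬝ᵥ a') * χ j := by
      simp only [Matrix.vecMul, dotProduct, vecMulVec_apply, Fin.sum_univ_three]
      ring
    rw [h4, ha', zero_mul]
    rfl
  have key : ∀ w', g w' = 0 → (∃ a, χ ⬝ᵥ a = 0 ∧ S.A w' = vecMulVec a χ) ∧
      ∃ b, ∃ c : ℂ, χ ⬝ᵥ b = 0 ∧ S.B w' = vecMulVec b χ + c • (1 : M3) := by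
    intro w' hw'
    refine ⟨⟨0, by simp, by rw [h0 w' hw']; ext i j; simp [vecMulVec_apply]⟩, ?_⟩
    by_cases hz : w' = 0
    · refine ⟨0, 0, by simp, ?_⟩
      rw [hz, map_zero]
      ext i j
      simp [vecMulVec_apply]
    obtain ⟨u', ψ', χ', d, d', β, hu', hψ', hχ', hG', hQ', hβ, hβ1, hβ2, hβ3, hψu', hχu'⟩ :=
      Ib_one h e he g hg hdet w' (h0 w' hw') hz
    obtain ⟨k, hk, hku⟩ := px_unique u u' ψ ψ' c d hψ hu (by rw [← hG, ← hG'])
    have hβα : β = α := by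
      apply smul_cancel hu'
      rw [← hβ1, hku, Matrix.mulVec_smul, hα1, smul_comm]
    rw [hβα] at hβ3
    have hχu2 : χ' ⬝ᵥ u = 0 := by
      rw [hku, dotProduct_smul, smul_eq_mul] at hχu'
      exact (mul_eq_zero.1 hχu').resolve_left hk
    obtain ⟨m, hm⟩ := prop_cov (S.A e) u ψ χ χ' α hα (e2A h.cl e) hα2 hα3 hβ3 hψu hχu hχu2 hχ
    refine ⟨(k * m) • u, d', ?_, ?_⟩
    · rw [dotProduct_smul, hχu, smul_zero]
    · rw [hQ', hku, hm]
      congr 1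
      ext i j
      simp only [vecMulVec_apply, Pi.smul_apply, smul_eq_mul]
      ring
  have hdec : ∀ y, ∃ w', g w' = 0 ∧ y = g y • e + w' := fun y =>
    ⟨y - g y • e, by rw [map_sub, map_smul, hg, smul_eq_mul, mul_one, sub_self], by abel⟩
  have hχB : χ ᵥ* S.B e = (c + α / 3) • χ := by
    have h1 : S.B e = (S.B e - (1 / 3 : ℂ) • S.A e) + (1 / 3 : ℂ) • S.A e := by abel
    have h2 : χ ᵥ* vecMulVec u ψ = 0 := by
      funext j
      have h4 : (χ ᵥ* vecMulVec u ψ) j = (χ ⬝ᵥ u) * ψ j := by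
        simp only [Matrix.vecMul, dotProduct, vecMulVec_apply, Fin.sum_univ_three]
        ring
      rw [h4, hχu, zero_mul]
      rfl
    rw [h1, hG, Matrix.vecMul_add, Matrix.vecMul_add, h2, zero_add, Matrix.vecMul_smul,
      Matrix.vecMul_one, Matrix.vecMul_smul, hα3, smul_smul, ← add_smul]
    congr 1
    ring
  refine ⟨χ, hχ, fun y => ?_, fun y => ?_, key⟩
  · obtain ⟨w', hw', hy⟩ := hdec y
    refine ⟨g y * α, ?_⟩
    have h1 : S.A y = g y • S.A e := by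
      conv_lhs => rw [hy, map_add, map_smul, h0 w' hw', add_zero]
    rw [h1, Matrix.vecMul_smul, hα3, smul_smul]
  · obtain ⟨w', hw', hy⟩ := hdec y
    obtain ⟨-, b', c2, hb', hB'⟩ := key w' hw'
    refine ⟨g y * (c + α / 3) + c2, ?_⟩
    have h1 : S.B y = g y • S.B e + S.B w' := by
      conv_lhs => rw [hy, map_add, map_smul]
    rw [h1, hB', Matrix.vecMul_add, Matrix.vecMul_add, hvv b' hb', zero_add, Matrix.vecMul_smul,
      Matrix.vecMul_smul, Matrix.vecMul_one, hχB, smul_smul, ← add_smul]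

end Pool.Agent.Helper93.K3A
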