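import Pool.Agent.Helper93.K3A.Inv
import Pool.Agent.Helper93.K3A.TwoL
import Pool.Agent.Helper93.K3A.PX
import Pool.Agent.Helper93.K3A.IgA
import Pool.Agent.Helper93.K3A.Ia
import Pool.Agent.Helper93.K3A.Ib

/-!
K3A / CaseI: `det A ≠ 0`: assembly.
-/

set_option autoImplicit false

namespace Pool.Agent.Helper93.K3A

open Matrix

variable {W : Type} [AddCommGroup W] [Module ℂ W]

theorem caseI {S : Dat W} (h : Std S) (e : W) (he : (S.A e).det ≠ 0) : ∃ φ g, C12 S φ g := by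
  obtain ⟨g, hg, hdet, htr⟩ := Ig h.cl e he
  by_cases h0 : ∃ w, g w = 0 ∧ S.A w ≠ 0
  · obtain ⟨w, hw, hAw⟩ := h0
    obtain ⟨φ, hφ⟩ := Ia h e he g hg hdet htr w hw hAw
    exact ⟨φ, g, hφ⟩
  · push Not at h0
    obtain ⟨φ, hφ⟩ := Ib h e he g hg hdet htr h0
    exact ⟨φ, g, hφ⟩

end Pool.Agent.Helper93.K3A
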