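import Pool.Agent.Helper93.K3A.Inv

/-!
K3A / LX: LEMMA X of the memo.  Coordinates `φ = e_3` (index 2), `z = x_3`.
`α_3 = 0`, `α_2 = 2 s dz + z ds`, `α_1 = df + k s dz`; i.e. the rows of `A_y` are
`f_y + k s(y) e_3*`, `2 s(y) e_3*`, `0`, the rows of `B_y` are `f_y`, `s(y) e_3*`, `0`.
All equations are (4) (`eq4`) for suitable `w`, evaluated on basis vectors:
 w with s(w) = 0, f_w ≠ 0:  `dκ_1 = 0`;  w = e with s(e) = 1:  `z dκ_2 = dz ∧ (κ_2 + k κ_1)` (after using `dκ_1 = 0`).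
Consequences for `C_3` (third row of C): `C_3 = l(x) dz + z ζ` with `l = λ z`: then `φ(η) = z ζ'` and
`no_factor` gives the contradiction.
-/

set_option autoImplicit false

namespace Pool.Agent.Helper93.K3A

open Matrix

variable {W : Type} [AddCommGroup W] [Module ℂ W]

/-- the bilinear form `(C(x) t)_i` in coordinates -/
private def cc (c0 c1 c2 : M3) (i : Fin 3) (x t : V3) : ℂ :=
  x 0 * (c0 i 0 * t 0 + c0 i 1 * t 1 + c0 i 2 * t 2) + x 1 * (c1 i 0 * t 0 + c1 i 1 * t 1 + c1 i 2 * t 2)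
    + x 2 * (c2 i 0 * t 0 + c2 i 1 * t 1 + c2 i 2 * t 2)

private theorem C_cc (S : Dat W) (x t : V3) (i : Fin 3) : (S.C x *ᵥ t) i =
    cc (S.C ![1, 0, 0]) (S.C ![0, 1, 0]) (S.C ![0, 0, 1]) i x t := by
  have hx : x = x 0 • ![1, 0, 0] + x 1 • ![0, 1, 0] + x 2 • ![0, 0, 1] := by
    funext j
    fin_cases j <;> simp
  have h1 : S.C x = x 0 • S.C ![1, 0, 0] + x 1 • S.C ![0, 1, 0] + x 2 • S.C ![0, 0, 1] := by
    conv_lhs => rw [hx]
    rw [map_add, map_add, map_smul, map_smul, map_smul]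
  rw [h1]
  simp only [cc, Matrix.mulVec, dotProduct, Fin.sum_univ_three, Matrix.add_apply, Matrix.smul_apply,
    smul_eq_mul]
  ring

/-- the exterior derivative of `κ_1` -/
private def dk1 (c0 c1 c2 : M3) (x t1 t2 : V3) : ℂ :=
  t1 2 * cc c0 c1 c2 1 x t2 - t1 1 * cc c0 c1 c2 2 x t2 + (x 2 * cc c0 c1 c2 1 t1 t2
    - x 1 * cc c0 c1 c2 2 t1 t2) - (t2 2 * cc c0 c1 c2 1 x t1 - t2 1 * cc c0 c1 c2 2 x t1)
    - (x 2 * cc c0 c1 c2 1 t2 t1 - x 1 * cc c0 c1 c2 2 t2 t1)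

theorem lx {S : Dat W} (h : Std S) (f : W →ₗ[ℂ] V3) (s : W →ₗ[ℂ] ℂ) (k : ℂ) (hs : s ≠ 0)
    (hf : ∃ w, s w = 0 ∧ f w ≠ 0)
    (hA : ∀ y, S.A y = !![f y 0, f y 1, f y 2 + k * s y; 0, 0, 2 * s y; 0, 0, 0])
    (hB : ∀ y, S.B y = !![f y 0, f y 1, f y 2; 0, 0, s y; 0, 0, 0]) : False := by
  have hA0 : ∀ y t, (S.A y *ᵥ t) 0 = f y 0 * t 0 + f y 1 * t 1 + (f y 2 + k * s y) * t 2 := by
    intro y t
    simp [hA, Matrix.mulVec, dotProduct, Fin.sum_univ_three]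
  have hA1 : ∀ y t, (S.A y *ᵥ t) 1 = 2 * s y * t 2 := by
    intro y t
    simp [hA, Matrix.mulVec, dotProduct, Fin.sum_univ_three]
  have hA2 : ∀ y t, (S.A y *ᵥ t) 2 = 0 := by
    intro y t
    simp [hA, Matrix.mulVec, dotProduct, Fin.sum_univ_three]
  have hB0 : ∀ y t, (S.B y *ᵥ t) 0 = f y 0 * t 0 + f y 1 * t 1 + f y 2 * t 2 := by
    intro y t
    simp [hB, Matrix.mulVec, dotProduct, Fin.sum_univ_three]
  have hB1 : ∀ y t, (S.B y *ᵥ t) 1 = s y * t 2 := by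
    intro y t
    simp [hB, Matrix.mulVec, dotProduct, Fin.sum_univ_three]
  have hB2 : ∀ y t, (S.B y *ᵥ t) 2 = 0 := by
    intro y t
    simp [hB, Matrix.mulVec, dotProduct, Fin.sum_univ_three]
  set c0 := S.C ![1, 0, 0] with hc0
  set c1 := S.C ![0, 1, 0] with hc1
  set c2 := S.C ![0, 0, 1] with hc2
  have hC : ∀ x t i, (S.C x *ᵥ t) i = cc c0 c1 c2 i x t := fun x t i => C_cc S x t i
  have E4 : ∀ w x t1 t2, _ := fun w x t1 t2 => eq4 h.cl w x t1 t2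
  simp only [D, hA0, hA1, hA2, hB0, hB1, hB2, hC] at E4
  -- `dκ_1 = 0`
  have G : ∀ x t1 t2, dk1 c0 c1 c2 x t1 t2 = 0 := by
    obtain ⟨w, hw, hfw⟩ := hf
    have h1 : ∀ x t1 t2, (f w 0 * x 0 + f w 1 * x 1 + f w 2 * x 2) * dk1 c0 c1 c2 x t1 t2 = 0 := by
      intro x t1 t2
      have h2 := E4 w x t1 t2
      rw [hw] at h2
      simp only [dk1]
      linear_combination - h2
    obtain ⟨v, hv⟩ : ∃ v : V3, f w 0 * v 0 + f w 1 * v 1 + f w 2 * v 2 ≠ 0 := by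
      by_contra hh
      push Not at hh
      apply hfw
      have a0 := hh ![1, 0, 0]
      have a1 := hh ![0, 1, 0]
      have a2 := hh ![0, 0, 1]
      simp at a0 a1 a2
      funext j
      fin_cases j
      · exact a0
      · exact a1
      · exact a2
    intro x t1 t2
    by_cases hx : f w 0 * x 0 + f w 1 * x 1 + f w 2 * x 2 = 0
    · have b1 := (mul_eq_zero.mp (h1 v t1 t2)).resolve_left hv
      have b2 : f w 0 * (x + v) 0 + f w 1 * (x + v) 1 + f w 2 * (x + v) 2 ≠ 0 := by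
        simp only [Pi.add_apply]
        intro b3
        apply hv
        linear_combination b3 - hx
      have b3 := (mul_eq_zero.mp (h1 (x + v) t1 t2)).resolve_left b2
      have b4 : dk1 c0 c1 c2 (x + v) t1 t2 = dk1 c0 c1 c2 x t1 t2 + dk1 c0 c1 c2 v t1 t2 := by
        simp only [dk1, cc, Pi.add_apply]
        ring
      rw [b3, b1, add_zero] at b4
      exact b4.symm
    · exact (mul_eq_zero.mp (h1 x t1 t2)).resolve_left hx
  obtain ⟨e, he⟩ : ∃ e, s e = 1 := by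
    obtain ⟨e0, he0⟩ : ∃ e0, s e0 ≠ 0 := by
      by_contra hh
      push Not at hh
      exact hs (LinearMap.ext hh)
    exact ⟨(s e0)⁻¹ • e0, by rw [map_smul, smul_eq_mul, inv_mul_cancel₀ he0]⟩
  have Q : ∀ x t : V3, t 2 = 0 → (x 0 - k * x 1) * cc c0 c1 c2 2 x t - x 2 * cc c0 c1 c2 0 x t
      + k * x 2 * cc c0 c1 c2 1 x t - x 2 * (- cc c0 c1 c2 0 x t + x 0 * cc c0 c1 c2 2 ![0, 0, 1] t
      - x 2 * cc c0 c1 c2 0 ![0, 0, 1] t - t 0 * cc c0 c1 c2 2 x ![0, 0, 1]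
      - x 0 * cc c0 c1 c2 2 t ![0, 0, 1] + x 2 * cc c0 c1 c2 0 t ![0, 0, 1]) = 0 := by
    intro x t ht
    have b1 := E4 e x ![0, 0, 1] t
    have b2 := G x ![0, 0, 1] t
    rw [he, ht] at b1
    simp only [dk1, ht] at b2
    simp only [Matrix.cons_val_zero, Matrix.cons_val_one, Matrix.cons_val] at b1 b2
    linear_combination b1 + (f e 0 * x 0 + f e 1 * x 1 + f e 2 * x 2) * b2
  have g1 := G ![1, 0, 0] ![0, 0, 1] ![1, 0, 0]
  have g2 := G ![1, 0, 0] ![0, 0, 1] ![0, 1, 0]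
  have p1 := Q ![1, 0, 0] ![1, 0, 0] rfl
  have p2 := Q ![0, 1, 0] ![1, 0, 0] rfl
  have p3 := Q ![1, 1, 0] ![1, 0, 0] rfl
  have p4 := Q ![0, 0, 1] ![1, 0, 0] rfl
  have p5 := Q ![1, 0, 1] ![1, 0, 0] rfl
  have q1 := Q ![1, 0, 0] ![0, 1, 0] rfl
  have q2 := Q ![0, 1, 0] ![0, 1, 0] rfl
  have q3 := Q ![1, 1, 0] ![0, 1, 0] rfl
  have q4 := Q ![0, 0, 1] ![0, 1, 0] rfl
  have q5 := Q ![1, 0, 1] ![0, 1, 0] rfl
  simp only [dk1, cc, Matrix.cons_val_zero, Matrix.cons_val_one, Matrix.cons_val] at g1 g2 p1 p2 p3 p4 p5 q1 q2 q3 q4 q5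
  have r00 : c0 2 0 = 0 := by linear_combination p1
  have r10 : c1 2 0 = 0 := by linear_combination p3 - p2 - (1 - k) * r00
  have r01 : c0 2 1 = 0 := by linear_combination q1
  have r11 : c1 2 1 = 0 := by linear_combination q3 - q2 - (1 - k) * r01
  have s10 : c0 1 0 = 0 := by linear_combination g1
  have r02 : c0 2 2 = 0 := by linear_combination (1 / 2 : ℂ) * (p5 - p1 - p4 - k * s10)
  have s11 : c0 1 1 = 0 := by linear_combination g2 - r02
  have r12 : c1 2 2 = 0 := by linear_combination q5 - q1 - q4 - k * s11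
  refine no_factor h ![0, 0, 1] ?_ { toFun := fun v => c2 2 0 * v.1 0 + c2 2 1 * v.1 1 + c2 2 2 * v.1 2
                                     map_add' := ?_
                                     map_smul' := ?_ } ?_
  · intro h0
    have h1 := congrFun h0 2
    simp at h1
  · intro x y
    simp only [Prod.fst_add, Pi.add_apply]
    ring
  · intro r x
    simp only [Prod.smul_fst, Pi.smul_apply, smul_eq_mul, RingHom.id_apply]
    ring
  · intro z v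
    show ![0, 0, 1] ⬝ᵥ eta S z.1 z.2 v.1 v.2 = (![0, 0, 1] ⬝ᵥ z.1)
      * (c2 2 0 * v.1 0 + c2 2 1 * v.1 1 + c2 2 2 * v.1 2)
    have e1 : ∀ p : V3, ![0, 0, 1] ⬝ᵥ p = p 2 := by
      intro p
      simp [dotProduct, Fin.sum_univ_three]
    rw [e1, e1]
    simp only [eta, Pi.add_apply]
    rw [hC, hA2, hB2]
    simp only [cc]
    linear_combination z.1 0 * v.1 0 * r00 + z.1 0 * v.1 1 * r01 + z.1 0 * v.1 2 * r02
      + z.1 1 * v.1 0 * r10 + z.1 1 * v.1 1 * r11 + z.1 1 * v.1 2 * r12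

/-- version with unknown first row.  `eq3` gives `(c1 - d1) ∧ d2 = 0`, so `c1 = d1 + k d2`; a vector
`w ≠ 0` with `d2 w = 0` exists since `dim W ≥ 2`, and `B w ≠ 0` by `NC`. -/
theorem lx' {S : Dat W} (h : Std S) (ρ1 ρ2 c1 d1 d2 : W →ₗ[ℂ] ℂ) (hd2 : d2 ≠ 0)
    (hA : ∀ y, S.A y = !![ρ1 y, ρ2 y, c1 y; 0, 0, 2 * d2 y; 0, 0, 0])
    (hB : ∀ y, S.B y = !![ρ1 y, ρ2 y, d1 y; 0, 0, d2 y; 0, 0, 0]) : False := by
  have hw : ∀ w w', (c1 w - d1 w) * d2 w' = (c1 w' - d1 w') * d2 w := by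
    intro w w'
    have h1 := eq3 h.cl w w' ![0, 0, 1] ![0, 0, 1]
    simp [D, hA, hB, Matrix.mulVec, dotProduct, Fin.sum_univ_three] at h1
    linear_combination - h1
  obtain ⟨e0, he0⟩ : ∃ e0, d2 e0 ≠ 0 := by
    by_contra hh
    push Not at hh
    exact hd2 (LinearMap.ext hh)
  have hk : ∀ w, c1 w = d1 w + (c1 e0 - d1 e0) / d2 e0 * d2 w := by
    intro w
    have h1 := hw w e0
    field_simp
    linear_combination h1
  obtain ⟨w, hw0, hwd⟩ : ∃ w, w ≠ 0 ∧ d2 w = 0 := by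
    have hfd : Module.Finite ℂ W := Module.finite_of_finrank_pos (by have := h.dim; omega)
    have h1 : LinearMap.ker d2 ≠ ⊥ := by
      apply LinearMap.ker_ne_bot_of_finrank_lt
      rw [Module.finrank_self]
      have := h.dim
      omega
    obtain ⟨w, hw, hw0⟩ := (Submodule.ne_bot_iff _).mp h1
    exact ⟨w, hw0, hw⟩
  let f : W →ₗ[ℂ] V3 := LinearMap.pi ![ρ1, ρ2, d1]
  have hf0 : ∀ y, f y 0 = ρ1 y := fun y => rfl
  have hf1 : ∀ y, f y 1 = ρ2 y := fun y => rfl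
  have hf2 : ∀ y, f y 2 = d1 y := fun y => rfl
  refine lx h f d2 ((c1 e0 - d1 e0) / d2 e0) hd2 ⟨w, hwd, ?_⟩ ?_ ?_
  · intro h1
    apply hw0
    apply h.nc w
    refine ⟨0, ?_⟩
    have a0 := congrFun h1 0
    have a1 := congrFun h1 1
    have a2 := congrFun h1 2
    rw [hf0] at a0
    rw [hf1] at a1
    rw [hf2] at a2
    rw [hB, a0, a1, a2, hwd]
    ext i j
    fin_cases i <;> fin_cases j <;> simp
  · intro y
    rw [hA, hf0, hf1, hf2, ← hk y]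
  · intro y
    rw [hB, hf0, hf1, hf2]

end Pool.Agent.Helper93.K3A
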