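import Pool.Agent.Helper93.K3A.L0
import Pool.Agent.Helper93.K3A.LX
import Pool.Agent.Helper93.K3A.TwoL

/-!
K3A / II1: a common left kernel vector (memo II.1).  Coordinates `ψ = e_3`: third rows of `A_y`, `B_y` are 0.

`II1_L` (first row free, second row only a `dz`-entry).  `ad (A e) ≠ 0` gives `c2 e ≠ 0` and
`(σ1, σ2)(e) ≠ 0`.  `eq2v`: `c2(y)(σ_i - ρ_i)(w) + σ_i(y)(c2 - 2 d2)(w) = 0`; `eq3`:
`ρ_i(w)(c2 - 2 d2)(w') = ρ_i(w')(c2 - 2 d2)(w)`.  If `c2 = 2 d2`: `σ = ρ`, `lx'`.  Otherwise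
`σ_i = s_i c2`, `ρ_i = 2 s_i (c2 - d2)`, `d2` is a multiple of `c2` and `g = c2`.

`II1_R` (`B_w = b_w ⊗ e_3`): `b` injective, `dim W = 2`, basis with `b_(w1) = e_1`, `b_(w2) = e_2`.
`eq3` (x_3 t_i-part): `A_0(w1) = [R2; R1]`, `A_0(w2) = [R3; -R2]` (rows); `e2 A = 0`: `R1, R2, R3` pairwise parallel:
`A_0(s w1 + t w2) = S(s,t) ⊗ σ`, `S = [[r2, r3], [r1, -r2]]`.  `det S = 0`: done.  `det S ≠ 0`:
(c) with `w = y`: `c_b = b + k S b`, and the `x_3² t_3`-part of `eq3`: `3 ar(b,b') = 2 ar(b,b')`.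
-/

set_option autoImplicit false

namespace Pool.Agent.Helper93.K3A

open Matrix

variable {W : Type} [AddCommGroup W] [Module ℂ W]

private theorem row2 {P : M3} (h : (![0, 0, 1] : V3) ᵥ* P = 0) (j : Fin 3) : P 2 j = 0 := by
  have := congrFun h j
  simpa [Matrix.vecMul, dotProduct, Fin.sum_univ_three] using this

private theorem row2' {P : M3} (h : (![0, 0, 1] : V3) ᵥ* P = 0) :
    P 2 0 = 0 ∧ P 2 1 = 0 ∧ P 2 2 = 0 := ⟨row2 h 0, row2 h 1, row2 h 2⟩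

private theorem shape {P Q M : M3} {u : V3} (hPu : P *ᵥ u = ![1, 0, 0])
    (hφQ : (![0, 0, 1] : V3) ᵥ* Q = ![0, 0, 1]) (hφP : (![0, 0, 1] : V3) ᵥ* P = ![0, 0, 1])
    (hM : (![0, 0, 1] : V3) ᵥ* M = 0) (hMu : ∀ l : Fin 3, l ≠ 2 → u 0 * M 1 l = u 1 * M 0 l)
    (hu2 : u 2 = 0) (hu : u 0 ≠ 0 ∨ u 1 ≠ 0) :
    P * M * Q = !![(P * M * Q) 0 0, (P * M * Q) 0 1, (P * M * Q) 0 2; 0, 0, (P * M * Q) 1 2;
      0, 0, 0] := by
  have h2 : (![0, 0, 1] : V3) ᵥ* (P * M * Q) = 0 := by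
    rw [← Matrix.vecMul_vecMul, ← Matrix.vecMul_vecMul, hφP, hM, Matrix.zero_vecMul]
  obtain ⟨r0, r1, r2⟩ := row2' h2
  obtain ⟨m0, m1, m2⟩ := row2' hM
  have hP := congrFun hPu 1
  have hQ0 := congrFun hφQ 0
  have hQ1 := congrFun hφQ 1
  simp [Matrix.mulVec, Matrix.vecMul, dotProduct, Fin.sum_univ_three, hu2] at hP hQ0 hQ1
  have key : ∀ l : Fin 3, l ≠ 2 → P 1 0 * M 0 l + P 1 1 * M 1 l = 0 := by
    intro l hl
    have h3 := hMu l hl
    rcases hu with h4 | h4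
    · apply (mul_eq_zero.1 _).resolve_left h4
      linear_combination M 0 l * hP + P 1 1 * h3
    · apply (mul_eq_zero.1 _).resolve_left h4
      linear_combination M 1 l * hP - P 1 0 * h3
  have k0 := key 0 (by decide)
  have k1 := key 1 (by decide)
  have e10 : (P * M * Q) 1 0 = 0 := by
    simp only [Matrix.mul_apply, Fin.sum_univ_three, m0, m1, m2, hQ0]
    linear_combination Q 0 0 * k0 + Q 1 0 * k1
  have e11 : (P * M * Q) 1 1 = 0 := by
    simp only [Matrix.mul_apply, Fin.sum_univ_three, m0, m1, m2, hQ1]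
    linear_combination Q 0 1 * k0 + Q 1 1 * k1
  ext i j
  fin_cases i <;> fin_cases j
  · rfl
  · rfl
  · rfl
  · exact e10
  · exact e11
  · rfl
  · exact r0
  · exact r1
  · exact r2

private theorem pq {p q r p' q' r' u v m n : ℂ} (hn : 1 + 1 + 1 = u + n)
    (e1 : -q + -q + (u * q - v * p) + (u * q - v * p) = 0)
    (e2 : r + r + (m * -p - n * r) + (m * -p - n * r) = 0)
    (e3 : p' + p' + (m * q' - n * p') + (u * -p' - v * r') = 0) (hqr : q * r' = r * q') :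
    p * p' + r * q' = 0 := by
  obtain rfl : n = 3 - u := by linear_combination -hn
  linear_combination -p * e3 - (1 / 2) * q' * e2 + (1 / 2) * r' * e1 - (u - 1) * hqr

private theorem ad_conj {P Q : M3} (hPQ : P * Q = 1) (X : M3) : ad (P * X * Q) = P * ad X * Q := by
  have hQP : Q * P = 1 := mul_eq_one_comm.mp hPQ
  have h1 : P * X * Q * (P * X * Q) = P * (X * X) * Q := by
    calc P * X * Q * (P * X * Q) = P * X * (Q * P) * X * Q := by simp only [Matrix.mul_assoc]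
      _ = P * (X * X) * Q := by rw [hQP, Matrix.mul_one]; simp only [Matrix.mul_assoc]
  have ht : ∀ Y : M3, (P * Y * Q).trace = Y.trace := by
    intro Y
    rw [Matrix.trace_mul_comm, ← Matrix.mul_assoc, hQP, Matrix.one_mul]
  have h2 : ∀ Y : M3, 2 * e2 Y = Y.trace * Y.trace - (Y * Y).trace := by
    intro Y
    rw [← e2p_self, e2p]
  have h3 : e2 (P * X * Q) = e2 X := by
    have h4 := h2 (P * X * Q)
    rw [ht, h1, ht, ← h2 X] at h4
    exact mul_left_cancel₀ two_ne_zero h4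
  rw [ad, ad, h1, ht, h3, Matrix.mul_add, Matrix.mul_sub, Matrix.add_mul, Matrix.sub_mul,
    Matrix.mul_smul, Matrix.mul_smul, Matrix.smul_mul, Matrix.smul_mul, Matrix.mul_one, hPQ]

theorem II1_L {S : Dat W} (h : Std S) (σ1 σ2 c1 c2 ρ1 ρ2 d1 d2 : W →ₗ[ℂ] ℂ)
    (hA : ∀ y, S.A y = !![σ1 y, σ2 y, c1 y; 0, 0, c2 y; 0, 0, 0])
    (hB : ∀ y, S.B y = !![ρ1 y, ρ2 y, d1 y; 0, 0, d2 y; 0, 0, 0])
    (e : W) (he : ad (S.A e) ≠ 0) :
    ∃ g : W →ₗ[ℂ] ℂ, ∀ w, g w = 0 →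
      σ1 w = 0 ∧ σ2 w = 0 ∧ c2 w = 0 ∧ ρ1 w = 0 ∧ ρ2 w = 0 ∧ d2 w = 0 := by
  have q1 : ∀ y w, c2 y * (σ1 w - ρ1 w) + σ1 y * (c2 w - 2 * d2 w) = 0 := by
    intro y w
    have h1 := eq2v h.cl y w ![0, 0, 1] ![1, 0, 0] ![0, 0, 1]
    simp [D, hA, hB, Matrix.mulVec, dotProduct, Fin.sum_univ_three] at h1
    linear_combination h1
  have q2 : ∀ y w, c2 y * (σ2 w - ρ2 w) + σ2 y * (c2 w - 2 * d2 w) = 0 := by
    intro y w
    have h1 := eq2v h.cl y w ![0, 0, 1] ![0, 1, 0] ![0, 0, 1]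
    simp [D, hA, hB, Matrix.mulVec, dotProduct, Fin.sum_univ_three] at h1
    linear_combination h1
  have q3 : ∀ w w', ρ1 w * (c2 w' - 2 * d2 w') = ρ1 w' * (c2 w - 2 * d2 w) := by
    intro w w'
    have h1 := eq3 h.cl w w' ![0, 0, 1] ![0, 0, 1]
    have h2 := eq3 h.cl w w' ![1, 0, 1] ![0, 0, 1]
    simp [D, hA, hB, Matrix.mulVec, dotProduct, Fin.sum_univ_three] at h1 h2
    linear_combination h1 - h2
  have q4 : ∀ w w', ρ2 w * (c2 w' - 2 * d2 w') = ρ2 w' * (c2 w - 2 * d2 w) := by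
    intro w w'
    have h1 := eq3 h.cl w w' ![0, 0, 1] ![0, 0, 1]
    have h2 := eq3 h.cl w w' ![0, 1, 1] ![0, 0, 1]
    simp [D, hA, hB, Matrix.mulVec, dotProduct, Fin.sum_univ_three] at h1 h2
    linear_combination h1 - h2
  have hce : c2 e ≠ 0 := by
    intro hc
    apply he
    rw [hA]
    ext i j
    fin_cases i <;> fin_cases j <;>
      simp [ad, e2, Matrix.mul_apply, Fin.sum_univ_three, Matrix.trace, Matrix.one_apply, hc]
  have hse : σ1 e ≠ 0 ∨ σ2 e ≠ 0 := by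
    by_contra hc
    push Not at hc
    obtain ⟨ha, hb⟩ := hc
    apply he
    rw [hA]
    ext i j
    fin_cases i <;> fin_cases j <;>
      simp [ad, e2, Matrix.mul_apply, Fin.sum_univ_three, Matrix.trace, Matrix.one_apply, ha, hb]
  by_cases hδ : ∀ w, c2 w - 2 * d2 w = 0
  · exfalso
    have hd2 : d2 ≠ 0 := by
      rintro rfl
      apply hce
      have := hδ e
      simpa using this
    have e1 : ∀ w, σ1 w = ρ1 w := by
      intro w
      have h1 := q1 e w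
      rw [hδ w, mul_zero, add_zero] at h1
      exact sub_eq_zero.1 ((mul_eq_zero.1 h1).resolve_left hce)
    have e2 : ∀ w, σ2 w = ρ2 w := by
      intro w
      have h1 := q2 e w
      rw [hδ w, mul_zero, add_zero] at h1
      exact sub_eq_zero.1 ((mul_eq_zero.1 h1).resolve_left hce)
    refine lx' h ρ1 ρ2 c1 d1 d2 hd2 (fun y => ?_) hB
    rw [hA y, e1, e2, sub_eq_zero.1 (hδ y)]
  push Not at hδ
  obtain ⟨w0, hw0⟩ := hδ
  -- `σ_i = s_i c2`, `ρ_i = 2 s_i (c2 - d2)`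
  have key : ∀ σ ρ : W →ₗ[ℂ] ℂ, (∀ y w, c2 y * (σ w - ρ w) + σ y * (c2 w - 2 * d2 w) = 0) →
      ∃ s : ℂ, (∀ y, σ y = s * c2 y) ∧ ∀ w, ρ w = 2 * s * (c2 w - d2 w) := by
    intro σ ρ hq
    have hs : ∀ y, σ y = (-(σ w0 - ρ w0) / (c2 w0 - 2 * d2 w0)) * c2 y := by
      intro y
      have h1 := hq y w0
      field_simp
      linear_combination h1
    refine ⟨_, hs, fun w => ?_⟩
    generalize (-(σ w0 - ρ w0) / (c2 w0 - 2 * d2 w0)) = s at hs
    have h1 := hq e w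
    rw [hs e, hs w] at h1
    have h2 : c2 e * (s * c2 w - ρ w + s * (c2 w - 2 * d2 w)) = 0 := by linear_combination h1
    have h3 := (mul_eq_zero.1 h2).resolve_left hce
    linear_combination -h3
  obtain ⟨s1, hs1, hr1⟩ := key σ1 ρ1 q1
  obtain ⟨s2, hs2, hr2⟩ := key σ2 ρ2 q2
  have hcd : ∀ w, c2 w * d2 e = c2 e * d2 w := by
    intro w
    rcases hse with h1 | h1
    · have hs0 : s1 ≠ 0 := by
        rintro rfl
        apply h1
        rw [hs1, zero_mul]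
      have h2 := q3 e w
      rw [hr1, hr1] at h2
      have h3 : (2 * s1) * (c2 w * d2 e - c2 e * d2 w) = 0 := by linear_combination h2
      have h4 := (mul_eq_zero.1 h3).resolve_left (mul_ne_zero two_ne_zero hs0)
      exact sub_eq_zero.1 h4
    · have hs0 : s2 ≠ 0 := by
        rintro rfl
        apply h1
        rw [hs2, zero_mul]
      have h2 := q4 e w
      rw [hr2, hr2] at h2
      have h3 : (2 * s2) * (c2 w * d2 e - c2 e * d2 w) = 0 := by linear_combination h2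
      have h4 := (mul_eq_zero.1 h3).resolve_left (mul_ne_zero two_ne_zero hs0)
      exact sub_eq_zero.1 h4
  refine ⟨c2, fun w hw => ?_⟩
  have hd : d2 w = 0 := by
    have h1 := hcd w
    rw [hw, zero_mul] at h1
    exact (mul_eq_zero.1 h1.symm).resolve_left hce
  refine ⟨by rw [hs1, hw, mul_zero], by rw [hs2, hw, mul_zero], hw, ?_, ?_, hd⟩
  · rw [hr1, hw, hd, sub_zero, mul_zero]
  · rw [hr2, hw, hd, sub_zero, mul_zero]

theorem II1_R {S : Dat W} (h : Std S) (hA : ∀ y, (![0, 0, 1] : V3) ᵥ* S.A y = 0)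
    (hB : ∀ w, ∃ b : V3, b 2 = 0 ∧ S.B w = vecMulVec b ![0, 0, 1]) :
    ∃ g : W →ₗ[ℂ] ℂ, ∀ w, g w = 0 → ∃ a : V3, a 2 = 0 ∧ S.A w = vecMulVec a ![0, 0, 1] := by
  have hA2 : ∀ y j, S.A y 2 j = 0 := fun y j => row2 (hA y) j
  have hB0 : ∀ w, S.B w 0 0 = 0 ∧ S.B w 0 1 = 0 ∧ S.B w 1 0 = 0 ∧ S.B w 1 1 = 0 ∧
      S.B w 2 0 = 0 ∧ S.B w 2 1 = 0 ∧ S.B w 2 2 = 0 := by
    intro w
    obtain ⟨b, hb, hw⟩ := hB w
    rw [hw]
    simp [vecMulVec_apply, hb]
  let b : W →ₗ[ℂ] (Fin 2 → ℂ) := LinearMap.pi ![Matrix.entryLinearMap ℂ ℂ 0 2 ∘ₗ S.B,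
    Matrix.entryLinearMap ℂ ℂ 1 2 ∘ₗ S.B]
  have hb0 : ∀ w, b w 0 = S.B w 0 2 := fun w => rfl
  have hb1 : ∀ w, b w 1 = S.B w 1 2 := fun w => rfl
  have hinj : Function.Injective b := by
    rw [injective_iff_map_eq_zero]
    intro w hw
    apply h.nc w
    refine ⟨0, ?_⟩
    obtain ⟨e1, e2, e3, e4, e5, e6, e7⟩ := hB0 w
    have f0 := congrFun hw 0
    have f1 := congrFun hw 1
    rw [hb0] at f0
    rw [hb1] at f1
    ext i j
    fin_cases i <;> fin_cases j <;> simp [e1, e2, e3, e4, e5, e6, e7]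
    · exact f0
    · exact f1
  have hfd : Module.Finite ℂ W := Module.finite_of_finrank_pos (by have := h.dim; omega)
  have hsurj : Function.Surjective b := by
    have h1 := LinearMap.finrank_le_finrank_of_injective hinj
    have h2 : Module.finrank ℂ (Fin 2 → ℂ) = 2 := by simp
    have h3 : Module.finrank ℂ W = Module.finrank ℂ (Fin 2 → ℂ) := by
      have := h.dim
      omega
    exact (LinearMap.injective_iff_surjective_of_finrank_eq_finrank h3).1 hinj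
  obtain ⟨w1, hw1⟩ := hsurj ![1, 0]
  obtain ⟨w2, hw2⟩ := hsurj ![0, 1]
  have hspan : ∀ w, w = S.B w 0 2 • w1 + S.B w 1 2 • w2 := by
    intro w
    apply hinj
    rw [map_add, map_smul, map_smul, hw1, hw2]
    funext i
    fin_cases i
    · simp [hb0]
    · simp [hb1]
  have b10 : S.B w1 0 2 = 1 := by rw [← hb0, hw1]; rfl
  have b11 : S.B w1 1 2 = 0 := by rw [← hb1, hw1]; rfl
  have b20 : S.B w2 0 2 = 0 := by rw [← hb0, hw2]; rfl
  have b21 : S.B w2 1 2 = 1 := by rw [← hb1, hw2]; rfl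
  obtain ⟨m1, m2, m3, m4, m5, m6, m7⟩ := hB0 w1
  obtain ⟨n1, n2, n3, n4, n5, n6, n7⟩ := hB0 w2
  obtain ⟨k1, k2, k3⟩ := row2' (hA w1)
  obtain ⟨l1, l2, l3⟩ := row2' (hA w2)
  -- `eq3`
  have t0 := eq3 h.cl w1 w2 ![0, 0, 1] ![1, 0, 0]
  have t1 := eq3 h.cl w1 w2 ![0, 0, 1] ![0, 1, 0]
  have t2 := eq3 h.cl w1 w2 ![0, 0, 1] ![0, 0, 1]
  simp [D, Matrix.mulVec, dotProduct, Fin.sum_univ_three, b10, b11, b20, b21, m1, m2, m3, m4, m5, m6,
    m7, n1, n2, n3, n4, n5, n6, n7, k1, k2, k3, l1, l2, l3] at t0 t1 t2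
  -- minors
  have d1 := e2A h.cl w1
  have d2 := e2A h.cl w2
  have d3 := e2pA h.cl w1 w2
  simp [e2, e2p, Matrix.mul_apply, Fin.sum_univ_three, Matrix.trace, k1, k2, k3, l1, l2, l3] at d1 d2 d3
  -- (c)
  have c10 := eq2v h.cl w1 w1 ![0, 0, 1] ![0, 0, 1] ![1, 0, 0]
  have c11 := eq2v h.cl w1 w1 ![0, 0, 1] ![0, 0, 1] ![0, 1, 0]
  have c20 := eq2v h.cl w2 w2 ![0, 0, 1] ![0, 0, 1] ![1, 0, 0]
  have c21 := eq2v h.cl w2 w2 ![0, 0, 1] ![0, 0, 1] ![0, 1, 0]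
  have c30 := eq2v h.cl w1 w2 ![0, 0, 1] ![0, 0, 1] ![1, 0, 0]
  have c31 := eq2v h.cl w1 w2 ![0, 0, 1] ![0, 0, 1] ![0, 1, 0]
  simp [D, Matrix.mulVec, dotProduct, Fin.sum_univ_three, b10, b11, b20, b21, m1, m2, m3, m4, m5, m6,
    m7, n1, n2, n3, n4, n5, n6, n7, k1, k2, k3, l1, l2, l3] at c10 c11 c20 c21 c30 c31
  have t0' : S.A w2 1 0 = -S.A w1 0 0 := by linear_combination -t0
  have t1' : S.A w2 1 1 = -S.A w1 0 1 := by linear_combination -t1
  rw [t0', t1'] at d2 d3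
  rw [t0'] at c20 c30
  rw [t1'] at c21 c31
  have m12 : S.A w1 0 0 * S.A w1 1 1 = S.A w1 0 1 * S.A w1 1 0 := by linear_combination d1
  have m13 : S.A w1 0 0 * S.A w2 0 1 = S.A w2 0 0 * S.A w1 0 1 := by linear_combination d2
  have m23 : S.A w1 1 0 * S.A w2 0 1 = S.A w2 0 0 * S.A w1 1 1 := by linear_combination -d3
  have x00 := pq t2 c10 c20 c30 (mul_comm _ _)
  have x01 := pq t2 c10 c20 c31 m23
  have x10 := pq t2 c11 c21 c30 (by linear_combination -m23)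
  have x11 := pq t2 c11 c21 c31 (mul_comm _ _)
  have key : ∀ i j k l : Fin 3, i ≠ 2 → j ≠ 2 → k ≠ 2 → l ≠ 2 →
      S.A w1 i j * S.A w2 k l = S.A w2 i j * S.A w1 k l := by
    intro i j k l hi hj hk hl
    fin_cases i <;> fin_cases j <;> fin_cases k <;> fin_cases l <;>
      first
        | exact absurd rfl hi
        | exact absurd rfl hj
        | exact absurd rfl hk
        | exact absurd rfl hl
        | (simp only [Fin.zero_eta, Fin.mk_one, t0', t1']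
           first
             | ring1
             | linear_combination m12
             | linear_combination -m12
             | linear_combination m13
             | linear_combination -m13
             | linear_combination x00
             | linear_combination -x00
             | linear_combination x01
             | linear_combination -x01
             | linear_combination x10
             | linear_combination -x10
             | linear_combination x11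
             | linear_combination -x11)
  have hlin : ∀ w i j, S.A w i j = S.B w 0 2 * S.A w1 i j + S.B w 1 2 * S.A w2 i j := by
    intro w i j
    conv_lhs => rw [hspan w]
    rw [map_add, map_smul, map_smul]
    rfl
  -- conclusion
  have fin : ∀ w, (∀ k l : Fin 3, k ≠ 2 → l ≠ 2 → S.A w k l = 0) →
      ∃ a : V3, a 2 = 0 ∧ S.A w = vecMulVec a ![0, 0, 1] := by
    intro w hw
    refine ⟨![S.A w 0 2, S.A w 1 2, 0], rfl, ?_⟩
    have a00 := hw 0 0 (by decide) (by decide)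
    have a01 := hw 0 1 (by decide) (by decide)
    have a10 := hw 1 0 (by decide) (by decide)
    have a11 := hw 1 1 (by decide) (by decide)
    obtain ⟨b1, b2, b3⟩ := row2' (hA w)
    ext i j
    fin_cases i <;> fin_cases j <;> simp [vecMulVec_apply, a00, a01, a10, a11, b1, b2, b3]
  by_cases hall : ∀ i j : Fin 3, i ≠ 2 → j ≠ 2 → S.A w1 i j = 0 ∧ S.A w2 i j = 0
  · refine ⟨0, fun w _ => fin w fun k l hk hl => ?_⟩
    rw [hlin, (hall k l hk hl).1, (hall k l hk hl).2]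
    ring
  push Not at hall
  obtain ⟨i, j, hi, hj, hij⟩ := hall
  refine ⟨Matrix.entryLinearMap ℂ ℂ i j ∘ₗ S.A, fun w hw => fin w fun k l hk hl => ?_⟩
  have hw' : S.A w i j = 0 := hw
  have hk1 := key i j k l hi hj hk hl
  rw [hlin] at hw'
  by_cases h1 : S.A w1 i j = 0
  · have h2 := hij h1
    apply (mul_eq_zero.1 _).resolve_left h2
    rw [hlin w k l]
    linear_combination S.A w2 k l * hw' - S.B w 0 2 * hk1
  · apply (mul_eq_zero.1 _).resolve_left h1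
    rw [hlin w k l]
    linear_combination S.A w1 k l * hw' + S.B w 1 2 * hk1

/-- (b): `adj(A_0(y)) B_0(w) = 0` -/
theorem II1_b {S : Dat W} (h : Cl S) (hA : ∀ y, (![0, 0, 1] : V3) ᵥ* S.A y = 0)
    (hB : ∀ w, (![0, 0, 1] : V3) ᵥ* S.B w = 0) (y w : W) (j : Fin 3) (hj : j ≠ 2) :
    S.A y 1 1 * S.B w 0 j = S.A y 0 1 * S.B w 1 j ∧
      S.A y 0 0 * S.B w 1 j = S.A y 1 0 * S.B w 0 j := by
  obtain ⟨a1, a2, a3⟩ := row2' (hA y)
  obtain ⟨b1, b2, b3⟩ := row2' (hB w)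
  obtain ⟨c1, c2, c3⟩ := row2' (hA w)
  fin_cases j
  · have h1 := eq2v h y w ![1, 0, 0] ![0, 0, 1] ![0, 1, 0]
    have h2 := eq2v h y w ![1, 0, 0] ![0, 0, 1] ![1, 0, 0]
    simp [D, Matrix.mulVec, dotProduct, Fin.sum_univ_three, a1, a2, a3, b1, b2, b3, c1, c2, c3]
      at h1 h2 ⊢
    exact ⟨by linear_combination -h1, by linear_combination h2⟩
  · have h1 := eq2v h y w ![0, 1, 0] ![0, 0, 1] ![0, 1, 0]
    have h2 := eq2v h y w ![0, 1, 0] ![0, 0, 1] ![1, 0, 0]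
    simp [D, Matrix.mulVec, dotProduct, Fin.sum_univ_three, a1, a2, a3, b1, b2, b3, c1, c2, c3]
      at h1 h2 ⊢
    exact ⟨by linear_combination -h1, by linear_combination h2⟩
  · exact absurd rfl hj

/-- II.1: a common left kernel vector `ψ` of all `A_y` and all `B_w` -/
theorem II1 {S : Dat W} (h : Std S) (e : W) (he : ad (S.A e) ≠ 0)
    (ψ : V3) (hψ : ψ ≠ 0)
    (hA : ∀ y, ψ ᵥ* S.A y = 0) (hB : ∀ w, ψ ᵥ* S.B w = 0) : ∃ g, C12 S ψ g := by
  obtain ⟨P, Q, hPQ, hQP, hψQ⟩ := frame_cov ψ hψ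
  have hT := h.conj hPQ
  have hA1 : ∀ y, (![0, 0, 1] : V3) ᵥ* (conj S P Q).A y = 0 := by
    intro y
    show (![0, 0, 1] : V3) ᵥ* (P * S.A y * Q) = 0
    rw [← hψQ, Matrix.vecMul_vecMul, ← Matrix.mul_assoc, ← Matrix.mul_assoc, hQP, Matrix.one_mul,
      ← Matrix.vecMul_vecMul, hA, Matrix.zero_vecMul]
  have hB1 : ∀ y, (![0, 0, 1] : V3) ᵥ* (conj S P Q).B y = 0 := by
    intro y
    show (![0, 0, 1] : V3) ᵥ* (P * S.B y * Q) = 0
    rw [← hψQ, Matrix.vecMul_vecMul, ← Matrix.mul_assoc, ← Matrix.mul_assoc, hQP, Matrix.one_mul,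
      ← Matrix.vecMul_vecMul, hB, Matrix.zero_vecMul]
  have he1 : ad ((conj S P Q).A e) ≠ 0 := by
    intro h0
    apply he
    have h1 : P * ad (S.A e) * Q = 0 := by
      rw [← ad_conj hPQ]
      exact h0
    calc ad (S.A e) = (Q * P) * ad (S.A e) * (Q * P) := by rw [hQP, Matrix.one_mul, Matrix.mul_one]
      _ = Q * (P * ad (S.A e) * Q) * P := by simp only [Matrix.mul_assoc]
      _ = 0 := by rw [h1, Matrix.mul_zero, Matrix.zero_mul]
  suffices hs : ∃ g, C12 (conj S P Q) ![0, 0, 1] g by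
    obtain ⟨g, hg⟩ := hs
    refine ⟨g, ?_⟩
    have h1 := hg.of_conj hPQ
    have h2 : (![0, 0, 1] : V3) ᵥ* P = ψ := by
      rw [← hψQ, Matrix.vecMul_vecMul, hQP, Matrix.vecMul_one]
    rw [h2] at h1
    exact h1
  generalize conj S P Q = T at hT hA1 hB1 he1
  clear hA hB he h
  have hφ0 : (![0, 0, 1] : V3) ≠ 0 := by
    intro h0
    have := congrFun h0 2
    simp at this
  by_cases hB0 : ∀ w (j : Fin 3), j ≠ 2 → T.B w 0 j = 0 ∧ T.B w 1 j = 0
  · -- `B_w = b_w ⊗ e_3`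
    have hBv : ∀ w, ∃ b : V3, b 2 = 0 ∧ T.B w = vecMulVec b ![0, 0, 1] := by
      intro w
      refine ⟨![T.B w 0 2, T.B w 1 2, 0], rfl, ?_⟩
      obtain ⟨b1, b2, b3⟩ := row2' (hB1 w)
      obtain ⟨c1, c2⟩ := hB0 w 0 (by decide)
      obtain ⟨c3, c4⟩ := hB0 w 1 (by decide)
      ext i j
      fin_cases i <;> fin_cases j <;> simp [vecMulVec_apply, b1, b2, b3, c1, c2, c3, c4]
    obtain ⟨g, hg⟩ := II1_R hT hA1 hBv
    refine ⟨g, hφ0, fun y => ⟨0, by rw [hA1, zero_smul]⟩, fun y => ⟨0, by rw [hB1, zero_smul]⟩,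
      fun w hw => ⟨?_, ?_⟩⟩
    · obtain ⟨a, ha, hAw⟩ := hg w hw
      refine ⟨a, ?_, hAw⟩
      simp [dotProduct, Fin.sum_univ_three, ha]
    · obtain ⟨b, hb, hBw⟩ := hBv w
      refine ⟨b, 0, ?_, ?_⟩
      · simp [dotProduct, Fin.sum_univ_three, hb]
      · rw [hBw, zero_smul, add_zero]
  push Not at hB0
  obtain ⟨w0, j0, hj0, hwj⟩ := hB0
  -- all images are in `ℂ u`
  have hu : T.B w0 0 j0 ≠ 0 ∨ T.B w0 1 j0 ≠ 0 := by
    by_cases h0 : T.B w0 0 j0 = 0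
    · exact Or.inr (hwj h0)
    · exact Or.inl h0
  have hAu : ∀ y (l : Fin 3), l ≠ 2 → T.B w0 0 j0 * T.A y 1 l = T.B w0 1 j0 * T.A y 0 l := by
    intro y l hl
    obtain ⟨h1, h2⟩ := II1_b hT.cl hA1 hB1 y w0 j0 hj0
    fin_cases l
    · simp only [Fin.zero_eta]
      linear_combination -h2
    · simp only [Fin.mk_one]
      linear_combination h1
    · exact absurd rfl hl
  have hl0 : ∃ l : Fin 3, l ≠ 2 ∧ (T.A e 0 l ≠ 0 ∨ T.A e 1 l ≠ 0) := by
    by_contra hc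
    push Not at hc
    apply he1
    obtain ⟨a0, a1⟩ := hc 0 (by decide)
    obtain ⟨a2, a3⟩ := hc 1 (by decide)
    obtain ⟨b1, b2, b3⟩ := row2' (hA1 e)
    ext i j
    fin_cases i <;> fin_cases j <;>
      simp [ad, e2, Matrix.mul_apply, Fin.sum_univ_three, Matrix.trace, Matrix.one_apply, a0, a1, a2,
        a3, b1, b2, b3]
  obtain ⟨l0, hl0, hal⟩ := hl0
  have hBu : ∀ w (l : Fin 3), l ≠ 2 → T.B w0 0 j0 * T.B w 1 l = T.B w0 1 j0 * T.B w 0 l := by
    intro w l hl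
    obtain ⟨h1, h2⟩ := II1_b hT.cl hA1 hB1 e w l hl
    have h3 : T.A e 1 l0 * T.B w 0 l = T.A e 0 l0 * T.B w 1 l := by
      fin_cases l0
      · simp only [Fin.zero_eta]
        linear_combination -h2
      · simp only [Fin.mk_one]
        linear_combination h1
      · exact absurd rfl hl0
    have h4 := hAu e l0 hl0
    rcases hal with h5 | h5
    · apply mul_left_cancel₀ h5
      linear_combination T.B w 0 l * h4 - T.B w0 0 j0 * h3
    · apply mul_left_cancel₀ h5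
      linear_combination T.B w 1 l * h4 - T.B w0 1 j0 * h3
  obtain ⟨P', Q', hPQ', hQP', hPu, hφQ⟩ := frame_vec_cov ![T.B w0 0 j0, T.B w0 1 j0, 0] ![0, 0, 1]
    (by
      intro h0
      have e0 := congrFun h0 0
      have e1 := congrFun h0 1
      rcases hu with h1 | h1
      · exact h1 e0
      · exact h1 e1) hφ0 (by simp [dotProduct, Fin.sum_univ_three])
  have hφP : (![0, 0, 1] : V3) ᵥ* P' = ![0, 0, 1] := by
    conv_lhs => rw [← hφQ]
    rw [Matrix.vecMul_vecMul, hQP', Matrix.vecMul_one]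
  have hT' := hT.conj hPQ'
  have hA2 : ∀ y, (conj T P' Q').A y = !![(conj T P' Q').A y 0 0, (conj T P' Q').A y 0 1,
      (conj T P' Q').A y 0 2; 0, 0, (conj T P' Q').A y 1 2; 0, 0, 0] := fun y =>
    shape hPu hφQ hφP (hA1 y) (hAu y) rfl hu
  have hB2 : ∀ y, (conj T P' Q').B y = !![(conj T P' Q').B y 0 0, (conj T P' Q').B y 0 1,
      (conj T P' Q').B y 0 2; 0, 0, (conj T P' Q').B y 1 2; 0, 0, 0] := fun y =>
    shape hPu hφQ hφP (hB1 y) (hBu y) rfl hu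
  have he2 : ad ((conj T P' Q').A e) ≠ 0 := by
    intro h0
    apply he1
    have h1 : P' * ad (T.A e) * Q' = 0 := by
      rw [← ad_conj hPQ']
      exact h0
    calc ad (T.A e) = (Q' * P') * ad (T.A e) * (Q' * P') := by
          rw [hQP', Matrix.one_mul, Matrix.mul_one]
      _ = Q' * (P' * ad (T.A e) * Q') * P' := by simp only [Matrix.mul_assoc]
      _ = 0 := by rw [h1, Matrix.mul_zero, Matrix.zero_mul]
  obtain ⟨g, hg⟩ := II1_L hT' (Matrix.entryLinearMap ℂ ℂ 0 0 ∘ₗ (conj T P' Q').A)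
    (Matrix.entryLinearMap ℂ ℂ 0 1 ∘ₗ (conj T P' Q').A)
    (Matrix.entryLinearMap ℂ ℂ 0 2 ∘ₗ (conj T P' Q').A)
    (Matrix.entryLinearMap ℂ ℂ 1 2 ∘ₗ (conj T P' Q').A)
    (Matrix.entryLinearMap ℂ ℂ 0 0 ∘ₗ (conj T P' Q').B)
    (Matrix.entryLinearMap ℂ ℂ 0 1 ∘ₗ (conj T P' Q').B)
    (Matrix.entryLinearMap ℂ ℂ 0 2 ∘ₗ (conj T P' Q').B)
    (Matrix.entryLinearMap ℂ ℂ 1 2 ∘ₗ (conj T P' Q').B) hA2 hB2 e he2
  refine ⟨g, ?_⟩
  suffices hs : C12 (conj T P' Q') ![0, 0, 1] g by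
    have h1 := hs.of_conj hPQ'
    rw [hφP] at h1
    exact h1
  refine ⟨hφ0, fun y => ⟨0, ?_⟩, fun y => ⟨0, ?_⟩, fun w hw => ⟨?_, ?_⟩⟩
  · rw [hA2 y, zero_smul]
    funext i
    fin_cases i <;> simp [Matrix.vecMul, dotProduct, Fin.sum_univ_three]
  · rw [hB2 y, zero_smul]
    funext i
    fin_cases i <;> simp [Matrix.vecMul, dotProduct, Fin.sum_univ_three]
  · obtain ⟨g1, g2, g3, g4, g5, g6⟩ := hg w hw
    refine ⟨![(conj T P' Q').A w 0 2, 0, 0], by simp [dotProduct, Fin.sum_univ_three], ?_⟩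
    have f1 : (conj T P' Q').A w 0 0 = 0 := g1
    have f2 : (conj T P' Q').A w 0 1 = 0 := g2
    have f3 : (conj T P' Q').A w 1 2 = 0 := g3
    rw [hA2 w, f1, f2, f3]
    ext i j
    fin_cases i <;> fin_cases j <;> simp [vecMulVec_apply]
  · obtain ⟨g1, g2, g3, g4, g5, g6⟩ := hg w hw
    refine ⟨![(conj T P' Q').B w 0 2, 0, 0], 0, by simp [dotProduct, Fin.sum_univ_three], ?_⟩
    have f1 : (conj T P' Q').B w 0 0 = 0 := g4
    have f2 : (conj T P' Q').B w 0 1 = 0 := g5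
    have f3 : (conj T P' Q').B w 1 2 = 0 := g6
    rw [hB2 w, f1, f2, f3, zero_smul, add_zero]
    ext i j
    fin_cases i <;> fin_cases j <;> simp [vecMulVec_apply]

end Pool.Agent.Helper93.K3A
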