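import Pool.Agent.Helper93.K3A.L0
import Pool.Agent.Helper93.K3A.TwoL

/-!
K3A / II2: all `B_w = u ⊗ χ_w` and `det A = 0`, generic rank 2: impossible (memo II.2).

`χ` is injective (NC).  `eq3`: `D x (A_y t) u * χ_w(x) = D x (A_w t) u * χ_y(x)`, so
`D x (A_y t) u = χ_y(x) a(t)` for a covector `a` (independent `χ_y, χ_w`; `dim W ≥ 2`).  `a = 0`: `l0`.
`a ≠ 0`: `χ_y(u) = 0`, so `dim W = 2`; coordinates `u = e_3`, `χ_(w1) = e_1*`, `χ_(w2) = e_2*`.
`eq2v` gives `r_y = χ_y + s(y) a` for the third row; then `eq4` for `w1, w2` gives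
`(x_3 + s1 x_2 - s2 x_1) a ∧ κ_3 = 0`, so `κ_3 = q a`, `ξ_(e_3) = (f + q) a`: `no_const`.
-/

set_option autoImplicit false

namespace Pool.Agent.Helper93.K3A

open Matrix

variable {W : Type} [AddCommGroup W] [Module ℂ W]

private theorem ii2_row {P : M3} (h : ∃ χ, P = vecMulVec (![1, 0, 0]) χ) :
    P 1 0 = 0 ∧ P 1 1 = 0 ∧ P 1 2 = 0 ∧ P 2 0 = 0 ∧ P 2 1 = 0 ∧ P 2 2 = 0 := by
  obtain ⟨χ, rfl⟩ := h
  simp [vecMulVec_apply]

private theorem ii2_single (M : M3) (i j : Fin 3) : (M *ᵥ Pi.single j 1) i = M i j := by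
  simp

private theorem ii2_par {a d : V3} (ha : a ≠ 0) (h : ∀ i j, a i * d j = a j * d i) :
    ∃ s : ℂ, ∀ j, d j = s * a j := by
  obtain ⟨i, hi⟩ := Function.ne_iff.mp ha
  have hi' : a i ≠ 0 := hi
  refine ⟨d i / a i, fun j => ?_⟩
  field_simp
  linear_combination h i j

private theorem ii2_coord {S : Dat W} (h : Std S)
    (hB : ∀ w, ∃ χ, S.B w = vecMulVec (![1, 0, 0]) χ) : False := by
  have hB0 := fun w => ii2_row (hB w)
  have hinj : ∀ w, S.B w 0 0 = 0 → S.B w 0 1 = 0 → S.B w 0 2 = 0 → w = 0 := by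
    intro w h0 h1 h2
    apply h.nc w
    refine ⟨0, ?_⟩
    obtain ⟨e1, e2, e3, e4, e5, e6⟩ := hB0 w
    ext i j
    fin_cases i <;> fin_cases j <;> simp [h0, h1, h2, e1, e2, e3, e4, e5, e6]
  have E3 : ∀ (w w' : W) (x t : V3),
      (x 1 * (S.A w *ᵥ t) 2 - x 2 * (S.A w *ᵥ t) 1) * (S.B w' 0 ⬝ᵥ x)
        = (x 1 * (S.A w' *ᵥ t) 2 - x 2 * (S.A w' *ᵥ t) 1) * (S.B w 0 ⬝ᵥ x) := by
    intro w w' x t
    obtain ⟨e1, e2, e3, e4, e5, e6⟩ := hB0 w
    obtain ⟨f1, f2, f3, f4, f5, f6⟩ := hB0 w'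
    have h1 := eq3 h.cl w w' x t
    simp only [D, Matrix.mulVec, dotProduct, Fin.sum_univ_three, e1, e2, e3, e4, e5, e6, f1, f2, f3,
      f4, f5, f6] at h1 ⊢
    linear_combination (-1 : ℂ) * h1
  have c1 : ∀ w w' t, (S.A w *ᵥ t) 2 * S.B w' 0 1 = (S.A w' *ᵥ t) 2 * S.B w 0 1 := by
    intro w w' t
    have h1 := E3 w w' ![0, 1, 0] t
    simp [dotProduct, Fin.sum_univ_three] at h1
    exact h1
  have c2 : ∀ w w' t, (S.A w *ᵥ t) 1 * S.B w' 0 2 = (S.A w' *ᵥ t) 1 * S.B w 0 2 := by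
    intro w w' t
    have h1 := E3 w w' ![0, 0, 1] t
    simp [dotProduct, Fin.sum_univ_three] at h1
    exact h1
  have c3 : ∀ w w' t, (S.A w *ᵥ t) 2 * S.B w' 0 0 = (S.A w' *ᵥ t) 2 * S.B w 0 0 := by
    intro w w' t
    have h1 := E3 w w' ![1, 1, 0] t
    have h2 := c1 w w' t
    simp only [dotProduct, Fin.sum_univ_three, Matrix.cons_val] at h1
    linear_combination h1 - h2
  have c4 : ∀ w w' t, (S.A w *ᵥ t) 1 * S.B w' 0 0 = (S.A w' *ᵥ t) 1 * S.B w 0 0 := by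
    intro w w' t
    have h1 := E3 w w' ![1, 0, 1] t
    have h2 := c2 w w' t
    simp only [dotProduct, Fin.sum_univ_three, Matrix.cons_val] at h1
    linear_combination -h1 - h2
  have c5 : ∀ w w' t, (S.A w *ᵥ t) 2 * S.B w' 0 2 - (S.A w *ᵥ t) 1 * S.B w' 0 1
      = (S.A w' *ᵥ t) 2 * S.B w 0 2 - (S.A w' *ᵥ t) 1 * S.B w 0 1 := by
    intro w w' t
    have h1 := E3 w w' ![0, 1, 1] t
    have h2 := c1 w w' t
    have h3 := c2 w w' t
    simp only [dotProduct, Fin.sum_univ_three, Matrix.cons_val] at h1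
    linear_combination h1 - h2 + h3
  by_cases hP : ∀ w t, (S.A w *ᵥ t) 1 = 0 ∧ (S.A w *ᵥ t) 2 = 0
  · refine l0_coord h (fun w => ⟨S.A w 0, ?_⟩) hB
    have e1 : ∀ j, S.A w 1 j = 0 := fun j => by
      have h1 := (hP w (Pi.single j 1)).1
      rwa [ii2_single] at h1
    have e2 : ∀ j, S.A w 2 j = 0 := fun j => by
      have h1 := (hP w (Pi.single j 1)).2
      rwa [ii2_single] at h1
    ext i j
    fin_cases i
    · simp [vecMulVec_apply]
    · simp [vecMulVec_apply, e1]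
    · simp [vecMulVec_apply, e2]
  have hfd : Module.Finite ℂ W := Module.finite_of_finrank_pos (by have := h.dim; omega)
  have b0 : ∀ w, S.B w 0 0 = 0 := by
    by_contra hc
    push Not at hc
    obtain ⟨ws, hs⟩ := hc
    have hex : ∃ w', S.B ws 0 0 * S.B w' 0 1 - S.B w' 0 0 * S.B ws 0 1 ≠ 0 ∨
        S.B ws 0 0 * S.B w' 0 2 - S.B w' 0 0 * S.B ws 0 2 ≠ 0 := by
      by_contra hc
      push Not at hc
      have hf : Function.Injective (Matrix.entryLinearMap ℂ ℂ 0 0 ∘ₗ S.B : W →ₗ[ℂ] ℂ) := by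
        rw [injective_iff_map_eq_zero]
        intro w' hw'
        have hw0 : S.B w' 0 0 = 0 := hw'
        obtain ⟨g1, g2⟩ := hc w'
        rw [hw0, zero_mul, sub_zero] at g1 g2
        exact hinj w' hw0 ((mul_eq_zero.1 g1).resolve_left hs) ((mul_eq_zero.1 g2).resolve_left hs)
      have hle := LinearMap.finrank_le_finrank_of_injective hf
      rw [Module.finrank_self] at hle
      have := h.dim
      omega
    obtain ⟨w', hw'⟩ := hex
    apply hP
    have hws : ∀ t, (S.A ws *ᵥ t) 1 = 0 ∧ (S.A ws *ᵥ t) 2 = 0 := by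
      intro t
      have g1 : (S.A ws *ᵥ t) 2 * (S.B ws 0 0 * S.B w' 0 1 - S.B w' 0 0 * S.B ws 0 1) = 0 := by
        linear_combination S.B ws 0 0 * c1 ws w' t + S.B ws 0 1 * c3 w' ws t
      have g2 : (S.A ws *ᵥ t) 1 * (S.B ws 0 0 * S.B w' 0 2 - S.B w' 0 0 * S.B ws 0 2) = 0 := by
        linear_combination S.B ws 0 0 * c2 ws w' t + S.B ws 0 2 * c4 w' ws t
      have g3 : (S.A ws *ᵥ t) 2 * (S.B ws 0 0 * S.B w' 0 2 - S.B w' 0 0 * S.B ws 0 2)
          - (S.A ws *ᵥ t) 1 * (S.B ws 0 0 * S.B w' 0 1 - S.B w' 0 0 * S.B ws 0 1) = 0 := by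
        linear_combination S.B ws 0 0 * c5 ws w' t + S.B ws 0 2 * c3 w' ws t
          - S.B ws 0 1 * c4 w' ws t
      rcases hw' with h1 | h1
      · have h2 := (mul_eq_zero.1 g1).resolve_right h1
        rw [h2, zero_mul, zero_sub, neg_eq_zero] at g3
        exact ⟨(mul_eq_zero.1 g3).resolve_right h1, h2⟩
      · have h2 := (mul_eq_zero.1 g2).resolve_right h1
        rw [h2, zero_mul, sub_zero] at g3
        exact ⟨h2, (mul_eq_zero.1 g3).resolve_right h1⟩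
    intro w t
    obtain ⟨g1, g2⟩ := hws t
    have h3 := c3 w ws t
    have h4 := c4 w ws t
    rw [g2, zero_mul] at h3
    rw [g1, zero_mul] at h4
    exact ⟨(mul_eq_zero.1 h4).resolve_right hs, (mul_eq_zero.1 h3).resolve_right hs⟩
  -- a basis of `W`
  let b : W →ₗ[ℂ] (Fin 2 → ℂ) := LinearMap.pi ![Matrix.entryLinearMap ℂ ℂ 0 1 ∘ₗ S.B,
    Matrix.entryLinearMap ℂ ℂ 0 2 ∘ₗ S.B]
  have hb0 : ∀ w, b w 0 = S.B w 0 1 := fun w => rfl
  have hb1 : ∀ w, b w 1 = S.B w 0 2 := fun w => rfl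
  have hbinj : Function.Injective b := by
    rw [injective_iff_map_eq_zero]
    intro w hw
    exact hinj w (b0 w) (by rw [← hb0, hw]; rfl) (by rw [← hb1, hw]; rfl)
  have hsurj : Function.Surjective b := by
    have h1 := LinearMap.finrank_le_finrank_of_injective hbinj
    have h2 : Module.finrank ℂ (Fin 2 → ℂ) = 2 := by simp
    have h3 : Module.finrank ℂ W = Module.finrank ℂ (Fin 2 → ℂ) := by
      have := h.dim
      omega
    exact (LinearMap.injective_iff_surjective_of_finrank_eq_finrank h3).1 hbinj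
  obtain ⟨w1, hw1⟩ := hsurj ![1, 0]
  obtain ⟨w2, hw2⟩ := hsurj ![0, 1]
  have b11 : S.B w1 0 1 = 1 := by rw [← hb0, hw1]; rfl
  have b12 : S.B w1 0 2 = 0 := by rw [← hb1, hw1]; rfl
  have b21 : S.B w2 0 1 = 0 := by rw [← hb0, hw2]; rfl
  have b22 : S.B w2 0 2 = 1 := by rw [← hb1, hw2]; rfl
  -- rows one and two
  obtain ⟨a, hadef⟩ : ∃ a : V3, ∀ j, a j = S.A w1 2 j := ⟨S.A w1 2, fun _ => rfl⟩
  have hA2 : ∀ w j, S.A w 2 j = S.B w 0 1 * a j := by
    intro w j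
    have h1 := c1 w w1 (Pi.single j 1)
    rw [ii2_single, ii2_single, b11, mul_one] at h1
    rw [h1, hadef, mul_comm]
  have hA1 : ∀ w j, S.A w 1 j = -(S.B w 0 2 * a j) := by
    intro w j
    have h1 := c2 w w2 (Pi.single j 1)
    have h2 := c5 w1 w2 (Pi.single j 1)
    rw [ii2_single, ii2_single, b22, mul_one] at h1
    rw [ii2_single, ii2_single, ii2_single, ii2_single, b22, b21, b12, b11] at h2
    rw [h1, hadef]
    linear_combination (S.B w 0 2) * h2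
  have ha : a ≠ 0 := by
    rintro rfl
    apply hP
    intro w t
    simp [Matrix.mulVec, dotProduct, Fin.sum_univ_three, hA1, hA2]
  obtain ⟨e1, e2, e3, e4, e5, e6⟩ := hB0 w1
  obtain ⟨f1, f2, f3, f4, f5, f6⟩ := hB0 w2
  have e0 := b0 w1
  have f0 := b0 w2
  -- row zero
  have q1 : ∀ t1 t2 : V3, (a ⬝ᵥ t1) * (S.A w1 0 ⬝ᵥ t2 - t2 1) = (a ⬝ᵥ t2) * (S.A w1 0 ⬝ᵥ t1 - t1 1) := by
    intro t1 t2
    have h1 := eq2v h.cl w1 w1 ![0, 1, 0] t1 t2
    simp only [D, Matrix.mulVec, dotProduct, Fin.sum_univ_three, hA1, hA2, b11, b12, e0, e1, e2, e3,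
      e4, e5, e6, Matrix.cons_val] at h1 ⊢
    linear_combination (1 / 2 : ℂ) * h1
  have q2 : ∀ t1 t2 : V3, (a ⬝ᵥ t1) * (S.A w2 0 ⬝ᵥ t2 - t2 2) = (a ⬝ᵥ t2) * (S.A w2 0 ⬝ᵥ t1 - t1 2) := by
    intro t1 t2
    have h1 := eq2v h.cl w2 w2 ![0, 0, 1] t1 t2
    simp only [D, Matrix.mulVec, dotProduct, Fin.sum_univ_three, hA1, hA2, b21, b22, f0, f1, f2, f3,
      f4, f5, f6, Matrix.cons_val] at h1 ⊢
    linear_combination (1 / 2 : ℂ) * h1
  have hs1 : ∃ s : ℂ, ∀ j, S.A w1 0 j - (Pi.single 1 1 : V3) j = s * a j := by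
    apply ii2_par ha
    intro i j
    have h1 := q1 (Pi.single i 1) (Pi.single j 1)
    simp only [dotProduct_single, mul_one] at h1
    have hp : ∀ k : Fin 3, (Pi.single k (1 : ℂ) : V3) 1 = (Pi.single 1 1 : V3) k := by
      intro k
      fin_cases k <;> simp [Pi.single_apply]
    rw [hp, hp] at h1
    exact h1
  have hs2 : ∃ s : ℂ, ∀ j, S.A w2 0 j - (Pi.single 2 1 : V3) j = s * a j := by
    apply ii2_par ha
    intro i j
    have h1 := q2 (Pi.single i 1) (Pi.single j 1)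
    simp only [dotProduct_single, mul_one] at h1
    have hp : ∀ k : Fin 3, (Pi.single k (1 : ℂ) : V3) 2 = (Pi.single 2 1 : V3) k := by
      intro k
      fin_cases k <;> simp [Pi.single_apply]
    rw [hp, hp] at h1
    exact h1
  obtain ⟨s1, hs1⟩ := hs1
  obtain ⟨s2, hs2⟩ := hs2
  have r10 : S.A w1 0 0 = s1 * a 0 := by
    have := hs1 0
    simpa [Pi.single_apply] using this
  have r11 : S.A w1 0 1 = 1 + s1 * a 1 := by
    have := hs1 1
    simp [Pi.single_apply] at this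
    linear_combination this
  have r12 : S.A w1 0 2 = s1 * a 2 := by
    have := hs1 2
    simpa [Pi.single_apply] using this
  have r20 : S.A w2 0 0 = s2 * a 0 := by
    have := hs2 0
    simpa [Pi.single_apply] using this
  have r21 : S.A w2 0 1 = s2 * a 1 := by
    have := hs2 1
    simpa [Pi.single_apply] using this
  have r22 : S.A w2 0 2 = 1 + s2 * a 2 := by
    have := hs2 2
    simp [Pi.single_apply] at this
    linear_combination this
  -- the vectors `A_w t`, `B_w x`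
  have v10 : ∀ t, (S.A w1 *ᵥ t) 0 = t 1 + s1 * (a ⬝ᵥ t) := by
    intro t
    simp only [Matrix.mulVec, dotProduct, Fin.sum_univ_three, r10, r11, r12]
    ring
  have v11 : ∀ t, (S.A w1 *ᵥ t) 1 = 0 := by
    intro t
    simp only [Matrix.mulVec, dotProduct, Fin.sum_univ_three, hA1, b12]
    ring
  have v12 : ∀ t, (S.A w1 *ᵥ t) 2 = a ⬝ᵥ t := by
    intro t
    simp only [Matrix.mulVec, dotProduct, Fin.sum_univ_three, hA2, b11]
    ring
  have v20 : ∀ t, (S.A w2 *ᵥ t) 0 = t 2 + s2 * (a ⬝ᵥ t) := by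
    intro t
    simp only [Matrix.mulVec, dotProduct, Fin.sum_univ_three, r20, r21, r22]
    ring
  have v21 : ∀ t, (S.A w2 *ᵥ t) 1 = -(a ⬝ᵥ t) := by
    intro t
    simp only [Matrix.mulVec, dotProduct, Fin.sum_univ_three, hA1, b22]
    ring
  have v22 : ∀ t, (S.A w2 *ᵥ t) 2 = 0 := by
    intro t
    simp only [Matrix.mulVec, dotProduct, Fin.sum_univ_three, hA2, b21]
    ring
  have u10 : ∀ x, (S.B w1 *ᵥ x) 0 = x 1 := by
    intro x
    simp only [Matrix.mulVec, dotProduct, Fin.sum_univ_three, e0, b11, b12]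
    ring
  have u11 : ∀ x, (S.B w1 *ᵥ x) 1 = 0 := by
    intro x
    simp only [Matrix.mulVec, dotProduct, Fin.sum_univ_three, e1, e2, e3]
    ring
  have u12 : ∀ x, (S.B w1 *ᵥ x) 2 = 0 := by
    intro x
    simp only [Matrix.mulVec, dotProduct, Fin.sum_univ_three, e4, e5, e6]
    ring
  have u20 : ∀ x, (S.B w2 *ᵥ x) 0 = x 2 := by
    intro x
    simp only [Matrix.mulVec, dotProduct, Fin.sum_univ_three, f0, b21, b22]
    ring
  have u21 : ∀ x, (S.B w2 *ᵥ x) 1 = 0 := by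
    intro x
    simp only [Matrix.mulVec, dotProduct, Fin.sum_univ_three, f1, f2, f3]
    ring
  have u22 : ∀ x, (S.B w2 *ᵥ x) 2 = 0 := by
    intro x
    simp only [Matrix.mulVec, dotProduct, Fin.sum_univ_three, f4, f5, f6]
    ring
  -- `eq4`
  have key : ∀ t1 t2 x : V3, (-x 0 + s1 * x 2 - s2 * x 1) *
      ((a ⬝ᵥ t1) * (x 2 * (S.C x *ᵥ t2) 1 - x 1 * (S.C x *ᵥ t2) 2)
        - (a ⬝ᵥ t2) * (x 2 * (S.C x *ᵥ t1) 1 - x 1 * (S.C x *ᵥ t1) 2)) = 0 := by
    intro t1 t2 x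
    have h1 := eq4 h.cl w1 x t1 t2
    have h2 := eq4 h.cl w2 x t1 t2
    simp only [D, v10, v11, v12, v20, v21, v22, u10, u11, u12, u20, u21, u22] at h1 h2
    linear_combination x 2 * h1 - x 1 * h2
  have hzero : ∀ t1 t2 x : V3, (a ⬝ᵥ t1) * (x 2 * (S.C x *ᵥ t2) 1 - x 1 * (S.C x *ᵥ t2) 2)
        - (a ⬝ᵥ t2) * (x 2 * (S.C x *ᵥ t1) 1 - x 1 * (S.C x *ᵥ t1) 2) = 0 := by
    intro t1 t2
    have hpr : ∀ i : Fin 3, LP (fun x : V3 => x i) := by
      intro i
      have h1 := LP.lin (LinearMap.proj i : V3 →ₗ[ℂ] ℂ)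
      exact h1
    have hC : ∀ (t : V3) (i : Fin 3), LP (fun x : V3 => (S.C x *ᵥ t) i) := by
      intro t i
      exact LP.lin
        { toFun := fun x => (S.C x *ᵥ t) i
          map_add' := fun x y => by rw [map_add, Matrix.add_mulVec]; rfl
          map_smul' := fun c x => by rw [map_smul, Matrix.smul_mulVec]; rfl }
    have hK : ∀ t : V3, LP (fun x : V3 => x 2 * (S.C x *ᵥ t) 1 - x 1 * (S.C x *ᵥ t) 2) :=
      fun t => ((hpr 2).mul (hC t 1)).sub ((hpr 1).mul (hC t 2))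
    have hg := ((LP.const (E := V3) (a ⬝ᵥ t1)).mul (hK t2)).sub
      ((LP.const (E := V3) (a ⬝ᵥ t2)).mul (hK t1))
    have hl : LP (fun x : V3 => -x 0 + s1 * x 2 - s2 * x 1) := by
      refine LP.lin
        { toFun := fun x : V3 => -x 0 + s1 * x 2 - s2 * x 1
          map_add' := fun x y => by simp only [Pi.add_apply]; ring
          map_smul' := fun c x => by simp only [Pi.smul_apply, smul_eq_mul, RingHom.id_apply]; ring }
    rcases LP.mul_eq_zero hl hg (key t1 t2) with h1 | h1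
    · exfalso
      have h2 := h1 ![1, 0, 0]
      simp at h2
    · exact h1
  -- `ξ` is a multiple of `a`
  refine no_const h (![1, 0, 0]) (fun h0 => ?_) a ha (fun z v v' => ?_)
  · have := congrFun h0 0
    simp at this
  · obtain ⟨x, y⟩ := z
    obtain ⟨t, w⟩ := v
    obtain ⟨t', w'⟩ := v'
    have h1 := hzero t t' x
    have xi' : ∀ (t : V3) (w : W), xi S (![1, 0, 0]) x y t w
        = (x 2 * (S.C x *ᵥ t) 1 - x 1 * (S.C x *ᵥ t) 2)
          - (S.B y 0 1 * x 1 + S.B y 0 2 * x 2) * (a ⬝ᵥ t) := by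
      intro t w
      obtain ⟨g1, g2, g3, g4, g5, g6⟩ := hB0 w
      have y1 : (S.A y *ᵥ t) 1 = -(S.B y 0 2 * (a ⬝ᵥ t)) := by
        simp only [Matrix.mulVec, dotProduct, Fin.sum_univ_three, hA1]
        ring
      have y2 : (S.A y *ᵥ t) 2 = S.B y 0 1 * (a ⬝ᵥ t) := by
        simp only [Matrix.mulVec, dotProduct, Fin.sum_univ_three, hA2]
        ring
      have z1 : (S.B w *ᵥ x) 1 = 0 := by
        simp only [Matrix.mulVec, dotProduct, Fin.sum_univ_three, g1, g2, g3]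
        ring
      have z2 : (S.B w *ᵥ x) 2 = 0 := by
        simp only [Matrix.mulVec, dotProduct, Fin.sum_univ_three, g4, g5, g6]
        ring
      simp only [xi, eta, D, Pi.add_apply, y1, y2, z1, z2, Matrix.cons_val_zero,
        Matrix.cons_val_one, Matrix.cons_val]
      ring
    rw [xi', xi']
    linear_combination h1

/-- II.2: all `B_w = e ⊗ χ_w` is impossible (rank of the generic `A_y` is 2, `det A = 0`) -/
theorem II2 {S : Dat W} (h : Std S) (hdet : ∀ y, (S.A y).det = 0) (e : W) (he : ad (S.A e) ≠ 0)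
    (u : V3) (hu : u ≠ 0) (hB : ∀ w, ∃ χ, S.B w = vecMulVec u χ) : False := by
  obtain ⟨P, Q, hPQ, hQP, hPu⟩ := frame_vec u hu
  refine ii2_coord (h.conj hPQ) (fun w => ?_)
  obtain ⟨χ, hχ⟩ := hB w
  refine ⟨χ ᵥ* Q, ?_⟩
  change P * S.B w * Q = _
  rw [hχ, mul_vecMulVec, vecMulVec_mul, hPu]

end Pool.Agent.Helper93.K3A
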