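import Pool.Agent.Helper93.K3A.IIlam
import Pool.Agent.Helper93.K3A.II1
import Pool.Agent.Helper93.K3A.II2

/-!
K3A / CaseII: `det A = 0`, `ad A_e ≠ 0` for some `e`: assembly.
Gauge `λ = 0` in `II_lam`: `ad A_y * B_w = 0` for all `y, w`.  If all rows of all `ad A_y` are multiples of one
covector `ψ` then `ψ A_y = 0` (`ad_mul`), `ψ B_w = 0`: `II1`.  Otherwise two independent covectors kill
all `B_w`: `B_w = u ⊗ χ_w`: `II2`.
-/

set_option autoImplicit false

namespace Pool.Agent.Helper93.K3A

open Matrix

variable {W : Type} [AddCommGroup W] [Module ℂ W]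

private def cr (p q : V3) : V3 :=
  ![p 1 * q 2 - p 2 * q 1, p 2 * q 0 - p 0 * q 2, p 0 * q 1 - p 1 * q 0]

/-- parallel vectors -/
private theorem smul_of_minors {p q : V3} (hp : p ≠ 0) (h : ∀ i j, p i * q j = p j * q i) :
    ∃ c : ℂ, q = c • p := by
  have : ∃ i, p i ≠ 0 := by
    by_contra hc
    push Not at hc
    exact hp (funext hc)
  obtain ⟨i, hi⟩ := this
  refine ⟨q i / p i, funext fun j => ?_⟩
  rw [Pi.smul_apply, smul_eq_mul]
  field_simp
  linear_combination h i j

private theorem minors_of_cr {p q : V3} (h : cr p q = 0) : ∀ i j, p i * q j = p j * q i := by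
  have h0 := congrFun h 0
  have h1 := congrFun h 1
  have h2 := congrFun h 2
  simp [cr] at h0 h1 h2
  intro i j
  fin_cases i <;> fin_cases j <;> simp <;>
    first
      | ring1
      | linear_combination h0
      | linear_combination -h0
      | linear_combination h1
      | linear_combination -h1
      | linear_combination h2
      | linear_combination -h2

private theorem cr_cr {p q v : V3} (h1 : p ⬝ᵥ v = 0) (h2 : q ⬝ᵥ v = 0) : cr (cr p q) v = 0 := by
  simp only [dotProduct, Fin.sum_univ_three] at h1 h2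
  funext i
  fin_cases i
  · simp [cr]
    linear_combination q 0 * h1 - p 0 * h2
  · simp [cr]
    linear_combination q 1 * h1 - p 1 * h2
  · simp [cr]
    linear_combination q 2 * h1 - p 2 * h2

theorem caseII {S : Dat W} (h : Std S) (hdet : ∀ y, (S.A y).det = 0) (e : W)
    (he : ad (S.A e) ≠ 0) : ∃ φ g, C12 S φ g := by
  obtain ⟨lam, hlam⟩ := II_lam h.cl hdet e he
  have hS := h.gauge (-lam) 0
  have hA : ∀ y, (gauge S (-lam) 0).A y = S.A y := fun _ => rfl
  have hB : ∀ w, (gauge S (-lam) 0).B w = S.B w - lam w • (1 : M3) := by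
    intro w
    show S.B w + (-lam w) • (1 : M3) = _
    rw [neg_smul, sub_eq_add_neg]
  have hAB : ∀ y w, ad ((gauge S (-lam) 0).A y) * (gauge S (-lam) 0).B w = 0 := by
    intro y w
    rw [hA, hB, Matrix.mul_sub, (hlam y w).1, Matrix.mul_smul, Matrix.mul_one, sub_self]
  suffices hs : ∃ φ g, C12 (gauge S (-lam) 0) φ g by
    obtain ⟨φ, g, hg⟩ := hs
    exact ⟨φ, g, hg.of_gauge⟩
  have hdet' : ∀ y, ((gauge S (-lam) 0).A y).det = 0 := hdet
  have he' : ad ((gauge S (-lam) 0).A e) ≠ 0 := he
  generalize gauge S (-lam) 0 = T at hS hAB hdet' he'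
  -- a non-zero row
  have hrow : ∃ i, (ad (T.A e)) i ≠ 0 := by
    by_contra hc
    push Not at hc
    exact he' (by ext i j; rw [hc i]; rfl)
  obtain ⟨i0, hi0⟩ := hrow
  have hkill : ∀ y i w, (ad (T.A y)) i ᵥ* T.B w = 0 := by
    intro y i w
    have h1 := congrFun (hAB y w) i
    rw [Matrix.mul_apply_eq_vecMul] at h1
    exact h1
  by_cases hall : ∀ y i, ∃ c : ℂ, (ad (T.A y)) i = c • (ad (T.A e)) i0
  · -- `ψ A_y = 0`
    have h1 : ∀ y, ad (T.A y) ≠ 0 → (ad (T.A e)) i0 ᵥ* T.A y = 0 := by
      intro y hy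
      have : ∃ i, (ad (T.A y)) i ≠ 0 := by
        by_contra hc
        push Not at hc
        exact hy (by ext i j; rw [hc i]; rfl)
      obtain ⟨i, hi⟩ := this
      obtain ⟨c, hc⟩ := hall y i
      have hc0 : c ≠ 0 := by
        rintro rfl
        exact hi (by rw [hc, zero_smul])
      have h2 := congrFun (ad_mul (T.A y)) i
      rw [hdet' y, zero_smul, Matrix.mul_apply_eq_vecMul, hc, Matrix.smul_vecMul] at h2
      exact (smul_eq_zero.1 h2).resolve_left hc0
    have hψe := h1 e he'
    have h3 : ∀ y, (ad (T.A e)) i0 ᵥ* T.A y = 0 := by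
      intro y
      by_cases hy : ad (T.A y) = 0
      · have h4 := ad_add_smul (T.A y) (T.A e) 1
        have h5 := ad_add_smul (T.A y) (T.A e) (-1)
        rw [one_smul, one_smul, one_pow, one_smul] at h4
        rw [neg_one_sq, one_smul] at h5
        by_cases h6 : ad (T.A y + T.A e) = 0
        · by_cases h7 : ad (T.A y + (-1 : ℂ) • T.A e) = 0
          · exfalso
            rw [h6, hy, zero_add] at h4
            rw [h7, hy, zero_add] at h5
            have h8 : (2 : ℂ) • ad (T.A e) = 0 := by
              have h9 : (0 : M3) + 0 = (adjp (T.A y) (T.A e) + ad (T.A e)) +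
                  ((-1 : ℂ) • adjp (T.A y) (T.A e) + ad (T.A e)) := by rw [← h4, ← h5]
              rw [add_zero] at h9
              rw [h9, neg_smul, one_smul, two_smul]
              abel
            rcases smul_eq_zero.1 h8 with h9 | h9
            · norm_num at h9
            · exact he' h9
          · have h8 := h1 (y + (-1 : ℂ) • e) (by rw [map_add, map_smul]; exact h7)
            rw [map_add, map_smul, Matrix.vecMul_add, Matrix.vecMul_smul, hψe, smul_zero,
              add_zero] at h8
            exact h8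
        · have h8 := h1 (y + e) (by rw [map_add]; exact h6)
          rw [map_add, Matrix.vecMul_add, hψe, add_zero] at h8
          exact h8
      · exact h1 y hy
    obtain ⟨g, hg⟩ := II1 hS e he' _ hi0 h3 (hkill e i0)
    exact ⟨_, g, hg⟩
  · exfalso
    push Not at hall
    obtain ⟨y, i, hyi⟩ := hall
    have hn : cr ((ad (T.A e)) i0) ((ad (T.A y)) i) ≠ 0 := by
      intro hc
      obtain ⟨c, hc⟩ := smul_of_minors hi0 (minors_of_cr hc)
      exact hyi c hc
    refine II2 hS hdet' e he' _ hn fun w => ?_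
    have hcol : ∀ j, ∃ c : ℂ, (fun k => T.B w k j) = c • cr ((ad (T.A e)) i0) ((ad (T.A y)) i) := by
      intro j
      refine smul_of_minors hn (minors_of_cr (cr_cr ?_ ?_))
      · exact congrFun (hkill e i0 w) j
      · exact congrFun (hkill y i w) j
    choose c hc using hcol
    refine ⟨c, ?_⟩
    ext k j
    rw [vecMulVec_apply]
    have h1 := congrFun (hc j) k
    rw [Pi.smul_apply, smul_eq_mul] at h1
    rw [h1, mul_comm]

end Pool.Agent.Helper93.K3A
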