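import Pool.Agent.Helper93.K3A.IIIc

/-!
K3A / CaseIII: assembly.  `III_c`: gauge (`III_nil` gives `ψ B_w = β' ψ`), `frame_vec_cov`, `III_c_coord`.
`caseIII`: `rank1_family` (`minors_of_ad_zero`), then `caseIV`, `III_a`, `III_b`, `III_c`.
-/

set_option autoImplicit false

namespace Pool.Agent.Helper93.K3A

open Matrix

variable {W : Type} [AddCommGroup W] [Module ℂ W]

private theorem ad_vmv (u ψ : V3) : ad (vecMulVec u ψ) = 0 := by
  ext i j
  fin_cases i <;> fin_cases j <;>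
    simp [ad, e2, Matrix.mul_apply, Fin.sum_univ_three, Matrix.trace, vecMulVec_apply] <;> ring

private theorem trace_vmv (u ψ : V3) : (vecMulVec u ψ).trace = ψ ⬝ᵥ u := by
  simp [Matrix.trace, dotProduct, Fin.sum_univ_three, vecMulVec_apply]
  ring

private theorem adjp_smul_left (c : ℂ) (P Q : M3) : adjp (c • P) Q = c • adjp P Q := by
  ext i j
  simp only [adjp, e2p, Matrix.add_apply, Matrix.sub_apply, Matrix.smul_apply, smul_eq_mul,
    Matrix.smul_mul, Matrix.mul_smul, Matrix.trace_smul]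
  ring

private theorem adjp_smul_right (c : ℂ) (P Q : M3) : adjp P (c • Q) = c • adjp P Q := by
  ext i j
  simp only [adjp, e2p, Matrix.add_apply, Matrix.sub_apply, Matrix.smul_apply, smul_eq_mul,
    Matrix.smul_mul, Matrix.mul_smul, Matrix.trace_smul]
  ring

private theorem hyp_nil {S : Dat W} (h : Cl S) (g : W →ₗ[ℂ] ℂ) (u ψ : V3)
    (hA : ∀ y, S.A y = g y • vecMulVec u ψ) (y0 : W) (hy : g y0 ≠ 0) (w : W) :
    adjp (vecMulVec u ψ) (S.B w) = ((ψ ⬝ᵥ u) • (1 : M3) - vecMulVec u ψ) * S.B w := by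
  have h1 := eq2 h y0 w
  rw [hA y0, hA w, adjp_smul_left, adjp_smul_left, adjp_smul_right, adjp_self, ad_vmv, smul_zero,
    smul_zero, smul_zero, Matrix.trace_smul, trace_vmv] at h1
  have h2 : ((g y0 • (ψ ⬝ᵥ u)) • (1 : M3) - g y0 • vecMulVec u ψ)
      = g y0 • ((ψ ⬝ᵥ u) • (1 : M3) - vecMulVec u ψ) := by
    rw [smul_sub, smul_eq_mul, mul_smul]
  rw [h2, Matrix.smul_mul, ← smul_sub] at h1
  have h3 := (smul_eq_zero.mp h1.symm).resolve_left hy
  exact sub_eq_zero.mp h3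

private theorem vmv_mul (a b : V3) (P Q : M3) :
    P * vecMulVec a b * Q = vecMulVec (P *ᵥ a) (b ᵥ* Q) := by
  rw [Matrix.mul_vecMulVec, Matrix.vecMulVec_mul]

theorem III_c {S : Dat W} (h : Std S) (g : W →ₗ[ℂ] ℂ) (hg : g ≠ 0) (u ψ : V3) (hu : u ≠ 0)
    (hψ : ψ ≠ 0) (hψu : ψ ⬝ᵥ u = 0) (hA : ∀ y, S.A y = g y • vecMulVec u ψ) : C12 S ψ g := by
  obtain ⟨y0, hy0⟩ : ∃ y0, g y0 ≠ 0 := by
    by_contra hc
    push Not at hc
    exact hg (LinearMap.ext hc)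
  have hnil := fun w => III_nil u ψ (S.B w) hu hψ hψu (hyp_nil h.cl g u ψ hA y0 hy0 w)
  obtain ⟨P, Q, hPQ, hQP, hPu, hψQ⟩ := frame_vec_cov u ψ hu hψ hψu
  set v : V3 := Q *ᵥ ![0, 0, 1] with hv
  have hψv : ψ ⬝ᵥ v = 1 := by
    rw [hv, Matrix.dotProduct_mulVec, hψQ]
    simp [dotProduct, Fin.sum_univ_three]
  have hψB : ∀ w, ψ ᵥ* S.B w = ((ψ ᵥ* S.B w) ⬝ᵥ v) • ψ := by
    intro w
    obtain ⟨β, -, h2⟩ := hnil w
    rw [h2, smul_dotProduct, hψv, smul_eq_mul, mul_one]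
  let ζ : W →ₗ[ℂ] ℂ :=
    { toFun := fun w => -((ψ ᵥ* S.B w) ⬝ᵥ v)
      map_add' := fun x y => by
        rw [map_add, Matrix.vecMul_add, add_dotProduct]; ring
      map_smul' := fun c x => by
        rw [map_smul, Matrix.vecMul_smul, smul_dotProduct]; simp }
  have hζ : ∀ w, ζ w = -((ψ ᵥ* S.B w) ⬝ᵥ v) := fun w => rfl
  have hS1 := h.gauge ζ 0
  have hB1 : ∀ w, (gauge S ζ 0).B w = S.B w + ζ w • (1 : M3) := fun w => by
    simp [gauge]
  have hψ1 : ∀ w, ψ ᵥ* (gauge S ζ 0).B w = 0 := by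
    intro w
    rw [hB1, Matrix.vecMul_add, Matrix.vecMul_smul, Matrix.vecMul_one, hζ, neg_smul, ← hψB]
    simp
  have hS2 := hS1.conj hPQ
  have hPψ : (![0, 0, 1] : V3) ᵥ* P = ψ := by
    rw [← hψQ, Matrix.vecMul_vecMul, hQP, Matrix.vecMul_one]
  have key := III_c_coord hS2 g hg
    (by
      intro y
      show P * (gauge S ζ 0).A y * Q = _
      have : (gauge S ζ 0).A y = g y • vecMulVec u ψ := hA y
      rw [this, Matrix.mul_smul, Matrix.smul_mul, vmv_mul, hPu, hψQ])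
    (by
      intro w
      show (![0, 0, 1] : V3) ᵥ* (P * (gauge S ζ 0).B w * Q) = 0
      rw [← Matrix.vecMul_vecMul, ← Matrix.vecMul_vecMul, hPψ, hψ1, Matrix.zero_vecMul])
  refine ⟨hψ, fun y => ⟨0, ?_⟩, fun y => ⟨_, hψB y⟩, fun w hw => ⟨⟨0, by simp, ?_⟩, ?_⟩⟩
  · rw [hA, Matrix.vecMul_smul, Matrix.vecMul_vecMulVec, hψu]
    simp
  · rw [hA, hw]
    ext i j
    simp [vecMulVec_apply]
  · obtain ⟨b, hb, hBw⟩ := key w hw
    have h1 : P * (gauge S ζ 0).B w * Q = vecMulVec b ![0, 0, 1] := hBw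
    have h2 : (gauge S ζ 0).B w = vecMulVec (Q *ᵥ b) ψ := by
      have h3 : Q * (P * (gauge S ζ 0).B w * Q) * P = (gauge S ζ 0).B w := by
        calc Q * (P * (gauge S ζ 0).B w * Q) * P = (Q * P) * (gauge S ζ 0).B w * (Q * P) := by
              simp only [Matrix.mul_assoc]
          _ = (gauge S ζ 0).B w := by rw [hQP, Matrix.one_mul, Matrix.mul_one]
      rw [← h3, h1, vmv_mul, hPψ]
    refine ⟨Q *ᵥ b, -ζ w, ?_, ?_⟩
    · rw [Matrix.dotProduct_mulVec, hψQ]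
      exact hb
    · rw [← h2, hB1]
      simp

private theorem both {S : Dat W} (h : Std S) (u ψ : V3) (hu : u ≠ 0) (hψ : ψ ≠ 0) (y0 : W)
    (hy0 : S.A y0 = vecMulVec u ψ) (hA : ∀ y, ∃ c : ℂ, S.A y = c • vecMulVec u ψ) :
    ∃ φ g, C12 S φ g := by
  by_cases ht : ψ ⬝ᵥ u = 0
  · obtain ⟨i, hi⟩ : ∃ i, u i ≠ 0 := by
      by_contra hc
      push Not at hc
      exact hu (funext hc)
    obtain ⟨j, hj⟩ : ∃ j, ψ j ≠ 0 := by
      by_contra hc
      push Not at hc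
      exact hψ (funext hc)
    let g : W →ₗ[ℂ] ℂ :=
      { toFun := fun w => S.A w i j / (u i * ψ j)
        map_add' := fun x y => by
          rw [map_add, Matrix.add_apply, add_div]
        map_smul' := fun c x => by
          rw [map_smul, Matrix.smul_apply]; simp [mul_div_assoc] }
    have hgd : ∀ w, g w = S.A w i j / (u i * ψ j) := fun w => rfl
    have hAg : ∀ y, S.A y = g y • vecMulVec u ψ := by
      intro y
      obtain ⟨c, hc⟩ := hA y
      have : g y = c := by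
        rw [hgd, hc, Matrix.smul_apply, vecMulVec_apply, smul_eq_mul,
          mul_div_assoc, div_self (mul_ne_zero hi hj), mul_one]
      rw [this, hc]
    have hg : g ≠ 0 := by
      intro h0
      have h1 : g y0 = 1 := by
        rw [hgd, hy0, vecMulVec_apply, div_self (mul_ne_zero hi hj)]
      rw [h0] at h1
      simp at h1
    exact ⟨ψ, g, III_c h g hg u ψ hu hψ ht hAg⟩
  · exfalso
    refine III_a h u hu (fun y => ?_) (Or.inl ⟨y0, ?_⟩)
    · obtain ⟨c, hc⟩ := hA y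
      exact ⟨c • ψ, by rw [hc, Matrix.vecMulVec_smul]⟩
    · rw [hy0, trace_vmv]
      exact ht

private theorem prop_of_not_indep (p q : V3) (hp : p ≠ 0)
    (h : ¬ ∀ c c' : ℂ, c • p + c' • q = 0 → c = 0 ∧ c' = 0) : ∃ k : ℂ, q = k • p := by
  push Not at h
  obtain ⟨c, c', h1, h2⟩ := h
  have hc' : c' ≠ 0 := by
    intro h0
    rw [h0, zero_smul, add_zero] at h1
    exact h2 ((smul_eq_zero.mp h1).resolve_right hp) h0
  refine ⟨-(c / c'), ?_⟩
  have h3 : c' • q = -(c • p) := by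
    rw [eq_neg_iff_add_eq_zero, add_comm]; exact h1
  have h4 : q = c'⁻¹ • (c' • q) := by rw [smul_smul, inv_mul_cancel₀ hc', one_smul]
  rw [h4, h3, smul_neg, smul_smul, neg_smul, div_eq_inv_mul]

theorem caseIII {S : Dat W} (h : Std S) (hN : ∀ y, ad (S.A y) = 0) : ∃ φ g, C12 S φ g := by
  by_cases hA0 : ∀ y, S.A y = 0
  · exact (caseIV h hA0).elim
  push Not at hA0
  obtain ⟨y0, hy0⟩ := hA0
  rcases rank1_family S.A (fun w => minors_of_ad_zero _ (hN w)) with ⟨u, hu, hA⟩ | ⟨ψ, hψ, hA⟩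
  · obtain ⟨ψ0, hψ0⟩ := hA y0
    have hψ0' : ψ0 ≠ 0 := by
      intro h0
      apply hy0
      rw [hψ0, h0]
      ext i j
      simp [vecMulVec_apply]
    by_cases hind : ∃ ψ ψ' : V3, ∃ y y' : W, S.A y = vecMulVec u ψ ∧ S.A y' = vecMulVec u ψ' ∧
        ∀ c c' : ℂ, c • ψ + c' • ψ' = 0 → c = 0 ∧ c' = 0
    · exact (III_a h u hu hA (Or.inr hind)).elim
    · refine both h u ψ0 hu hψ0' y0 hψ0 (fun y => ?_)
      obtain ⟨ψ1, hψ1⟩ := hA y
      obtain ⟨k, hk⟩ := prop_of_not_indep ψ0 ψ1 hψ0'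
        (fun hc => hind ⟨ψ0, ψ1, y0, y, hψ0, hψ1, hc⟩)
      exact ⟨k, by rw [hψ1, hk, Matrix.vecMulVec_smul]⟩
  · obtain ⟨u0, hu0⟩ := hA y0
    have hu0' : u0 ≠ 0 := by
      intro h0
      apply hy0
      rw [hu0, h0]
      ext i j
      simp [vecMulVec_apply]
    by_cases hind : ∃ u u' : V3, ∃ y y' : W, S.A y = vecMulVec u ψ ∧ S.A y' = vecMulVec u' ψ ∧
        ∀ c c' : ℂ, c • u + c' • u' = 0 → c = 0 ∧ c' = 0
    · exact ⟨ψ, 0, III_b h ψ hψ hA hind⟩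
    · refine both h u0 ψ hu0' hψ y0 hu0 (fun y => ?_)
      obtain ⟨u1, hu1⟩ := hA y
      obtain ⟨k, hk⟩ := prop_of_not_indep u0 u1 hu0'
        (fun hc => hind ⟨u0, u1, y0, y, hu0, hu1, hc⟩)
      exact ⟨k, by rw [hu1, hk, Matrix.smul_vecMulVec]⟩

end Pool.Agent.Helper93.K3A
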