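import Mathlib

/-!
Type (3a) forms with `b = 0` (K4 of TH-K, project on MP_45a28a, frozen statement S00166).
Full mathematical proof: /team-store/memo_3a_helper93.md.

`U = ℂ³`, `W` a finite dimensional space, data `A, B : W → gl(U)`, `C : U → gl(U)` linear.
`η` is the `U`-valued 1-form on `U × W` with `η_(x,y)(t,w) = C(x) t + A_y t + B_w x`, and
`θ = det(x, η, η)/2`, i.e. `θ_(x,y)(v,v') = D x (η v) (η v')`.
-/

set_option autoImplicit false

namespace Pool.Agent.Helper93.K3A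

open Matrix

/-- 3 x 3 matrices -/
abbrev M3 : Type := Matrix (Fin 3) (Fin 3) ℂ

/-- vectors -/
abbrev V3 : Type := Fin 3 → ℂ

/-- determinant of three vectors -/
def D (p q r : V3) : ℂ :=
  p 0 * (q 1 * r 2 - q 2 * r 1) + p 1 * (q 2 * r 0 - q 0 * r 2) + p 2 * (q 0 * r 1 - q 1 * r 0)

/-- second elementary symmetric function -/
def e2 (P : M3) : ℂ :=
  P 0 0 * P 1 1 - P 0 1 * P 1 0 + (P 0 0 * P 2 2 - P 0 2 * P 2 0) + (P 1 1 * P 2 2 - P 1 2 * P 2 1)

/-- polarised second elementary symmetric function -/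
def e2p (P Q : M3) : ℂ := P.trace * Q.trace - (P * Q).trace

/-- polarised adjugate, `adjp P P = 2 adj P` -/
def adjp (P Q : M3) : M3 := P * Q + Q * P - P.trace • Q - Q.trace • P + (e2p P Q) • (1 : M3)

/-- the adjugate, written as a polynomial in `P` -/
def ad (P : M3) : M3 := P * P - P.trace • P + (e2 P) • (1 : M3)

/-- the data of a form of type (3a) with `b = 0` -/
structure Dat (W : Type) [AddCommGroup W] [Module ℂ W] where
  A : W →ₗ[ℂ] M3
  B : W →ₗ[ℂ] M3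
  C : V3 →ₗ[ℂ] M3

section
variable {W : Type} [AddCommGroup W] [Module ℂ W]

/-- the `U`-valued 1-form at the point `(x,y)` on the vector `(t,w)` -/
def eta (S : Dat W) (x : V3) (y : W) (t : V3) (w : W) : V3 :=
  S.C x *ᵥ t + S.A y *ᵥ t + S.B w *ᵥ x

/-- derivative of `θ(v₂,v₃)` in the direction `v₁` -/
def dth (S : Dat W) (x : V3) (y : W) (t1 : V3) (w1 : W) (t2 : V3) (w2 : W) (t3 : V3) (w3 : W) : ℂ :=
  D t1 (eta S x y t2 w2) (eta S x y t3 w3) + D x (eta S t1 w1 t2 w2) (eta S x y t3 w3)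
    + D x (eta S x y t2 w2) (eta S t1 w1 t3 w3)

/-- `dθ = 0` -/
def Cl (S : Dat W) : Prop := ∀ x y t1 w1 t2 w2 t3 w3,
  dth S x y t1 w1 t2 w2 t3 w3 + dth S x y t2 w2 t3 w3 t1 w1 + dth S x y t3 w3 t1 w1 t2 w2 = 0

/-- `θ` is not a cone -/
def NC (S : Dat W) : Prop := ∀ w, (∃ c : ℂ, S.B w = c • (1 : M3)) → w = 0

/-- the 1-form `ξ_u = det(x,u,η)`, annihilated by `θ` -/
def xi (S : Dat W) (u x : V3) (y : W) (t : V3) (w : W) : ℂ := D x u (eta S x y t w)

/-- no 1-form with linear coefficients is proportional to a form `ξ_u` -/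
def PR (S : Dat W) : Prop := ∀ u : V3, u ≠ 0 → ∀ ν : (V3 × W) →ₗ[ℂ] (V3 × W) →ₗ[ℂ] ℂ,
  (∀ z v v', ν z v * xi S u z.1 z.2 v'.1 v'.2 = ν z v' * xi S u z.1 z.2 v.1 v.2) → ν = 0

/-- standing hypotheses -/
structure Std (S : Dat W) : Prop where
  cl : Cl S
  nc : NC S
  pr : PR S
  dim : 2 ≤ Module.finrank ℂ W

/-- conclusions (S1), (S2): `φ` is a common eigen-covector, and on the kernel of `g` (possibly
`g = 0`) `A` and `B` take values in `ker φ ⊗ φ` (modulo scalars) -/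
def C12 (S : Dat W) (φ : V3) (g : W →ₗ[ℂ] ℂ) : Prop :=
  φ ≠ 0 ∧ (∀ y, ∃ α : ℂ, φ ᵥ* S.A y = α • φ) ∧ (∀ y, ∃ β : ℂ, φ ᵥ* S.B y = β • φ) ∧
  ∀ w, g w = 0 → (∃ a, φ ⬝ᵥ a = 0 ∧ S.A w = vecMulVec a φ) ∧
    ∃ b, ∃ c : ℂ, φ ⬝ᵥ b = 0 ∧ S.B w = vecMulVec b φ + c • (1 : M3)

/-- conclusion (S3): after gauge `φ(η) = ω dz`, `z = φ(x)` -/
def C3 (S : Dat W) : Prop := ∃ φ : V3, φ ≠ 0 ∧ ∃ ω ζ : (V3 × W) →ₗ[ℂ] ℂ, ∀ z v,
  φ ⬝ᵥ eta S z.1 z.2 v.1 v.2 = ω z * (φ ⬝ᵥ v.1) + (φ ⬝ᵥ z.1) * ζ v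

/-- gauge transformation -/
def gauge (S : Dat W) (ζ : W →ₗ[ℂ] ℂ) (k : V3) : Dat W where
  A := S.A
  B := S.B + ζ.smulRight (1 : M3)
  C := S.C + { toFun := fun x => vecMulVec x k
               map_add' := fun x y => by ext i j; simp [vecMulVec_apply, add_mul]
               map_smul' := fun c x => by ext i j; simp [vecMulVec_apply, mul_assoc] }

/-- change of coordinates in `U` by `P` with inverse `Q` -/
def conj (S : Dat W) (P Q : M3) : Dat W where
  A := { toFun := fun w => P * S.A w * Q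
         map_add' := fun x y => by simp [Matrix.mul_add, Matrix.add_mul]
         map_smul' := fun c x => by simp }
  B := { toFun := fun w => P * S.B w * Q
         map_add' := fun x y => by simp [Matrix.mul_add, Matrix.add_mul]
         map_smul' := fun c x => by simp }
  C := { toFun := fun x => P * S.C (Q *ᵥ x) * Q
         map_add' := fun x y => by simp [Matrix.mulVec_add, Matrix.mul_add, Matrix.add_mul]
         map_smul' := fun c x => by simp [Matrix.mulVec_smul] }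

end

end Pool.Agent.Helper93.K3A
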