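import Pool.Agent.Helper93.K3A.Tools

/-!
K3A / Eqs: the components of `dθ = 0`.
-/

set_option autoImplicit false

namespace Pool.Agent.Helper93.K3A

open Matrix

section
variable {W : Type} [AddCommGroup W] [Module ℂ W]

theorem e2A {S : Dat W} (h : Cl S) (y : W) : e2 (S.A y) = 0 := by
  have := h 0 y (Pi.single 0 1) 0 (Pi.single 1 1) 0 (Pi.single 2 1) 0
  simp [dth, D, eta, Matrix.mulVec, dotProduct, Fin.sum_univ_three, Pi.single_apply] at this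
  rw [e2]
  linear_combination this

theorem e2pA {S : Dat W} (h : Cl S) (y w : W) : e2p (S.A y) (S.A w) = 0 := by
  have h1 := e2_add_smul (S.A y) (S.A w) 1
  have h2 := e2A h (y + w)
  rw [e2A h y, e2A h w] at h1
  rw [map_add] at h2
  rw [one_smul, h2] at h1
  linear_combination -h1

/-- the `dx² dy` part, linear in `y` -/
theorem eq2v {S : Dat W} (h : Cl S) (y w : W) (x t1 t2 : V3) :
    D t1 (S.A y *ᵥ t2) (S.B w *ᵥ x) + D x (S.A y *ᵥ t2) (S.B w *ᵥ t1)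
    + D t2 (S.B w *ᵥ x) (S.A y *ᵥ t1) + D x (S.B w *ᵥ t2) (S.A y *ᵥ t1)
    + D x (S.A w *ᵥ t1) (S.A y *ᵥ t2) + D x (S.A y *ᵥ t1) (S.A w *ᵥ t2) = 0 := by
  have h1 := h x y t1 0 t2 0 0 w
  have h2 := h x 0 t1 0 t2 0 0 w
  simp [dth, eta] at h1 h2
  simp only [D, Pi.add_apply, Pi.zero_apply] at h1 h2 ⊢
  linear_combination h1 - h2

theorem D_adjp (P Q : M3) (x t1 t2 : V3) :
    D (adjp P Q *ᵥ x) t1 t2 = D x (P *ᵥ t1) (Q *ᵥ t2) + D x (Q *ᵥ t1) (P *ᵥ t2) := by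
  simp [D, adjp, e2p, Matrix.mulVec, dotProduct, Fin.sum_univ_three, Matrix.mul_apply,
    Matrix.trace, Matrix.one_apply]
  ring

theorem D_trsub (P : M3) (x t1 t2 : V3) :
    D ((P.trace • (1 : M3) - P) *ᵥ x) t1 t2 = D x t1 (P *ᵥ t2) + D x (P *ᵥ t1) t2 := by
  simp [D, Matrix.mulVec, dotProduct, Fin.sum_univ_three, Matrix.trace, Matrix.one_apply]
  ring

theorem eq_zero_of_D {v : V3} (h : ∀ t1 t2, D v t1 t2 = 0) : v = 0 := by
  have h0 := h (Pi.single 1 1) (Pi.single 2 1)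
  have h1 := h (Pi.single 2 1) (Pi.single 0 1)
  have h2 := h (Pi.single 0 1) (Pi.single 1 1)
  simp [D, Pi.single_apply] at h0 h1 h2
  funext i
  fin_cases i <;> simp [h0, h1, h2]

/-- the matrix form of the `dx² dy` part -/
theorem eq2 {S : Dat W} (h : Cl S) (y w : W) :
    adjp (S.A y) (S.A w) = adjp (S.A y) (S.B w) - ((S.A y).trace • (1 : M3) - S.A y) * S.B w := by
  have key : ∀ x, (adjp (S.A y) (S.A w) - adjp (S.A y) (S.B w)
      + ((S.A y).trace • (1 : M3) - S.A y) * S.B w) *ᵥ x = 0 := by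
    intro x
    apply eq_zero_of_D
    intro t1 t2
    have h0 := eq2v h y w x t1 t2
    have h1 := D_adjp (S.A y) (S.A w) x t1 t2
    have h2 := D_adjp (S.A y) (S.B w) x t1 t2
    have h3 := D_trsub (S.A y) (S.B w *ᵥ x) t1 t2
    rw [Matrix.add_mulVec, Matrix.sub_mulVec, ← Matrix.mulVec_mulVec]
    simp only [D, Pi.add_apply, Pi.sub_apply] at h0 h1 h2 h3 ⊢
    linear_combination h0 + h1 - h2 + h3
  have h1 : adjp (S.A y) (S.A w) - adjp (S.A y) (S.B w)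
      + ((S.A y).trace • (1 : M3) - S.A y) * S.B w = 0 := by
    apply Matrix.ext_of_mulVec_single
    intro i
    rw [key, Matrix.zero_mulVec]
  rw [← sub_eq_zero, ← h1]
  abel

/-- the `dx dy²` part -/
theorem eq3 {S : Dat W} (h : Cl S) (w w' : W) (x t : V3) :
    D t (S.B w *ᵥ x) (S.B w' *ᵥ x) + D x (S.B w *ᵥ t) (S.B w' *ᵥ x)
      + D x (S.B w *ᵥ x) (S.B w' *ᵥ t)
    = D x (S.A w *ᵥ t) (S.B w' *ᵥ x) - D x (S.A w' *ᵥ t) (S.B w *ᵥ x) := by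
  have h1 := h x 0 t 0 0 w 0 w'
  simp [dth, eta] at h1
  simp only [D, Pi.zero_apply] at h1 ⊢
  linear_combination h1

/-- the `dx² dy` part of degree zero in `y` -/
theorem eq4 {S : Dat W} (h : Cl S) (w : W) (x t1 t2 : V3) :
    D x (S.A w *ᵥ t1) (S.C x *ᵥ t2) - D x (S.A w *ᵥ t2) (S.C x *ᵥ t1)
    = (D t1 (S.B w *ᵥ x) (S.C x *ᵥ t2) + D x (S.B w *ᵥ t1) (S.C x *ᵥ t2)
        + D x (S.B w *ᵥ x) (S.C t1 *ᵥ t2))
      - (D t2 (S.B w *ᵥ x) (S.C x *ᵥ t1) + D x (S.B w *ᵥ t2) (S.C x *ᵥ t1)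
        + D x (S.B w *ᵥ x) (S.C t2 *ᵥ t1)) := by
  have h1 := h x 0 t1 0 t2 0 0 w
  simp [dth, eta] at h1
  simp only [D, Pi.zero_apply] at h1 ⊢
  linear_combination h1

/-- the `dx³` part of degree zero in `y` -/
theorem eq5 {S : Dat W} (h : Cl S) (x t1 t2 t3 : V3) :
    D t1 (S.C x *ᵥ t2) (S.C x *ᵥ t3) + D x (S.C t1 *ᵥ t2) (S.C x *ᵥ t3)
      + D x (S.C x *ᵥ t2) (S.C t1 *ᵥ t3)
    + (D t2 (S.C x *ᵥ t3) (S.C x *ᵥ t1) + D x (S.C t2 *ᵥ t3) (S.C x *ᵥ t1)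
      + D x (S.C x *ᵥ t3) (S.C t2 *ᵥ t1))
    + (D t3 (S.C x *ᵥ t1) (S.C x *ᵥ t2) + D x (S.C t3 *ᵥ t1) (S.C x *ᵥ t2)
      + D x (S.C x *ᵥ t1) (S.C t3 *ᵥ t2)) = 0 := by
  have h1 := h x 0 t1 0 t2 0 t3 0
  simp [dth, eta] at h1
  simp only [D, Pi.zero_apply] at h1 ⊢
  linear_combination h1

end

end Pool.Agent.Helper93.K3A
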