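import Pool.Agent.Helper93.K3A.Tools2

/-!
K3A / Hess: step 3 of LEMMA 0 (the only Hessian computation), see /team-store/memo_3a_helper93.md.

Coordinates: `x = (x_0, s, t)`, `u = e_1 = (1,0,0)`, `κ(x;·) = D x e_1 (C(x) ·) = t C_1 - s C_2` where `C_i` is
row `i` (0-based) of `C(x)`; `κ` closed means `κ = dk`, `k = x_0 q(s,t) + r(s,t)` (7 parameters).  The
solutions of `t C_1 - s C_2 = dk` are `C_1 = q_t dx_0/2 + x_0 dq_t + dr_t/2 + s ζ`,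
`C_2 = -(q_s dx_0/2 + x_0 dq_s + dr_s/2) + t ζ`, `ζ` a constant covector; replacing `C_0` by
`C_0 - x_0 ζ` one may take `ζ = 0` ((5) does not change).  Then (5) is the polynomial identity
`2 x_0² Hess(q) + (3/4) x_0 H(q,r) + (1/4) Hess(r) + dk(c) = 0`, `c` = the vector of `dC_0`.
All of this is linear algebra in the 27 entries of `C` (evaluate `hcl`, `h5` on basis vectors and sums
of basis vectors); the conclusion: `k` has a double linear factor, so `κ` has a linear factor.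
-/

set_option autoImplicit false

namespace Pool.Agent.Helper93.K3A

open Matrix

/-- `κ(x; t) = D x e_1 (C(x) t)` -/
def kap (c : V3 →ₗ[ℂ] M3) (u x t : V3) : ℂ := D x u (c x *ᵥ t)

private theorem alg1 {α β R0 R1 R2 R3 : ℂ} (hab : α ≠ 0 ∨ β ≠ 0)
    (h1 : α ^ 2 * R2 - 2 * α * β * R1 + 3 * β ^ 2 * R0 = 0)
    (h2 : 3 * α ^ 2 * R3 - 2 * α * β * R2 + β ^ 2 * R1 = 0) :
    ∃ M1 M2, R0 = α ^ 2 * M1 ∧ R1 = α ^ 2 * M2 + 2 * α * β * M1 ∧
      R2 = β ^ 2 * M1 + 2 * α * β * M2 ∧ R3 = β ^ 2 * M2 := by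
  rcases hab with ha | hb
  · have ha2 : α ^ 2 ≠ 0 := pow_ne_zero 2 ha
    obtain ⟨M1, hM1⟩ : ∃ M1, α ^ 2 * M1 = R0 := ⟨R0 / α ^ 2, by field_simp⟩
    obtain ⟨M2, hM2⟩ : ∃ M2, α ^ 2 * M2 = R1 - 2 * α * β * M1 :=
      ⟨(R1 - 2 * α * β * M1) / α ^ 2, by field_simp⟩
    have e1 : R1 = α ^ 2 * M2 + 2 * α * β * M1 := by linear_combination -hM2
    have e2 : R2 = β ^ 2 * M1 + 2 * α * β * M2 := by
      apply mul_left_cancel₀ ha2
      linear_combination h1 - 3 * β ^ 2 * (-hM1) + 2 * α * β * e1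
    have e3 : R3 = β ^ 2 * M2 := by
      have h3 : (3 : ℂ) * α ^ 2 ≠ 0 := mul_ne_zero (by norm_num) ha2
      apply mul_left_cancel₀ h3
      linear_combination h2 + 2 * α * β * e2 - β ^ 2 * e1
    exact ⟨M1, M2, hM1.symm, e1, e2, e3⟩
  · have hb2 : β ^ 2 ≠ 0 := pow_ne_zero 2 hb
    obtain ⟨M2, hM2⟩ : ∃ M2, β ^ 2 * M2 = R3 := ⟨R3 / β ^ 2, by field_simp⟩
    obtain ⟨M1, hM1⟩ : ∃ M1, β ^ 2 * M1 = R2 - 2 * α * β * M2 :=
      ⟨(R2 - 2 * α * β * M2) / β ^ 2, by field_simp⟩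
    have e2 : R2 = β ^ 2 * M1 + 2 * α * β * M2 := by linear_combination -hM1
    have e1 : R1 = α ^ 2 * M2 + 2 * α * β * M1 := by
      apply mul_left_cancel₀ hb2
      linear_combination h2 + 3 * α ^ 2 * hM2 + 2 * α * β * e2
    have e0 : R0 = α ^ 2 * M1 := by
      have h3 : (3 : ℂ) * β ^ 2 ≠ 0 := mul_ne_zero (by norm_num) hb2
      apply mul_left_cancel₀ h3
      linear_combination h1 + 2 * α * β * e1 - α ^ 2 * e2
    exact ⟨M1, M2, e0, e1, e2, hM2.symm⟩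

private theorem alg2 {Q0 Q1 Q2 R0 R1 R2 R3 X Y Z : ℂ}
    (E00 : 4 * Q0 * Q2 - Q1 ^ 2 = 0)
    (E01 : 3 * Q0 * R2 - 3 * Q1 * R1 + 9 * Q2 * R0 + 2 * Q0 * X + Q1 * Y = 0)
    (E02 : 9 * Q0 * R3 - 3 * Q1 * R2 + 3 * Q2 * R1 + Q1 * X + 2 * Q2 * Y = 0)
    (E11 : Q0 * Z + (3 * R0 * R2 - R1 ^ 2) + 3 * R0 * X + R1 * Y = 0)
    (E12 : Q1 * Z + (9 * R0 * R3 - R1 * R2) + 2 * R1 * X + 2 * R2 * Y = 0)
    (E22 : Q2 * Z + (3 * R1 * R3 - R2 ^ 2) + R2 * X + 3 * R3 * Y = 0) :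
    ∃ α β ρ : ℂ, (α ≠ 0 ∨ β ≠ 0) ∧ Q0 = ρ * α ^ 2 ∧ Q1 = 2 * ρ * α * β ∧ Q2 = ρ * β ^ 2 ∧
      α ^ 2 * R2 - 2 * α * β * R1 + 3 * β ^ 2 * R0 = 0 ∧
      3 * α ^ 2 * R3 - 2 * α * β * R2 + β ^ 2 * R1 = 0 := by
  by_cases hq : Q0 = 0 ∧ Q2 = 0
  · obtain ⟨h0, h2⟩ := hq
    have h1 : Q1 = 0 := by
      have : Q1 ^ 2 = 0 := by rw [h0, h2] at E00; linear_combination -E00
      exact pow_eq_zero_iff (two_ne_zero) |>.mp this
    subst h0 h1 h2
    obtain ⟨A, hA⟩ : ∃ A, A = 3 * R0 * R2 - R1 ^ 2 := ⟨_, rfl⟩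
    obtain ⟨B, hB⟩ : ∃ B, B = 9 * R0 * R3 - R1 * R2 := ⟨_, rfl⟩
    obtain ⟨C, hC⟩ : ∃ C, C = 3 * R1 * R3 - R2 ^ 2 := ⟨_, rfl⟩
    have i1 : 3 * R0 * C - R1 * B + R2 * A = 0 := by rw [hA, hB, hC]; ring
    have i2 : R1 * C - R2 * B + 3 * R3 * A = 0 := by rw [hA, hB, hC]; ring
    have f1 : A + 3 * R0 * X + R1 * Y = 0 := by rw [hA]; linear_combination E11
    have f2 : B + 2 * R1 * X + 2 * R2 * Y = 0 := by rw [hB]; linear_combination E12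
    have f3 : C + R2 * X + 3 * R3 * Y = 0 := by rw [hC]; linear_combination E22
    have g1 : 2 * A * X + B * Y = 0 := by
      have e1 : 2 * A * X + B * Y = 3 * R0 * (C + R2 * X + 3 * R3 * Y)
          - R1 * (B + 2 * R1 * X + 2 * R2 * Y) + R2 * (A + 3 * R0 * X + R1 * Y)
          - (3 * R0 * C - R1 * B + R2 * A) := by
        rw [hA, hB, hC]; ring
      rw [e1, f1, f2, f3, i1]; ring
    have g2 : B * X + 2 * C * Y = 0 := by
      have e1 : B * X + 2 * C * Y = R1 * (C + R2 * X + 3 * R3 * Y)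
          - R2 * (B + 2 * R1 * X + 2 * R2 * Y) + 3 * R3 * (A + 3 * R0 * X + R1 * Y)
          - (R1 * C - R2 * B + 3 * R3 * A) := by
        rw [hA, hB, hC]; ring
      rw [e1, f1, f2, f3, i2]; ring
    have hdisc : B ^ 2 = 4 * A * C := by
      by_cases hX : X = 0
      · by_cases hY : Y = 0
        · rw [hX, hY] at f1 f2 f3
          have a0 : A = 0 := by linear_combination f1
          have b0 : B = 0 := by linear_combination f2
          rw [a0, b0]; ring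
        · apply mul_left_cancel₀ hY
          linear_combination B * g1 - 2 * A * g2
      · apply mul_left_cancel₀ hX
        linear_combination B * g2 - 2 * C * g1
    by_cases hA0 : A = 0
    · by_cases hC0 : C = 0
      · have hB0 : B = 0 := by
          have : B ^ 2 = 0 := by rw [hdisc, hA0]; ring
          exact pow_eq_zero_iff (two_ne_zero) |>.mp this
        by_cases hR : R0 = 0
        · have r1 : R1 = 0 := by
            have : R1 ^ 2 = 0 := by rw [hR, hA0] at hA; linear_combination hA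
            exact pow_eq_zero_iff (two_ne_zero) |>.mp this
          refine ⟨0, 1, 0, Or.inr one_ne_zero, by ring, by ring, by ring, ?_, ?_⟩
          · rw [hR]; ring
          · rw [r1]; ring
        · refine ⟨3 * R0, R1, 0, Or.inl (mul_ne_zero (by norm_num) hR), by ring, by ring, by ring,
            ?_, ?_⟩
          · rw [hA0] at hA; linear_combination -3 * R0 * hA
          · rw [hA0] at hA; rw [hB0] at hB; linear_combination -3 * R0 * hB + R1 * hA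
      · refine ⟨B, 2 * C, 0, Or.inr (mul_ne_zero two_ne_zero hC0), by ring, by ring, by ring,
          ?_, ?_⟩
        · linear_combination R2 * hdisc + 4 * C * i1
        · linear_combination 3 * R3 * hdisc + 4 * C * i2
    · refine ⟨2 * A, B, 0, Or.inl (mul_ne_zero two_ne_zero hA0), by ring, by ring, by ring,
        ?_, ?_⟩
      · linear_combination 3 * R0 * hdisc + 4 * A * i1
      · linear_combination R1 * hdisc + 4 * A * i2
  · obtain ⟨α, β, ρ, hab, hρ, k0, k1, k2⟩ : ∃ α β ρ : ℂ, (α ≠ 0 ∨ β ≠ 0) ∧ ρ ≠ 0 ∧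
        Q0 = ρ * α ^ 2 ∧ Q1 = 2 * ρ * α * β ∧ Q2 = ρ * β ^ 2 := by
      by_cases h0 : Q0 = 0
      · have h2 : Q2 ≠ 0 := fun h => hq ⟨h0, h⟩
        have h1 : Q1 = 0 := by
          have : Q1 ^ 2 = 0 := by rw [h0] at E00; linear_combination -E00
          exact pow_eq_zero_iff (two_ne_zero) |>.mp this
        exact ⟨0, 1, Q2, Or.inr one_ne_zero, h2, by rw [h0]; ring, by rw [h1]; ring, by ring⟩
      · refine ⟨2 * Q0, Q1, (4 * Q0)⁻¹, Or.inl (mul_ne_zero two_ne_zero h0), ?_, ?_, ?_, ?_⟩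
        · exact inv_ne_zero (mul_ne_zero (by norm_num) h0)
        · field_simp; ring
        · field_simp; ring
        · field_simp; linear_combination E00
    subst k0 k1 k2
    obtain ⟨W1, hW1⟩ : ∃ W1, W1 = α ^ 2 * R2 - 2 * α * β * R1 + 3 * β ^ 2 * R0 := ⟨_, rfl⟩
    obtain ⟨W2, hW2⟩ : ∃ W2, W2 = 3 * α ^ 2 * R3 - 2 * α * β * R2 + β ^ 2 * R1 := ⟨_, rfl⟩
    obtain ⟨c, hc⟩ : ∃ c, c = α * X + β * Y := ⟨_, rfl⟩
    have w1 : 3 * W1 + 2 * α * c = 0 := by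
      apply mul_left_cancel₀ hρ
      rw [hW1, hc]; linear_combination E01
    have w2 : 3 * W2 + 2 * β * c = 0 := by
      apply mul_left_cancel₀ hρ
      rw [hW2, hc]; linear_combination E02
    have ev : ((3 * R0 * R2 - R1 ^ 2) * β ^ 2 - (9 * R0 * R3 - R1 * R2) * α * β
        + (3 * R1 * R3 - R2 ^ 2) * α ^ 2) + (X * W1 + Y * W2) = 0 := by
      rw [hW1, hW2]
      linear_combination β ^ 2 * E11 - α * β * E12 + α ^ 2 * E22
    have s1 : α ^ 2 * ((3 * R0 * R2 - R1 ^ 2) * β ^ 2 - (9 * R0 * R3 - R1 * R2) * α * β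
        + (3 * R1 * R3 - R2 ^ 2) * α ^ 2) =
        (3 * R0 * β - R1 * α) * (β * W1 - α * W2) - W1 ^ 2 := by
      rw [hW1, hW2]; ring
    have s2 : β ^ 2 * ((3 * R0 * R2 - R1 ^ 2) * β ^ 2 - (9 * R0 * R3 - R1 * R2) * α * β
        + (3 * R1 * R3 - R2 ^ 2) * α ^ 2) =
        (R2 * β - 3 * R3 * α) * (β * W1 - α * W2) - W2 ^ 2 := by
      rw [hW1, hW2]; ring
    have v1 : W1 = -(2 / 3) * α * c := by linear_combination w1 / 3
    have v2 : W2 = -(2 / 3) * β * c := by linear_combination w2 / 3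
    have u1 : (α * c) ^ 2 = 0 := by
      rw [v1, v2] at s1
      rw [v1, v2] at ev
      linear_combination (-9 / 10) * (α ^ 2 * ev - s1) + (3 / 5) * α ^ 2 * c * hc
    have u2 : (β * c) ^ 2 = 0 := by
      rw [v1, v2] at s2
      rw [v1, v2] at ev
      linear_combination (-9 / 10) * (β ^ 2 * ev - s2) + (3 / 5) * β ^ 2 * c * hc
    have t1 : α * c = 0 := pow_eq_zero_iff (two_ne_zero) |>.mp u1
    have t2 : β * c = 0 := pow_eq_zero_iff (two_ne_zero) |>.mp u2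
    refine ⟨α, β, ρ, hab, rfl, rfl, rfl, ?_, ?_⟩
    · rw [← hW1, v1]; linear_combination -(2 / 3) * t1
    · rw [← hW2, v2]; linear_combination -(2 / 3) * t2

/-- STEP 3.  If `κ = κ_(e_1)` is closed and `dΘ_0 = 0` (5), then `κ` is zero or has a linear factor.
Write `κ = dk`, `k = x_1 q(s,t) + r(s,t)`; normalise `C` by a gauge `C(x) + x ⊗ k`.  See memo. -/
theorem hess (c : V3 →ₗ[ℂ] M3)
    (hcl : ∀ x t1 t2, D t1 (![1, 0, 0]) (c x *ᵥ t2) + D x (![1, 0, 0]) (c t1 *ᵥ t2)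
      = D t2 (![1, 0, 0]) (c x *ᵥ t1) + D x (![1, 0, 0]) (c t2 *ᵥ t1))
    (h5 : ∀ x t1 t2 t3, D t1 (c x *ᵥ t2) (c x *ᵥ t3) + D x (c t1 *ᵥ t2) (c x *ᵥ t3)
      + D x (c x *ᵥ t2) (c t1 *ᵥ t3)
    + (D t2 (c x *ᵥ t3) (c x *ᵥ t1) + D x (c t2 *ᵥ t3) (c x *ᵥ t1)
      + D x (c x *ᵥ t3) (c t2 *ᵥ t1))
    + (D t3 (c x *ᵥ t1) (c x *ᵥ t2) + D x (c t3 *ᵥ t1) (c x *ᵥ t2)
      + D x (c x *ᵥ t1) (c t3 *ᵥ t2)) = 0) :
    ∃ (l : V3) (μ : V3 →ₗ[ℂ] V3 →ₗ[ℂ] ℂ), l ≠ 0 ∧ ∀ x t, kap c (![1, 0, 0]) x t = (l ⬝ᵥ x) * μ x t := by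
  obtain ⟨P, hP⟩ : ∃ P, P = c ![1, 0, 0] := ⟨_, rfl⟩
  obtain ⟨Q, hQ⟩ : ∃ Q, Q = c ![0, 1, 0] := ⟨_, rfl⟩
  obtain ⟨R, hR⟩ : ∃ R, R = c ![0, 0, 1] := ⟨_, rfl⟩
  have hx : ∀ x : V3, c x = x 0 • P + x 1 • Q + x 2 • R := by
    intro x
    have e : x = x 0 • ![1, 0, 0] + x 1 • ![0, 1, 0] + x 2 • ![0, 0, 1] := by
      ext i
      fin_cases i <;> simp
    rw [hP, hQ, hR, ← map_smul, ← map_smul, ← map_smul, ← map_add, ← map_add, ← e]
  have l1 := hcl ![1, 0, 0] ![1, 0, 0] ![0, 1, 0]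
  have l2 := hcl ![1, 0, 0] ![1, 0, 0] ![0, 0, 1]
  have l3 := hcl ![1, 0, 0] ![0, 1, 0] ![0, 0, 1]
  have l4 := hcl ![0, 1, 0] ![1, 0, 0] ![0, 1, 0]
  have l5 := hcl ![0, 1, 0] ![1, 0, 0] ![0, 0, 1]
  have l6 := hcl ![0, 1, 0] ![0, 1, 0] ![0, 0, 1]
  have l7 := hcl ![0, 0, 1] ![1, 0, 0] ![0, 1, 0]
  have l8 := hcl ![0, 0, 1] ![1, 0, 0] ![0, 0, 1]
  have l9 := hcl ![0, 0, 1] ![0, 1, 0] ![0, 0, 1]
  rw [← hP, ← hQ] at l1 l4
  rw [← hP, ← hR] at l2 l8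
  rw [← hP, ← hQ, ← hR] at l3 l5 l7
  rw [← hQ, ← hR] at l6 l9
  simp [D, Matrix.mulVec, dotProduct, Fin.sum_univ_three] at l1 l2 l3 l4 l5 l6 l7 l8 l9
  have k1 := h5 ![1, 0, 0] ![1, 0, 0] ![0, 1, 0] ![0, 0, 1]
  have k2 := h5 ![0, 1, 0] ![1, 0, 0] ![0, 1, 0] ![0, 0, 1]
  have k3 := h5 ![0, 0, 1] ![1, 0, 0] ![0, 1, 0] ![0, 0, 1]
  have k4 := h5 ![1, 1, 0] ![1, 0, 0] ![0, 1, 0] ![0, 0, 1]
  have k5 := h5 ![1, 0, 1] ![1, 0, 0] ![0, 1, 0] ![0, 0, 1]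
  have k6 := h5 ![0, 1, 1] ![1, 0, 0] ![0, 1, 0] ![0, 0, 1]
  have c4 : c ![1, 1, 0] = P + Q := by rw [hx]; simp
  have c5 : c ![1, 0, 1] = P + R := by rw [hx]; simp
  have c6 : c ![0, 1, 1] = Q + R := by rw [hx]; simp
  rw [c4] at k4
  rw [c5] at k5
  rw [c6] at k6
  rw [← hP, ← hQ, ← hR] at k1 k2 k3 k4 k5 k6
  simp [D, Matrix.mulVec, dotProduct, Fin.sum_univ_three] at k1 k2 k3 k4 k5 k6
  have m1 : P 2 0 = 0 := l1
  have m2 : P 1 0 = 0 := l2.symm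
  have m3 : P 2 2 = -P 1 1 := by linear_combination -l3
  have m4 : P 2 1 = 2 * Q 2 0 := by linear_combination -l4
  have m5 : P 1 2 = 2 * R 1 0 := by linear_combination l8
  have m6 : Q 1 1 = R 2 1 - 2 * Q 2 2 := by linear_combination -l6
  have m7 : Q 1 2 = R 2 2 + 2 * R 1 1 := by linear_combination l9
  have m8 : Q 1 0 = P 1 1 + R 2 0 := by linear_combination -l7
  simp only [m1, m2, m3, m4, m5, m6, m7, m8] at k1 k2 k3 k4 k5 k6
  obtain ⟨α, β, ρ, hab, n1, n2, n3, n4, n5⟩ := alg2 (Q0 := -Q 2 0) (Q1 := P 1 1) (Q2 := R 1 0)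
    (R0 := -Q 2 1 / 3) (R1 := -Q 2 2) (R2 := R 1 1) (R3 := R 1 2 / 3)
    (X := R 2 2 + R 1 1 - P 0 2 + R 0 0) (Y := -R 2 1 + Q 2 2 + P 0 1 - Q 0 0)
    (Z := Q 0 2 - R 0 1)
    (by linear_combination k1 / 2) (by linear_combination k4 - k1 - k2)
    (by linear_combination k5 - k1 - k3) (by linear_combination k2)
    (by linear_combination k6 - k2 - k3) (by linear_combination k3)
  obtain ⟨M1, M2, o0, o1, o2, o3⟩ := alg1 hab n4 n5
  have r1 : Q 2 0 = -(ρ * α ^ 2) := by linear_combination -n1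
  have r2 : Q 2 1 = -(3 * (α ^ 2 * M1)) := by linear_combination -3 * o0
  have r3 : Q 2 2 = -(α ^ 2 * M2 + 2 * α * β * M1) := by linear_combination -o1
  have r4 : R 1 2 = 3 * (β ^ 2 * M2) := by linear_combination 3 * o3
  refine ⟨![0, α, β], LinearMap.mk₂ ℂ (fun x t : V3 =>
    2 * (α * t 1 + β * t 2) * (ρ * x 0 + M1 * x 1 + M2 * x 2)
      + (α * x 1 + β * x 2) * (ρ * t 0 + M1 * t 1 + M2 * t 2)) ?_ ?_ ?_ ?_, ?_, ?_⟩
  · intro x y t
    simp only [Pi.add_apply]; ring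
  · intro a x t
    simp only [Pi.smul_apply, smul_eq_mul]; ring
  · intro x s t
    simp only [Pi.add_apply]; ring
  · intro a x t
    simp only [Pi.smul_apply, smul_eq_mul]; ring
  · intro h0
    rcases hab with h | h
    · exact h (congrFun h0 1)
    · exact h (congrFun h0 2)
  · intro x t
    rw [kap, hx x, LinearMap.mk₂_apply]
    simp only [D, Matrix.mulVec, dotProduct, Fin.sum_univ_three, Matrix.add_apply,
      Matrix.smul_apply, smul_eq_mul, Matrix.cons_val_zero, Matrix.cons_val_one,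
      Matrix.cons_val, m1, m2, m3, m4, m5, m6, m7, m8, r1, r2, r3, r4, n2, n3, o2]
    ring

end Pool.Agent.Helper93.K3A
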