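import Pool.Agent.Helper93.K3A.IIIm

/-!
K3A / IIIc: `A_y = g(y) u ⊗ ψ`, `ψ(u) = 0` (memo, last item of CASE III).
-/

set_option autoImplicit false

namespace Pool.Agent.Helper93.K3A

open Matrix

variable {W : Type} [AddCommGroup W] [Module ℂ W]

/-- the third row of `C` from the equations (4) for `e` and `w` -/
private theorem key_C (P0 P1 P2 : M3) (χ0 χ1 χ2 : ℂ)
    (h1 : ∀ x t1 t2 : V3,
      D x ((!![0, 0, 1; 0, 0, 0; 0, 0, 0] : M3) *ᵥ t1) ((x 0 • P0 + x 1 • P1 + x 2 • P2) *ᵥ t2)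
      - D x ((!![0, 0, 1; 0, 0, 0; 0, 0, 0] : M3) *ᵥ t2) ((x 0 • P0 + x 1 • P1 + x 2 • P2) *ᵥ t1)
      = (D t1 ((!![0, 0, 1 / 3; 0, 0, 0; 0, 0, 0] : M3) *ᵥ x)
            ((x 0 • P0 + x 1 • P1 + x 2 • P2) *ᵥ t2)
          + D x ((!![0, 0, 1 / 3; 0, 0, 0; 0, 0, 0] : M3) *ᵥ t1)
            ((x 0 • P0 + x 1 • P1 + x 2 • P2) *ᵥ t2)
          + D x ((!![0, 0, 1 / 3; 0, 0, 0; 0, 0, 0] : M3) *ᵥ x)
            ((t1 0 • P0 + t1 1 • P1 + t1 2 • P2) *ᵥ t2))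
        - (D t2 ((!![0, 0, 1 / 3; 0, 0, 0; 0, 0, 0] : M3) *ᵥ x)
            ((x 0 • P0 + x 1 • P1 + x 2 • P2) *ᵥ t1)
          + D x ((!![0, 0, 1 / 3; 0, 0, 0; 0, 0, 0] : M3) *ᵥ t2)
            ((x 0 • P0 + x 1 • P1 + x 2 • P2) *ᵥ t1)
          + D x ((!![0, 0, 1 / 3; 0, 0, 0; 0, 0, 0] : M3) *ᵥ x)
            ((t2 0 • P0 + t2 1 • P1 + t2 2 • P2) *ᵥ t1)))
    (h2 : ∀ x t1 t2 : V3,
      0 = (D t1 ((!![χ0, χ1, χ2; 0, 0, 1; 0, 0, 0] : M3) *ᵥ x)
            ((x 0 • P0 + x 1 • P1 + x 2 • P2) *ᵥ t2)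
          + D x ((!![χ0, χ1, χ2; 0, 0, 1; 0, 0, 0] : M3) *ᵥ t1)
            ((x 0 • P0 + x 1 • P1 + x 2 • P2) *ᵥ t2)
          + D x ((!![χ0, χ1, χ2; 0, 0, 1; 0, 0, 0] : M3) *ᵥ x)
            ((t1 0 • P0 + t1 1 • P1 + t1 2 • P2) *ᵥ t2))
        - (D t2 ((!![χ0, χ1, χ2; 0, 0, 1; 0, 0, 0] : M3) *ᵥ x)
            ((x 0 • P0 + x 1 • P1 + x 2 • P2) *ᵥ t1)
          + D x ((!![χ0, χ1, χ2; 0, 0, 1; 0, 0, 0] : M3) *ᵥ t2)
            ((x 0 • P0 + x 1 • P1 + x 2 • P2) *ᵥ t1)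
          + D x ((!![χ0, χ1, χ2; 0, 0, 1; 0, 0, 0] : M3) *ᵥ x)
            ((t2 0 • P0 + t2 1 • P1 + t2 2 • P2) *ᵥ t1)))
    (hχ : χ0 ≠ 0 ∨ χ1 ≠ 0) :
    P0 2 0 = 0 ∧ P0 2 1 = 0 ∧ P0 2 2 = 0 ∧ P1 2 0 = 0 ∧ P1 2 1 = 0 ∧ P1 2 2 = 0 := by
  have a0 := h1 ![0, 1, 0] ![0, 0, 1] ![1, 0, 0]
  have a1 := h1 ![0, 1, 0] ![0, 0, 1] ![0, 1, 0]
  have a2 := h1 ![1, 1, 0] ![0, 0, 1] ![1, 0, 0]
  have a3 := h1 ![1, 1, 0] ![0, 0, 1] ![0, 1, 0]
  simp [D, Matrix.mulVec, dotProduct, Fin.sum_univ_three] at a0 a1 a2 a3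
  have z10 : P1 2 0 = 0 := by linear_combination (3 / 2) * a0
  have z11 : P1 2 1 = 0 := by linear_combination (3 / 2) * a1
  have z00 : P0 2 0 = 0 := by linear_combination -(3 / 2) * a2 - z10
  have z01 : P0 2 1 = 0 := by linear_combination -(3 / 2) * a3 - z11
  have b00 := h1 ![1, 0, 1] ![0, 0, 1] ![1, 0, 0]
  have b01 := h1 ![1, 0, 1] ![0, 0, 1] ![0, 1, 0]
  have b10 := h1 ![0, 1, 1] ![0, 0, 1] ![1, 0, 0]
  have b11 := h1 ![0, 1, 1] ![0, 0, 1] ![0, 1, 0]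
  have d0 := h1 ![0, 0, 1] ![0, 0, 1] ![1, 0, 0]
  have d1 := h1 ![0, 0, 1] ![0, 0, 1] ![0, 1, 0]
  simp [D, Matrix.mulVec, dotProduct, Fin.sum_univ_three, z10, z11, z00, z01]
    at b00 b01 b10 b11 d0 d1
  have e00 := h2 ![1, 0, 0] ![0, 0, 1] ![1, 0, 0]
  have e10 := h2 ![0, 1, 0] ![0, 0, 1] ![1, 0, 0]
  have e20 := h2 ![1, 1, 0] ![0, 0, 1] ![1, 0, 0]
  have e01 := h2 ![1, 0, 0] ![0, 0, 1] ![0, 1, 0]
  have e11 := h2 ![0, 1, 0] ![0, 0, 1] ![0, 1, 0]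
  have e21 := h2 ![1, 1, 0] ![0, 0, 1] ![0, 1, 0]
  simp [D, Matrix.mulVec, dotProduct, Fin.sum_univ_three, z10, z11, z00, z01,
    -zero_eq_mul, -mul_eq_zero] at e00 e10 e20 e01 e11 e21
  have c00 : P0 1 0 = 0 := by linear_combination 3 * (b00 - d0)
  have c01 : P0 1 1 = P0 2 2 := by linear_combination 3 * (b01 - d1)
  have c10 : P1 1 0 = P0 2 2 + P2 2 0 := by linear_combination 3 * (b10 - d0)
  have c11 : P1 1 1 = 2 * P1 2 2 + P2 2 1 := by linear_combination 3 * (b11 - d1)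
  have f00 : χ0 * P0 2 2 = 0 := by
    rw [c01] at e01
    linear_combination -(1 / 2) * e01
  have f11 : χ1 * P1 2 2 = 0 := by
    rw [c11] at e11
    linear_combination -(1 / 5) * e11
  have g1 : 2 * (χ1 * P0 2 2) + χ0 * P1 2 2 = 0 := by
    rw [c10] at e10
    linear_combination -e10
  have g2 : 4 * (χ0 * P1 2 2) + 3 * (χ1 * P0 2 2) = 0 := by
    rw [c01, c11] at e21
    linear_combination -e21 - 2 * f00 - 5 * f11
  have f10 : χ1 * P0 2 2 = 0 := by linear_combination (1 / 5) * (4 * g1 - g2)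
  have f01 : χ0 * P1 2 2 = 0 := by linear_combination g1 - 2 * f10
  refine ⟨z00, z01, ?_, z10, z11, ?_⟩
  · rcases hχ with h | h
    · exact (mul_eq_zero.mp f00).resolve_left h
    · exact (mul_eq_zero.mp f10).resolve_left h
  · rcases hχ with h | h
    · exact (mul_eq_zero.mp f01).resolve_left h
    · exact (mul_eq_zero.mp f11).resolve_left h

private theorem C_dec (S : Dat W) (x : V3) : S.C x =
    x 0 • S.C ![1, 0, 0] + x 1 • S.C ![0, 1, 0] + x 2 • S.C ![0, 0, 1] := by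
  rw [← map_smul, ← map_smul, ← map_smul, ← map_add, ← map_add]
  congr 1
  funext i
  fin_cases i <;> simp

/-- the last contradiction -/
private theorem last {S : Dat W} (h : Std S) (e w : W) (χ0 χ1 χ2 : ℂ)
    (hAe : S.A e = !![0, 0, 1; 0, 0, 0; 0, 0, 0]) (hAw : S.A w = 0)
    (hBe : S.B e = !![0, 0, 1 / 3; 0, 0, 0; 0, 0, 0])
    (hBw : S.B w = !![χ0, χ1, χ2; 0, 0, 1; 0, 0, 0]) (hχ : χ0 ≠ 0 ∨ χ1 ≠ 0)
    (hA : ∀ y j, S.A y 2 j = 0) (hB : ∀ y j, S.B y 2 j = 0) : False := by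
  obtain ⟨z00, z01, z02, z10, z11, z12⟩ := key_C (S.C ![1, 0, 0]) (S.C ![0, 1, 0])
    (S.C ![0, 0, 1]) χ0 χ1 χ2
    (fun x t1 t2 => by
      have := eq4 h.cl e x t1 t2
      rw [hAe, hBe, C_dec S x, C_dec S t1, C_dec S t2] at this
      exact this)
    (fun x t1 t2 => by
      have := eq4 h.cl w x t1 t2
      rw [hAw, hBw, C_dec S x, C_dec S t1, C_dec S t2, Matrix.zero_mulVec,
        Matrix.zero_mulVec] at this
      rw [← this]
      simp [D])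
    hχ
  let ζ : (V3 × W) →ₗ[ℂ] ℂ :=
    ((LinearMap.proj 2 : V3 →ₗ[ℂ] ℂ).comp (Matrix.mulVecLin (S.C ![0, 0, 1]))).comp
      (LinearMap.fst ℂ V3 W)
  refine no_factor h ![0, 0, 1] (fun h0 => ?_) ζ (fun z v => ?_)
  · have := congrFun h0 2
    simp at this
  · have hζ : ζ v = (S.C ![0, 0, 1] *ᵥ v.1) 2 := rfl
    rw [hζ]
    unfold eta
    rw [C_dec S z.1]
    simp [Matrix.mulVec, dotProduct, Fin.sum_univ_three, hA, hB, z00, z01, z02, z10, z11, z12]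
    ring

/-- the consequences of (3) for `e`, `w` -/
private theorem eqs_ew {S : Dat W} (h : Std S) (e w : W)
    (hAe : S.A e = !![0, 0, 1; 0, 0, 0; 0, 0, 0]) (hAw : S.A w = 0)
    (hBe : ∀ j, S.B e 2 j = 0) (hBw : ∀ j, S.B w 2 j = 0) :
    S.B w 1 0 = 0 ∧ S.B w 1 1 = 0 ∧ S.B e 1 0 * S.B w 0 0 = 0 ∧
    S.B e 1 0 * S.B w 0 1 + S.B e 1 1 * S.B w 0 0 = 0 ∧ S.B e 1 1 * S.B w 0 1 = 0 ∧
    S.B e 0 0 * S.B w 1 2 - S.B e 1 0 * S.B w 0 2 - S.B e 1 2 * S.B w 0 0 = 0 ∧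
    S.B e 0 1 * S.B w 1 2 - S.B e 1 1 * S.B w 0 2 - S.B e 1 2 * S.B w 0 1 = 0 ∧
    3 * (S.B e 0 2 * S.B w 1 2 - S.B e 1 2 * S.B w 0 2) = S.B w 1 2 := by
  have a0 := eq3 h.cl e w ![0, 0, 1] ![1, 0, 0]
  have a1 := eq3 h.cl e w ![0, 0, 1] ![0, 1, 0]
  have a2 := eq3 h.cl e w ![0, 0, 1] ![0, 0, 1]
  have b0 := eq3 h.cl e w ![1, 0, 1] ![1, 0, 0]
  have b1 := eq3 h.cl e w ![0, 1, 1] ![1, 0, 0]
  have b2 := eq3 h.cl e w ![0, 1, 1] ![0, 1, 0]
  have d0 := eq3 h.cl e w ![1, 0, 1] ![0, 0, 1]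
  have d1 := eq3 h.cl e w ![0, 1, 1] ![0, 0, 1]
  simp [D, Matrix.mulVec, dotProduct, Fin.sum_univ_three, hAe, hAw, hBe, hBw]
    at a0 a1 a2 b0 b1 b2 d0 d1
  have c0 : S.B w 1 0 = 0 := by
    linear_combination -(d0 - a2) + (1 / 2) * (b0 - a0) + 2 * a0
  have c1 : S.B w 1 1 = 0 := by
    linear_combination -(d1 - a2) + (1 / 2) * (b2 - a1) + 2 * a1
  rw [c0] at a0 b0 b1
  rw [c1] at a1 b1 b2
  refine ⟨c0, c1, ?_, ?_, ?_, ?_, ?_, ?_⟩
  · linear_combination -(1 / 2) * (b0 - a0)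
  · linear_combination -(b1 - a0)
  · linear_combination -(1 / 2) * (b2 - a1)
  · linear_combination a0
  · linear_combination a1
  · linear_combination a2

/-- the consequences of (3) for `w`, `w'` in the kernel -/
private theorem eqs_ww {S : Dat W} (h : Std S) (w w' : W) (hAw : S.A w = 0) (hAw' : S.A w' = 0)
    (hB : ∀ j, S.B w 2 j = 0) (hB' : ∀ j, S.B w' 2 j = 0)
    (h0 : S.B w 1 0 = 0) (h1 : S.B w 1 1 = 0) (h0' : S.B w' 1 0 = 0) (h1' : S.B w' 1 1 = 0) :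
    ∀ j, S.B w' 1 2 * S.B w 0 j = S.B w 1 2 * S.B w' 0 j := by
  have a0 := eq3 h.cl w w' ![0, 0, 1] ![1, 0, 0]
  have a1 := eq3 h.cl w w' ![0, 0, 1] ![0, 1, 0]
  have a2 := eq3 h.cl w w' ![0, 0, 1] ![0, 0, 1]
  simp [D, Matrix.mulVec, dotProduct, Fin.sum_univ_three, hAw, hAw', hB, hB', h0, h1, h0', h1']
    at a0 a1 a2
  intro j
  fin_cases j
  · show S.B w' 1 2 * S.B w 0 0 = S.B w 1 2 * S.B w' 0 0
    linear_combination a0
  · show S.B w' 1 2 * S.B w 0 1 = S.B w 1 2 * S.B w' 0 1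
    linear_combination a1
  · show S.B w' 1 2 * S.B w 0 2 = S.B w 1 2 * S.B w' 0 2
    linear_combination (1 / 3) * a2

/-- the case `A_y = g(y) u ⊗ ψ`, `ψ(u) = 0`, in coordinates `u = e_1`, `ψ = e_3`, gauge `ψ B = 0` -/
theorem III_c_coord {S : Dat W} (h : Std S) (g : W →ₗ[ℂ] ℂ) (hg : g ≠ 0)
    (hA : ∀ y, S.A y = g y • vecMulVec (![1, 0, 0]) (![0, 0, 1]))
    (hB : ∀ w, (![0, 0, 1] : V3) ᵥ* S.B w = 0) :
    ∀ w, g w = 0 → ∃ b : V3, (![0, 0, 1] : V3) ⬝ᵥ b = 0 ∧ S.B w = vecMulVec b (![0, 0, 1]) := by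
  have hB2 : ∀ y j, S.B y 2 j = 0 := by
    intro y j
    have := congrFun (hB y) j
    simpa [Matrix.vecMul, dotProduct, Fin.sum_univ_three] using this
  have hE : vecMulVec (![1, 0, 0] : V3) (![0, 0, 1] : V3) = !![0, 0, 1; 0, 0, 0; 0, 0, 0] := by
    ext i j
    fin_cases i <;> fin_cases j <;> simp [vecMulVec_apply]
  have hA2 : ∀ y j, S.A y 2 j = 0 := by
    intro y j
    rw [hA, hE]
    fin_cases j <;> simp
  have hA0 : ∀ y, g y = 0 → S.A y = 0 := by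
    intro y hy
    rw [hA, hy, zero_smul]
  have hA1 : ∀ y, g y = 1 → S.A y = !![0, 0, 1; 0, 0, 0; 0, 0, 0] := by
    intro y hy
    rw [hA, hy, one_smul, hE]
  obtain ⟨e0, he0⟩ : ∃ y, g y ≠ 0 := by
    by_contra hc
    push Not at hc
    exact hg (LinearMap.ext hc)
  obtain ⟨e, he⟩ : ∃ e, g e = 1 := ⟨(g e0)⁻¹ • e0, by rw [map_smul, smul_eq_mul, inv_mul_cancel₀ he0]⟩
  have EW : ∀ e, g e = 1 → ∀ w, g w = 0 → S.B w 1 0 = 0 ∧ S.B w 1 1 = 0 ∧
      S.B e 1 0 * S.B w 0 0 = 0 ∧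
      S.B e 1 0 * S.B w 0 1 + S.B e 1 1 * S.B w 0 0 = 0 ∧ S.B e 1 1 * S.B w 0 1 = 0 ∧
      S.B e 0 0 * S.B w 1 2 - S.B e 1 0 * S.B w 0 2 - S.B e 1 2 * S.B w 0 0 = 0 ∧
      S.B e 0 1 * S.B w 1 2 - S.B e 1 1 * S.B w 0 2 - S.B e 1 2 * S.B w 0 1 = 0 ∧
      3 * (S.B e 0 2 * S.B w 1 2 - S.B e 1 2 * S.B w 0 2) = S.B w 1 2 :=
    fun e he w hw => eqs_ew h e w (hA1 e he) (hA0 w hw) (hB2 e) (hB2 w)
  intro w hw
  obtain ⟨w10, w11, p1, p2, p3, p4, p5, p6⟩ := EW e he w hw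
  by_cases hχ : S.B w 0 0 ≠ 0 ∨ S.B w 0 1 ≠ 0
  · exfalso
    have b0 : S.B e 1 0 = 0 ∧ S.B e 1 1 = 0 := by
      rcases hχ with h' | h'
      · have q := (mul_eq_zero.mp p1).resolve_right h'
        rw [q, zero_mul, zero_add] at p2
        exact ⟨q, (mul_eq_zero.mp p2).resolve_right h'⟩
      · have q := (mul_eq_zero.mp p3).resolve_right h'
        rw [q, zero_mul, add_zero] at p2
        exact ⟨(mul_eq_zero.mp p2).resolve_right h', q⟩
    obtain ⟨be0, be1⟩ := b0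
    by_cases hγ : S.B w 1 2 = 0
    · by_cases hall : ∀ w', g w' = 0 → S.B w' 1 2 = 0
      · -- Lemma 0
        have be2 : S.B e 1 2 = 0 := by
          rw [be0, hγ] at p4
          rw [be1, hγ] at p5
          rcases hχ with h' | h'
          · have : S.B e 1 2 * S.B w 0 0 = 0 := by linear_combination -p4
            exact (mul_eq_zero.mp this).resolve_right h'
          · have : S.B e 1 2 * S.B w 0 1 = 0 := by linear_combination -p5
            exact (mul_eq_zero.mp this).resolve_right h'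
        refine l0_coord h (fun y => ⟨g y • ![0, 0, 1], ?_⟩) (fun y => ⟨S.B y 0, ?_⟩)
        · rw [hA]
          ext i j
          fin_cases i <;> fin_cases j <;> simp [vecMulVec_apply]
        · have hy0 : g (y - g y • e) = 0 := by
            rw [map_sub, map_smul, he, smul_eq_mul, mul_one, sub_self]
          obtain ⟨q0, q1, -⟩ := EW e he _ hy0
          have q2 := hall _ hy0
          have hBy : ∀ j, S.B y 1 j = 0 := by
            intro j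
            have hd : S.B y = S.B (y - g y • e) + g y • S.B e := by
              rw [map_sub, map_smul]; abel
            rw [hd]
            fin_cases j
            · show S.B (y - g y • e) 1 0 + g y • S.B e 1 0 = 0
              rw [q0, be0]; simp
            · show S.B (y - g y • e) 1 1 + g y • S.B e 1 1 = 0
              rw [q1, be1]; simp
            · show S.B (y - g y • e) 1 2 + g y • S.B e 1 2 = 0
              rw [q2, be2]; simp
          ext i j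
          fin_cases i
          · simp [vecMulVec_apply]
          · simp [vecMulVec_apply, hBy]
          · simp [vecMulVec_apply, hB2]
      · push Not at hall
        obtain ⟨w1, hw1, hw1'⟩ := hall
        obtain ⟨r0, r1, -⟩ := EW e he w1 hw1
        have := eqs_ww h w w1 (hA0 w hw) (hA0 w1 hw1) (hB2 w) (hB2 w1) w10 w11 r0 r1
        have z0 := this 0
        have z1 := this 1
        rw [hγ, zero_mul] at z0 z1
        rcases hχ with h' | h'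
        · exact h' ((mul_eq_zero.mp z0).resolve_left hw1')
        · exact h' ((mul_eq_zero.mp z1).resolve_left hw1')
    · -- normalise
      set γ := S.B w 1 2 with hγd
      set w1 := γ⁻¹ • w with hw1
      have gw1 : g w1 = 0 := by rw [hw1, map_smul, hw, smul_zero]
      have Bw1 : ∀ i j, S.B w1 i j = γ⁻¹ * S.B w i j := by
        intro i j
        rw [hw1, map_smul]
        rfl
      have Bw12 : S.B w1 1 2 = 1 := by
        rw [Bw1, ← hγd]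
        exact inv_mul_cancel₀ hγ
      set e1 := e - S.B e 1 2 • w1 with he1
      have ge1 : g e1 = 1 := by
        rw [he1, map_sub, map_smul, gw1, smul_zero, sub_zero, he]
      have Be1 : ∀ i j, S.B e1 i j = S.B e i j - S.B e 1 2 * S.B w1 i j := by
        intro i j
        rw [he1, map_sub, map_smul]
        rfl
      have k10 : S.B e1 1 0 = 0 := by rw [Be1, be0, Bw1, w10]; ring
      have k11 : S.B e1 1 1 = 0 := by rw [Be1, be1, Bw1, w11]; ring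
      have k12 : S.B e1 1 2 = 0 := by rw [Be1, Bw12]; ring
      obtain ⟨-, -, -, -, -, s4, s5, s6⟩ := EW e1 ge1 w1 gw1
      rw [k10, k12, Bw12] at s4
      rw [k11, k12, Bw12] at s5
      rw [k12, Bw12] at s6
      have k00 : S.B e1 0 0 = 0 := by linear_combination s4
      have k01 : S.B e1 0 1 = 0 := by linear_combination s5
      have k02 : S.B e1 0 2 = 1 / 3 := by linear_combination (1 / 3) * s6
      refine last h e1 w1 (S.B w1 0 0) (S.B w1 0 1) (S.B w1 0 2) (hA1 e1 ge1) (hA0 w1 gw1) ?_ ?_ ?_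
        hA2 hB2
      · ext i j
        fin_cases i <;> fin_cases j <;> simp [k00, k01, k02, k10, k11, k12, hB2]
      · ext i j
        fin_cases i <;> fin_cases j <;> simp [Bw12, Bw1, w10, w11, hB2]
      · have hi : γ⁻¹ ≠ 0 := inv_ne_zero hγ
        rcases hχ with h' | h'
        · left; rw [Bw1]; exact mul_ne_zero hi h'
        · right; rw [Bw1]; exact mul_ne_zero hi h'
  · push Not at hχ
    refine ⟨![S.B w 0 2, S.B w 1 2, 0], ?_, ?_⟩
    · simp [dotProduct, Fin.sum_univ_three]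
    · ext i j
      fin_cases i <;> fin_cases j <;> simp [vecMulVec_apply, hχ.1, hχ.2, w10, w11, hB2]

end Pool.Agent.Helper93.K3A
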