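import Pool.Agent.Helper93.K3A.L0
import Pool.Agent.Helper93.K3A.PX
import Pool.Agent.Helper93.K3A.TwoL

/-!
K3A / IIIm: all `A_y` of rank `≤ 1` (memo, CASE III) and `A = 0` (CASE IV).

`III_tau`: expand (2): `2τB = 2 u ⊗ ψB + Bu ⊗ ψ - tr(B) u ⊗ ψ + μ`; apply to `u`: `B u = β u`.
`III_nil`: `2 u ⊗ ψB + (Bu - tr(B)u) ⊗ ψ = ψ(Bu) 1`: `scalar_rank2`.
For `A_y, A_w` in a linear family of rank `≤ 1`: `ad (A_y) = 0` for all `y`, so `adjp (A_y) (A_w) = 0`
(`ad_add_smul`, `coef2`) and `eq2` is the hypothesis of `III_tau`, `III_nil` for `B = B_w`.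
-/

set_option autoImplicit false

namespace Pool.Agent.Helper93.K3A

open Matrix

private theorem adjp_vmv (u ψ : V3) (B : M3) : adjp (vecMulVec u ψ) B =
    vecMulVec u (ψ ᵥ* B) + vecMulVec (B *ᵥ u) ψ - (ψ ⬝ᵥ u) • B - B.trace • vecMulVec u ψ
      + ((ψ ⬝ᵥ u) * B.trace - ψ ⬝ᵥ (B *ᵥ u)) • (1 : M3) := by
  ext i j
  fin_cases i <;> fin_cases j <;>
    simp [adjp, e2p, Matrix.mul_apply, Fin.sum_univ_three, Matrix.trace, vecMulVec_apply,
      Matrix.one_apply, Matrix.mulVec, Matrix.vecMul, dotProduct] <;> ring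

private theorem rhs_vmv (u ψ : V3) (B : M3) : ((ψ ⬝ᵥ u) • (1 : M3) - vecMulVec u ψ) * B =
    (ψ ⬝ᵥ u) • B - vecMulVec u (ψ ᵥ* B) := by
  ext i j
  fin_cases i <;> fin_cases j <;>
    simp [Matrix.mul_apply, Fin.sum_univ_three, vecMulVec_apply,
      Matrix.one_apply, Matrix.vecMul, dotProduct] <;> ring

private theorem main_vmv (u ψ : V3) (B : M3)
    (h : adjp (vecMulVec u ψ) B = ((ψ ⬝ᵥ u) • (1 : M3) - vecMulVec u ψ) * B) (i j : Fin 3) :
    2 * (ψ ⬝ᵥ u) * B i j = 2 * (u i * (ψ ᵥ* B) j) + (B *ᵥ u) i * ψ j - B.trace * (u i * ψ j)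
      + ((ψ ⬝ᵥ u) * B.trace - ψ ⬝ᵥ (B *ᵥ u)) * (1 : M3) i j := by
  rw [adjp_vmv, rhs_vmv] at h
  have h1 := congrFun (congrFun h i) j
  simp only [Matrix.add_apply, Matrix.sub_apply, Matrix.smul_apply, vecMulVec_apply,
    smul_eq_mul] at h1
  linear_combination -h1

/-- (2) for a matrix of rank one: `2AB + BA - 2τB - tr(B)A + (τ trB - tr AB) = 0`, `τ = ψ(u) ≠ 0` -/
theorem III_tau (u ψ : V3) (B : M3) (hτ : ψ ⬝ᵥ u ≠ 0)
    (h : adjp (vecMulVec u ψ) B = ((ψ ⬝ᵥ u) • (1 : M3) - vecMulVec u ψ) * B) :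
    ∃ χ : V3, ∃ c : ℂ, B = vecMulVec u χ + c • (1 : M3) := by
  have hm := main_vmv u ψ B h
  set τ := ψ ⬝ᵥ u with hτd
  set μ := τ * B.trace - ψ ⬝ᵥ (B *ᵥ u) with hμ
  -- apply to u
  have hψB : (ψ ᵥ* B) ⬝ᵥ u = ψ ⬝ᵥ (B *ᵥ u) := (Matrix.dotProduct_mulVec ψ B u).symm
  have hBu : ∀ i, τ * (B *ᵥ u) i = (2 * (ψ ⬝ᵥ (B *ᵥ u)) - B.trace * τ + μ) * u i := by
    intro i
    have e0 := hm i 0
    have e1 := hm i 1
    have e2 := hm i 2
    have e3 : (B *ᵥ u) i = B i 0 * u 0 + B i 1 * u 1 + B i 2 * u 2 := by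
      simp [Matrix.mulVec, dotProduct, Fin.sum_univ_three]
    have e4 : τ = ψ 0 * u 0 + ψ 1 * u 1 + ψ 2 * u 2 := by
      simp [hτd, dotProduct, Fin.sum_univ_three]
    have e5 : ψ ⬝ᵥ (B *ᵥ u) = (ψ ᵥ* B) 0 * u 0 + (ψ ᵥ* B) 1 * u 1 + (ψ ᵥ* B) 2 * u 2 := by
      rw [← hψB]; simp [dotProduct, Fin.sum_univ_three]
    have e6 : (1 : M3) i 0 * u 0 + (1 : M3) i 1 * u 1 + (1 : M3) i 2 * u 2 = u i := by
      fin_cases i <;> simp [Matrix.one_apply]
    have key : 2 * τ * (B *ᵥ u) i = 2 * u i * (ψ ⬝ᵥ (B *ᵥ u)) + (B *ᵥ u) i * τ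
        - B.trace * u i * τ + μ * u i := by
      rw [e5]
      rw [← e6]
      have : 2 * τ * (B *ᵥ u) i = 2 * τ * B i 0 * u 0 + 2 * τ * B i 1 * u 1
          + 2 * τ * B i 2 * u 2 := by rw [e3]; ring
      rw [this, e0, e1, e2, e6]
      have e7 : (B *ᵥ u) i * τ = (B *ᵥ u) i * (ψ 0 * u 0 + ψ 1 * u 1 + ψ 2 * u 2) := by rw [← e4]
      have e8 : B.trace * u i * τ = B.trace * u i * (ψ 0 * u 0 + ψ 1 * u 1 + ψ 2 * u 2) := by
        rw [← e4]
      rw [e7, e8]
      linear_combination μ * e6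
    linear_combination key
  have hBu' : ∀ i, (B *ᵥ u) i = ((2 * (ψ ⬝ᵥ (B *ᵥ u)) - B.trace * τ + μ) / τ) * u i := by
    intro i
    rw [div_mul_eq_mul_div, eq_div_iff hτ, mul_comm, hBu i]
  set β := (2 * (ψ ⬝ᵥ (B *ᵥ u)) - B.trace * τ + μ) / τ with hβ
  refine ⟨(1 / (2 * τ)) • ((2 : ℂ) • (ψ ᵥ* B) + (β - B.trace) • ψ), μ / (2 * τ), ?_⟩
  ext i j
  have e := hm i j
  rw [hBu' i] at e
  have h2 : (2 * τ) ≠ 0 := mul_ne_zero two_ne_zero hτ
  have e9 : B i j = (2 * (u i * (ψ ᵥ* B) j) + β * u i * ψ j - B.trace * (u i * ψ j)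
      + μ * (1 : M3) i j) / (2 * τ) := by
    rw [eq_div_iff h2, mul_comm, e]
  simp only [Matrix.add_apply, Matrix.smul_apply, vecMulVec_apply, smul_eq_mul, Pi.add_apply,
    Pi.smul_apply]
  rw [e9]
  field_simp
  ring

/-- the same with `τ = 0` -/
theorem III_nil (u ψ : V3) (B : M3) (hu : u ≠ 0) (hψ : ψ ≠ 0) (hτ : ψ ⬝ᵥ u = 0)
    (h : adjp (vecMulVec u ψ) B = ((ψ ⬝ᵥ u) • (1 : M3) - vecMulVec u ψ) * B) :
    ∃ β : ℂ, B *ᵥ u = β • u ∧ ψ ᵥ* B = ((B.trace - β) / 2) • ψ := by
  have hm := main_vmv u ψ B h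
  rw [hτ] at hm
  have h0 : ψ ⬝ᵥ (B *ᵥ u) = 0 := by
    apply scalar_rank2 u ((2 : ℂ) • (ψ ᵥ* B)) (B *ᵥ u - B.trace • u) ψ
    ext i j
    have e := hm i j
    simp only [Matrix.add_apply, Matrix.smul_apply, vecMulVec_apply, smul_eq_mul, Pi.sub_apply,
      Pi.smul_apply]
    linear_combination -e
  rw [h0] at hm
  obtain ⟨i0, hi0⟩ : ∃ i, u i ≠ 0 := by
    by_contra hc
    push Not at hc
    exact hu (funext hc)
  obtain ⟨j0, hj0⟩ : ∃ j, ψ j ≠ 0 := by
    by_contra hc
    push Not at hc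
    exact hψ (funext hc)
  have hm' : ∀ i j, 2 * (u i * (ψ ᵥ* B) j) = (B.trace * u i - (B *ᵥ u) i) * ψ j := by
    intro i j
    linear_combination -(hm i j)
  obtain ⟨γ, hγ1⟩ : ∃ γ : ℂ, γ * ψ j0 = 2 * (ψ ᵥ* B) j0 :=
    ⟨2 * (ψ ᵥ* B) j0 / ψ j0, div_mul_cancel₀ _ hj0⟩
  have hBu : ∀ i, (B *ᵥ u) i = (B.trace - γ) * u i := by
    intro i
    have e := hm' i j0
    have : ((B *ᵥ u) i - (B.trace - γ) * u i) * ψ j0 = 0 := by
      linear_combination e + (u i) * hγ1
    rcases mul_eq_zero.1 this with h1 | h1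
    · exact sub_eq_zero.1 h1
    · exact absurd h1 hj0
  have hψB : ∀ j, (ψ ᵥ* B) j = γ / 2 * ψ j := by
    intro j
    have e := hm' i0 j
    rw [hBu i0] at e
    have : u i0 * ((ψ ᵥ* B) j - γ / 2 * ψ j) = 0 := by linear_combination e / 2
    rcases mul_eq_zero.1 this with h1 | h1
    · exact absurd h1 hi0
    · exact sub_eq_zero.1 h1
  refine ⟨B.trace - γ, ?_, ?_⟩
  · ext i
    rw [hBu i]; simp
  · ext j
    rw [hψB j]
    simp

variable {W : Type} [AddCommGroup W] [Module ℂ W]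

private theorem std_two {S : Dat W} (h : Std S) (w1 : W) (hw1 : w1 ≠ 0) :
    ∃ w2 : W, ∀ a b : ℂ, a • w1 + b • w2 = 0 → a = 0 ∧ b = 0 := by
  by_contra hc
  push Not at hc
  have h2 := h.dim
  have : Module.finrank ℂ W ≤ 1 := by
    apply finrank_le_one w1
    intro w
    obtain ⟨a, b, hab, hne⟩ := hc w
    by_cases hb : b = 0
    · rw [hb, zero_smul, add_zero] at hab
      rcases smul_eq_zero.1 hab with h3 | h3
      · exact absurd hb (hne h3)
      · exact absurd h3 hw1
    · refine ⟨-(a / b), ?_⟩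
      have h3 : b • w = -(a • w1) := by
        rw [eq_neg_iff_add_eq_zero, add_comm]; exact hab
      have h4 : w = b⁻¹ • (b • w) := by rw [smul_smul, inv_mul_cancel₀ hb, one_smul]
      rw [h4, h3, smul_neg, smul_smul, neg_smul]
      congr 2
      field_simp
  omega

private theorem std_ne {S : Dat W} (h : Std S) : ∃ w : W, w ≠ 0 := by
  by_contra hc
  push Not at hc
  have h2 := h.dim
  have : Subsingleton W := ⟨fun a b => by rw [hc a, hc b]⟩
  have := Module.finrank_zero_of_subsingleton (R := ℂ) (M := W)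
  omega

/-- CASE IV: `A = 0` is impossible (PX, Lemma 0) -/
theorem caseIV {S : Dat W} (h : Std S) (hA : ∀ y, S.A y = 0) : False := by
  have hD : ∀ w w' x, D x (S.B w *ᵥ x) (S.B w' *ᵥ x) = 0 := by
    intro w w' x
    have e := eq3 h.cl w w' x x
    rw [hA w, hA w'] at e
    simp only [Matrix.zero_mulVec] at e
    simp only [D, Pi.zero_apply] at e ⊢
    linear_combination e / 3
  obtain ⟨w1, hw1⟩ := std_ne h
  obtain ⟨w2, hw2⟩ := std_two h w1 hw1
  rcases px (S.B w1) (S.B w2) (hD w1 w2) with ⟨a, b, c, hab, hc⟩ | ⟨u, hu, ⟨ψ, c, h1⟩, _⟩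
  · have h3 : S.B (a • w1 + b • w2) = c • (1 : M3) := by rw [map_add, map_smul, map_smul, hc]
    have h4 := hw2 a b (h.nc _ ⟨c, h3⟩)
    rcases hab with h5 | h5
    · exact h5 h4.1
    · exact h5 h4.2
  · have hψ : ψ ≠ 0 := by
      intro h0
      rw [h0] at h1
      apply hw1
      apply h.nc w1
      refine ⟨c, ?_⟩
      rw [h1]
      ext i j
      simp [vecMulVec_apply]
    apply l0 h u hu
    · intro w
      refine ⟨0, ?_⟩
      rw [hA w]
      ext i j
      simp [vecMulVec_apply]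
    · intro w
      rcases px (S.B w1) (S.B w) (hD w1 w) with ⟨a, b, c', hab, hc⟩ | ⟨u', hu', ⟨ψ', c', h1'⟩, ⟨ψ'', c'', h2⟩⟩
      · have h3 : S.B (a • w1 + b • w) = c' • (1 : M3) := by rw [map_add, map_smul, map_smul, hc]
        have h4 := h.nc _ ⟨c', h3⟩
        have hb : b ≠ 0 := by
          intro hb
          rw [hb, zero_smul, add_zero] at h4
          rcases smul_eq_zero.1 h4 with h5 | h5
          · rcases hab with h6 | h6
            · exact h6 h5
            · exact h6 hb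
          · exact hw1 h5
        have h5 : w = (-(a / b)) • w1 := by
          have h6 : b • w = -(a • w1) := by
            rw [eq_neg_iff_add_eq_zero, add_comm]; exact h4
          have h7 : w = b⁻¹ • (b • w) := by rw [smul_smul, inv_mul_cancel₀ hb, one_smul]
          rw [h7, h6, smul_neg, smul_smul, neg_smul]
          congr 2
          field_simp
        rw [h5, map_smul, h1]
        refine ⟨(-(a / b)) • ψ, (-(a / b)) * c, ?_⟩
        ext i j
        simp only [Matrix.add_apply, vecMulVec_apply, Matrix.smul_apply, smul_eq_mul,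
          Pi.smul_apply]
        ring
      · rw [h1] at h1'
        obtain ⟨k, hk, hku⟩ := px_unique u u' ψ ψ' c c' hψ hu h1'
        refine ⟨k • ψ'', c'', ?_⟩
        rw [h2, hku]
        ext i j
        simp only [Matrix.add_apply, vecMulVec_apply, Matrix.smul_apply, smul_eq_mul,
          Pi.smul_apply]
        ring

private theorem tr_vmv (u ψ : V3) : (vecMulVec u ψ).trace = ψ ⬝ᵥ u := by
  simp [Matrix.trace, vecMulVec_apply, dotProduct, Fin.sum_univ_three]
  ring

private theorem adjp_l (u ψ ψ' : V3) : adjp (vecMulVec u ψ) (vecMulVec u ψ') = 0 := by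
  ext i j
  fin_cases i <;> fin_cases j <;>
    simp [adjp, e2p, Matrix.mul_apply, Fin.sum_univ_three, Matrix.trace, vecMulVec_apply,
      Matrix.one_apply] <;> ring

private theorem adjp_r (u u' ψ : V3) : adjp (vecMulVec u ψ) (vecMulVec u' ψ) = 0 := by
  ext i j
  fin_cases i <;> fin_cases j <;>
    simp [adjp, e2p, Matrix.mul_apply, Fin.sum_univ_three, Matrix.trace, vecMulVec_apply,
      Matrix.one_apply] <;> ring

/-- two independent covectors killing `u` and `m` -/
private theorem indep_par (ψ ψ' u m : V3)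
    (hi : ∀ c c' : ℂ, c • ψ + c' • ψ' = 0 → c = 0 ∧ c' = 0) (hu : u ≠ 0)
    (h1 : ψ ⬝ᵥ u = 0) (h2 : ψ' ⬝ᵥ u = 0) (h3 : ψ ⬝ᵥ m = 0) (h4 : ψ' ⬝ᵥ m = 0) :
    ∃ k : ℂ, m = k • u := by
  set n : V3 := ![ψ 1 * ψ' 2 - ψ 2 * ψ' 1, ψ 2 * ψ' 0 - ψ 0 * ψ' 2, ψ 0 * ψ' 1 - ψ 1 * ψ' 0]
    with hn
  have hn0 : n ≠ 0 := by
    intro h0
    have e0 := congrFun h0 0
    have e1 := congrFun h0 1
    have e2 := congrFun h0 2
    simp [hn] at e0 e1 e2
    have hψ : ∀ i, ψ i = 0 := by
      intro i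
      have := hi (ψ' i) (-(ψ i)) (by
        ext j
        simp only [Pi.add_apply, Pi.smul_apply, smul_eq_mul, Pi.zero_apply]
        fin_cases i <;> fin_cases j <;> simp <;>
          first
          | ring1
          | linear_combination e0
          | linear_combination -e0
          | linear_combination e1
          | linear_combination -e1
          | linear_combination e2
          | linear_combination -e2)
      exact neg_eq_zero.1 this.2
    have := hi 1 0 (by
      ext j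
      simp [hψ j])
    exact one_ne_zero this.1
  have hpar : ∀ v : V3, ψ ⬝ᵥ v = 0 → ψ' ⬝ᵥ v = 0 → ∃ k : ℂ, v = k • n := by
    intro v hv hv'
    simp only [dotProduct, Fin.sum_univ_three] at hv hv'
    have c0 : n 1 * v 2 - n 2 * v 1 = 0 := by
      simp [hn]
      linear_combination (ψ' 0) * hv - (ψ 0) * hv'
    have c1 : n 2 * v 0 - n 0 * v 2 = 0 := by
      simp [hn]
      linear_combination (ψ' 1) * hv - (ψ 1) * hv'
    have c2 : n 0 * v 1 - n 1 * v 0 = 0 := by
      simp [hn]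
      linear_combination (ψ' 2) * hv - (ψ 2) * hv'
    obtain ⟨i, hi⟩ : ∃ i, n i ≠ 0 := by
      by_contra hc
      push Not at hc
      exact hn0 (funext hc)
    refine ⟨v i / n i, ?_⟩
    ext j
    simp only [Pi.smul_apply, smul_eq_mul]
    rw [div_mul_eq_mul_div, eq_div_iff hi]
    clear_value n
    fin_cases i <;> fin_cases j <;> simp <;>
      first
      | ring1
      | linear_combination c0
      | linear_combination -c0
      | linear_combination c1
      | linear_combination -c1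
      | linear_combination c2
      | linear_combination -c2
  obtain ⟨k, hk⟩ := hpar u h1 h2
  obtain ⟨l, hl⟩ := hpar m h3 h4
  have hk0 : k ≠ 0 := by
    intro h0
    rw [h0, zero_smul] at hk
    exact hu hk
  refine ⟨l / k, ?_⟩
  rw [hl, hk, smul_smul, div_mul_cancel₀ _ hk0]

/-- all `A_y = u ⊗ ψ_y`, not all proportional to one nilpotent `u ⊗ ψ` -/
theorem III_a {S : Dat W} (h : Std S) (u : V3) (hu : u ≠ 0)
    (hA : ∀ y, ∃ ψ, S.A y = vecMulVec u ψ)
    (hn : (∃ y, (S.A y).trace ≠ 0) ∨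
      ∃ ψ ψ' : V3, ∃ y y' : W, S.A y = vecMulVec u ψ ∧ S.A y' = vecMulVec u ψ' ∧
        ∀ c c' : ℂ, c • ψ + c' • ψ' = 0 → c = 0 ∧ c' = 0) : False := by
  have heq : ∀ (y w : W) (ψ : V3), S.A y = vecMulVec u ψ → adjp (vecMulVec u ψ) (S.B w) =
      ((ψ ⬝ᵥ u) • (1 : M3) - vecMulVec u ψ) * S.B w := by
    intro y w ψ hy
    obtain ⟨ψw, hw⟩ := hA w
    have e := eq2 h.cl y w
    rw [hy, hw, adjp_l, tr_vmv] at e
    exact (sub_eq_zero.1 e.symm)
  have hcase : (∃ y, (S.A y).trace ≠ 0) → False := by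
    rintro ⟨y, hy⟩
    obtain ⟨ψ, hψ⟩ := hA y
    rw [hψ, tr_vmv] at hy
    apply l0 h u hu hA
    intro w
    exact III_tau u ψ (S.B w) hy (heq y w ψ hψ)
  rcases hn with hn | ⟨ψ, ψ', y, y', hy, hy', hi⟩
  · exact hcase hn
  · by_contra _
    by_cases ht : ∃ y, (S.A y).trace ≠ 0
    · exact hcase ht
    · push Not at ht
      have t1 : ψ ⬝ᵥ u = 0 := by rw [← tr_vmv, ← hy]; exact ht y
      have t2 : ψ' ⬝ᵥ u = 0 := by rw [← tr_vmv, ← hy']; exact ht y'
      have hψ0 : ψ ≠ 0 := by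
        intro h0
        have := hi 1 0 (by rw [h0]; simp)
        exact one_ne_zero this.1
      have hψ0' : ψ' ≠ 0 := by
        intro h0
        have := hi 0 1 (by rw [h0]; simp)
        exact one_ne_zero this.2
      apply l0 h u hu hA
      intro w
      obtain ⟨β, hb1, hb2⟩ := III_nil u ψ (S.B w) hu hψ0 t1 (heq y w ψ hy)
      obtain ⟨β', hb1', hb2'⟩ := III_nil u ψ' (S.B w) hu hψ0' t2 (heq y' w ψ' hy')
      have hββ : β' = β := by
        rw [hb1] at hb1'
        have : (β - β') • u = 0 := by rw [sub_smul, hb1', sub_self]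
        rcases smul_eq_zero.1 this with h5 | h5
        · exact (sub_eq_zero.1 h5).symm
        · exact absurd h5 hu
      rw [hββ] at hb2'
      set γ := ((S.B w).trace - β) / 2 with hγ
      have hcol : ∀ j, ∃ k : ℂ, (fun i => (S.B w - γ • (1 : M3)) i j) = k • u := by
        intro j
        apply indep_par ψ ψ' u _ hi hu t1 t2
        · have := congrFun hb2 j
          simp only [Matrix.vecMul, dotProduct, Fin.sum_univ_three, Pi.smul_apply,
            smul_eq_mul] at this
          simp only [dotProduct, Fin.sum_univ_three, Matrix.sub_apply, Matrix.smul_apply,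
            smul_eq_mul, Matrix.one_apply]
          fin_cases j <;> simp at this ⊢ <;> linear_combination this
        · have := congrFun hb2' j
          simp only [Matrix.vecMul, dotProduct, Fin.sum_univ_three, Pi.smul_apply,
            smul_eq_mul] at this
          simp only [dotProduct, Fin.sum_univ_three, Matrix.sub_apply, Matrix.smul_apply,
            smul_eq_mul, Matrix.one_apply]
          fin_cases j <;> simp at this ⊢ <;> linear_combination this
      choose χ hχ using hcol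
      refine ⟨χ, γ, ?_⟩
      ext i j
      have := congrFun (hχ j) i
      simp only [Matrix.sub_apply, Matrix.smul_apply, smul_eq_mul, Pi.smul_apply] at this
      simp only [Matrix.add_apply, vecMulVec_apply, Matrix.smul_apply, smul_eq_mul]
      linear_combination this

/-- all `A_y = u_y ⊗ ψ`, two independent `u_y` -/
theorem III_b {S : Dat W} (h : Std S) (ψ : V3) (hψ : ψ ≠ 0)
    (hA : ∀ y, ∃ u, S.A y = vecMulVec u ψ)
    (hn : ∃ u u' : V3, ∃ y y' : W, S.A y = vecMulVec u ψ ∧ S.A y' = vecMulVec u' ψ ∧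
        ∀ c c' : ℂ, c • u + c' • u' = 0 → c = 0 ∧ c' = 0) : C12 S ψ 0 := by
  obtain ⟨u, u', y, y', hy, hy', hi⟩ := hn
  have heq : ∀ (y w : W) (u : V3), S.A y = vecMulVec u ψ → adjp (vecMulVec u ψ) (S.B w) =
      ((ψ ⬝ᵥ u) • (1 : M3) - vecMulVec u ψ) * S.B w := by
    intro y w u hy
    obtain ⟨uw, hw⟩ := hA w
    have e := eq2 h.cl y w
    rw [hy, hw, adjp_r, tr_vmv] at e
    exact (sub_eq_zero.1 e.symm)
  -- two independent vectors with non-zero trace are impossible
  have hno : ∀ (a b : V3) (ya yb : W), S.A ya = vecMulVec a ψ → S.A yb = vecMulVec b ψ →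
      ψ ⬝ᵥ a ≠ 0 → ψ ⬝ᵥ b ≠ 0 → (∀ c c' : ℂ, c • a + c' • b = 0 → c = 0 ∧ c' = 0) → False := by
    intro a b ya yb ha hb ta tb hab
    obtain ⟨w, hw⟩ := std_ne h
    obtain ⟨χ, c, h1⟩ := III_tau a ψ (S.B w) ta (heq ya w a ha)
    obtain ⟨χ', c', h2⟩ := III_tau b ψ (S.B w) tb (heq yb w b hb)
    have h3 : vecMulVec a χ + vecMulVec b (-χ') = (c' - c) • (1 : M3) := by
      rw [h1] at h2
      ext i j
      have := congrFun (congrFun h2 i) j
      simp only [Matrix.add_apply, vecMulVec_apply, Matrix.smul_apply, smul_eq_mul,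
        Pi.neg_apply] at this ⊢
      linear_combination this
    have h4 := scalar_rank2 a χ b (-χ') _ h3
    apply hw
    apply h.nc w
    refine ⟨c, ?_⟩
    have hχ : χ = 0 := by
      ext j
      have := hab (χ j) (-χ' j) (by
        ext i
        have := congrFun (congrFun h3 i) j
        rw [h4] at this
        simp only [Matrix.add_apply, vecMulVec_apply, Matrix.smul_apply, smul_eq_mul,
          Pi.neg_apply, zero_mul, Pi.add_apply, Pi.smul_apply, Pi.zero_apply] at this ⊢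
        linear_combination this)
      exact this.1
    rw [h1, hχ]
    ext i j
    simp [vecMulVec_apply]
  have hadd : ∀ (a b : V3) (ya yb : W), S.A ya = vecMulVec a ψ → S.A yb = vecMulVec b ψ →
      S.A (ya + yb) = vecMulVec (a + b) ψ := by
    intro a b ya yb ha hb
    rw [map_add, ha, hb]
    ext i j
    simp [vecMulVec_apply]
    ring
  -- all traces vanish
  have htr : ∀ (a : V3) (ya : W), S.A ya = vecMulVec a ψ → ψ ⬝ᵥ a = 0 := by
    intro a ya ha
    by_contra hta
    have ha0 : a ≠ 0 := by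
      intro h0
      rw [h0] at hta
      simp at hta
    -- one of u, u' is independent of a
    have hex : ∃ (b : V3) (yb : W), S.A yb = vecMulVec b ψ ∧
        ∀ c c' : ℂ, c • a + c' • b = 0 → c = 0 ∧ c' = 0 := by
      by_contra hc
      push Not at hc
      obtain ⟨c1, c1', e1, n1⟩ := hc u y hy
      obtain ⟨c2, c2', e2, n2⟩ := hc u' y' hy'
      have k1 : c1' ≠ 0 := by
        intro h0
        rw [h0, zero_smul, add_zero] at e1
        rcases smul_eq_zero.1 e1 with h5 | h5
        · exact n1 h5 h0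
        · exact ha0 h5
      have k2 : c2' ≠ 0 := by
        intro h0
        rw [h0, zero_smul, add_zero] at e2
        rcases smul_eq_zero.1 e2 with h5 | h5
        · exact n2 h5 h0
        · exact ha0 h5
      have e3 : (c2 * c1') • u + (-(c1 * c2')) • u' = 0 := by
        have : (c2 * c1') • u + (-(c1 * c2')) • u' =
            c2 • (c1 • a + c1' • u) - c1 • (c2 • a + c2' • u') := by
          ext i
          simp only [Pi.add_apply, Pi.sub_apply, Pi.smul_apply, smul_eq_mul]
          ring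
        rw [this, e1, e2, smul_zero, smul_zero, sub_zero]
      have e4 := hi _ _ e3
      have c20 : c2 = 0 := (mul_eq_zero.1 e4.1).resolve_right k1
      rw [c20, zero_smul, zero_add] at e2
      rcases smul_eq_zero.1 e2 with h5 | h5
      · exact k2 h5
      · have := hi 0 1 (by rw [h5]; simp)
        exact one_ne_zero this.2
    obtain ⟨b, yb, hb, hab⟩ := hex
    by_cases htb : ψ ⬝ᵥ b = 0
    · apply hno a (a + b) ya (ya + yb) ha (hadd a b ya yb ha hb) hta
      · rw [dotProduct_add, htb, add_zero]; exact hta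
      · intro c c' hcc
        have := hab (c + c') c' (by rw [← hcc]; ext i; simp; ring)
        refine ⟨?_, this.2⟩
        have h6 := this.1
        rw [this.2, add_zero] at h6
        exact h6
    · exact hno a b ya yb ha hb hta htb hab
  have t1 := htr u y hy
  have t2 := htr u' y' hy'
  have hu0 : u ≠ 0 := by
    intro h0
    have := hi 1 0 (by rw [h0]; simp)
    exact one_ne_zero this.1
  have hu0' : u' ≠ 0 := by
    intro h0
    have := hi 0 1 (by rw [h0]; simp)
    exact one_ne_zero this.2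
  have hB : ∀ w, ∃ b, ∃ c : ℂ, ψ ⬝ᵥ b = 0 ∧ S.B w = vecMulVec b ψ + c • (1 : M3) := by
    intro w
    obtain ⟨β, hb1, hb2⟩ := III_nil u ψ (S.B w) hu0 hψ t1 (heq y w u hy)
    obtain ⟨β', hb1', hb2'⟩ := III_nil u' ψ (S.B w) hu0' hψ t2 (heq y' w u' hy')
    have hββ : β' = β := by
      rw [hb2] at hb2'
      have : (((S.B w).trace - β) / 2 - ((S.B w).trace - β') / 2) • ψ = 0 := by
        rw [sub_smul, hb2', sub_self]
      rcases smul_eq_zero.1 this with h5 | h5
      · linear_combination 2 * h5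
      · exact absurd h5 hψ
    rw [hββ] at hb1'
    have hrow : ∀ i, ∃ k : ℂ, (fun j => (S.B w - β • (1 : M3)) i j) = k • ψ := by
      intro i
      apply indep_par u u' ψ _ hi hψ (by rw [dotProduct_comm]; exact t1)
        (by rw [dotProduct_comm]; exact t2)
      · have := congrFun hb1 i
        simp only [Matrix.mulVec, dotProduct, Fin.sum_univ_three, Pi.smul_apply,
          smul_eq_mul] at this
        simp only [dotProduct, Fin.sum_univ_three, Matrix.sub_apply, Matrix.smul_apply,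
          smul_eq_mul, Matrix.one_apply]
        fin_cases i <;> simp at this ⊢ <;> linear_combination this
      · have := congrFun hb1' i
        simp only [Matrix.mulVec, dotProduct, Fin.sum_univ_three, Pi.smul_apply,
          smul_eq_mul] at this
        simp only [dotProduct, Fin.sum_univ_three, Matrix.sub_apply, Matrix.smul_apply,
          smul_eq_mul, Matrix.one_apply]
        fin_cases i <;> simp at this ⊢ <;> linear_combination this
    choose b hb using hrow
    have hBw : S.B w = vecMulVec b ψ + β • (1 : M3) := by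
      ext i j
      have := congrFun (hb i) j
      simp only [Matrix.sub_apply, Matrix.smul_apply, smul_eq_mul, Pi.smul_apply] at this
      simp only [Matrix.add_apply, vecMulVec_apply, Matrix.smul_apply, smul_eq_mul]
      linear_combination this
    refine ⟨b, β, ?_, hBw⟩
    have htr' : (S.B w).trace = ψ ⬝ᵥ b + 3 * β := by
      rw [hBw, Matrix.trace_add, tr_vmv, Matrix.trace_smul, Matrix.trace_one]
      simp
      ring
    have hψB : ψ ᵥ* S.B w = (ψ ⬝ᵥ b + β) • ψ := by
      rw [hBw]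
      ext j
      simp only [Matrix.vecMul, dotProduct, Fin.sum_univ_three, Pi.smul_apply,
          smul_eq_mul, Matrix.add_apply, vecMulVec_apply, Matrix.smul_apply, Matrix.one_apply]
      fin_cases j <;> simp <;> ring
    rw [hψB, htr'] at hb2
    have : ((ψ ⬝ᵥ b + β) - (ψ ⬝ᵥ b + 3 * β - β) / 2) • ψ = 0 := by
      rw [sub_smul, hb2, sub_self]
    rcases smul_eq_zero.1 this with h5 | h5
    · linear_combination 2 * h5
    · exact absurd h5 hψ
  refine ⟨hψ, ?_, ?_, ?_⟩
  · intro z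
    obtain ⟨a, ha⟩ := hA z
    refine ⟨ψ ⬝ᵥ a, ?_⟩
    rw [ha]
    ext j
    simp only [Matrix.vecMul, dotProduct, Fin.sum_univ_three, Pi.smul_apply,
          smul_eq_mul, vecMulVec_apply]
    ring
  · intro z
    obtain ⟨b, c, hb, hBz⟩ := hB z
    refine ⟨c, ?_⟩
    rw [hBz]
    have hb' := hb
    simp only [dotProduct, Fin.sum_univ_three] at hb'
    ext j
    simp only [Matrix.vecMul, dotProduct, Fin.sum_univ_three, Pi.smul_apply,
          smul_eq_mul, Matrix.add_apply, vecMulVec_apply, Matrix.smul_apply, Matrix.one_apply]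
    fin_cases j <;> simp
    · linear_combination (ψ 0) * hb'
    · linear_combination (ψ 1) * hb'
    · linear_combination (ψ 2) * hb'
  · intro w _
    refine ⟨?_, hB w⟩
    obtain ⟨a, ha⟩ := hA w
    exact ⟨a, htr a w ha, ha⟩

end Pool.Agent.Helper93.K3A
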