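import Pool.Agent.Helper93.K3A.Tools2
import Pool.Agent.Helper93.K3A.TwoL

/-!
K3A / IIlam: `det A = 0`: `N_y B_w = λ(w) N_y = (B_w - A_w) N_y`, `N_y = ad A_y`.
-/

set_option autoImplicit false

namespace Pool.Agent.Helper93.K3A

open Matrix

variable {W : Type} [AddCommGroup W] [Module ℂ W]

/-- finitely many families polynomial along lines: if at every point one of them vanishes, then
one of them vanishes identically -/
private theorem LP_finset (R : Finset ℂ) (F : ℂ → W → M3) (hF : ∀ μ i k, LP (fun y => F μ y i k))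
    (h : ∀ y, ∃ μ ∈ R, F μ y = 0) : ∃ μ ∈ R, ∀ y, F μ y = 0 := by
  classical
  by_contra hc
  push Not at hc
  have hc' : ∀ μ : ℂ, ∃ p : W × Fin 3 × Fin 3, μ ∈ R → F μ p.1 p.2.1 p.2.2 ≠ 0 := by
    intro μ
    by_cases hμ : μ ∈ R
    · obtain ⟨y, hy⟩ := hc μ hμ
      have : ∃ i k, F μ y i k ≠ 0 := by
        by_contra hcon
        push Not at hcon
        exact hy (by ext i k; exact hcon i k)
      obtain ⟨i, k, hik⟩ := this
      exact ⟨(y, i, k), fun _ => hik⟩
    · exact ⟨(0, 0, 0), fun hh => absurd hh hμ⟩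
  choose p hp using hc'
  have key : ∀ T : Finset ℂ, T ⊆ R →
      LP (fun y => ∏ μ ∈ T, F μ y (p μ).2.1 (p μ).2.2) ∧
        ∃ y, (∏ μ ∈ T, F μ y (p μ).2.1 (p μ).2.2) ≠ 0 := by
    intro T
    induction T using Finset.induction_on with
    | empty =>
      intro _
      refine ⟨?_, ⟨0, by simp⟩⟩
      have := LP.const (E := W) 1
      simpa using this
    | insert a T ha ih =>
      intro hT
      obtain ⟨h1, y1, hy1⟩ := ih (fun x hx => hT (Finset.mem_insert_of_mem hx))
      have h2 := hF a (p a).2.1 (p a).2.2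
      have e : (fun y => ∏ μ ∈ insert a T, F μ y (p μ).2.1 (p μ).2.2) =
          fun y => F a y (p a).2.1 (p a).2.2 * ∏ μ ∈ T, F μ y (p μ).2.1 (p μ).2.2 := by
        funext y
        exact Finset.prod_insert ha
      refine ⟨?_, ?_⟩
      · rw [e]
        exact LP.mul h2 h1
      · by_contra hcon
        push Not at hcon
        have h3 : ∀ y, F a y (p a).2.1 (p a).2.2 * ∏ μ ∈ T, F μ y (p μ).2.1 (p μ).2.2 = 0 := by
          intro y
          have h5 := hcon y
          rw [Finset.prod_insert ha] at h5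
          exact h5
        rcases LP.mul_eq_zero h2 h1 h3 with h4 | h4
        · exact hp a (hT (Finset.mem_insert_self a T)) (h4 _)
        · exact hy1 (h4 _)
  obtain ⟨_, y, hy⟩ := key R (Finset.Subset.refl R)
  obtain ⟨μ, hμ, hz⟩ := h y
  apply hy
  apply Finset.prod_eq_zero hμ
  rw [hz]
  rfl

private theorem LP_entry (A : W →ₗ[ℂ] M3) (B : M3) (μ : ℂ) (i k : Fin 3) :
    LP (fun y : W => (ad (A y) * B - μ • ad (A y)) i k) := by
  intro x v
  refine ⟨Polynomial.C ((ad (A x) * B - μ • ad (A x)) i k)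
    + Polynomial.X * Polynomial.C ((adjp (A x) (A v) * B - μ • adjp (A x) (A v)) i k)
    + Polynomial.X ^ 2 * Polynomial.C ((ad (A v) * B - μ • ad (A v)) i k), fun t => ?_⟩
  change (ad (A (x + t • v)) * B - μ • ad (A (x + t • v))) i k = _
  rw [map_add, map_smul, ad_add_smul]
  simp only [Matrix.add_mul, Matrix.smul_mul, smul_add, Matrix.sub_apply, Matrix.add_apply,
    Matrix.smul_apply, smul_eq_mul, Polynomial.eval_add, Polynomial.eval_mul, Polynomial.eval_C,
    Polynomial.eval_X, Polynomial.eval_pow]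
  ring

/-- a left eigenvalue relation `N * B = μ N`, `N ≠ 0` -/
private theorem root_of_eig (N B : M3) (μ : ℂ) (hN : N ≠ 0) (h : N * B = μ • N) :
    μ ∈ B.charpoly.roots.toFinset := by
  classical
  rw [Multiset.mem_toFinset, Polynomial.mem_roots (Matrix.charpoly_monic B).ne_zero,
    Polynomial.IsRoot.def, Matrix.eval_charpoly]
  have h1 : N * (Matrix.scalar (Fin 3) μ - B) = 0 := by
    rw [Matrix.mul_sub, h, sub_eq_zero]
    ext i j
    simp [Matrix.scalar_apply, Matrix.mul_apply, Matrix.diagonal_apply, mul_comm]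
  have h2 : (Matrix.scalar (Fin 3) μ - B).det • N = 0 := by
    have h3 : N * ((Matrix.scalar (Fin 3) μ - B) * (Matrix.scalar (Fin 3) μ - B).adjugate) = 0 := by
      rw [← Matrix.mul_assoc, h1, Matrix.zero_mul]
    rw [Matrix.mul_adjugate, Matrix.mul_smul, Matrix.mul_one] at h3
    exact h3
  rcases smul_eq_zero.mp h2 with h3 | h3
  · exact h3
  · exact absurd h3 hN

private theorem tr_zero {S : Dat W} (hdet : ∀ y, (S.A y).det = 0) (y w : W) :
    (ad (S.A y) * S.A w).trace = 0 := by
  have h1 := hdet (y + w)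
  have h2 := hdet (y + (-1 : ℂ) • w)
  rw [map_add] at h1
  rw [map_add, map_smul, det_add_smul, hdet y, hdet w] at h2
  have h3 : (S.A y + S.A w).det = (S.A y + (1 : ℂ) • S.A w).det := by rw [one_smul]
  rw [h3, det_add_smul, hdet y, hdet w] at h1
  linear_combination (1/2 : ℂ) * h1 - (1/2 : ℂ) * h2

private theorem comm2 {S : Dat W} (h : Cl S) (hdet : ∀ y, (S.A y).det = 0) (y w : W) :
    (S.B w - S.A w) * ad (S.A y) = ad (S.A y) * S.B w := by
  have h1 := twoL h y w
  rw [tr_zero hdet, zero_div, zero_smul] at h1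
  rw [Matrix.sub_mul]
  have h2 : ad (S.A y) * S.B w - (S.B w * ad (S.A y) - S.A w * ad (S.A y)) = 0 := by
    rw [← h1]
    abel
  exact (sub_eq_zero.mp h2).symm

private theorem exists_eig {S : Dat W} (h : Cl S) (hdet : ∀ y, (S.A y).det = 0) (y w : W) :
    ∃ μ : ℂ, ad (S.A y) * S.B w = μ • ad (S.A y) := by
  obtain ⟨u, ψ, huψ⟩ := ad_rank1 (S.A y) (hdet y)
  by_cases hu : u = 0
  · refine ⟨0, ?_⟩
    have h0 : ad (S.A y) = 0 := by
      rw [huψ, hu]
      ext i j
      simp [vecMulVec_apply]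
    rw [h0]
    simp
  · obtain ⟨i0, hi0⟩ : ∃ i, u i ≠ 0 := by
      by_contra hc
      push Not at hc
      exact hu (funext hc)
    have h1 := comm2 h hdet y w
    rw [huψ] at h1
    rw [huψ]
    rw [Matrix.mul_vecMulVec, Matrix.vecMulVec_mul] at h1
    rw [Matrix.vecMulVec_mul]
    refine ⟨((S.B w - S.A w) *ᵥ u) i0 / u i0, ?_⟩
    have h2 : ∀ j, (ψ ᵥ* S.B w) j = ((S.B w - S.A w) *ᵥ u) i0 / u i0 * ψ j := by
      intro j
      have h3 := congrFun (congrFun h1 i0) j
      rw [vecMulVec_apply, vecMulVec_apply] at h3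
      field_simp
      linear_combination -h3
    ext i j
    rw [Matrix.smul_apply, vecMulVec_apply, vecMulVec_apply, h2 j, smul_eq_mul]
    ring

/-- `ad A_y * B_w = λ(w) ad A_y` and `(B_w - A_w) * ad A_y = λ(w) ad A_y`.
From (2L): `N_y B_w = (B_w - A_w) N_y` with `N_y = u ⊗ ψ` of rank `≤ 1`, so for every `y` there is such a
`λ`; it is an eigenvalue of `B_w`; along a line `y + t e` the function `λ` is a quotient of polynomials
with finitely many values, hence constant (`Π (P - λ_j Q) = 0` in `ℂ[t]`). -/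
theorem II_lam {S : Dat W} (h : Cl S) (hdet : ∀ y, (S.A y).det = 0) (e : W) (he : ad (S.A e) ≠ 0) :
    ∃ lam : W →ₗ[ℂ] ℂ, ∀ y w, ad (S.A y) * S.B w = lam w • ad (S.A y) ∧
      (S.B w - S.A w) * ad (S.A y) = lam w • ad (S.A y) := by
  classical
  obtain ⟨i0, j0, h0⟩ : ∃ i j, ad (S.A e) i j ≠ 0 := by
    by_contra hc
    push Not at hc
    exact he (by ext i j; exact hc i j)
  let lam : W →ₗ[ℂ] ℂ :=
    { toFun := fun w => (ad (S.A e) i0 j0)⁻¹ * (ad (S.A e) * S.B w) i0 j0
      map_add' := fun x y => by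
        rw [map_add, Matrix.mul_add, Matrix.add_apply, mul_add]
      map_smul' := fun c x => by
        rw [map_smul, Matrix.mul_smul, Matrix.smul_apply, RingHom.id_apply, smul_eq_mul,
          smul_eq_mul]
        ring }
  have hlam : ∀ w, lam w = (ad (S.A e) i0 j0)⁻¹ * (ad (S.A e) * S.B w) i0 j0 := fun w => rfl
  have main : ∀ y w, ad (S.A y) * S.B w = lam w • ad (S.A y) := by
    intro y w
    obtain ⟨μ, hμR, hμ⟩ := LP_finset (insert (0 : ℂ) ((S.B w).charpoly.roots.toFinset))
      (fun μ y => ad (S.A y) * S.B w - μ • ad (S.A y))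
      (fun μ i k => LP_entry S.A (S.B w) μ i k)
      (fun y => by
        by_cases hy : ad (S.A y) = 0
        · refine ⟨0, Finset.mem_insert_self _ _, ?_⟩
          change ad (S.A y) * S.B w - (0 : ℂ) • ad (S.A y) = 0
          rw [hy, Matrix.zero_mul, smul_zero, sub_zero]
        · obtain ⟨μ, hμ⟩ := exists_eig h hdet y w
          refine ⟨μ, Finset.mem_insert_of_mem (root_of_eig _ _ μ hy hμ), ?_⟩
          change ad (S.A y) * S.B w - μ • ad (S.A y) = 0
          rw [hμ, sub_self])
    have h1 : ad (S.A e) * S.B w - μ • ad (S.A e) = 0 := hμ e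
    have h2 : ad (S.A e) * S.B w = μ • ad (S.A e) := sub_eq_zero.mp h1
    have h3 : lam w = μ := by
      rw [hlam, h2, Matrix.smul_apply, smul_eq_mul]
      field_simp
    have h4 : ad (S.A y) * S.B w - μ • ad (S.A y) = 0 := hμ y
    rw [h3]
    exact sub_eq_zero.mp h4
  exact ⟨lam, fun y w => ⟨main y w, by rw [comm2 h hdet y w]; exact main y w⟩⟩

end Pool.Agent.Helper93.K3A
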