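import Pool.Agent.Helper93.K3A.Tools2
import Pool.Agent.Helper93.K3A.Eqs

/-!
K3A / Inv: invariance under gauge transformations and changes of coordinates.
All proofs: `eta (gauge S ζ k) x y t w = eta S x y t w + (ζ w + k ⬝ᵥ t) • x` and
`eta (conj S P Q) x y t w = P *ᵥ eta S (Q *ᵥ x) y (Q *ᵥ t) w`, then `D_mulVec` / `ring`.
-/

set_option autoImplicit false

namespace Pool.Agent.Helper93.K3A

open Matrix

section
variable {W : Type} [AddCommGroup W] [Module ℂ W]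

theorem eta_gauge (S : Dat W) (ζ : W →ₗ[ℂ] ℂ) (k : V3) (x : V3) (y : W) (t : V3) (w : W) :
    eta (gauge S ζ k) x y t w = eta S x y t w + (ζ w + k ⬝ᵥ t) • x := by
  have h1 : (gauge S ζ k).C x = S.C x + vecMulVec x k := rfl
  have h2 : (gauge S ζ k).A y = S.A y := rfl
  have h3 : (gauge S ζ k).B w = S.B w + ζ w • (1 : M3) := rfl
  rw [eta, eta, h1, h2, h3, Matrix.add_mulVec, Matrix.add_mulVec, Matrix.smul_mulVec,
    Matrix.one_mulVec]
  have h4 : vecMulVec x k *ᵥ t = (k ⬝ᵥ t) • x := by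
    ext i
    simp only [Matrix.mulVec, dotProduct, vecMulVec_apply, Pi.smul_apply, smul_eq_mul,
      Fin.sum_univ_three]
    ring
  rw [h4, add_smul]
  abel

theorem eta_conj (S : Dat W) {P Q : M3} (hPQ : P * Q = 1) (x : V3) (y : W) (t : V3) (w : W) :
    eta (conj S P Q) x y t w = P *ᵥ eta S (Q *ᵥ x) y (Q *ᵥ t) w := by
  have h1 : (conj S P Q).C x = P * S.C (Q *ᵥ x) * Q := rfl
  have h2 : (conj S P Q).A y = P * S.A y * Q := rfl
  have h3 : (conj S P Q).B w = P * S.B w * Q := rfl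
  rw [eta, eta, h1, h2, h3]
  simp only [Matrix.mulVec_add, Matrix.mulVec_mulVec, Matrix.mul_assoc]

private theorem eta_gauge' (S : Dat W) (ζ : W →ₗ[ℂ] ℂ) (k : V3) (x : V3) (y : W) (t : V3)
    (w : W) (i : Fin 3) :
    eta (gauge S ζ k) x y t w i = eta S x y t w i + (ζ w + k ⬝ᵥ t) * x i := by
  rw [eta_gauge]; rfl

private theorem dth_gauge (S : Dat W) (ζ : W →ₗ[ℂ] ℂ) (k : V3) (x : V3) (y : W) (t1 : V3) (w1 : W)
    (t2 : V3) (w2 : W) (t3 : V3) (w3 : W) :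
    dth (gauge S ζ k) x y t1 w1 t2 w2 t3 w3 = dth S x y t1 w1 t2 w2 t3 w3 := by
  simp only [dth, D, eta_gauge']
  ring

private theorem xi_gauge (S : Dat W) (ζ : W →ₗ[ℂ] ℂ) (k : V3) (u x : V3) (y : W) (t : V3) (w : W) :
    xi (gauge S ζ k) u x y t w = xi S u x y t w := by
  simp only [xi, D, eta_gauge']
  ring

theorem Std.gauge {S : Dat W} (h : Std S) (ζ : W →ₗ[ℂ] ℂ) (k : V3) : Std (gauge S ζ k) := by
  refine ⟨?_, ?_, ?_, h.dim⟩
  · intro x y t1 w1 t2 w2 t3 w3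
    rw [dth_gauge, dth_gauge, dth_gauge]
    exact h.cl x y t1 w1 t2 w2 t3 w3
  · intro w hw
    obtain ⟨c, hc⟩ := hw
    apply h.nc w
    refine ⟨c - ζ w, ?_⟩
    have h3 : (K3A.gauge S ζ k).B w = S.B w + ζ w • (1 : M3) := rfl
    rw [h3] at hc
    rw [sub_smul, ← hc]
    abel
  · intro u hu ν hν
    apply h.pr u hu ν
    intro z v v'
    have := hν z v v'
    rw [xi_gauge, xi_gauge] at this
    exact this

private theorem QP {P Q : M3} (hPQ : P * Q = 1) : Q * P = 1 := mul_eq_one_comm.mp hPQ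

private theorem PQv {P Q : M3} (hPQ : P * Q = 1) (x : V3) : P *ᵥ (Q *ᵥ x) = x := by
  rw [Matrix.mulVec_mulVec, hPQ, Matrix.one_mulVec]

private theorem detP {P Q : M3} (hPQ : P * Q = 1) : P.det ≠ 0 := by
  intro h
  have := congrArg Matrix.det hPQ
  rw [Matrix.det_mul, h, zero_mul, Matrix.det_one] at this
  exact zero_ne_one this

private theorem dth_conj (S : Dat W) {P Q : M3} (hPQ : P * Q = 1) (x : V3) (y : W) (t1 : V3)
    (w1 : W) (t2 : V3) (w2 : W) (t3 : V3) (w3 : W) :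
    dth (conj S P Q) x y t1 w1 t2 w2 t3 w3
      = P.det * dth S (Q *ᵥ x) y (Q *ᵥ t1) w1 (Q *ᵥ t2) w2 (Q *ᵥ t3) w3 := by
  simp only [dth, eta_conj S hPQ]
  have e1 : ∀ a b, D t1 (P *ᵥ a) (P *ᵥ b) = P.det * D (Q *ᵥ t1) a b := by
    intro a b
    rw [← D_mulVec, PQv hPQ]
  have e2 : ∀ a b, D x (P *ᵥ a) (P *ᵥ b) = P.det * D (Q *ᵥ x) a b := by
    intro a b
    rw [← D_mulVec, PQv hPQ]
  rw [e1, e2, e2]
  ring

private theorem xi_conj (S : Dat W) {P Q : M3} (hPQ : P * Q = 1) (u x : V3) (y : W) (t : V3)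
    (w : W) :
    xi (conj S P Q) u x y t w = P.det * xi S (Q *ᵥ u) (Q *ᵥ x) y (Q *ᵥ t) w := by
  simp only [xi, eta_conj S hPQ]
  rw [← D_mulVec, PQv hPQ, PQv hPQ]

/-- change of coordinates on `U × W` -/
private def LL (P : M3) : (V3 × W) →ₗ[ℂ] (V3 × W) :=
  LinearMap.prodMap P.mulVecLin LinearMap.id

private theorem LL_apply (P : M3) (z : V3 × W) : LL P z = (P *ᵥ z.1, z.2) := rfl

theorem Std.conj {S : Dat W} (h : Std S) {P Q : M3} (hPQ : P * Q = 1) : Std (conj S P Q) := by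
  have hQP := QP hPQ
  refine ⟨?_, ?_, ?_, h.dim⟩
  · intro x y t1 w1 t2 w2 t3 w3
    rw [dth_conj S hPQ, dth_conj S hPQ, dth_conj S hPQ, ← mul_add, ← mul_add,
      h.cl (Q *ᵥ x) y (Q *ᵥ t1) w1 (Q *ᵥ t2) w2 (Q *ᵥ t3) w3, mul_zero]
  · intro w hw
    obtain ⟨c, hc⟩ := hw
    apply h.nc w
    refine ⟨c, ?_⟩
    have h3 : (K3A.conj S P Q).B w = P * S.B w * Q := rfl
    rw [h3] at hc
    have h4 : Q * (P * S.B w * Q) * P = Q * (c • (1 : M3)) * P := by rw [hc]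
    have h5 : Q * (P * S.B w * Q) * P = S.B w := by
      calc Q * (P * S.B w * Q) * P = (Q * P) * S.B w * (Q * P) := by simp only [Matrix.mul_assoc]
        _ = S.B w := by rw [hQP, Matrix.one_mul, Matrix.mul_one]
    rw [h5] at h4
    rw [h4, Matrix.mul_smul, Matrix.mul_one, Matrix.smul_mul, hQP]
  · intro u hu ν hν
    have hu' : Q *ᵥ u ≠ 0 := by
      intro h0
      apply hu
      rw [← PQv hPQ u, h0, Matrix.mulVec_zero]
    have key := h.pr (Q *ᵥ u) hu' (ν.compl₁₂ (LL P) (LL P)) (by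
      intro z v v'
      have := hν (LL P z) (LL P v) (LL P v')
      simp only [LL_apply] at this
      rw [xi_conj S hPQ, xi_conj S hPQ, PQv hQP, PQv hQP, PQv hQP] at this
      simp only [LinearMap.compl₁₂_apply, LL_apply]
      apply mul_left_cancel₀ (detP hPQ)
      linear_combination this)
    apply LinearMap.ext
    intro z
    apply LinearMap.ext
    intro v
    have h1 := LinearMap.congr_fun (LinearMap.congr_fun key (Q *ᵥ z.1, z.2)) (Q *ᵥ v.1, v.2)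
    simp only [LinearMap.compl₁₂_apply, LL_apply, LinearMap.zero_apply, PQv hPQ] at h1
    simpa using h1

theorem C12.of_gauge {S : Dat W} {ζ : W →ₗ[ℂ] ℂ} {k : V3} {φ : V3} {g : W →ₗ[ℂ] ℂ}
    (h : C12 (K3A.gauge S ζ k) φ g) : C12 S φ g := by
  obtain ⟨h0, hA, hB, hw⟩ := h
  have h3 : ∀ w, (K3A.gauge S ζ k).B w = S.B w + ζ w • (1 : M3) := fun w => rfl
  refine ⟨h0, hA, ?_, ?_⟩
  · intro y
    obtain ⟨β, hβ⟩ := hB y
    refine ⟨β - ζ y, ?_⟩
    rw [h3, Matrix.vecMul_add, Matrix.vecMul_smul, Matrix.vecMul_one] at hβ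
    rw [sub_smul, ← hβ]
    abel
  · intro w hg
    obtain ⟨ha, b, c, hb, hc⟩ := hw w hg
    refine ⟨ha, b, c - ζ w, hb, ?_⟩
    rw [h3] at hc
    rw [sub_smul, ← add_sub_assoc, ← hc]
    abel

private theorem sandwich {P Q : M3} (hPQ : P * Q = 1) (X : M3) : Q * (P * X * Q) * P = X := by
  have hQP := QP hPQ
  calc Q * (P * X * Q) * P = (Q * P) * X * (Q * P) := by simp only [Matrix.mul_assoc]
    _ = X := by rw [hQP, Matrix.one_mul, Matrix.mul_one]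

private theorem mul_vecMulVec_mul (Q P : M3) (a φ : V3) :
    Q * vecMulVec a φ * P = vecMulVec (Q *ᵥ a) (φ ᵥ* P) := by
  ext i j
  simp only [Matrix.mul_apply, vecMulVec_apply, Matrix.mulVec, Matrix.vecMul, dotProduct,
    Fin.sum_univ_three]
  ring

theorem C12.of_conj {S : Dat W} {P Q : M3} (hPQ : P * Q = 1) {φ : V3} {g : W →ₗ[ℂ] ℂ}
    (h : C12 (K3A.conj S P Q) φ g) : C12 S (φ ᵥ* P) g := by
  have hQP := QP hPQ
  obtain ⟨h0, hA, hB, hw⟩ := h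
  have h2 : ∀ w, (K3A.conj S P Q).A w = P * S.A w * Q := fun w => rfl
  have h3 : ∀ w, (K3A.conj S P Q).B w = P * S.B w * Q := fun w => rfl
  have eig : ∀ (X : M3) (α : ℂ), φ ᵥ* (P * X * Q) = α • φ → (φ ᵥ* P) ᵥ* X = α • (φ ᵥ* P) := by
    intro X α hX
    have h5 : (φ ᵥ* (P * X * Q)) ᵥ* P = (φ ᵥ* P) ᵥ* X := by
      rw [Matrix.vecMul_vecMul, Matrix.vecMul_vecMul, Matrix.mul_assoc, hQP, Matrix.mul_one]
    rw [← h5, hX, Matrix.smul_vecMul]
  refine ⟨?_, ?_, ?_, ?_⟩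
  · intro h1
    apply h0
    have h5 : (φ ᵥ* P) ᵥ* Q = φ := by rw [Matrix.vecMul_vecMul, hPQ, Matrix.vecMul_one]
    rw [← h5, h1, Matrix.zero_vecMul]
  · intro y
    obtain ⟨α, hα⟩ := hA y
    exact ⟨α, eig _ _ hα⟩
  · intro y
    obtain ⟨β, hβ⟩ := hB y
    exact ⟨β, eig _ _ hβ⟩
  · intro w hg
    obtain ⟨⟨a, ha, hAa⟩, b, c, hb, hc⟩ := hw w hg
    have hz : ∀ a : V3, φ ⬝ᵥ a = 0 → (φ ᵥ* P) ⬝ᵥ (Q *ᵥ a) = 0 := by
      intro a ha
      rw [← Matrix.dotProduct_mulVec, PQv hPQ, ha]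
    refine ⟨⟨Q *ᵥ a, hz a ha, ?_⟩, Q *ᵥ b, c, hz b hb, ?_⟩
    · rw [← sandwich hPQ (S.A w), ← h2, hAa, mul_vecMulVec_mul]
    · rw [← sandwich hPQ (S.B w), ← h3, hc, Matrix.mul_add, Matrix.add_mul, mul_vecMulVec_mul,
        Matrix.mul_smul, Matrix.mul_one, Matrix.smul_mul, hQP]

private theorem dat_ext {S T : Dat W} (hA : ∀ w, S.A w = T.A w) (hB : ∀ w, S.B w = T.B w)
    (hC : ∀ x, S.C x = T.C x) : S = T := by
  cases S
  cases T
  simp only [Dat.mk.injEq]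
  exact ⟨LinearMap.ext hA, LinearMap.ext hB, LinearMap.ext hC⟩

private theorem gauge_gauge (S : Dat W) (ζ : W →ₗ[ℂ] ℂ) (k : V3) :
    K3A.gauge (K3A.gauge S ζ k) (-ζ) (-k) = S := by
  apply dat_ext
  · intro w
    rfl
  · intro w
    show S.B w + ζ w • (1 : M3) + (-ζ w) • (1 : M3) = S.B w
    rw [neg_smul]
    abel
  · intro x
    show S.C x + vecMulVec x k + vecMulVec x (-k) = S.C x
    ext i j
    simp only [Matrix.add_apply, vecMulVec_apply, Pi.neg_apply]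
    ring

private theorem conj_conj (S : Dat W) {P Q : M3} (hPQ : P * Q = 1) :
    K3A.conj (K3A.conj S P Q) Q P = S := by
  have hQP := QP hPQ
  apply dat_ext
  · intro w
    exact sandwich hPQ (S.A w)
  · intro w
    exact sandwich hPQ (S.B w)
  · intro x
    show Q * (P * S.C (Q *ᵥ (P *ᵥ x)) * Q) * P = S.C x
    rw [PQv hQP, sandwich hPQ]

theorem C12.gauge {S : Dat W} (ζ : W →ₗ[ℂ] ℂ) (k : V3) {φ : V3} {g : W →ₗ[ℂ] ℂ}
    (h : C12 S φ g) : C12 (K3A.gauge S ζ k) φ g := by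
  apply C12.of_gauge (ζ := -ζ) (k := -k)
  rw [gauge_gauge]
  exact h

theorem C12.conj {S : Dat W} {P Q : M3} (hPQ : P * Q = 1) {φ : V3} {g : W →ₗ[ℂ] ℂ}
    (h : C12 S φ g) : C12 (K3A.conj S P Q) (φ ᵥ* Q) g := by
  apply C12.of_conj (QP hPQ)
  rw [conj_conj S hPQ]
  exact h

/-- the functional `(t, w) ↦ ζ w + k ⬝ᵥ t` -/
private def gf (ζ : W →ₗ[ℂ] ℂ) (k : V3) : (V3 × W) →ₗ[ℂ] ℂ where
  toFun v := ζ v.2 + k ⬝ᵥ v.1
  map_add' v v' := by
    simp only [Prod.snd_add, Prod.fst_add, map_add, dotProduct_add]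
    ring
  map_smul' c v := by
    simp only [Prod.smul_snd, Prod.smul_fst, map_smul, dotProduct_smul, smul_eq_mul,
      RingHom.id_apply]
    ring

theorem C3.of_gauge {S : Dat W} {ζ : W →ₗ[ℂ] ℂ} {k : V3} (h : C3 (K3A.gauge S ζ k)) : C3 S := by
  obtain ⟨φ, h0, ω, ζ', hz⟩ := h
  refine ⟨φ, h0, ω, ζ' - gf ζ k, ?_⟩
  intro z v
  have h1 := hz z v
  rw [eta_gauge, dotProduct_add, dotProduct_smul, smul_eq_mul] at h1
  have h2 : (ζ' - gf ζ k) v = ζ' v - (ζ v.2 + k ⬝ᵥ v.1) := rfl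
  rw [h2]
  linear_combination h1

theorem C3.of_conj {S : Dat W} {P Q : M3} (hPQ : P * Q = 1) (h : C3 (K3A.conj S P Q)) : C3 S := by
  have hQP := QP hPQ
  obtain ⟨φ, h0, ω, ζ, hz⟩ := h
  refine ⟨φ ᵥ* P, ?_, ω ∘ₗ LL P, ζ ∘ₗ LL P, ?_⟩
  · intro h1
    apply h0
    have h5 : (φ ᵥ* P) ᵥ* Q = φ := by rw [Matrix.vecMul_vecMul, hPQ, Matrix.vecMul_one]
    rw [← h5, h1, Matrix.zero_vecMul]
  · intro z v
    have h1 := hz (LL P z) (LL P v)
    simp only [LL_apply] at h1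
    rw [eta_conj S hPQ, PQv hQP, PQv hQP, Matrix.dotProduct_mulVec, Matrix.dotProduct_mulVec,
      Matrix.dotProduct_mulVec] at h1
    exact h1

private theorem exists_ker (φ : V3) : ∃ u : V3, u ≠ 0 ∧ φ ⬝ᵥ u = 0 := by
  by_cases h : φ 0 = 0
  · refine ⟨![1, 0, 0], ?_, ?_⟩
    · intro h1
      have := congrFun h1 0
      simp at this
    · simp [dotProduct, Fin.sum_univ_three, h]
  · refine ⟨![φ 1, -φ 0, 0], ?_, ?_⟩
    · intro h1
      have := congrFun h1 1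
      simp at this
      exact h this
    · simp [dotProduct, Fin.sum_univ_three]
      ring

private theorem exists_one {φ : V3} (hφ : φ ≠ 0) : ∃ p : V3, φ ⬝ᵥ p = 1 := by
  obtain ⟨i, hi⟩ := Function.ne_iff.mp hφ
  refine ⟨Pi.single i (φ i)⁻¹, ?_⟩
  rw [dotProduct_single]
  exact mul_inv_cancel₀ hi

private theorem D_factor (φ x u q p : V3) (hu : φ ⬝ᵥ u = 0) (hq : φ ⬝ᵥ q = 0)
    (hp : φ ⬝ᵥ p = 1) : D x u q = (φ ⬝ᵥ x) * D p u q := by
  simp only [dotProduct, Fin.sum_univ_three] at hu hq hp ⊢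
  simp only [D]
  linear_combination (-(x 0 * (u 1 * q 2 - u 2 * q 1) + x 1 * (u 2 * q 0 - u 0 * q 2)
      + x 2 * (u 0 * q 1 - u 1 * q 0))) * hp
    + (-(q 0 * (p 1 * x 2 - p 2 * x 1) + q 1 * (p 2 * x 0 - p 0 * x 2)
      + q 2 * (p 0 * x 1 - p 1 * x 0))) * hu
    + ((p 0 * (x 1 * u 2 - x 2 * u 1) + p 1 * (x 2 * u 0 - x 0 * u 2)
      + p 2 * (x 0 * u 1 - x 1 * u 0))) * hq

/-- `θ` has no linear factor `φ(x)`: no `φ` with `φ(η) = φ(x) ζ` -/
theorem no_factor {S : Dat W} (h : Std S) (φ : V3) (hφ : φ ≠ 0) (ζ : (V3 × W) →ₗ[ℂ] ℂ)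
    (h0 : ∀ z v : V3 × W, φ ⬝ᵥ eta S z.1 z.2 v.1 v.2 = (φ ⬝ᵥ z.1) * ζ v) : False := by
  obtain ⟨p, hp⟩ := exists_one hφ
  obtain ⟨u, hu, hφu⟩ := exists_ker φ
  have hq : ∀ z v : V3 × W, φ ⬝ᵥ (eta S z.1 z.2 v.1 v.2 - ζ v • z.1) = 0 := by
    intro z v
    rw [dotProduct_sub, h0, dotProduct_smul, smul_eq_mul]
    ring
  have hxi : ∀ z v : V3 × W, xi S u z.1 z.2 v.1 v.2
      = (φ ⬝ᵥ z.1) * D p u (eta S z.1 z.2 v.1 v.2 - ζ v • z.1) := by
    intro z v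
    rw [← D_factor φ z.1 u _ p hφu (hq z v) hp]
    simp only [xi, D, Pi.sub_apply, Pi.smul_apply, smul_eq_mul]
    ring
  have key := h.pr u hu (LinearMap.mk₂ ℂ
    (fun z v : V3 × W => D p u (eta S z.1 z.2 v.1 v.2 - ζ v • z.1))
    (by
      intro z z' v
      simp only [eta, D, Pi.sub_apply, Pi.smul_apply, smul_eq_mul, Pi.add_apply, Prod.fst_add,
        Prod.snd_add, map_add, Matrix.add_mulVec, Matrix.mulVec_add]
      ring)
    (by
      intro c z v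
      simp only [eta, D, Pi.sub_apply, Pi.smul_apply, smul_eq_mul, Pi.add_apply, Prod.smul_fst,
        Prod.smul_snd, map_smul, Matrix.smul_mulVec, Matrix.mulVec_smul]
      ring)
    (by
      intro z v v'
      simp only [eta, D, Pi.sub_apply, Pi.smul_apply, smul_eq_mul, Pi.add_apply, Prod.fst_add,
        Prod.snd_add, map_add, Matrix.add_mulVec, Matrix.mulVec_add]
      ring)
    (by
      intro c z v
      simp only [eta, D, Pi.sub_apply, Pi.smul_apply, smul_eq_mul, Pi.add_apply, Prod.smul_fst,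
        Prod.smul_snd, map_smul, Matrix.smul_mulVec, Matrix.mulVec_smul]
      ring)) (by
    intro z v v'
    rw [LinearMap.mk₂_apply, LinearMap.mk₂_apply, hxi, hxi]
    ring)
  have hxi0 : ∀ z v : V3 × W, xi S u z.1 z.2 v.1 v.2 = 0 := by
    intro z v
    have h1 := LinearMap.congr_fun (LinearMap.congr_fun key z) v
    rw [LinearMap.mk₂_apply] at h1
    rw [hxi, h1]
    simp
  have key2 := h.pr u hu (LinearMap.smulRight (gf (W := W) 0 φ) (gf (W := W) 0 φ)) (by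
    intro z v v'
    rw [hxi0, hxi0, mul_zero, mul_zero])
  have h1 := LinearMap.congr_fun (LinearMap.congr_fun key2 (p, 0)) (p, 0)
  have h2 : (LinearMap.smulRight (gf (W := W) 0 φ) (gf (W := W) 0 φ)) (p, 0) (p, 0)
      = (0 + φ ⬝ᵥ p) * (0 + φ ⬝ᵥ p) := rfl
  rw [h2, hp] at h1
  simp at h1

/-- no constant 1-form `a ≠ 0` on `U` is proportional to some `ξ_u` -/
theorem no_const {S : Dat W} (h : Std S) (u : V3) (hu : u ≠ 0) (a : V3) (ha : a ≠ 0)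
    (h0 : ∀ z v v' : V3 × W, (a ⬝ᵥ v.1) * xi S u z.1 z.2 v'.1 v'.2 = (a ⬝ᵥ v'.1) * xi S u z.1 z.2 v.1 v.2) :
    False := by
  obtain ⟨p, hp⟩ := exists_one ha
  have key := h.pr u hu (LinearMap.smulRight (gf (W := W) 0 a) (gf (W := W) 0 a)) (by
    intro z v v'
    have := h0 z v v'
    have e : ∀ z v : V3 × W, (LinearMap.smulRight (gf (W := W) 0 a) (gf (W := W) 0 a)) z v
        = (a ⬝ᵥ z.1) * (a ⬝ᵥ v.1) := by
      intro z v
      show (0 + a ⬝ᵥ z.1) * (0 + a ⬝ᵥ v.1) = _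
      ring
    rw [e, e]
    linear_combination (a ⬝ᵥ z.1) * this)
  have h1 := LinearMap.congr_fun (LinearMap.congr_fun key (p, 0)) (p, 0)
  have h2 : (LinearMap.smulRight (gf (W := W) 0 a) (gf (W := W) 0 a)) (p, 0) (p, 0)
      = (0 + a ⬝ᵥ p) * (0 + a ⬝ᵥ p) := rfl
  rw [h2, hp] at h1
  simp at h1

end

end Pool.Agent.Helper93.K3A
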