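import Pool.Agent.Helper93.K3A.Inv
import Pool.Agent.Helper93.K3A.Hess

/-!
K3A / L0: LEMMA 0 of the memo.

`l0_coord`: coordinates `u = e_1` (index 0).  `A_w = e_1 ⊗ ψ_w`, `B_w = e_1 ⊗ χ_w`.
`κ(x;t) := D x e_1 (C(x) t) = xi S e_1` (independent of `y, w`).
(4): `(ψ_w(t1) - χ_w(t1)) κ(x;t2) - (ψ_w(t2) - χ_w(t2)) κ(x;t1) = χ_w(x) (κ(t1;x,t2) - ..)`.
Step 1: for `w, w'`: `ν = χ_w'(x) δ_w - χ_w(x) δ_w'` (`δ = ψ - χ`) satisfies `ν ∧ κ = 0`, so `ν = 0`
by `PR`; `χ` is injective (NC) and `dim W ≥ 2`, so `δ = 0`.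
Step 2: `χ_w(x) dκ = 0`, so `dκ = 0` (LP.mul_eq_zero).
Step 3: `hess`: this is impossible.
-/

set_option autoImplicit false

namespace Pool.Agent.Helper93.K3A

open Matrix

variable {W : Type} [AddCommGroup W] [Module ℂ W]

private theorem l0_row {P : M3} (h : ∃ ψ, P = vecMulVec (![1, 0, 0]) ψ) :
    P = vecMulVec (![1, 0, 0]) (P 0) := by
  obtain ⟨ψ, hψ⟩ := h
  have : P 0 = ψ := by
    rw [hψ]; funext j; simp [vecMulVec_apply]
  rw [this]; exact hψ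

private theorem l0_mulVec (P : M3) (h : P = vecMulVec (![1, 0, 0]) (P 0)) (t : V3) :
    P *ᵥ t = (P 0 ⬝ᵥ t) • (![1, 0, 0] : V3) := by
  rw [h]
  funext i
  fin_cases i <;> simp [Matrix.mulVec, dotProduct, Fin.sum_univ_three, vecMulVec_apply]

/-- the derivative of `κ` -/
private def dk (c : V3 →ₗ[ℂ] M3) (x t1 t2 : V3) : ℂ :=
  (D t1 (![1, 0, 0]) (c x *ᵥ t2) + D x (![1, 0, 0]) (c t1 *ᵥ t2))
    - (D t2 (![1, 0, 0]) (c x *ᵥ t1) + D x (![1, 0, 0]) (c t2 *ᵥ t1))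

private theorem dk_add (c : V3 →ₗ[ℂ] M3) (x x' t1 t2 : V3) :
    dk c (x + x') t1 t2 = dk c x t1 t2 + dk c x' t1 t2 := by
  simp only [dk, map_add, Matrix.add_mulVec, D, Pi.add_apply]
  ring

private theorem l0_eq4 {S : Dat W} (h : Std S)
    (hA : ∀ w, S.A w = vecMulVec (![1, 0, 0]) (S.A w 0))
    (hB : ∀ w, S.B w = vecMulVec (![1, 0, 0]) (S.B w 0)) (w : W) (x t1 t2 : V3) :
    (S.A w 0 ⬝ᵥ t1 - S.B w 0 ⬝ᵥ t1) * kap S.C (![1, 0, 0]) x t2
      - (S.A w 0 ⬝ᵥ t2 - S.B w 0 ⬝ᵥ t2) * kap S.C (![1, 0, 0]) x t1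
      = (S.B w 0 ⬝ᵥ x) * dk S.C x t1 t2 := by
  have h4 := eq4 h.cl w x t1 t2
  rw [l0_mulVec _ (hA w) t1, l0_mulVec _ (hA w) t2, l0_mulVec _ (hB w) t1,
    l0_mulVec _ (hB w) t2, l0_mulVec _ (hB w) x] at h4
  simp only [kap, dk, D, Pi.smul_apply, smul_eq_mul] at h4 ⊢
  linear_combination h4

private theorem l0_xi {S : Dat W}
    (hA : ∀ w, S.A w = vecMulVec (![1, 0, 0]) (S.A w 0))
    (hB : ∀ w, S.B w = vecMulVec (![1, 0, 0]) (S.B w 0)) (x : V3) (y : W) (t : V3) (w : W) :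
    xi S (![1, 0, 0]) x y t w = kap S.C (![1, 0, 0]) x t := by
  rw [xi, eta, l0_mulVec _ (hA y) t, l0_mulVec _ (hB w) x]
  simp only [kap, D, Pi.add_apply, Pi.smul_apply, smul_eq_mul, Matrix.cons_val_zero,
    Matrix.cons_val_one, Matrix.cons_val]
  ring

private theorem e1_ne : (![1, 0, 0] : V3) ≠ 0 := by
  intro h
  have := congrFun h 0
  simp at this

/-- bilinear forms `(x,t) ↦ f(x) g(t)` -/
private def bil (f g : V3) : (V3 × W) →ₗ[ℂ] (V3 × W) →ₗ[ℂ] ℂ :=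
  LinearMap.mk₂ ℂ (fun z v => (f ⬝ᵥ z.1) * (g ⬝ᵥ v.1))
    (fun a b c => by simp [dotProduct_add, add_mul])
    (fun a b c => by simp [dotProduct_smul, mul_assoc])
    (fun a b c => by simp [dotProduct_add, mul_add])
    (fun a b c => by simp [dotProduct_smul, mul_left_comm])

private theorem bil_apply (f g : V3) (z v : V3 × W) : bil f g z v = (f ⬝ᵥ z.1) * (g ⬝ᵥ v.1) := rfl

theorem l0_coord {S : Dat W} (h : Std S)
    (hA : ∀ w, ∃ ψ, S.A w = vecMulVec (![1, 0, 0]) ψ)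
    (hB : ∀ w, ∃ χ, S.B w = vecMulVec (![1, 0, 0]) χ) : False := by
  have hA' : ∀ w, S.A w = vecMulVec (![1, 0, 0]) (S.A w 0) := fun w => l0_row (hA w)
  have hB' : ∀ w, S.B w = vecMulVec (![1, 0, 0]) (S.B w 0) := fun w => l0_row (hB w)
  have hinj : ∀ w, S.B w 0 = 0 → w = 0 := by
    intro w hw
    apply h.nc w
    refine ⟨0, ?_⟩
    rw [hB' w, hw, zero_smul]
    ext i j; simp [vecMulVec_apply]
  -- Step 1
  have key : ∀ w w' : W, ∀ x t : V3, (S.B w' 0 ⬝ᵥ x) * (S.A w 0 ⬝ᵥ t - S.B w 0 ⬝ᵥ t)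
      = (S.B w 0 ⬝ᵥ x) * (S.A w' 0 ⬝ᵥ t - S.B w' 0 ⬝ᵥ t) := by
    intro w w'
    have hν := h.pr (![1, 0, 0]) e1_ne
      (bil (S.B w' 0) (S.A w 0 - S.B w 0) - bil (S.B w 0) (S.A w' 0 - S.B w' 0)) (by
        intro z v v'
        rw [l0_xi hA' hB', l0_xi hA' hB']
        simp only [LinearMap.sub_apply, bil_apply, sub_dotProduct]
        have e1 := l0_eq4 h hA' hB' w z.1 v.1 v'.1
        have e2 := l0_eq4 h hA' hB' w' z.1 v.1 v'.1
        linear_combination (S.B w' 0 ⬝ᵥ z.1) * e1 - (S.B w 0 ⬝ᵥ z.1) * e2)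
    intro x t
    have h1 := congrArg (fun f => f (x, (0 : W)) (t, (0 : W))) hν
    simp only [LinearMap.sub_apply, bil_apply, sub_dotProduct, LinearMap.zero_apply] at h1
    linear_combination h1
  have hδ : ∀ w : W, ∀ t : V3, S.A w 0 ⬝ᵥ t - S.B w 0 ⬝ᵥ t = 0 := by
    by_contra hc
    push Not at hc
    obtain ⟨w, t, hwt⟩ := hc
    -- the functional `w' ↦ δ_w'(t)` is injective
    let f : W →ₗ[ℂ] ℂ :=
      { toFun := fun w' => S.A w' 0 ⬝ᵥ t - S.B w' 0 ⬝ᵥ t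
        map_add' := fun a b => by
          simp only [map_add, Matrix.add_apply]
          have e1 : (S.A a + S.A b) 0 = S.A a 0 + S.A b 0 := rfl
          have e2 : (S.B a + S.B b) 0 = S.B a 0 + S.B b 0 := rfl
          rw [e1, e2, add_dotProduct, add_dotProduct]; ring
        map_smul' := fun c a => by
          simp only [map_smul]
          have e1 : (c • S.A a) 0 = c • S.A a 0 := rfl
          have e2 : (c • S.B a) 0 = c • S.B a 0 := rfl
          rw [e1, e2, smul_dotProduct, smul_dotProduct]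
          simp only [smul_eq_mul, RingHom.id_apply]; ring }
    have hf : Function.Injective f := by
      rw [injective_iff_map_eq_zero]
      intro w' hw'
      have hw'' : S.A w' 0 ⬝ᵥ t - S.B w' 0 ⬝ᵥ t = 0 := hw'
      apply hinj
      have h3 : ∀ x : V3, S.B w' 0 ⬝ᵥ x = 0 := by
        intro x
        have h2 := key w w' x t
        rw [hw'', mul_zero] at h2
        exact (mul_eq_zero.1 h2).resolve_right hwt
      funext j
      have := h3 (Pi.single j 1)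
      simpa using this
    have hle := LinearMap.finrank_le_finrank_of_injective hf
    rw [Module.finrank_self] at hle
    have := h.dim
    omega
  -- Step 2
  obtain ⟨w, hw⟩ : ∃ w : W, w ≠ 0 := by
    have hd : 0 < Module.finrank ℂ W := by have := h.dim; omega
    have := Module.nontrivial_of_finrank_pos hd
    exact exists_ne 0
  have hχ : ∃ x0 : V3, S.B w 0 ⬝ᵥ x0 ≠ 0 := by
    by_contra hc
    push Not at hc
    apply hw
    apply hinj
    funext j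
    have := hc (Pi.single j 1)
    simpa using this
  obtain ⟨x0, hx0⟩ := hχ
  have hz : ∀ x t1 t2, (S.B w 0 ⬝ᵥ x) * dk S.C x t1 t2 = 0 := by
    intro x t1 t2
    have := l0_eq4 h hA' hB' w x t1 t2
    rw [hδ, hδ, zero_mul, zero_mul, sub_zero] at this
    exact this.symm
  have hdk : ∀ x t1 t2, dk S.C x t1 t2 = 0 := by
    intro x t1 t2
    have h0 : dk S.C x0 t1 t2 = 0 := (mul_eq_zero.1 (hz x0 t1 t2)).resolve_left hx0
    have h1 := hz (x + x0) t1 t2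
    rw [dk_add, h0, add_zero, dotProduct_add, add_mul, hz x t1 t2, zero_add] at h1
    exact (mul_eq_zero.1 h1).resolve_left hx0
  -- Step 3
  obtain ⟨l, μ, hl, hμ⟩ := hess S.C (fun x t1 t2 => sub_eq_zero.1 (hdk x t1 t2)) (eq5 h.cl)
  have hμ0 : ∀ x t, μ x t = 0 := by
    have hν := h.pr (![1, 0, 0]) e1_ne
      ((μ.compl₁₂ (LinearMap.fst ℂ V3 W) (LinearMap.fst ℂ V3 W))) (by
        intro z v v'
        rw [l0_xi hA' hB', l0_xi hA' hB', hμ, hμ]
        simp only [LinearMap.compl₁₂_apply, LinearMap.fst_apply]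
        ring)
    intro x t
    have h1 := congrArg (fun f => f (x, (0 : W)) (t, (0 : W))) hν
    simpa using h1
  have hν := h.pr (![1, 0, 0]) e1_ne (bil (![1, 0, 0]) (![1, 0, 0])) (by
    intro z v v'
    rw [l0_xi hA' hB', l0_xi hA' hB', hμ, hμ, hμ0, hμ0]
    ring)
  have h1 := congrArg (fun f => f ((![1, 0, 0] : V3), (0 : W)) ((![1, 0, 0] : V3), (0 : W))) hν
  simp [bil_apply, dotProduct, Fin.sum_univ_three] at h1

/-- LEMMA 0 -/
theorem l0 {S : Dat W} (h : Std S) (u : V3) (hu : u ≠ 0)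
    (hA : ∀ w, ∃ ψ, S.A w = vecMulVec u ψ)
    (hB : ∀ w, ∃ χ, ∃ c : ℂ, S.B w = vecMulVec u χ + c • (1 : M3)) : False := by
  obtain ⟨P, Q, hPQ, hQP, hPu⟩ := frame_vec u hu
  have h1 := h.conj hPQ
  have hA1 : ∀ w, ∃ ψ, (conj S P Q).A w = vecMulVec (![1, 0, 0]) ψ := by
    intro w
    obtain ⟨ψ, hψ⟩ := hA w
    refine ⟨ψ ᵥ* Q, ?_⟩
    change P * S.A w * Q = _
    rw [hψ, mul_vecMulVec, vecMulVec_mul, hPu]
  have hB1 : ∀ w, ∃ χ, ∃ c : ℂ, (conj S P Q).B w = vecMulVec (![1, 0, 0]) χ + c • (1 : M3) := by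
    intro w
    obtain ⟨χ, c, hχ⟩ := hB w
    refine ⟨χ ᵥ* Q, c, ?_⟩
    change P * S.B w * Q = _
    rw [hχ, Matrix.mul_add, Matrix.add_mul, mul_vecMulVec, vecMulVec_mul, hPu, Matrix.mul_smul,
      Matrix.mul_one, Matrix.smul_mul, hPQ]
  let ζ : W →ₗ[ℂ] ℂ :=
    { toFun := fun w => -((conj S P Q).B w 2 2)
      map_add' := fun a b => by rw [map_add, Matrix.add_apply]; ring
      map_smul' := fun c a => by
        rw [map_smul, Matrix.smul_apply]; simp }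
  have h2 := h1.gauge ζ 0
  refine l0_coord h2 hA1 (fun w => ?_)
  obtain ⟨χ, c, hχ⟩ := hB1 w
  refine ⟨χ, ?_⟩
  change (conj S P Q).B w + (ζ w) • (1 : M3) = _
  have hc : ζ w = -c := by
    change -((conj S P Q).B w 2 2) = -c
    rw [hχ]
    simp [vecMulVec_apply]
  rw [hc, hχ, neg_smul]
  abel

end Pool.Agent.Helper93.K3A
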