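import Pool.Agent.Helper93.K3A.L0
import Pool.Agent.Helper93.K3A.LX
import Pool.Agent.Helper93.K3A.TwoL

/-!
K3A / S3: (S1), (S2) imply (S3).
-/

set_option autoImplicit false

namespace Pool.Agent.Helper93.K3A

open Matrix

variable {W : Type} [AddCommGroup W] [Module ℂ W]

private theorem e3dot (x : V3) : (![0, 0, 1] : V3) ⬝ᵥ x = x 2 := by
  simp [dotProduct, Fin.sum_univ_three]

private theorem row2 (M : M3) (j : Fin 3) : ((![0, 0, 1] : V3) ᵥ* M) j = M 2 j := by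
  simp [Matrix.vecMul, dotProduct, Fin.sum_univ_three]

/-- the matrices of `C` in the basis -/
private theorem C_dec (S : Dat W) (x : V3) : S.C x =
    x 0 • S.C ![1, 0, 0] + x 1 • S.C ![0, 1, 0] + x 2 • S.C ![0, 0, 1] := by
  have hx : x = x 0 • ![1, 0, 0] + x 1 • ![0, 1, 0] + x 2 • ![0, 0, 1] := by
    funext j
    fin_cases j <;> simp
  conv_lhs => rw [hx]
  rw [map_add, map_add, map_smul, map_smul, map_smul]

private theorem two_lin {d0 d1 c0 c1 : ℂ} (hd : d0 ≠ 0 ∨ d1 ≠ 0) (h0 : d1 * c0 = 0)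
    (h1 : d0 * c1 = 0) (h2 : (d1 - d0) * (c0 + c1) = 0) : c0 = 0 ∧ c1 = 0 := by
  have h3 : d1 * c1 = d0 * c0 := by linear_combination h2 - h0 + h1
  rcases hd with hd | hd
  · have h4 := (mul_eq_zero.1 h1).resolve_left hd
    rw [h4, mul_zero] at h3
    exact ⟨(mul_eq_zero.1 h3.symm).resolve_left hd, h4⟩
  · have h4 := (mul_eq_zero.1 h0).resolve_left hd
    rw [h4, mul_zero] at h3
    exact ⟨h4, (mul_eq_zero.1 h3).resolve_left hd⟩

/-- the case `a_w ≠ b_w` for one `w`, in coordinates `φ = e_3`: `A_w = a ⊗ e_3`, `B_w = b ⊗ e_3`,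
`a ≠ b`; (4) on `{x_3 = 0}` gives `C_3 = l dz + z ζ`.  Here `S` is gauged so that `e_3 B_w = 0`. -/
theorem S3_ne {S : Dat W} (h : Std S) (hA : ∀ y, ∃ α : ℂ, (![0, 0, 1] : V3) ᵥ* S.A y = α • ![0, 0, 1])
    (hB : ∀ y, (![0, 0, 1] : V3) ᵥ* S.B y = 0) (w : W) (a b : V3) (ha : a 2 = 0) (hb : b 2 = 0)
    (hab : a ≠ b) (hAw : S.A w = vecMulVec a ![0, 0, 1]) (hBw : S.B w = vecMulVec b ![0, 0, 1]) :
    C3 S := by
  have hAv : ∀ t : V3, S.A w *ᵥ t = t 2 • a := by
    intro t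
    rw [hAw]
    ext i
    simp [Matrix.mulVec, dotProduct, Fin.sum_univ_three, vecMulVec_apply]
    ring
  have hBv : ∀ t : V3, S.B w *ᵥ t = t 2 • b := by
    intro t
    rw [hBw]
    ext i
    simp [Matrix.mulVec, dotProduct, Fin.sum_univ_three, vecMulVec_apply]
    ring
  set c0 := S.C ![1, 0, 0] with hc0
  set c1 := S.C ![0, 1, 0] with hc1
  set c2 := S.C ![0, 0, 1] with hc2
  have hC : ∀ x : V3, S.C x = x 0 • c0 + x 1 • c1 + x 2 • c2 := C_dec S
  have key : ∀ x0 x1 : ℂ, ∀ j : Fin 3, (j = 0 ∨ j = 1) →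
      (x0 * (a 1 - b 1) - x1 * (a 0 - b 0)) * (x0 * c0 2 j + x1 * c1 2 j) = 0 := by
    intro x0 x1 j hj
    have h1 := eq4 h.cl w ![x0, x1, 0] ![0, 0, 1] (Pi.single j 1)
    rw [hAv, hAv, hBv, hBv, hBv, hC] at h1
    rcases hj with rfl | rfl
    · simp [D, Matrix.mulVec, dotProduct, Fin.sum_univ_three, ha, hb] at h1
      linear_combination h1
    · simp [D, Matrix.mulVec, dotProduct, Fin.sum_univ_three, ha, hb] at h1
      linear_combination h1
  have hd : a 0 - b 0 ≠ 0 ∨ a 1 - b 1 ≠ 0 := by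
    by_contra hcon
    push Not at hcon
    apply hab
    funext i
    fin_cases i
    · exact sub_eq_zero.1 hcon.1
    · exact sub_eq_zero.1 hcon.2
    · show a 2 = b 2
      rw [ha, hb]
  have hz : ∀ j : Fin 3, (j = 0 ∨ j = 1) → c0 2 j = 0 ∧ c1 2 j = 0 := by
    intro j hj
    have k1 := key 1 0 j hj
    have k2 := key 0 1 j hj
    have k3 := key 1 1 j hj
    exact two_lin hd (by linear_combination k1) (by linear_combination -k2)
      (by linear_combination k3)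
  obtain ⟨z00, z10⟩ := hz 0 (Or.inl rfl)
  obtain ⟨z01, z11⟩ := hz 1 (Or.inr rfl)
  refine ⟨![0, 0, 1], ?_, { toFun := fun z => z.1 0 * c0 2 2 + z.1 1 * c1 2 2 + S.A z.2 2 2
                            map_add' := ?_
                            map_smul' := ?_ },
    { toFun := fun v => c2 2 0 * v.1 0 + c2 2 1 * v.1 1 + c2 2 2 * v.1 2
      map_add' := ?_
      map_smul' := ?_ }, ?_⟩
  · intro h0
    have h1 := congrFun h0 2
    simp at h1
  · intro x y
    simp only [Prod.fst_add, Prod.snd_add, Pi.add_apply, map_add, Matrix.add_apply]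
    ring
  · intro r x
    simp only [Prod.smul_fst, Prod.smul_snd, Pi.smul_apply, smul_eq_mul, RingHom.id_apply,
      map_smul, Matrix.smul_apply]
    ring
  · intro x y
    simp only [Prod.fst_add, Pi.add_apply]
    ring
  · intro r x
    simp only [Prod.smul_fst, Pi.smul_apply, smul_eq_mul, RingHom.id_apply]
    ring
  · intro z v
    show ![0, 0, 1] ⬝ᵥ eta S z.1 z.2 v.1 v.2 =
      (z.1 0 * c0 2 2 + z.1 1 * c1 2 2 + S.A z.2 2 2) * (![0, 0, 1] ⬝ᵥ v.1) +
      (![0, 0, 1] ⬝ᵥ z.1) * (c2 2 0 * v.1 0 + c2 2 1 * v.1 1 + c2 2 2 * v.1 2)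
    rw [e3dot, e3dot, e3dot]
    obtain ⟨α, hα⟩ := hA z.2
    have a0 : S.A z.2 2 0 = 0 := by
      rw [← row2 (S.A z.2) 0, hα]
      simp
    have a1 : S.A z.2 2 1 = 0 := by
      rw [← row2 (S.A z.2) 1, hα]
      simp
    have b0 : ∀ j, S.B v.2 2 j = 0 := by
      intro j
      rw [← row2 (S.B v.2) j, hB v.2]
      rfl
    simp only [eta, Pi.add_apply]
    rw [hC]
    simp only [Matrix.mulVec, dotProduct, Fin.sum_univ_three, Matrix.add_apply,
      Matrix.smul_apply, smul_eq_mul, a0, a1, b0, z00, z10, z01, z11]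
    ring

private noncomputable def ent (F : W →ₗ[ℂ] M3) (i j : Fin 3) : W →ₗ[ℂ] ℂ where
  toFun y := F y i j
  map_add' x y := by rw [map_add, Matrix.add_apply]
  map_smul' c x := by rw [map_smul, Matrix.smul_apply]; rfl

private theorem s3c {S : Dat W} (h : Std S) (w0 e : W)
    (hspan : ∀ y, ∃ c d : ℂ, y = c • w0 + d • e)
    (hA2 : ∀ y, S.A y 2 0 = 0 ∧ S.A y 2 1 = 0)
    (hB2 : ∀ y, S.B y 2 0 = 0 ∧ S.B y 2 1 = 0 ∧ S.B y 2 2 = 0)
    (hAw : S.A w0 = !![0, 0, 1; 0, 0, 0; 0, 0, 0])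
    (hBw : S.B w0 = !![0, 0, 1; 0, 0, 0; 0, 0, 0]) : False := by
  have hA1 : ∀ y, S.A y 1 0 = 0 ∧ S.A y 1 1 = 0 ∧ S.A y 2 2 = 0 := by
    intro y
    obtain ⟨a20, a21⟩ := hA2 y
    have h1 := eq2 h.cl y w0
    rw [hAw, hBw] at h1
    have h2 := congrFun (congrFun h1 0) 2
    have h3 := congrFun (congrFun h1 1) 2
    have h4 := e2A h.cl y
    simp [adjp, e2p, Matrix.mul_apply, Fin.sum_univ_three, Matrix.trace, Matrix.one_apply,
      Matrix.sub_apply, Matrix.add_apply] at h2 h3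
    simp only [e2] at h4
    have r : S.A y 1 0 = 0 := by linear_combination h3
    have t : S.A y 1 1 + S.A y 2 2 = 0 := by linear_combination h2
    have t' : S.A y 2 2 = 0 := by
      have : S.A y 2 2 * S.A y 2 2 = 0 := by
        have e1 : S.A y 1 1 = - S.A y 2 2 := by linear_combination t
        rw [r, a20, a21, e1] at h4
        linear_combination -h4
      exact mul_self_eq_zero.1 this
    refine ⟨r, ?_, t'⟩
    linear_combination t - t'
  have hB1 : ∀ y, S.B y 1 0 = 0 ∧ S.B y 1 1 = 0 := by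
    intro y
    obtain ⟨a20, a21⟩ := hA2 y
    obtain ⟨a10, a11, a22⟩ := hA1 y
    obtain ⟨b20, b21, b22⟩ := hB2 y
    have h1 := eq2 h.cl w0 y
    rw [hAw] at h1
    have h2 := congrFun (congrFun h1 0) 2
    have h3 := congrFun (congrFun h1 1) 2
    simp [adjp, e2p, Matrix.mul_apply, Fin.sum_univ_three, Matrix.trace, Matrix.one_apply,
      Matrix.sub_apply, Matrix.add_apply, Matrix.vecMul, dotProduct, a20, a21, a10, a11, a22,
      b20, b21, b22] at h2 h3
    refine ⟨?_, ?_⟩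
    · linear_combination -h3
    · linear_combination h2
  -- `c2 = 2 d2`
  have hg : ∀ y, S.A y 1 2 = 2 * S.B y 1 2 := by
    intro y
    obtain ⟨a20, a21⟩ := hA2 y
    obtain ⟨a10, a11, a22⟩ := hA1 y
    obtain ⟨b20, b21, b22⟩ := hB2 y
    obtain ⟨b10, b11⟩ := hB1 y
    have h1 := eq3 h.cl w0 y ![0, 0, 1] ![0, 0, 1]
    rw [hAw, hBw] at h1
    simp [D, Matrix.mulVec, dotProduct, Fin.sum_univ_three, a20, a21, a10, a11, a22, b20, b21, b22,
      b10, b11] at h1
    linear_combination -h1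
  have hA : ∀ y, S.A y = !![S.A y 0 0, S.A y 0 1, S.A y 0 2; 0, 0, 2 * S.B y 1 2; 0, 0, 0] := by
    intro y
    obtain ⟨a20, a21⟩ := hA2 y
    obtain ⟨a10, a11, a22⟩ := hA1 y
    ext i j
    fin_cases i <;> fin_cases j <;> simp [a20, a21, a10, a11, a22, hg y]
  have hB : ∀ y, S.B y = !![S.B y 0 0, S.B y 0 1, S.B y 0 2; 0, 0, S.B y 1 2; 0, 0, 0] := by
    intro y
    obtain ⟨b20, b21, b22⟩ := hB2 y
    obtain ⟨b10, b11⟩ := hB1 y
    ext i j
    fin_cases i <;> fin_cases j <;> simp [b20, b21, b10, b11, b22]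
  -- `eq2` on the diagonal
  have h1 := eq2 h.cl e e
  rw [hA e, hB e] at h1
  have h2 := congrFun (congrFun h1 0) 2
  have h3 := congrFun (congrFun h1 1) 2
  simp [adjp, e2p, Matrix.mul_apply, Fin.sum_univ_three, Matrix.trace, Matrix.one_apply,
    Matrix.sub_apply, Matrix.add_apply] at h2 h3
  have hw12 : S.B w0 1 2 = 0 := by rw [hBw]; rfl
  rcases eq_or_ne (S.B e 1 2) 0 with hδ | hδ
  · have hδ' : ∀ y, S.B y 1 2 = 0 := by
      intro y
      obtain ⟨c, d, rfl⟩ := hspan y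
      rw [map_add, map_smul, map_smul, Matrix.add_apply, Matrix.smul_apply, Matrix.smul_apply,
        hw12, hδ, smul_zero, smul_zero, add_zero]
    refine l0_coord h (fun w => ⟨![S.A w 0 0, S.A w 0 1, S.A w 0 2], ?_⟩)
      (fun w => ⟨![S.B w 0 0, S.B w 0 1, S.B w 0 2], ?_⟩)
    · rw [hA w, hδ' w]
      ext i j
      fin_cases i <;> fin_cases j <;> simp [vecMulVec_apply]
    · rw [hB w, hδ' w]
      ext i j
      fin_cases i <;> fin_cases j <;> simp [vecMulVec_apply]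
  · have e0 : S.B e 0 0 = S.A e 0 0 := by
      apply mul_right_cancel₀ hδ
      linear_combination (1 / 2 : ℂ) * h3
    have e1 : S.B e 0 1 = S.A e 0 1 := by
      apply mul_right_cancel₀ hδ
      linear_combination (-1 / 2 : ℂ) * h2
    have f0 : ∀ y, S.B y 0 0 = S.A y 0 0 := by
      intro y
      obtain ⟨c, d, rfl⟩ := hspan y
      simp only [map_add, map_smul, Matrix.add_apply, Matrix.smul_apply, hAw, hBw, e0]
    have f1 : ∀ y, S.B y 0 1 = S.A y 0 1 := by
      intro y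
      obtain ⟨c, d, rfl⟩ := hspan y
      simp only [map_add, map_smul, Matrix.add_apply, Matrix.smul_apply, hAw, hBw, e1]
    refine lx' h (ent S.A 0 0) (ent S.A 0 1) (ent S.A 0 2) (ent S.B 0 2) (ent S.B 1 2) ?_ ?_ ?_
    · intro h0
      exact hδ (LinearMap.congr_fun h0 e)
    · intro y
      exact hA y
    · intro y
      have := hB y
      rw [f0, f1] at this
      exact this

/-- the case `a_w = b_w` for all `w` with `g(w) = 0`: impossible -/
theorem S3_eq {S : Dat W} (h : Std S) (g : W →ₗ[ℂ] ℂ)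
    (hA : ∀ y, ∃ α : ℂ, (![0, 0, 1] : V3) ᵥ* S.A y = α • ![0, 0, 1])
    (hB : ∀ y, (![0, 0, 1] : V3) ᵥ* S.B y = 0)
    (hw : ∀ w, g w = 0 → ∃ a : V3, a 2 = 0 ∧ S.A w = vecMulVec a ![0, 0, 1] ∧
      S.B w = vecMulVec a ![0, 0, 1]) : False := by
  have hfd : Module.Finite ℂ W := Module.finite_of_finrank_pos (by have := h.dim; omega)
  obtain ⟨w0, hw0, hg0⟩ : ∃ w, w ≠ 0 ∧ g w = 0 := by
    have h1 : LinearMap.ker g ≠ ⊥ := by
      apply LinearMap.ker_ne_bot_of_finrank_lt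
      rw [Module.finrank_self]
      have := h.dim
      omega
    obtain ⟨w, hw, hw0⟩ := (Submodule.ne_bot_iff _).mp h1
    exact ⟨w, hw0, hw⟩
  obtain ⟨a, ha2, hAa, hBa⟩ := hw w0 hg0
  have ha : a ≠ 0 := by
    rintro rfl
    apply hw0
    apply h.nc w0
    refine ⟨0, ?_⟩
    rw [hBa]
    ext i j
    simp [vecMulVec_apply]
  have hmv : ∀ (a t : V3), vecMulVec a ![0, 0, 1] *ᵥ t = t 2 • a := by
    intro a t
    ext i
    simp [Matrix.mulVec, dotProduct, Fin.sum_univ_three, vecMulVec_apply]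
    ring
  -- the kernel of `g` is spanned by `w0`
  have hker : ∀ w, g w = 0 → ∃ c : ℂ, w = c • w0 := by
    intro w hgw
    obtain ⟨b, hb2, hAb, hBb⟩ := hw w hgw
    have h1 := eq3 h.cl w0 w ![0, 0, 1] ![0, 0, 1]
    rw [hAa, hBa, hAb, hBb, hmv, hmv] at h1
    simp [D] at h1
    have h2 : a 0 * b 1 = a 1 * b 0 := by linear_combination h1
    obtain ⟨c, hc⟩ : ∃ c : ℂ, b = c • a := by
      by_cases h0 : a 0 = 0
      · have h3 : a 1 ≠ 0 := by
          intro h4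
          apply ha
          funext i
          fin_cases i
          · exact h0
          · exact h4
          · exact ha2
        refine ⟨b 1 / a 1, ?_⟩
        funext i
        fin_cases i
        · show b 0 = b 1 / a 1 * a 0
          rw [h0, zero_mul] at h2
          rw [h0, mul_zero]
          exact (mul_eq_zero.1 h2.symm).resolve_left h3
        · show b 1 = b 1 / a 1 * a 1
          rw [div_mul_cancel₀ _ h3]
        · show b 2 = b 1 / a 1 * a 2
          rw [ha2, hb2, mul_zero]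
      · refine ⟨b 0 / a 0, ?_⟩
        funext i
        fin_cases i
        · show b 0 = b 0 / a 0 * a 0
          rw [div_mul_cancel₀ _ h0]
        · show b 1 = b 0 / a 0 * a 1
          rw [div_mul_eq_mul_div, eq_div_iff h0]
          linear_combination h2
        · show b 2 = b 0 / a 0 * a 2
          rw [ha2, hb2, mul_zero]
    refine ⟨c, ?_⟩
    rw [← sub_eq_zero]
    apply h.nc
    refine ⟨0, ?_⟩
    rw [map_sub, map_smul, hBb, hBa, hc]
    ext i j
    simp only [Matrix.sub_apply, Matrix.smul_apply, vecMulVec_apply, Pi.smul_apply, smul_eq_mul,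
      zero_smul, Matrix.zero_apply]
    ring
  -- a second vector
  obtain ⟨e, he⟩ : ∃ e, g e = 1 := by
    by_contra hcon
    have hg : ∀ w, g w = 0 := by
      intro w
      by_contra hne
      apply hcon
      exact ⟨(g w)⁻¹ • w, by rw [map_smul, smul_eq_mul, inv_mul_cancel₀ hne]⟩
    have h1 : Module.finrank ℂ W ≤ 1 := by
      refine finrank_le_one w0 fun w => ?_
      obtain ⟨c, hc⟩ := hker w (hg w)
      exact ⟨c, hc.symm⟩
    have := h.dim
    omega
  have hspan : ∀ y, ∃ c d : ℂ, y = c • w0 + d • e := by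
    intro y
    obtain ⟨c, hc⟩ := hker (y - g y • e) (by
      rw [map_sub, map_smul, he, smul_eq_mul, mul_one, sub_self])
    exact ⟨c, g y, by rw [← hc]; abel⟩
  -- coordinates with `a = e_1`
  have hφ : (![0, 0, 1] : V3) ≠ 0 := by
    intro h0
    have := congrFun h0 2
    simp at this
  obtain ⟨P, Q, hPQ, hQP, hPa, hφQ⟩ := frame_vec_cov a ![0, 0, 1] ha hφ (by
    rw [e3dot]
    exact ha2)
  have hφP : (![0, 0, 1] : V3) ᵥ* P = ![0, 0, 1] := by
    conv_lhs => rw [← hφQ]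
    rw [Matrix.vecMul_vecMul, hQP, Matrix.vecMul_one]
  have hcA : ∀ y, (K3A.conj S P Q).A y = P * S.A y * Q := fun y => rfl
  have hcB : ∀ y, (K3A.conj S P Q).B y = P * S.B y * Q := fun y => rfl
  have hvm : ∀ b : V3, P * vecMulVec b ![0, 0, 1] * Q = vecMulVec (P *ᵥ b) ![0, 0, 1] := by
    intro b
    have h1 : P * vecMulVec b ![0, 0, 1] * Q = vecMulVec (P *ᵥ b) ((![0, 0, 1] : V3) ᵥ* Q) := by
      ext i j
      simp only [Matrix.mul_apply, vecMulVec_apply, Matrix.mulVec, Matrix.vecMul, dotProduct,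
        Fin.sum_univ_three]
      ring
    rw [h1, hφQ]
  have hE : vecMulVec (![1, 0, 0] : V3) ![0, 0, 1] = !![0, 0, 1; 0, 0, 0; 0, 0, 0] := by
    ext i j
    fin_cases i <;> fin_cases j <;> simp [vecMulVec_apply]
  refine s3c (h.conj hPQ) w0 e hspan ?_ ?_ ?_ ?_
  · intro y
    obtain ⟨α, hα⟩ := hA y
    have h1 : (![0, 0, 1] : V3) ᵥ* (K3A.conj S P Q).A y = α • ![0, 0, 1] := by
      rw [hcA, ← Matrix.vecMul_vecMul, ← Matrix.vecMul_vecMul, hφP, hα, Matrix.smul_vecMul, hφQ]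
    refine ⟨?_, ?_⟩
    · rw [← row2 ((K3A.conj S P Q).A y) 0, h1]
      simp
    · rw [← row2 ((K3A.conj S P Q).A y) 1, h1]
      simp
  · intro y
    have h1 : (![0, 0, 1] : V3) ᵥ* (K3A.conj S P Q).B y = 0 := by
      rw [hcB, ← Matrix.vecMul_vecMul, ← Matrix.vecMul_vecMul, hφP, hB, Matrix.zero_vecMul]
    refine ⟨?_, ?_, ?_⟩
    · rw [← row2 ((K3A.conj S P Q).B y) 0, h1]
      rfl
    · rw [← row2 ((K3A.conj S P Q).B y) 1, h1]
      rfl
    · rw [← row2 ((K3A.conj S P Q).B y) 2, h1]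
      rfl
  · rw [hcA, hAa, hvm, hPa, hE]
  · rw [hcB, hBa, hvm, hPa, hE]

private theorem S3_coord {S : Dat W} (h : Std S) {g : W →ₗ[ℂ] ℂ} (h12 : C12 S ![0, 0, 1] g)
    (hB : ∀ y, (![0, 0, 1] : V3) ᵥ* S.B y = 0) : C3 S := by
  obtain ⟨_, hA, _, hw⟩ := h12
  have hw' : ∀ w, g w = 0 → ∃ a b : V3, a 2 = 0 ∧ b 2 = 0 ∧ S.A w = vecMulVec a ![0, 0, 1] ∧
      S.B w = vecMulVec b ![0, 0, 1] := by
    intro w hgw
    obtain ⟨⟨a, ha, hAa⟩, b, c, hb, hBb⟩ := hw w hgw
    rw [e3dot] at ha hb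
    have h1 : S.B w 2 2 = 0 := by
      rw [← row2 (S.B w) 2, hB]
      rfl
    have h2 : c = 0 := by
      rw [hBb] at h1
      simp [vecMulVec_apply, hb] at h1
      exact h1
    rw [h2, zero_smul, add_zero] at hBb
    exact ⟨a, b, ha, hb, hAa, hBb⟩
  by_cases hne : ∃ (w : W) (a b : V3), a 2 = 0 ∧ b 2 = 0 ∧ a ≠ b ∧
      S.A w = vecMulVec a ![0, 0, 1] ∧ S.B w = vecMulVec b ![0, 0, 1]
  · obtain ⟨w, a, b, ha, hb, hab, hAw, hBw⟩ := hne
    exact S3_ne h hA hB w a b ha hb hab hAw hBw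
  · exfalso
    refine S3_eq h g hA hB fun w hgw => ?_
    obtain ⟨a, b, ha, hb, hAw, hBw⟩ := hw' w hgw
    have hab : a = b := by
      by_contra hab
      exact hne ⟨w, a, b, ha, hb, hab, hAw, hBw⟩
    exact ⟨a, ha, hAw, by rw [hab]; exact hBw⟩

theorem S3_main {S : Dat W} (h : Std S) {φ : V3} {g : W →ₗ[ℂ] ℂ} (h12 : C12 S φ g) : C3 S := by
  obtain ⟨P, Q, hPQ, hQP, hφ⟩ := frame_cov φ h12.1
  refine C3.of_conj hPQ ?_
  have h1 := h12.conj hPQ
  rw [hφ] at h1
  have hs := h.conj hPQ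
  set S1 := K3A.conj S P Q with hS1
  refine C3.of_gauge (ζ := - ent S1.B 2 2) (k := 0) ?_
  refine S3_coord (hs.gauge _ _) (h1.gauge (- ent S1.B 2 2) 0) ?_
  intro y
  obtain ⟨_, _, hB, _⟩ := h1
  obtain ⟨β, hβ⟩ := hB y
  have h3 : (K3A.gauge S1 (- ent S1.B 2 2) 0).B y = S1.B y + (- S1.B y 2 2) • (1 : M3) := rfl
  have h4 : S1.B y 2 2 = β := by
    rw [← row2 (S1.B y) 2, hβ]
    simp
  rw [h3, h4, Matrix.vecMul_add, hβ, Matrix.vecMul_smul, Matrix.vecMul_one, neg_smul,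
    add_neg_cancel]

end Pool.Agent.Helper93.K3A
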