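import Pool.Agent.Helper93.K3A.CaseI
import Pool.Agent.Helper93.K3A.CaseII
import Pool.Agent.Helper93.K3A.CaseIII
import Pool.Agent.Helper93.K3A.S3

/-!
K3A / Main: THEOREM K4 (type (3a), `b = 0`).
-/

set_option autoImplicit false

namespace Pool.Agent.Helper93.K3A

open Matrix

variable {W : Type} [AddCommGroup W] [Module ℂ W]

theorem exists_C12 {S : Dat W} (h : Std S) : ∃ φ g, C12 S φ g := by
  by_cases h1 : ∃ e, (S.A e).det ≠ 0
  · obtain ⟨e, he⟩ := h1
    exact caseI h e he
  · push Not at h1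
    by_cases h2 : ∃ e, ad (S.A e) ≠ 0
    · obtain ⟨e, he⟩ := h2
      exact caseII h h1 e he
    · push Not at h2
      exact caseIII h h2

/-- THEOREM K4 -/
theorem K4 {S : Dat W} (h : Std S) : C3 S := by
  obtain ⟨φ, g, h12⟩ := exists_C12 h
  exact S3_main h h12

end Pool.Agent.Helper93.K3A
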