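import Pool.Agent.Helper93.K3A.Defs

/-!
K3A / Tools: 3 x 3 matrix identities (all by expansion in entries and `ring`).
-/

set_option autoImplicit false

namespace Pool.Agent.Helper93.K3A

open Matrix

theorem D_mulVec (P : M3) (a b c : V3) : D (P *ᵥ a) (P *ᵥ b) (P *ᵥ c) = P.det * D a b c := by
  simp only [D, Matrix.mulVec, dotProduct, Fin.sum_univ_three, Matrix.det_fin_three]
  ring

theorem ad_mul (P : M3) : ad P * P = P.det • (1 : M3) := by
  ext i j
  fin_cases i <;> fin_cases j <;>
    simp [ad, e2, Matrix.mul_apply, Fin.sum_univ_three, Matrix.trace, Matrix.det_fin_three,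
      Matrix.one_apply] <;> ring

theorem mul_ad (P : M3) : P * ad P = P.det • (1 : M3) := by
  ext i j
  fin_cases i <;> fin_cases j <;>
    simp [ad, e2, Matrix.mul_apply, Fin.sum_univ_three, Matrix.trace, Matrix.det_fin_three,
      Matrix.one_apply] <;> ring

theorem adjp_self (P : M3) : adjp P P = (2 : ℂ) • ad P := by
  ext i j
  fin_cases i <;> fin_cases j <;>
    simp [ad, adjp, e2, e2p, Matrix.mul_apply, Fin.sum_univ_three, Matrix.trace,
      Matrix.one_apply] <;> ring

theorem e2p_self (P : M3) : e2p P P = 2 * e2 P := by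
  simp [e2, e2p, Matrix.mul_apply, Fin.sum_univ_three, Matrix.trace]
  ring

theorem e2p_comm (P Q : M3) : e2p P Q = e2p Q P := by
  rw [e2p, e2p, Matrix.trace_mul_comm P Q, mul_comm]

theorem trace_ad (P : M3) : (ad P).trace = e2 P := by
  simp [ad, e2, Matrix.mul_apply, Fin.sum_univ_three, Matrix.trace]
  ring

theorem e2_add_smul (P Q : M3) (t : ℂ) : e2 (P + t • Q) = e2 P + t * e2p P Q + t ^ 2 * e2 Q := by
  simp [e2, e2p, Matrix.mul_apply, Fin.sum_univ_three, Matrix.trace]
  ring

theorem ad_add_smul (P Q : M3) (t : ℂ) :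
    ad (P + t • Q) = ad P + t • adjp P Q + t ^ 2 • ad Q := by
  ext i j
  fin_cases i <;> fin_cases j <;>
    simp [ad, adjp, e2, e2p, Matrix.mul_apply, Fin.sum_univ_three, Matrix.trace,
      Matrix.one_apply] <;> ring

theorem det_add_smul (P Q : M3) (t : ℂ) :
    (P + t • Q).det = P.det + t * (ad P * Q).trace + t ^ 2 * (ad Q * P).trace + t ^ 3 * Q.det := by
  simp [ad, e2, Matrix.mul_apply, Fin.sum_univ_three, Matrix.trace, Matrix.det_fin_three]
  ring

/-- derivative of `P * ad P = det P` -/
theorem mul_adjp (P X : M3) : P * adjp P X + X * ad P = (ad P * X).trace • (1 : M3) := by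
  ext i j
  fin_cases i <;> fin_cases j <;>
    simp [ad, adjp, e2, e2p, Matrix.mul_apply, Fin.sum_univ_three, Matrix.trace,
      Matrix.one_apply] <;> ring

end Pool.Agent.Helper93.K3A
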