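import Pool.Agent.Helper93.K3A.Tools

/-!
K3A / Tools2: rank one matrices, frames, polynomials in one variable.
-/

set_option autoImplicit false

namespace Pool.Agent.Helper93.K3A

open Matrix

/-- a matrix all of whose 2 x 2 minors vanish is a tensor `a ⊗ φ` -/
theorem rank1_of_minors (P : M3) (h : ∀ i j k l, P i j * P k l = P i l * P k j) :
    ∃ a φ : V3, P = vecMulVec a φ := by
  by_cases h0 : P = 0
  · exact ⟨0, 0, by rw [h0]; ext i j; simp [vecMulVec_apply]⟩
  · have : ∃ i j, P i j ≠ 0 := by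
      by_contra hc
      push Not at hc
      exact h0 (by ext i j; exact hc i j)
    obtain ⟨i, j, hij⟩ := this
    refine ⟨fun k => P k j, fun l => P i l / P i j, ?_⟩
    ext k l
    rw [vecMulVec_apply]
    field_simp
    linear_combination h i j k l

/-- the minors are the entries of `ad` -/
theorem minors_of_ad_zero (P : M3) (h : ad P = 0) : ∀ i j k l, P i j * P k l = P i l * P k j := by
  have e := fun i j => congrFun (congrFun h i) j
  have e00 := e 0 0
  have e01 := e 0 1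
  have e02 := e 0 2
  have e10 := e 1 0
  have e11 := e 1 1
  have e12 := e 1 2
  have e20 := e 2 0
  have e21 := e 2 1
  have e22 := e 2 2
  simp [ad, e2, Matrix.mul_apply, Fin.sum_univ_three, Matrix.trace, Matrix.one_apply] at *
  intro i j k l
  fin_cases i <;> fin_cases j <;> fin_cases k <;> fin_cases l <;> simp <;>
    first
      | ring1
      | linear_combination e00
      | linear_combination -e00
      | linear_combination e01
      | linear_combination -e01
      | linear_combination e02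
      | linear_combination -e02
      | linear_combination e10
      | linear_combination -e10
      | linear_combination e11
      | linear_combination -e11
      | linear_combination e12
      | linear_combination -e12
      | linear_combination e20
      | linear_combination -e20
      | linear_combination e21
      | linear_combination -e21
      | linear_combination e22
      | linear_combination -e22

theorem rank1_of_ad_zero (P : M3) (h : ad P = 0) : ∃ a φ : V3, P = vecMulVec a φ :=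
  rank1_of_minors P (minors_of_ad_zero P h)

/-- a square zero matrix is `a ⊗ φ` with `φ(a) = 0` -/
theorem rank1_of_sq_zero (P : M3) (h : P * P = 0) (h0 : P ≠ 0) :
    ∃ a φ : V3, a ≠ 0 ∧ φ ≠ 0 ∧ φ ⬝ᵥ a = 0 ∧ P = vecMulVec a φ := by
  have hnil : IsNilpotent P := ⟨2, by rw [pow_two]; exact h⟩
  have htr : P.trace = 0 := (Matrix.isNilpotent_trace_of_isNilpotent hnil).eq_zero
  have h2 : e2 P = 0 := by
    have h3 : 2 * e2 P = P.trace * P.trace - (P * P).trace := by
      simp [e2, Matrix.trace, Fin.sum_univ_three, Matrix.mul_apply]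
      ring
    rw [htr, h, Matrix.trace_zero] at h3
    have : 2 * e2 P = 0 := by rw [h3]; ring
    exact (mul_eq_zero.mp this).resolve_left two_ne_zero
  have had : ad P = 0 := by
    unfold ad
    rw [h, htr, h2]
    simp
  obtain ⟨a, φ, hP⟩ := rank1_of_ad_zero P had
  have ha : a ≠ 0 := by
    rintro rfl
    apply h0
    rw [hP]
    ext i j
    simp [vecMulVec_apply]
  have hφ : φ ≠ 0 := by
    rintro rfl
    apply h0
    rw [hP]
    ext i j
    simp [vecMulVec_apply]
  refine ⟨a, φ, ha, hφ, ?_, hP⟩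
  have h3 : P * P = (φ ⬝ᵥ a) • P := by
    rw [hP]
    ext i j
    simp [Matrix.mul_apply, vecMulVec_apply, dotProduct, Fin.sum_univ_three]
    ring
  rw [h] at h3
  exact (smul_eq_zero.mp h3.symm).resolve_right h0

/-- the sign of `(i, j, k)` -/
private noncomputable def eps (i j k : Fin 3) : ℂ :=
  (((j : ℕ) : ℂ) - ((i : ℕ) : ℂ)) * (((k : ℕ) : ℂ) - ((i : ℕ) : ℂ)) * (((k : ℕ) : ℂ) - ((j : ℕ) : ℂ)) / 2

private theorem ad_minors (P : M3) (i j k l : Fin 3) :
    ad P i j * ad P k l = ad P i l * ad P k j +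
      P.det * ∑ m : Fin 3, ∑ r : Fin 3, eps i k m * eps j l r * P r m := by
  fin_cases i <;> fin_cases j <;> fin_cases k <;> fin_cases l <;>
    simp [ad, e2, eps, Matrix.mul_apply, Fin.sum_univ_three, Matrix.trace, Matrix.one_apply,
      Matrix.det_fin_three] <;> ring

/-- if `det P = 0` then `ad P` is a tensor `u ⊗ ψ` (its 2 x 2 minors are multiples of `det P`) -/
theorem ad_rank1 (P : M3) (h : P.det = 0) : ∃ u ψ : V3, ad P = vecMulVec u ψ := by
  apply rank1_of_minors
  intro i j k l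
  rw [ad_minors P i j k l, h, zero_mul, add_zero]

private theorem parallel {a b : V3} (ha : a ≠ 0) (h : ∀ i k, a i * b k = b i * a k) :
    ∃ c : ℂ, b = c • a := by
  obtain ⟨i, hi⟩ := Function.ne_iff.mp ha
  have hi' : a i ≠ 0 := hi
  refine ⟨b i / a i, ?_⟩
  funext k
  rw [Pi.smul_apply, smul_eq_mul]
  field_simp
  linear_combination h i k

/-- `a ⊗ φ + b ⊗ ψ` is never a non-zero scalar -/
theorem scalar_rank2 (a φ b ψ : V3) (c : ℂ) (h : vecMulVec a φ + vecMulVec b ψ = c • (1 : M3)) :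
    c = 0 := by
  have h1 := congrArg Matrix.det h
  have h2 : (vecMulVec a φ + vecMulVec b ψ).det = 0 := by
    simp [Matrix.det_fin_three, vecMulVec_apply]
    ring
  rw [h2, Matrix.det_smul, Matrix.det_one] at h1
  simpa using h1.symm

/-- a linear family of matrices of rank `≤ 1` has a common image or a common kernel -/
theorem rank1_family {W : Type} [AddCommGroup W] [Module ℂ W] (F : W →ₗ[ℂ] M3)
    (h : ∀ w, ∀ i j k l, F w i j * F w k l = F w i l * F w k j) :
    (∃ u : V3, u ≠ 0 ∧ ∀ w, ∃ ψ, F w = vecMulVec u ψ) ∨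
      (∃ ψ : V3, ψ ≠ 0 ∧ ∀ w, ∃ u, F w = vecMulVec u ψ) := by
  by_cases hF : ∀ w, F w = 0
  · left
    refine ⟨![1, 0, 0], fun h0 => ?_, fun w => ⟨0, ?_⟩⟩
    · have := congrFun h0 0
      simp at this
    · rw [hF w]
      ext i j
      simp [vecMulVec_apply]
  push Not at hF
  obtain ⟨w0, hw0⟩ := hF
  obtain ⟨a, φ, hP⟩ := rank1_of_minors (F w0) (h w0)
  have ha : a ≠ 0 := by
    rintro rfl
    apply hw0
    rw [hP]
    ext i j
    simp [vecMulVec_apply]
  have hφ : φ ≠ 0 := by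
    rintro rfl
    apply hw0
    rw [hP]
    ext i j
    simp [vecMulVec_apply]
  have hLR : ∀ w, (∃ ψ, F w = vecMulVec a ψ) ∨ (∃ u, F w = vecMulVec u φ) := by
    intro w
    obtain ⟨b, ψ, hQ⟩ := rank1_of_minors (F w) (h w)
    have hkey : ∀ i j k l, (a i * b k - b i * a k) * (φ j * ψ l - φ l * ψ j) = 0 := by
      intro i j k l
      have h1 := h (w0 + w) i j k l
      rw [map_add, hP, hQ] at h1
      simp only [Matrix.add_apply, vecMulVec_apply] at h1
      linear_combination h1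
    by_cases hab : ∀ i k, a i * b k = b i * a k
    · left
      obtain ⟨c, hc⟩ := parallel ha hab
      refine ⟨c • ψ, ?_⟩
      rw [hQ, hc]
      ext i j
      simp only [vecMulVec_apply, Pi.smul_apply, smul_eq_mul]
      ring
    · right
      push Not at hab
      obtain ⟨i, k, hik⟩ := hab
      have hik' : a i * b k - b i * a k ≠ 0 := sub_ne_zero.mpr hik
      obtain ⟨c, hc⟩ := parallel (b := ψ) hφ (by
        intro j l
        have h2 := (mul_eq_zero.mp (hkey i j k l)).resolve_left hik'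
        linear_combination h2)
      refine ⟨c • b, ?_⟩
      rw [hQ, hc]
      ext i j
      simp only [vecMulVec_apply, Pi.smul_apply, smul_eq_mul]
      ring
  by_cases hL : ∀ w, ∃ ψ, F w = vecMulVec a ψ
  · exact Or.inl ⟨a, ha, hL⟩
  · right
    refine ⟨φ, hφ, ?_⟩
    push Not at hL
    obtain ⟨w1, hw1⟩ := hL
    obtain ⟨b, hb⟩ : ∃ u, F w1 = vecMulVec u φ := by
      rcases hLR w1 with ⟨ψ, hψ⟩ | hR
      · exact absurd hψ (hw1 ψ)
      · exact hR
    intro w2
    rcases hLR w2 with ⟨ψ, hψ⟩ | hR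
    · rcases hLR (w1 + w2) with ⟨χ, hχ⟩ | ⟨c, hc⟩
      · exfalso
        apply hw1 (χ - ψ)
        have h1 : F w1 = F (w1 + w2) - F w2 := by rw [map_add]; abel
        rw [h1, hχ, hψ]
        ext i j
        simp only [vecMulVec_apply, Matrix.sub_apply, Pi.sub_apply]
        ring
      · refine ⟨c - b, ?_⟩
        have h1 : F w2 = F (w1 + w2) - F w1 := by rw [map_add]; abel
        rw [h1, hc, hb]
        ext i j
        simp only [vecMulVec_apply, Matrix.sub_apply, Pi.sub_apply]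
        ring
    · exact hR

private theorem exists_dot_one {φ : V3} (h : φ ≠ 0) : ∃ w : V3, φ ⬝ᵥ w = 1 := by
  obtain ⟨i, hi⟩ := Function.ne_iff.mp h
  have hi' : φ i ≠ 0 := hi
  refine ⟨Pi.single i (φ i)⁻¹, ?_⟩
  rw [dotProduct_single, mul_inv_cancel₀ hi']

private theorem frame_aux (u φ : V3) (hu : u ≠ 0) (hφ : φ ≠ 0) (h : φ ⬝ᵥ u = 0) :
    ∃ P Q : M3, P * Q = 1 ∧ Q * P = 1 ∧ P *ᵥ u = ![1, 0, 0] ∧ φ ᵥ* Q = ![0, 0, 1] := by
  obtain ⟨w, hw⟩ := exists_dot_one hφ
  obtain ⟨s, hs⟩ := exists_dot_one hu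
  simp only [dotProduct, Fin.sum_univ_three] at h hw hs
  let v : V3 := ![φ 1 * s 2 - φ 2 * s 1, φ 2 * s 0 - φ 0 * s 2, φ 0 * s 1 - φ 1 * s 0]
  let Q : M3 := !![u 0, v 0, w 0; u 1, v 1, w 1; u 2, v 2, w 2]
  have hdet : Q.det = 1 := by
    simp only [Q, v, Matrix.det_fin_three, Matrix.of_apply, Matrix.cons_val]
    linear_combination (u 0 * s 0 + u 1 * s 1 + u 2 * s 2) * hw + hs -
      (s 0 * w 0 + s 1 * w 1 + s 2 * w 2) * h
  have hunit : IsUnit Q.det := by rw [hdet]; exact isUnit_one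
  refine ⟨Q⁻¹, Q, Matrix.nonsing_inv_mul Q hunit, Matrix.mul_nonsing_inv Q hunit, ?_, ?_⟩
  · have h1 : u = Q *ᵥ ![1, 0, 0] := by
      funext i
      fin_cases i <;> simp [Q, Matrix.mulVec, dotProduct, Fin.sum_univ_three]
    conv_lhs => rw [h1]
    rw [Matrix.mulVec_mulVec, Matrix.nonsing_inv_mul Q hunit, Matrix.one_mulVec]
  · funext i
    fin_cases i
    · simp [Q, Matrix.vecMul, dotProduct, Fin.sum_univ_three]
      linear_combination h
    · simp [Q, v, Matrix.vecMul, dotProduct, Fin.sum_univ_three]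
      ring
    · simp [Q, Matrix.vecMul, dotProduct, Fin.sum_univ_three]
      linear_combination hw

private theorem exists_orth (φ : V3) : ∃ u : V3, u ≠ 0 ∧ φ ⬝ᵥ u = 0 := by
  by_cases h : φ 0 = 0
  · refine ⟨![1, 0, 0], fun h0 => ?_, ?_⟩
    · have := congrFun h0 0
      simp at this
    · simp [dotProduct, Fin.sum_univ_three, h]
  · refine ⟨![φ 1, -φ 0, 0], fun h0 => ?_, ?_⟩
    · have := congrFun h0 1
      simp at this
      exact h this
    · simp [dotProduct, Fin.sum_univ_three]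
      ring

/-- coordinates in which a given covector is the third one -/
theorem frame_cov (φ : V3) (h : φ ≠ 0) :
    ∃ P Q : M3, P * Q = 1 ∧ Q * P = 1 ∧ φ ᵥ* Q = ![0, 0, 1] := by
  obtain ⟨u, hu, hφu⟩ := exists_orth φ
  obtain ⟨P, Q, h1, h2, -, h3⟩ := frame_aux u φ hu h hφu
  exact ⟨P, Q, h1, h2, h3⟩

/-- coordinates in which a given vector is the first one -/
theorem frame_vec (u : V3) (h : u ≠ 0) :
    ∃ P Q : M3, P * Q = 1 ∧ Q * P = 1 ∧ P *ᵥ u = ![1, 0, 0] := by
  obtain ⟨φ, hφ, hφu⟩ := exists_orth u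
  obtain ⟨P, Q, h1, h2, h3, -⟩ := frame_aux u φ h hφ (by rw [dotProduct_comm]; exact hφu)
  exact ⟨P, Q, h1, h2, h3⟩

/-- coordinates in which a given vector is the first one and a given covector killing it the
third one -/
theorem frame_vec_cov (u φ : V3) (hu : u ≠ 0) (hφ : φ ≠ 0) (h : φ ⬝ᵥ u = 0) :
    ∃ P Q : M3, P * Q = 1 ∧ Q * P = 1 ∧ P *ᵥ u = ![1, 0, 0] ∧ φ ᵥ* Q = ![0, 0, 1] :=
  frame_aux u φ hu hφ h

section poly
variable {E : Type} [AddCommGroup E] [Module ℂ E]

/-- coefficients of a quadratic polynomial vanishing outside one point -/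
theorem coef2 (P0 P1 P2 : E) (t0 : ℂ)
    (h : ∀ t : ℂ, t ≠ t0 → P0 + t • P1 + t ^ 2 • P2 = 0) : P0 = 0 ∧ P1 = 0 ∧ P2 = 0 := by
  have a1 := h (t0 + 1) (by simp)
  have a2 := h (t0 + 2) (by simp)
  have a3 := h (t0 + 3) (by simp)
  have e3 : (2 : ℂ) • P2 = (P0 + (t0 + 1) • P1 + (t0 + 1) ^ 2 • P2) -
      (2 : ℂ) • (P0 + (t0 + 2) • P1 + (t0 + 2) ^ 2 • P2) +
      (P0 + (t0 + 3) • P1 + (t0 + 3) ^ 2 • P2) := by module
  rw [a1, a2, a3] at e3
  have h2 : P2 = 0 := by
    have : (2 : ℂ) • P2 = 0 := by rw [e3]; simp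
    exact (smul_eq_zero.mp this).resolve_left two_ne_zero
  rw [h2] at a1 a2
  have h1 : P1 = 0 := by
    have e1 : P1 = (P0 + (t0 + 2) • P1 + (t0 + 2) ^ 2 • (0 : E)) -
      (P0 + (t0 + 1) • P1 + (t0 + 1) ^ 2 • (0 : E)) := by module
    rw [e1, a1, a2, sub_zero]
  rw [h1] at a1
  refine ⟨?_, h1, h2⟩
  simpa using a1

/-- coefficients of a cubic polynomial vanishing outside one point -/
theorem coef3 (P0 P1 P2 P3 : E) (t0 : ℂ)
    (h : ∀ t : ℂ, t ≠ t0 → P0 + t • P1 + t ^ 2 • P2 + t ^ 3 • P3 = 0) :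
    P0 = 0 ∧ P1 = 0 ∧ P2 = 0 ∧ P3 = 0 := by
  have a1 := h (t0 + 1) (by simp)
  have a2 := h (t0 + 2) (by simp)
  have a3 := h (t0 + 3) (by simp)
  have a4 := h (t0 + 4) (by simp)
  have e3 : (6 : ℂ) • P3 = (P0 + (t0 + 4) • P1 + (t0 + 4) ^ 2 • P2 + (t0 + 4) ^ 3 • P3) -
      (3 : ℂ) • (P0 + (t0 + 3) • P1 + (t0 + 3) ^ 2 • P2 + (t0 + 3) ^ 3 • P3) +
      (3 : ℂ) • (P0 + (t0 + 2) • P1 + (t0 + 2) ^ 2 • P2 + (t0 + 2) ^ 3 • P3) -
      (P0 + (t0 + 1) • P1 + (t0 + 1) ^ 2 • P2 + (t0 + 1) ^ 3 • P3) := by module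
  rw [a1, a2, a3, a4] at e3
  have h3 : P3 = 0 := by
    have : (6 : ℂ) • P3 = 0 := by rw [e3]; simp
    exact (smul_eq_zero.mp this).resolve_left (by norm_num)
  obtain ⟨b0, b1, b2⟩ := coef2 P0 P1 P2 t0 (by
    intro t ht
    have := h t ht
    rw [h3, smul_zero, add_zero] at this
    exact this)
  exact ⟨b0, b1, b2, h3⟩

/-- functions which are polynomial along lines -/
def LP (f : E → ℂ) : Prop := ∀ x v : E, ∃ p : Polynomial ℂ, ∀ t : ℂ, f (x + t • v) = p.eval t

theorem LP.add {f g : E → ℂ} (hf : LP f) (hg : LP g) : LP (fun x => f x + g x) := by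
  intro x v
  obtain ⟨p, hp⟩ := hf x v
  obtain ⟨q, hq⟩ := hg x v
  exact ⟨p + q, fun t => by simp [hp, hq]⟩

theorem LP.sub {f g : E → ℂ} (hf : LP f) (hg : LP g) : LP (fun x => f x - g x) := by
  intro x v
  obtain ⟨p, hp⟩ := hf x v
  obtain ⟨q, hq⟩ := hg x v
  exact ⟨p - q, fun t => by simp [hp, hq]⟩

theorem LP.mul {f g : E → ℂ} (hf : LP f) (hg : LP g) : LP (fun x => f x * g x) := by
  intro x v
  obtain ⟨p, hp⟩ := hf x v
  obtain ⟨q, hq⟩ := hg x v
  exact ⟨p * q, fun t => by simp [hp, hq]⟩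

theorem LP.const (c : ℂ) : LP (fun _ : E => c) := fun _ _ => ⟨Polynomial.C c, fun t => by simp⟩

theorem LP.lin (f : E →ₗ[ℂ] ℂ) : LP (fun x => f x) := by
  intro x v
  refine ⟨Polynomial.C (f x) + Polynomial.X * Polynomial.C (f v), fun t => ?_⟩
  simp
  ring

/-- no zero divisors among functions polynomial along lines -/
theorem LP.mul_eq_zero {f g : E → ℂ} (hf : LP f) (hg : LP g) (h : ∀ x, f x * g x = 0) :
    (∀ x, f x = 0) ∨ (∀ x, g x = 0) := by
  by_contra hc
  push Not at hc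
  obtain ⟨⟨x, hx⟩, ⟨y, hy⟩⟩ := hc
  obtain ⟨p, hp⟩ := hf x (y - x)
  obtain ⟨q, hq⟩ := hg x (y - x)
  have hpq : p * q = 0 := by
    apply Polynomial.funext
    intro t
    rw [Polynomial.eval_mul, ← hp, ← hq, h, Polynomial.eval_zero]
  rcases _root_.mul_eq_zero.mp hpq with h1 | h1
  · have := hp 0
    rw [h1] at this
    simp at this
    exact hx this
  · have := hq 1
    rw [h1] at this
    simp at this
    exact hy this

end poly

end Pool.Agent.Helper93.K3A
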